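import Pool.Agent.Hhelper54.AC.Defs
import Pool.Agent.Hhelper75.Low4.Jump

/-!
# Bridge between the definitions and the library of relatively c.e. predicates
-/

namespace AC

open Low4 Encodable

theorem chi_eq (A : Set ℕ) : chi A = Low4.chi A := rfl

theorem restr_eq (A : Set ℕ) (n : ℕ) : restr A n = pre A n := rfl

/-- the graph of a partial function recursive in `A` is c.e. in `A` -/
theorem ce_graph_nat {A : Set ℕ} {f : ℕ →. ℕ} (hf : Nat.RecursiveIn {Low4.chi A} f) :
    CE A fun p : ℕ × ℕ => p.2 ∈ f p.1 := by
  obtain ⟨F, hF⟩ := exists_rep hf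
  refine CE.mk' (W := fun σ p => p.2 ∈ F σ p.1) ?_ ?_
  · -- `p.2 ∈ F σ p.1` is c.e.
    have h1 : Partrec fun x : List Bool × (ℕ × ℕ) =>
        (F x.1 x.2.1).bind fun m =>
          (((cond (decide (m = x.2.2)) (some ()) none : Option Unit) : Part Unit)) := by
      refine Partrec.bind (hF.part.comp Computable.fst (Computable.fst.comp Computable.snd)) ?_
      refine Computable.ofOption (Computable.cond ?_ (Computable.const _) (Computable.const _))
      exact ((Primrec.eq (α := ℕ)).decide.to_comp).comp Computable.snd
        (Computable.snd.comp (Computable.snd.comp Computable.fst))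
    refine (Sig1.of_re h1.dom_re).of_eq fun x => ?_
    obtain ⟨σ, n, m⟩ := x
    simp only [Part.bind_dom]
    constructor
    · rintro ⟨h, h2⟩
      by_cases hm : (F σ n).get h = m
      · rw [← hm]; exact Part.get_mem h
      · simp [hm] at h2
    · intro h
      refine ⟨Part.dom_iff_mem.2 ⟨m, h⟩, ?_⟩
      have : (F σ n).get (Part.dom_iff_mem.2 ⟨m, h⟩) = m := Part.get_eq_of_mem h _
      simp [this]
  · rintro ⟨n, m⟩
    exact hF.lim n m

theorem ce_graph {α β : Type} [Primcodable α] [Primcodable β] {A : Set ℕ} {f : α →. β}
    (hf : RecursiveIn {chi A} f) : CE A fun p : α × β => p.2 ∈ f p.1 := by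
  have h := ce_graph_nat (A := A) hf
  refine (h.comp (f := fun p : α × β => (encode p.1, encode p.2))
    (Computable.pair (Computable.encode.comp Computable.fst)
      (Computable.encode.comp Computable.snd))).of_eq ?_
  rintro ⟨a, b⟩
  simp

theorem dec_of_computableIn {A : Set ℕ} {g : ℕ → Bool} (hg : ComputableIn {chi A} g) :
    Dec A fun n => g n = true := by
  have h := ce_graph (A := A) hg
  constructor
  · refine (h.comp (f := fun n : ℕ => (n, true))
      (Computable.pair Computable.id (Computable.const _))).of_eq fun n => ?_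
    cases hn : g n <;> simp [hn]
  · refine (h.comp (f := fun n : ℕ => (n, false))
      (Computable.pair Computable.id (Computable.const _))).of_eq fun n => ?_
    cases hn : g n <;> simp [hn]

theorem red_of_turing {A B : Set ℕ} (h : TuringReducible (chi B) (chi A)) : Red B A := by
  have h1 := ce_graph (A := A) (α := ℕ) (β := ℕ) h
  constructor
  · refine (h1.comp (f := fun n : ℕ => (n, 1))
      (Computable.pair Computable.id (Computable.const _))).of_eq fun n => ?_
    by_cases hn : n ∈ B <;> simp [chi, hn]
  · refine (h1.comp (f := fun n : ℕ => (n, 0))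
      (Computable.pair Computable.id (Computable.const _))).of_eq fun n => ?_
    by_cases hn : n ∈ B <;> simp [chi, hn]

theorem turing_iff_red {A B : Set ℕ} : TuringReducible (chi B) (chi A) ↔ Red B A :=
  ⟨red_of_turing, turingReducible_of_red⟩

open Classical in
/-- the partial function with a given single-valued graph -/
noncomputable def partOf {α : Type} (G : α → ℕ → Prop) : α →. ℕ :=
  fun a => ⟨∃ x, G a x, fun h => h.choose⟩

theorem mem_partOf {α : Type} {G : α → ℕ → Prop} (hG : ∀ a x y, G a x → G a y → x = y)
    {a : α} {x : ℕ} : x ∈ partOf G a ↔ G a x := by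
  constructor
  · rintro ⟨h, rfl⟩
    exact h.choose_spec
  · intro h
    exact ⟨⟨x, h⟩, hG _ _ _ (Exists.choose_spec (⟨x, h⟩ : ∃ x, G a x)) h⟩

/-- a partial function whose graph is c.e. in `A` is recursive in `A` -/
theorem recursiveIn_of_ce {A : Set ℕ} {G : List Bool → ℕ → Prop}
    (hG : CE A fun p : List Bool × ℕ => G p.1 p.2) (hG1 : ∀ a x y, G a x → G a y → x = y) :
    RecursiveIn {chi A} (partOf G) := by
  obtain ⟨R, hR, hR2⟩ := ce_bounded hG
  -- search for `k = pair x k'` with `R (pre A k, (σ, x), k)`: we use the length of the oracle string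
  let T : List Bool × ℕ × ℕ → Option ℕ := fun x =>
    (decode (α := List Bool) x.2.1).bind fun σ =>
      cond (bEx (fun k => R (x.1.take k, (σ, x.2.2.unpair.1), k)) (x.2.2 + 1))
        (some x.2.2.unpair.1) none
  have hT' : Computable fun z : (List Bool × ℕ × ℕ) × List Bool =>
      (cond (bEx (fun k => R (z.1.1.take k, (z.2, z.1.2.2.unpair.1), k)) (z.1.2.2 + 1))
        (some z.1.2.2.unpair.1) none : Option ℕ) := by
    refine Computable.cond ?_ ?_ (Computable.const _)
    · refine computable_bEx (α := (List Bool × ℕ × ℕ) × List Bool)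
        (R := fun y k => R (y.1.1.take k, (y.2, y.1.2.2.unpair.1), k)) (f := fun y => y.1.2.2 + 1)
        ?_ ?_
      · have hh : Computable fun z : ((List Bool × ℕ × ℕ) × List Bool) × ℕ =>
            z.1.1.2.2.unpair.1 := Computable.fst.comp (Computable.unpair.comp (Computable.snd.comp
          (Computable.snd.comp (Computable.fst.comp Computable.fst))))
        exact (hR.comp (Computable.pair (computable_take.comp
          (Computable.fst.comp (Computable.fst.comp Computable.fst)) Computable.snd)
          (Computable.pair (Computable.pair (Computable.snd.comp Computable.fst) hh)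
          Computable.snd))).to₂
      · exact Primrec.succ.to_comp.comp (Computable.snd.comp (Computable.snd.comp Computable.fst))
    · exact Computable.option_some.comp (Computable.fst.comp (Computable.unpair.comp
        (Computable.snd.comp (Computable.snd.comp Computable.fst))))
  have hT : Computable T :=
    Computable.option_bind (Computable.decode.comp (Computable.fst.comp Computable.snd)) hT'.to₂
  have h0 : RecursiveIn {chi A} (fun n : ℕ => Nat.rfindOpt fun k => T (pre A k, n, k)) :=
    RecursiveIn.iff_nat.2 (recIn_search hT)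
  have h1 : Nat.RecursiveIn {chi A} (fun n : ℕ => Nat.rfindOpt fun k => T (pre A k, n, k)) :=
    RecursiveIn.iff_nat.1 h0
  unfold RecursiveIn
  refine h1.of_eq fun n => ?_
  rcases hn : decode (α := List Bool) n with _ | σ
  · simp only [Part.coe_none, Part.bind_none]
    rw [Part.eq_none_iff']
    rw [Nat.rfindOpt_dom]
    rintro ⟨k, a, ha⟩
    simp [T, hn] at ha
  · simp only [Part.coe_some, Part.bind_some]
    have hT2 : ∀ k a, a ∈ T (pre A k, n, k) → G σ a := by
      intro k a ha
      simp only [T, hn, Option.bind_some] at ha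
      cases hb : bEx (fun k' => R ((pre A k).take k', (σ, k.unpair.1), k')) (k + 1) with
      | false => rw [hb] at ha; simp at ha
      | true =>
        rw [hb] at ha
        simp only [cond_true, Option.mem_def, Option.some.injEq] at ha
        subst ha
        obtain ⟨k', hk', hk2⟩ := (bEx_iff _ _).1 hb
        rw [pre_take A _ _ (Nat.lt_succ_iff.1 hk')] at hk2
        exact (hR2 (σ, k.unpair.1)).2 ⟨k', hk2⟩
    apply Part.ext
    intro a
    rw [Part.mem_map_iff]
    constructor
    · intro ha
      obtain ⟨k, hk⟩ := Nat.rfindOpt_spec ha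
      exact ⟨a, (mem_partOf hG1).2 (hT2 k a hk), by simp⟩
    · rintro ⟨x, hx, rfl⟩
      rw [encode_nat]
      rw [mem_partOf hG1] at hx
      have hdom : (Nat.rfindOpt fun k => T (pre A k, n, k)).Dom := by
        rw [Nat.rfindOpt_dom]
        obtain ⟨k', hk'⟩ := (hR2 (σ, x)).1 hx
        refine ⟨Nat.pair x k', x, ?_⟩
        simp only [T, hn, Option.bind_some, Nat.unpair_pair]
        have : bEx (fun k'' => R ((pre A (Nat.pair x k')).take k'', (σ, x), k''))
            (Nat.pair x k' + 1) = true := by
          rw [bEx_iff]
          refine ⟨k', Nat.lt_succ_of_le (Nat.right_le_pair x k'), ?_⟩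
          rw [pre_take A _ _ (Nat.right_le_pair x k')]
          exact hk'
        rw [this]
        rfl
      obtain ⟨a, ha⟩ := Part.dom_iff_mem.1 hdom
      obtain ⟨k, hk⟩ := Nat.rfindOpt_spec ha
      have : a = x := hG1 σ a x (hT2 k a hk) hx
      rw [← this]; exact ha

end AC
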