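import Pool.Agent.Hhelper54.AC.Br

/-!
# Iteration of a relation which is c.e. in an oracle, and small facts about complexity
-/

namespace AC

open Low4 Encodable

/-- `It x0 N b n x`: the number/object `x` is reached from `x0 b` by `n` steps of the relation
`N b`. -/
inductive It {α β : Type} (x0 : β → α) (N : β → ℕ → α → α → Prop) (b : β) : ℕ → α → Prop
  | zero : It x0 N b 0 (x0 b)
  | succ {n : ℕ} {x y : α} : It x0 N b n x → N b n x y → It x0 N b (n + 1) y

namespace Itr

theorem it_iff {α β : Type} (x0 : β → α) (N : β → ℕ → α → α → Prop) (b : β) (n : ℕ) (x : α) :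
    It x0 N b n x ↔ ∃ L : List α, L[0]? = some (x0 b) ∧ L[n]? = some x ∧
      ∀ i < n, ∃ p : α × α, L[i]? = some p.1 ∧ L[i + 1]? = some p.2 ∧ N b i p.1 p.2 := by
  constructor
  · intro h
    have key : ∃ L : List α, L.length = n + 1 ∧ L[0]? = some (x0 b) ∧ L[n]? = some x ∧
      ∀ i < n, ∃ p : α × α, L[i]? = some p.1 ∧ L[i + 1]? = some p.2 ∧ N b i p.1 p.2 := by
      induction h with
      | zero => exact ⟨[x0 b], by simp, by simp, by simp, fun i hi => absurd hi (Nat.not_lt_zero _)⟩
      | @succ n x y _ hN ih =>
        obtain ⟨L, h1, h2, h3, h4⟩ := ih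
        have hap : ∀ i, i < L.length → (L ++ [y])[i]? = L[i]? := fun i hi =>
          List.getElem?_append_left hi
        have hlast : (L ++ [y])[n + 1]? = some y := by
          rw [← h1, List.getElem?_append_right le_rfl]; simp
        refine ⟨L ++ [y], by simp [h1], ?_, hlast, ?_⟩
        · rw [hap 0 (by omega)]; exact h2
        · intro i hi
          rcases Nat.lt_succ_iff_lt_or_eq.1 hi with hi | rfl
          · obtain ⟨p, hp1, hp2, hp3⟩ := h4 i hi
            exact ⟨p, by rw [hap i (by omega)]; exact hp1, by rw [hap (i + 1) (by omega)]; exact hp2,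
              hp3⟩
          · exact ⟨(x, y), by rw [hap i (by omega)]; exact h3, hlast, hN⟩
    obtain ⟨L, -, h⟩ := key
    exact ⟨L, h⟩
  · rintro ⟨L, h1, h2, h3⟩
    have key : ∀ m ≤ n, ∀ y, L[m]? = some y → It x0 N b m y := by
      intro m
      induction m with
      | zero =>
        intro _ y hy
        rw [h1] at hy
        cases hy
        exact It.zero
      | succ m ih =>
        intro hm y hy
        obtain ⟨p, hp1, hp2, hp3⟩ := h3 m (by omega)
        have := ih (by omega) p.1 hp1
        rw [hp2] at hy
        cases hy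
        exact It.succ this hp3
    exact key n le_rfl x h2

end Itr

namespace Itr

theorem ce_get {α γ : Type} [Primcodable α] [Primcodable γ] {A : Set ℕ} {l : γ → List α}
    {i : γ → ℕ} {x : γ → α} (hl : Computable l) (hi : Computable i) (hx : Computable x) :
    CE A fun c => (l c)[i c]? = some (x c) := by
  have : DecidableEq α := Encodable.decidableEqOfEncodable α
  have heq : Computable fun q : Option α × Option α => decide (q.1 = q.2) :=
    (Primrec.eq (α := Option α)).decide.to_comp
  have h1 : Computable fun c : γ => ((l c)[i c]? : Option α) :=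
    Computable.list_getElem?.comp hl hi
  have h2 : Computable fun c : γ => (some (x c) : Option α) := Computable.option_some.comp hx
  have h3 : Computable fun c : γ => decide (((l c)[i c]? : Option α) = some (x c)) :=
    heq.comp (Computable.pair h1 h2)
  exact (CE.of_sig1 (Sig1.of_computable h3)).of_eq fun z => by simp

end Itr

theorem ce_It {α β : Type} [Primcodable α] [Primcodable β] {A : Set ℕ} {x0 : β → α}
    {N : β → ℕ → α → α → Prop} (hx : Computable x0)
    (hN : Low4.CE A fun z : (β × ℕ) × (α × α) => N z.1.1 z.1.2 z.2.1 z.2.2) :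
    Low4.CE A fun z : β × (ℕ × α) => It x0 N z.1 z.2.1 z.2.2 := by
  have h1 : CE A fun z : β × (ℕ × α) => ∃ L : List α, L[0]? = some (x0 z.1) ∧
      L[z.2.1]? = some z.2.2 ∧
      ∀ i < z.2.1, ∃ p : α × α, L[i]? = some p.1 ∧ L[i + 1]? = some p.2 ∧ N z.1 i p.1 p.2 := by
    refine CE.ex (p := fun (z : β × (ℕ × α)) (L : List α) => L[0]? = some (x0 z.1) ∧
      L[z.2.1]? = some z.2.2 ∧
      ∀ i < z.2.1, ∃ p : α × α, L[i]? = some p.1 ∧ L[i + 1]? = some p.2 ∧ N z.1 i p.1 p.2) ?_
    refine CE.and ?_ (CE.and ?_ ?_)
    · exact Itr.ce_get (l := fun z : (β × (ℕ × α)) × List α => z.2) (i := fun _ => 0)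
        (x := fun z => x0 z.1.1) Computable.snd (Computable.const 0)
        (hx.comp (Computable.fst.comp Computable.fst))
    · exact Itr.ce_get (l := fun z : (β × (ℕ × α)) × List α => z.2) (i := fun z => z.1.2.1)
        (x := fun z => z.1.2.2) Computable.snd
        (Computable.fst.comp (Computable.snd.comp Computable.fst))
        (Computable.snd.comp (Computable.snd.comp Computable.fst))
    · refine CE.ball (p := fun (z : (β × (ℕ × α)) × List α) i => ∃ p : α × α,
        z.2[i]? = some p.1 ∧ z.2[i + 1]? = some p.2 ∧ N z.1.1 i p.1 p.2)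
        (f := fun z => z.1.2.1) ?_
        (Computable.fst.comp (Computable.snd.comp Computable.fst))
      refine CE.ex (p := fun (z : ((β × (ℕ × α)) × List α) × ℕ) (p : α × α) =>
        z.1.2[z.2]? = some p.1 ∧ z.1.2[z.2 + 1]? = some p.2 ∧ N z.1.1.1 z.2 p.1 p.2) ?_
      have e1 : Computable fun z : (((β × (ℕ × α)) × List α) × ℕ) × (α × α) => z.1.1.2 :=
        Computable.snd.comp (Computable.fst.comp Computable.fst)
      have e2 : Computable fun z : (((β × (ℕ × α)) × List α) × ℕ) × (α × α) => z.1.2 :=
        Computable.snd.comp Computable.fst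
      have e3 : Computable fun z : (((β × (ℕ × α)) × List α) × ℕ) × (α × α) => z.1.2 + 1 :=
        Computable.succ.comp e2
      have e4 : Computable fun z : (((β × (ℕ × α)) × List α) × ℕ) × (α × α) => z.2.1 :=
        Computable.fst.comp Computable.snd
      have e5 : Computable fun z : (((β × (ℕ × α)) × List α) × ℕ) × (α × α) => z.2.2 :=
        Computable.snd.comp Computable.snd
      have e6 : Computable fun z : (((β × (ℕ × α)) × List α) × ℕ) × (α × α) => z.1.1.1.1 :=
        Computable.fst.comp (Computable.fst.comp (Computable.fst.comp Computable.fst))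
      have e7 : Computable fun z : (((β × (ℕ × α)) × List α) × ℕ) × (α × α) =>
          (((z.1.1.1.1, z.1.2), z.2) : (β × ℕ) × (α × α)) :=
        Computable.pair (Computable.pair e6 e2) Computable.snd
      refine CE.and ?_ (CE.and ?_ ?_)
      · exact Itr.ce_get e1 e2 e4
      · exact Itr.ce_get e1 e3 e5
      · exact hN.comp e7
  exact h1.of_eq fun z => (Itr.it_iff x0 N z.1 z.2.1 z.2.2).symm

namespace Itr

/-- the graph of the unary machine -/
def Gu (σ : List Bool) (x : ℕ) : Prop := σ = List.replicate x false ++ [true]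

theorem Gu_unique (σ : List Bool) (x y : ℕ) (hx : Gu σ x) (hy : Gu σ y) : x = y := by
  have := congrArg List.length (hx.symm.trans hy)
  simpa using this

theorem gu_len {σ : List Bool} {x : ℕ} (h : Gu σ x) : σ.length = x + 1 := by
  have := congrArg List.length h
  simpa using this

theorem gu_get {σ : List Bool} {x i : ℕ} (h : Gu σ x) (hi : i < x + 1) :
    σ[i]? = some (decide (i = x)) := by
  rw [h]
  rcases Nat.lt_succ_iff_lt_or_eq.1 hi with hi | rfl
  · rw [List.getElem?_append_left (by simpa using hi)]
    rw [List.getElem?_replicate, if_pos hi]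
    simp [hi.ne]
  · rw [List.getElem?_append_right (by simp)]
    simp

theorem computable_unary : Computable fun x : ℕ => List.replicate x false ++ [true] := by
  have h1 : Computable fun x : ℕ => (Nat.rec [true] (fun _ (l : List Bool) => false :: l) x :
      List Bool) := by
    refine Computable.nat_rec (f := fun x : ℕ => x) (g := fun _ => [true])
      (h := fun (_ : ℕ) (q : ℕ × List Bool) => false :: q.2) Computable.id (Computable.const _) ?_
    exact (Computable.list_cons.comp (Computable.const false)
      (Computable.snd.comp Computable.snd)).to₂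
  refine h1.of_eq fun x => ?_
  induction x with
  | zero => rfl
  | succ x ih =>
    simp only [List.replicate_succ, List.cons_append]
    rw [← ih]

theorem ce_Gu (A : Set ℕ) : CE A fun p : List Bool × ℕ => Gu p.1 p.2 := by
  refine (CE.of_sig1 (Sig1.of_computable (f := fun p : List Bool × ℕ =>
    decide (p.1 = List.replicate p.2 false ++ [true])) ?_)).of_eq fun z => by simp [Gu]
  have heq : Computable fun q : List Bool × List Bool => decide (q.1 = q.2) :=
    (Primrec.eq (α := List Bool)).decide.to_comp
  exact heq.comp (Computable.pair Computable.fst (computable_unary.comp Computable.snd))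

theorem isMachine_Gu (B : Set ℕ) : IsMachine B (partOf Gu) := by
  refine ⟨recursiveIn_of_ce (ce_Gu B) Gu_unique, ?_⟩
  intro σ τ hσ hτ hpre
  obtain ⟨x, hx⟩ := Part.dom_iff_mem.1 hσ
  obtain ⟨y, hy⟩ := Part.dom_iff_mem.1 hτ
  rw [mem_partOf Gu_unique] at hx hy
  have hlen := hpre.length_le
  rw [gu_len hx, gu_len hy] at hlen
  have h1 : σ[x]? = some true := by rw [gu_get hx (by omega)]; simp
  have h2 : τ[x]? = some (decide (x = y)) := gu_get hy (by omega)
  obtain ⟨ρ, rfl⟩ := hpre
  rw [List.getElem?_append_left (by rw [gu_len hx]; omega), h1] at h2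
  have h3 : x = y := by simpa using h2
  subst h3
  exact hx.trans hy.symm

end Itr

theorem exists_prog {B : Set ℕ} {U : List Bool →. ℕ} (hU : IsOptimal B U) (x : ℕ) :
    ∃ σ, x ∈ U σ := by
  obtain ⟨c, hc⟩ := hU.simulates _ (Itr.isMachine_Gu B)
  obtain ⟨τ, hτ, -⟩ := hc (List.replicate x false ++ [true]) x
    ((mem_partOf Itr.Gu_unique).2 rfl)
  exact ⟨τ, hτ⟩

theorem KC_le {U : List Bool →. ℕ} {σ : List Bool} {x : ℕ} (h : x ∈ U σ) :
    KC U x ≤ σ.length := Nat.sInf_le ⟨σ, h, rfl⟩

theorem exists_KC {B : Set ℕ} {U : List Bool →. ℕ} (hU : IsOptimal B U) (x : ℕ) :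
    ∃ σ, x ∈ U σ ∧ σ.length = KC U x := by
  obtain ⟨σ, hσ⟩ := exists_prog hU x
  exact Nat.sInf_mem (s := {l | ∃ σ, x ∈ U σ ∧ σ.length = l}) ⟨σ.length, σ, hσ, rfl⟩

theorem dec_of_pre' {α : Type} [Primcodable α] {A : Set ℕ} {Q : List Bool × α → Bool}
    (hQ : Computable Q) {f : α → ℕ} (hf : Computable f) :
    Low4.Dec A fun a => Q (Low4.pre A (f a), a) = true := by
  have h1 : ∀ (Q : List Bool × α → Bool), Computable Q →
      CE A fun a => Q (pre A (f a), a) = true := by
    intro Q hQ
    refine CE.mk' (W := fun σ a => decide (f a ≤ σ.length) = true ∧ Q (σ.take (f a), a) = true)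
      ?_ ?_
    · refine Sig1.and (Sig1.of_computable ?_) (Sig1.of_computable ?_)
      · exact (Primrec.nat_le.decide.to_comp).comp (hf.comp Computable.snd)
          (Computable.list_length.comp Computable.fst)
      · exact hQ.comp (Computable.pair (computable_take.comp Computable.fst
          (hf.comp Computable.snd)) Computable.snd)
    · intro a
      simp only [decide_eq_true_eq, pre_length]
      constructor
      · intro h
        exact ⟨f a, le_rfl, by rw [pre_take A _ _ le_rfl]; exact h⟩
      · rintro ⟨s, hs, h⟩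
        rw [pre_take A _ _ hs] at h
        exact h
  refine ⟨h1 Q hQ, (h1 (fun x => !(Q x)) (Primrec.not.to_comp.comp hQ)).of_eq fun a => ?_⟩
  simp

end AC
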