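import Pool.Agent.Hhelper54.AC.Jt

/-!
# C.e. operators, and the parameter theorem for the universal functional
-/

namespace AC

open Low4 Encodable Denumerable
open Nat.Partrec (Code)

/-- `V` is a c.e. operator: `V σ n` says that `n` is enumerated with oracle string `σ` -/
structure IsOp (V : List Bool → ℕ → Prop) : Prop where
  /-- computably enumerable -/
  sig : Sig1 fun x : List Bool × ℕ => V x.1 x.2
  /-- monotone in the oracle string -/
  mono : ∀ σ τ n, σ <+: τ → V σ n → V τ n

/-- the set enumerated by the operator `V` with oracle `B` -/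
def Op (V : List Bool → ℕ → Prop) (B : Set ℕ) : Set ℕ := {n | ∃ s, V (pre B s) n}

theorem mem_Op {V : List Bool → ℕ → Prop} {B : Set ℕ} {n : ℕ} :
    n ∈ Op V B ↔ ∃ s, V (pre B s) n := Iff.rfl

/-- the set `V^B` is c.e. in `B` -/
theorem IsOp.ce {V : List Bool → ℕ → Prop} (hV : IsOp V) (B : Set ℕ) :
    CE B fun n => n ∈ Op V B := ⟨V, hV.sig, fun σ τ n h => hV.mono σ τ n h, fun _ => Iff.rfl⟩

theorem Jt_isSome_mono {σ τ : List Bool} (h : σ <+: τ) {n : ℕ} (hn : (Jt σ n).isSome = true) :
    (Jt τ n).isSome = true := by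
  obtain ⟨v, hv⟩ := Option.isSome_iff_exists.1 hn
  exact Option.isSome_iff_exists.2 ⟨v, Jt_mono h hv⟩

/-- parameter theorem: a c.e. functional `W` with parameter `y` is given by the universal
functional at `curry c y` -/
theorem smn (W : List Bool → ℕ → Prop) (hW : Sig1 fun x : List Bool × ℕ => W x.1 x.2) :
    ∃ c : Code, ∀ (Z : Set ℕ) (y : ℕ),
      (∃ s, W (pre Z s) y) ↔ ∃ s, (Jt (pre Z s) (encode (Code.curry c y))).isSome = true := by
  obtain ⟨R, hR, hRW⟩ := hW
  let f : ℕ →. ℕ := fun a =>
    (Nat.rfind fun k => Part.some (R ((decode (α := List Bool) a.unpair.2).getD [],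
      a.unpair.1) k)).map fun _ => 0
  have hf : Partrec f := by
    refine Partrec.map (Partrec.rfind (p := fun (a : ℕ) (k : ℕ) => (Part.some
      (R ((decode (α := List Bool) a.unpair.2).getD [], a.unpair.1) k) : Part Bool)) ?_)
      (Computable.const 0).to₂
    have h1 : Computable fun z : ℕ × ℕ =>
        R ((decode (α := List Bool) z.1.unpair.2).getD [], z.1.unpair.1) z.2 := by
      refine hR.comp (Computable.pair ?_ ?_) Computable.snd
      · exact Computable.option_getD (Computable.decode.comp (Computable.snd.comp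
          (Computable.unpair.comp Computable.fst))) (Computable.const [])
      · exact Computable.fst.comp (Computable.unpair.comp Computable.fst)
    exact h1.partrec
  obtain ⟨c, hc⟩ := Code.exists_code.1 (Partrec.nat_iff.1 hf)
  refine ⟨c, fun Z y => ?_⟩
  have hdom : ∀ s, (Code.eval (ofNat Code (encode (Code.curry c y))) (encode (pre Z s))).Dom ↔
      W (pre Z s) y := by
    intro s
    rw [ofNat_encode, Code.eval_curry, hc]
    simp only [f, Nat.unpair_pair, Encodable.encodek, Option.getD_some, Part.map_Dom]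
    refine Iff.trans ?_ (hRW (pre Z s, y)).symm
    refine Nat.rfind_dom.trans ?_
    constructor
    · rintro ⟨k, hk, -⟩
      exact ⟨k, (Part.mem_some_iff.1 hk).symm⟩
    · rintro ⟨k, hk⟩
      exact ⟨k, Part.mem_some_iff.2 hk.symm, fun _ => trivial⟩
  constructor
  · intro h
    have h0 : ∀ s v', v' ∈ Code.eval (ofNat Code (encode (Code.curry c y))) (encode (pre Z s)) →
        v' = 0 := by
      intro s v' hv'
      rw [ofNat_encode, Code.eval_curry, hc] at hv'
      simp only [f, Part.mem_map_iff] at hv'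
      obtain ⟨_, -, h⟩ := hv'
      exact h.symm
    obtain ⟨s, hs⟩ := h
    have h1 : 0 ∈ Code.eval (ofNat Code (encode (Code.curry c y))) (encode (pre Z s)) := by
      obtain ⟨v, hv⟩ := Part.dom_iff_mem.1 ((hdom s).2 hs)
      rw [h0 s v hv] at hv
      exact hv
    obtain ⟨s', hs'⟩ := Jt_complete h0 ⟨s, h1⟩
    exact ⟨s', Option.isSome_iff_exists.2 ⟨_, hs'⟩⟩
  · rintro ⟨s, hs⟩
    obtain ⟨v, hv⟩ := Option.isSome_iff_exists.1 hs
    obtain ⟨k, hk, h1, -⟩ := Jt_eq_some.1 hv
    unfold Jq at h1
    have h2 := Code.evaln_sound h1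
    rw [pre_length] at hk
    rw [pre_take Z _ _ (le_trans (Nat.unpair_right_le k) (Nat.lt_succ_iff.1 hk))] at h2
    exact ⟨_, (hdom _).1 (Part.dom_iff_mem.2 ⟨_, h2⟩)⟩

/-- universal enumeration of the c.e. sets relative to an oracle -/
def En (e : ℕ) (σ : List Bool) (x : ℕ) : Bool :=
  (Jt σ (encode (Code.curry (ofNat Code e) x))).isSome

theorem En_mono {e : ℕ} {σ τ : List Bool} {x : ℕ} (h : σ <+: τ) (hx : En e σ x = true) :
    En e τ x = true := Jt_isSome_mono h hx

theorem primrec_En : Primrec fun z : ℕ × List Bool × ℕ => En z.1 z.2.1 z.2.2 := by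
  unfold En
  refine Primrec.option_isSome.comp (primrec_Jt.comp (Primrec.fst.comp Primrec.snd) ?_)
  exact Primrec.encode.comp (Code.primrec₂_curry.comp ((Primrec.ofNat Code).comp Primrec.fst)
    (Primrec.snd.comp Primrec.snd))

theorem En_universal {B : Set ℕ} {p : ℕ → Prop} (hp : CE B p) :
    ∃ e, ∀ x, p x ↔ ∃ s, En e (pre B s) x = true := by
  obtain ⟨W, hW, -, h⟩ := hp
  obtain ⟨c, hc⟩ := smn W hW
  refine ⟨encode c, fun x => ?_⟩
  unfold En
  rw [ofNat_encode, h x]
  exact hc B x

end AC
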