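import Pool.Agent.Hhelper54.AC.Br

/-!
# Stage approximation of the halting set
-/

namespace AC

open Low4 Encodable Denumerable
open Nat.Partrec (Code)

/-- `i` is in the stage `t` approximation of the halting set -/
def KS (t i : ℕ) : Bool := (Code.evaln t (ofNat Code i) i).isSome

/-- the stage `t` approximation of the initial segment of length `s` of the halting set -/
def preK (t s : ℕ) : List Bool := (List.range s).map (KS t)

theorem KS_mono {t t' i : ℕ} (h : t ≤ t') (hi : KS t i = true) : KS t' i = true := by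
  unfold KS at *
  obtain ⟨x, hx⟩ := Option.isSome_iff_exists.1 hi
  rw [Option.isSome_iff_exists]
  exact ⟨x, Code.evaln_mono h hx⟩

theorem mem_halting {i : ℕ} : i ∈ halting ↔ ∃ t, KS t i = true := by
  unfold KS
  have h0 : i ∈ halting ↔ (Code.eval (ofNat Code i) i).Dom := Iff.rfl
  rw [h0, Part.dom_iff_mem]
  constructor
  · rintro ⟨x, hx⟩
    obtain ⟨t, ht⟩ := Code.evaln_complete.1 hx
    exact ⟨t, Option.isSome_iff_exists.2 ⟨x, ht⟩⟩
  · rintro ⟨t, ht⟩
    obtain ⟨x, hx⟩ := Option.isSome_iff_exists.1 ht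
    exact ⟨x, Code.evaln_complete.2 ⟨t, hx⟩⟩

theorem preK_length (t s : ℕ) : (preK t s).length = s := by simp [preK]

theorem preK_eq_iff {t t' s : ℕ} : preK t s = preK t' s ↔ ∀ i < s, KS t i = KS t' i := by
  unfold preK
  rw [List.map_inj_left]
  simp

theorem preK_eq_pre {t s : ℕ} : preK t s = pre halting s ↔ ∀ i < s, (KS t i = true ↔ i ∈ halting) := by
  unfold preK pre
  rw [List.map_inj_left]
  simp only [List.mem_range]
  constructor
  · intro h i hi
    rw [h i hi]
    simp
  · intro h i hi
    rw [Bool.eq_iff_iff, h i hi]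
    simp

theorem preK_of_le {t t' s s' : ℕ} (hs : s ≤ s') (h : preK t s' = preK t' s') :
    preK t s = preK t' s := by
  rw [preK_eq_iff] at *
  exact fun i hi => h i (lt_of_lt_of_le hi hs)

theorem preK_ne_mono {t t' t'' s : ℕ} (h1 : t ≤ t') (h2 : t' ≤ t'') (h : preK t s ≠ preK t' s) :
    preK t s ≠ preK t'' s := by
  intro h3
  apply h
  rw [preK_eq_iff] at *
  intro i hi
  rw [Bool.eq_iff_iff]
  constructor
  · exact KS_mono h1
  · intro h4
    rw [h3 i hi]
    exact KS_mono h2 h4

theorem preK_eventually (s : ℕ) : ∃ T, ∀ t ≥ T, preK t s = pre halting s := by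
  have h : ∀ i, ∃ T, i ∈ halting → KS T i = true := by
    intro i
    by_cases hi : i ∈ halting
    · obtain ⟨T, hT⟩ := mem_halting.1 hi
      exact ⟨T, fun _ => hT⟩
    · exact ⟨0, fun h => absurd h hi⟩
  choose T hT using h
  refine ⟨(Finset.range s).sup T, fun t ht => ?_⟩
  rw [preK_eq_pre]
  intro i hi
  constructor
  · intro h; exact mem_halting.2 ⟨t, h⟩
  · intro h
    refine KS_mono (le_trans (Finset.le_sup (f := T) (Finset.mem_range.2 hi)) ht) (hT i h)

theorem primrec_KS : Primrec fun x : ℕ × ℕ => KS x.1 x.2 := by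
  unfold KS
  refine Primrec.option_isSome.comp (Code.primrec_evaln.comp (Primrec.pair (Primrec.pair
    Primrec.fst ?_) Primrec.snd))
  exact (Primrec.ofNat Code).comp Primrec.snd

theorem primrec_preK : Primrec fun x : ℕ × ℕ => preK x.1 x.2 := by
  unfold preK
  have h : Primrec fun z : (ℕ × ℕ) × ℕ => KS z.1.1 z.2 :=
    primrec_KS.comp (Primrec.pair (Primrec.fst.comp Primrec.fst) Primrec.snd)
  exact Primrec.list_map (f := fun x : ℕ × ℕ => List.range x.2) (g := fun x i => KS x.1 i)
    (Primrec.list_range.comp Primrec.snd) h.to₂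

/-- primitive recursive normal form -/
theorem primrec_nf {α : Type} [Primcodable α] {p : α → Prop} (hp : Sig1 p) :
    ∃ R : α → ℕ → Bool, Primrec₂ R ∧ ∀ a, p a ↔ ∃ k, R a k = true := by
  obtain ⟨c, hc⟩ := Code.exists_code.1 hp.re
  refine ⟨fun a k => (Code.evaln k c (Encodable.encode a)).isSome, ?_, ?_⟩
  · have h1 : Primrec fun x : α × ℕ => Code.evaln x.2 c (Encodable.encode x.1) :=
      Code.primrec_evaln.comp
        (Primrec.pair (Primrec.pair Primrec.snd (Primrec.const c))
          (Primrec.encode.comp Primrec.fst))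
    exact (Primrec.option_isSome.comp h1).to₂
  · intro a
    have h2 := congrFun hc (Encodable.encode a)
    simp only [Encodable.encodek, Part.coe_some, Part.bind_some] at h2
    constructor
    · intro hp
      have : (Code.eval c (Encodable.encode a)).Dom := by
        rw [h2]; exact ⟨hp, trivial⟩
      obtain ⟨x, hx⟩ := Part.dom_iff_mem.1 this
      obtain ⟨k, hk⟩ := Code.evaln_complete.1 hx
      exact ⟨k, by rw [Option.mem_def] at hk; dsimp only; rw [hk]; rfl⟩
    · rintro ⟨k, hk⟩
      obtain ⟨x, hx⟩ := Option.isSome_iff_exists.1 hk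
      have : x ∈ Code.eval c (Encodable.encode a) := Code.evaln_complete.2 ⟨k, hx⟩
      rw [h2] at this
      exact this.fst.1

end AC
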