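import Pool.Agent.Hhelper54.AC.Cpt
import Pool.Agent.Hhelper54.AC.Op
import Pool.Agent.Hhelper54.AC.Iter
import Pool.Agent.Hhelper54.AC.PreK

/-!
# Classes of diagonally noncomputable sets relative to `Z`
-/

namespace AC

open Low4 Encodable Denumerable
open Nat.Partrec (Code)

/-- index of a class -/
abbrev Idx : Type := List ℕ × List (ℕ × Bool)

/-- the class with index `I` -/
def Cl (V : List Bool → ℕ → Prop) (Z : Set ℕ) (I : Idx) : Set (Set ℕ) :=
  {X | (∀ n s v, Jt (pre Z s) n = some v → (v = 0 → n ∈ X) ∧ (v = 1 → n ∉ X)) ∧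
    (∀ e ∈ I.1, e ∉ Op V (join X Z)) ∧ ∀ p ∈ I.2, (p.2 = true ↔ p.1 ∈ X)}

namespace ClZ

/-- the three ways in which a string can be seen to leave the class -/
def D1 (Z : Set ℕ) (τ : List Bool) : Prop :=
  ∃ x : ℕ × ℕ, (∃ s, Jt (pre Z s) x.1 = some x.2) ∧
    ((x.2 = 0 ∧ τ[x.1]? = some false) ∨ (x.2 = 1 ∧ τ[x.1]? = some true))

def D2 (V : List Bool → ℕ → Prop) (Z : Set ℕ) (I : Idx) (τ : List Bool) : Prop :=
  ∃ k : ℕ, ∃ e : ℕ, I.1[k]? = some e ∧ V (jn τ (pre Z τ.length) (2 * τ.length)) e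

def D3 (I : Idx) (τ : List Bool) : Prop :=
  ∃ k : ℕ, ∃ p : ℕ × Bool, I.2[k]? = some p ∧ τ[p.1]? = some (!p.2)

/-- dead strings -/
def D (V : List Bool → ℕ → Prop) (Z : Set ℕ) (I : Idx) (τ : List Bool) : Prop :=
  D1 Z τ ∨ D2 V Z I τ ∨ D3 I τ

theorem getElem?_prefix {σ τ : List Bool} (h : σ <+: τ) {i : ℕ} {b : Bool}
    (hi : σ[i]? = some b) : τ[i]? = some b := by
  obtain ⟨ρ, rfl⟩ := h
  rw [List.getElem?_append_left]
  · exact hi
  · by_contra hlt
    rw [List.getElem?_eq_none_iff.2 (not_lt.1 hlt)] at hi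
    simp at hi

/-- every string is an initial segment of a set -/
theorem exists_pre (τ : List Bool) : ∃ X : Set ℕ, pre X τ.length = τ := by
  classical
  refine ⟨{n | τ[n]? = some true}, ?_⟩
  apply List.ext_getElem?
  intro i
  by_cases hi : i < τ.length
  · rw [pre_getElem? _ _ _ hi, List.getElem?_eq_getElem hi]
    cases hb : τ[i] <;> simp [hb, List.getElem?_eq_getElem hi]
  · rw [pre_getElem?_none _ _ _ (not_lt.1 hi), List.getElem?_eq_none_iff.2 (not_lt.1 hi)]

theorem jn_mono (Z : Set ℕ) {σ τ : List Bool} (h : σ <+: τ) :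
    jn σ (pre Z σ.length) (2 * σ.length) <+: jn τ (pre Z τ.length) (2 * τ.length) := by
  obtain ⟨X, hX⟩ := exists_pre τ
  have hσ : pre X σ.length = σ := by
    have h1 : σ <+: pre X τ.length := by rw [hX]; exact h
    exact (eq_pre_of_le h1).symm
  have h1 := jn_pre X Z (s := σ.length) (r := σ.length) le_rfl le_rfl
  have h2 := jn_pre X Z (s := τ.length) (r := τ.length) le_rfl le_rfl
  rw [hσ] at h1
  rw [hX] at h2
  rw [h1, h2]
  exact pre_le _ (Nat.mul_le_mul le_rfl h.length_le)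

theorem D_mono {V : List Bool → ℕ → Prop} (hV : IsOp V) (Z : Set ℕ) (I : Idx) (σ τ : List Bool)
    (h : σ <+: τ) (hD : D V Z I σ) : D V Z I τ := by
  rcases hD with ⟨x, hx, hx2⟩ | ⟨k, e, hk, he⟩ | ⟨k, p, hk, hp⟩
  · exact Or.inl ⟨x, hx, hx2.imp (fun h1 => ⟨h1.1, getElem?_prefix h h1.2⟩)
      (fun h1 => ⟨h1.1, getElem?_prefix h h1.2⟩)⟩
  · exact Or.inr (Or.inl ⟨k, e, hk, hV.mono _ _ _ (jn_mono Z h) he⟩)
  · exact Or.inr (Or.inr ⟨k, p, hk, getElem?_prefix h hp⟩)

theorem pre_get_false {X : Set ℕ} {s n : ℕ} (h : (pre X s)[n]? = some false) : n ∉ X := by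
  by_cases hn : n < s
  · rw [pre_getElem? _ _ _ hn] at h
    simpa using h
  · rw [pre_getElem?_none _ _ _ (not_lt.1 hn)] at h
    simp at h

theorem pre_get_true {X : Set ℕ} {s n : ℕ} (h : (pre X s)[n]? = some true) : n ∈ X := by
  by_cases hn : n < s
  · rw [pre_getElem? _ _ _ hn] at h
    simpa using h
  · rw [pre_getElem?_none _ _ _ (not_lt.1 hn)] at h
    simp at h

theorem pre_get_not {X : Set ℕ} {n : ℕ} (h : n ∉ X) : (pre X (n + 1))[n]? = some false := by
  rw [pre_getElem? _ _ _ (Nat.lt_succ_self n)]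
  simp [h]

theorem pre_get_mem {X : Set ℕ} {n : ℕ} (h : n ∈ X) : (pre X (n + 1))[n]? = some true := by
  rw [pre_getElem? _ _ _ (Nat.lt_succ_self n)]
  simp [h]

theorem mem_Cl_iff {V : List Bool → ℕ → Prop} (hV : IsOp V) (Z : Set ℕ) (I : Idx) (X : Set ℕ) :
    X ∈ Cl V Z I ↔ ∀ s, ¬ D V Z I (pre X s) := by
  constructor
  · rintro ⟨h1, h2, h3⟩ s (⟨x, ⟨t, ht⟩, hx⟩ | ⟨k, e, hk, he⟩ | ⟨k, p, hk, hp⟩)
    · rcases hx with ⟨h4, h5⟩ | ⟨h4, h5⟩
      · exact pre_get_false h5 ((h1 _ _ _ ht).1 h4)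
      · exact (h1 _ _ _ ht).2 h4 (pre_get_true h5)
    · have hm : e ∈ I.1 := List.mem_of_getElem? hk
      refine h2 e hm ?_
      rw [pre_length, jn_pre X Z le_rfl le_rfl] at he
      exact ⟨_, he⟩
    · have hm : p ∈ I.2 := List.mem_of_getElem? hk
      have := h3 p hm
      cases hb : p.2 with
      | false =>
        rw [hb] at hp this
        have h4 := pre_get_true hp
        exact Bool.noConfusion (this.2 h4)
      | true =>
        rw [hb] at hp this
        exact pre_get_false hp (this.1 rfl)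
  · intro h
    refine ⟨fun n s v hv => ⟨fun h0 => ?_, fun h0 hn => ?_⟩, fun e he => ?_, fun p hp => ?_⟩
    · by_contra hn
      exact h (n + 1) (Or.inl ⟨(n, v), ⟨s, hv⟩, Or.inl ⟨h0, pre_get_not hn⟩⟩)
    · exact h (n + 1) (Or.inl ⟨(n, v), ⟨s, hv⟩, Or.inr ⟨h0, pre_get_mem hn⟩⟩)
    · rintro ⟨s, hs⟩
      obtain ⟨k, hk⟩ := List.mem_iff_getElem?.1 he
      refine h s (Or.inr (Or.inl ⟨k, e, hk, ?_⟩))
      rw [pre_length, jn_pre X Z le_rfl le_rfl]
      exact hV.mono _ _ _ (pre_le _ (by omega)) hs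
    · obtain ⟨k, hk⟩ := List.mem_iff_getElem?.1 hp
      constructor
      · intro h1
        by_contra hn
        refine h (p.1 + 1) (Or.inr (Or.inr ⟨k, p, hk, ?_⟩))
        rw [h1]
        exact pre_get_not hn
      · intro h1
        by_contra hn
        refine h (p.1 + 1) (Or.inr (Or.inr ⟨k, p, hk, ?_⟩))
        rw [Bool.not_eq_true] at hn
        rw [hn]
        exact pre_get_mem h1

/-- decidable predicates, in the form used below -/
theorem ce_of_primrec {α : Type} [Primcodable α] {A : Set ℕ} {f : α → Bool} (hf : Primrec f)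
    {p : α → Prop} (h : ∀ a, p a ↔ f a = true) : CE A p :=
  (Dec.of_computable (A := A) hf.to_comp).1.of_eq fun a => (h a).symm

theorem ce_D1 (Z : Set ℕ) : CE Z fun z : Idx × List Bool => D1 Z z.2 := by
  unfold D1
  refine CE.ex (p := fun (z : Idx × List Bool) (x : ℕ × ℕ) => (∃ s, Jt (pre Z s) x.1 = some x.2) ∧
    ((x.2 = 0 ∧ z.2[x.1]? = some false) ∨ (x.2 = 1 ∧ z.2[x.1]? = some true))) ?_
  have h1 : CE Z fun x : ℕ × ℕ => ∃ s, Jt (pre Z s) x.1 = some x.2 := by
    refine CE.mk' (W := fun σ (x : ℕ × ℕ) => Jt σ x.1 = some x.2) ?_ (fun x => Iff.rfl)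
    have h2 : Primrec fun y : List Bool × (ℕ × ℕ) => decide (Jt y.1 y.2.1 = some y.2.2) :=
      (Primrec.eq (α := Option ℕ)).decide.comp
        (primrec_Jt.comp Primrec.fst (Primrec.fst.comp Primrec.snd))
        (Primrec.option_some.comp (Primrec.snd.comp Primrec.snd))
    exact (Sig1.of_computable h2.to_comp).of_eq fun y => by simp
  refine (h1.comp (f := fun y : (Idx × List Bool) × (ℕ × ℕ) => y.2) Computable.snd).and ?_
  have h3 : Primrec fun y : (Idx × List Bool) × (ℕ × ℕ) => (y.1.2)[y.2.1]? :=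
    Primrec.list_getElem?.comp (Primrec.snd.comp Primrec.fst) (Primrec.fst.comp Primrec.snd)
  refine CE.or (CE.and ?_ ?_) (CE.and ?_ ?_)
  · refine ce_of_primrec (f := fun y : (Idx × List Bool) × (ℕ × ℕ) => decide (y.2.2 = 0)) ?_
      (fun y => by simp)
    exact (Primrec.eq (α := ℕ)).decide.comp (Primrec.snd.comp Primrec.snd) (Primrec.const 0)
  · refine ce_of_primrec (f := fun y : (Idx × List Bool) × (ℕ × ℕ) =>
      decide ((y.1.2)[y.2.1]? = some false)) ?_ (fun y => by simp)
    exact (Primrec.eq (α := Option Bool)).decide.comp h3 (Primrec.const _)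
  · refine ce_of_primrec (f := fun y : (Idx × List Bool) × (ℕ × ℕ) => decide (y.2.2 = 1)) ?_
      (fun y => by simp)
    exact (Primrec.eq (α := ℕ)).decide.comp (Primrec.snd.comp Primrec.snd) (Primrec.const 1)
  · refine ce_of_primrec (f := fun y : (Idx × List Bool) × (ℕ × ℕ) =>
      decide ((y.1.2)[y.2.1]? = some true)) ?_ (fun y => by simp)
    exact (Primrec.eq (α := Option Bool)).decide.comp h3 (Primrec.const _)

/-- the oracle string used for the operator -/
def jz (σ ρ : List Bool) : List Bool := jn ρ (σ.take ρ.length) (2 * ρ.length)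

theorem computable_jz : Computable₂ jz := by
  have hl : Computable fun y : List Bool × List Bool => y.2.length :=
    Computable.list_length.comp Computable.snd
  have h1 : Computable fun y : List Bool × List Bool => y.1.take y.2.length :=
    computable_take.comp Computable.fst hl
  have h2 : Computable fun y : List Bool × List Bool => 2 * y.2.length :=
    Primrec.nat_double.to_comp.comp hl
  have h3 : Computable fun y : List Bool × List Bool => ((y.2, y.1.take y.2.length), 2 * y.2.length) :=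
    (Computable.snd.pair h1).pair h2
  have h4 := primrec_jn.to_comp.comp h3
  exact h4

theorem sig_jz {V : List Bool → ℕ → Prop} (hV : IsOp V) :
    Sig1 fun y : List Bool × (List Bool × ℕ) => y.2.1.length ≤ y.1.length ∧
      V (jz y.1 y.2.1) y.2.2 := by
  have h2 : Primrec fun y : List Bool × (List Bool × ℕ) =>
      decide (y.2.1.length ≤ y.1.length) :=
    Primrec.nat_le.decide.comp (Primrec.list_length.comp (Primrec.fst.comp Primrec.snd))
      (Primrec.list_length.comp Primrec.fst)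
  have h3 : Sig1 fun y : List Bool × (List Bool × ℕ) => y.2.1.length ≤ y.1.length :=
    (Sig1.of_computable h2.to_comp).of_eq fun y => by simp
  have h4 : Computable fun y : List Bool × (List Bool × ℕ) => (jz y.1 y.2.1, y.2.2) :=
    (computable_jz.comp Computable.fst (Computable.fst.comp Computable.snd)).pair
      (Computable.snd.comp Computable.snd)
  exact h3.and (hV.sig.comp h4)

theorem ce_jz {V : List Bool → ℕ → Prop} (hV : IsOp V) (Z : Set ℕ) :
    CE Z fun x : List Bool × ℕ => V (jn x.1 (pre Z x.1.length) (2 * x.1.length)) x.2 := by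
  refine CE.mk' (W := fun σ (x : List Bool × ℕ) => x.1.length ≤ σ.length ∧
    V (jz σ x.1) x.2) (sig_jz hV) (fun x => ?_)
  constructor
  · intro h
    refine ⟨x.1.length, by simp, ?_⟩
    unfold jz
    rw [pre_take Z _ _ le_rfl]
    exact h
  · rintro ⟨s, hs, h⟩
    rw [pre_length] at hs
    unfold jz at h
    rw [pre_take Z _ _ hs] at h
    exact h

theorem ce_D2 {V : List Bool → ℕ → Prop} (hV : IsOp V) (Z : Set ℕ) :
    CE Z fun z : Idx × List Bool => D2 V Z z.1 z.2 := by
  have h1 : CE Z fun w : ((Idx × List Bool) × ℕ) × ℕ => w.1.1.1.1[w.1.2]? = some w.2 := by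
    refine ce_of_primrec (f := fun w : ((Idx × List Bool) × ℕ) × ℕ =>
      decide (w.1.1.1.1[w.1.2]? = some w.2)) ?_ (fun y => by simp)
    exact (Primrec.eq (α := Option ℕ)).decide.comp
      (Primrec.list_getElem?.comp (Primrec.fst.comp (Primrec.fst.comp (Primrec.fst.comp
        Primrec.fst))) (Primrec.snd.comp Primrec.fst)) (Primrec.option_some.comp Primrec.snd)
  have hf : Computable fun w : ((Idx × List Bool) × ℕ) × ℕ => (w.1.1.2, w.2) :=
    (Computable.snd.comp (Computable.fst.comp Computable.fst)).pair Computable.snd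
  have h2 := (ce_jz hV Z).comp hf
  have h3 := CE.ex (α := (Idx × List Bool) × ℕ) (β := ℕ) (p := fun y e => y.1.1.1[y.2]? = some e ∧
    V (jn y.1.2 (pre Z y.1.2.length) (2 * y.1.2.length)) e) (h1.and h2)
  exact CE.ex (α := Idx × List Bool) (β := ℕ) (p := fun z k => ∃ e : ℕ, z.1.1[k]? = some e ∧
    V (jn z.2 (pre Z z.2.length) (2 * z.2.length)) e) h3

theorem ce_D3 (Z : Set ℕ) : CE Z fun z : Idx × List Bool => D3 z.1 z.2 := by
  unfold D3
  refine CE.ex (p := fun (z : Idx × List Bool) (k : ℕ) => ∃ p : ℕ × Bool, z.1.2[k]? = some p ∧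
    z.2[p.1]? = some (!p.2)) ?_
  refine CE.ex (p := fun (y : (Idx × List Bool) × ℕ) (p : ℕ × Bool) => y.1.1.2[y.2]? = some p ∧
    y.1.2[p.1]? = some (!p.2)) ?_
  refine CE.and ?_ ?_
  · refine ce_of_primrec (f := fun w : ((Idx × List Bool) × ℕ) × (ℕ × Bool) =>
      decide (w.1.1.1.2[w.1.2]? = some w.2)) ?_ (fun y => by simp)
    exact (Primrec.eq (α := Option (ℕ × Bool))).decide.comp
      (Primrec.list_getElem?.comp (Primrec.snd.comp (Primrec.fst.comp (Primrec.fst.comp
        Primrec.fst))) (Primrec.snd.comp Primrec.fst)) (Primrec.option_some.comp Primrec.snd)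
  · refine ce_of_primrec (f := fun w : ((Idx × List Bool) × ℕ) × (ℕ × Bool) =>
      decide (w.1.1.2[w.2.1]? = some (!w.2.2))) ?_ (fun y => by simp)
    exact (Primrec.eq (α := Option Bool)).decide.comp
      (Primrec.list_getElem?.comp (Primrec.snd.comp (Primrec.fst.comp Primrec.fst))
        (Primrec.fst.comp Primrec.snd))
      (Primrec.option_some.comp (Primrec.not.comp (Primrec.snd.comp Primrec.snd)))

theorem ce_D {V : List Bool → ℕ → Prop} (hV : IsOp V) (Z : Set ℕ) :
    CE Z fun z : Idx × List Bool => D V Z z.1 z.2 :=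
  (ce_D1 Z).or ((ce_D2 hV Z).or (ce_D3 Z))

end ClZ

theorem ce_Cl_empty {V : List Bool → ℕ → Prop} (hV : IsOp V) (Z : Set ℕ) :
    CE Z fun I : Idx => ¬ (Cl V Z I).Nonempty := by
  refine (ce_tree_empty (ClZ.ce_D hV Z) (ClZ.D_mono hV Z)).of_eq fun I => not_congr ?_
  exact exists_congr fun X => (ClZ.mem_Cl_iff hV Z I X).symm

theorem Cl_inter {V : List Bool → ℕ → Prop} (hV : IsOp V) (Z : Set ℕ) (I : ℕ → Idx)
    (hne : ∀ n, (Cl V Z (I n)).Nonempty) (hanti : ∀ n, Cl V Z (I (n + 1)) ⊆ Cl V Z (I n)) :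
    ∃ X, ∀ n, X ∈ Cl V Z (I n) := by
  obtain ⟨X, hX⟩ := inter_tree (fun n τ => ClZ.D V Z (I n) τ) (fun n => ClZ.D_mono hV Z (I n))
    (fun n X h => (ClZ.mem_Cl_iff hV Z _ X).1 (hanti n ((ClZ.mem_Cl_iff hV Z _ X).2 h)))
    (fun n => (hne n).imp fun X hX => (ClZ.mem_Cl_iff hV Z _ X).1 hX)
  exact ⟨X, fun n => (ClZ.mem_Cl_iff hV Z _ X).2 (hX n)⟩

theorem ClZ.Jt_unique {Z : Set ℕ} {n s t v w : ℕ} (h1 : Jt (pre Z s) n = some v)
    (h2 : Jt (pre Z t) n = some w) : v = w := by
  have h3 := Jt_mono (pre_le Z (le_max_left s t)) h1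
  have h4 := Jt_mono (pre_le Z (le_max_right s t)) h2
  rw [h3] at h4
  exact Option.some.inj h4

theorem Cl_nil (V : List Bool → ℕ → Prop) (Z : Set ℕ) : (Cl V Z ([], [])).Nonempty := by
  refine ⟨{n | ∃ s, Jt (pre Z s) n = some 0}, fun n s v hv => ⟨fun h0 => ?_, fun h1 => ?_⟩, ?_, ?_⟩
  · subst h0; exact ⟨s, hv⟩
  · rintro ⟨t, ht⟩
    have := ClZ.Jt_unique hv ht
    omega
  · intro e he; simp at he
  · intro p hp; simp at hp

theorem exists_split {V : List Bool → ℕ → Prop} (hV : IsOp V) (Z : Set ℕ) :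
    ∃ q : Idx → ℕ, Computable q ∧ ∀ I, (Cl V Z I).Nonempty → ∀ b : Bool,
      (Cl V Z (I.1, (q I, b) :: I.2)).Nonempty := by
  obtain ⟨W0, hW0, hW1, hW2⟩ := ce_Cl_empty hV Z
  let W : Code → List Bool → ℕ → ℕ → Prop := fun c σ y v =>
    ∃ x : Idx × Bool, decode (α := Idx) y = some x.1 ∧
      W0 σ (x.1.1, (encode (Code.curry c y), x.2) :: x.1.2) ∧ v = cond x.2 0 1
  have hW : Sig1 fun x : (Code × List Bool) × (ℕ × ℕ) => W x.1.1 x.1.2 x.2.1 x.2.2 := by
    refine Sig1.ex (p := fun (x : (Code × List Bool) × (ℕ × ℕ)) (z : Idx × Bool) =>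
      decode (α := Idx) x.2.1 = some z.1 ∧
      W0 x.1.2 (z.1.1, (encode (Code.curry x.1.1 x.2.1), z.2) :: z.1.2) ∧
        x.2.2 = cond z.2 0 1) ?_
    refine Sig1.and ?_ (Sig1.and ?_ ?_)
    · have h2 : Primrec fun y : ((Code × List Bool) × (ℕ × ℕ)) × (Idx × Bool) =>
          decide (decode (α := Idx) y.1.2.1 = some y.2.1) :=
        (Primrec.eq (α := Option Idx)).decide.comp
          (Primrec.decode.comp (Primrec.fst.comp (Primrec.snd.comp Primrec.fst)))
          (Primrec.option_some.comp (Primrec.fst.comp Primrec.snd))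
      exact (Sig1.of_computable h2.to_comp).of_eq fun y => by simp
    · refine hW0.comp (f := fun y : ((Code × List Bool) × (ℕ × ℕ)) × (Idx × Bool) =>
        (y.1.1.2, (y.2.1.1, (encode (Code.curry y.1.1.1 y.1.2.1), y.2.2) :: y.2.1.2))) ?_
      refine Primrec.to_comp ?_
      refine Primrec.pair (Primrec.snd.comp (Primrec.fst.comp Primrec.fst)) (Primrec.pair
        (Primrec.fst.comp (Primrec.fst.comp Primrec.snd)) ?_)
      refine Primrec.list_cons.comp (Primrec.pair ?_ (Primrec.snd.comp Primrec.snd))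
        (Primrec.snd.comp (Primrec.fst.comp Primrec.snd))
      exact Primrec.encode.comp (Code.primrec₂_curry.comp
        (Primrec.fst.comp (Primrec.fst.comp Primrec.fst))
        (Primrec.fst.comp (Primrec.snd.comp Primrec.fst)))
    · have h2 : Primrec fun y : ((Code × List Bool) × (ℕ × ℕ)) × (Idx × Bool) =>
          decide (y.1.2.2 = cond y.2.2 0 1) :=
        (Primrec.eq (α := ℕ)).decide.comp (Primrec.snd.comp (Primrec.snd.comp Primrec.fst))
          (Primrec.cond (Primrec.snd.comp Primrec.snd) (Primrec.const 0) (Primrec.const 1))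
      exact (Sig1.of_computable h2.to_comp).of_eq fun y => by simp
  obtain ⟨c, hc⟩ := recursion W hW
  refine ⟨fun I => encode (Code.curry c (encode I)), ?_, ?_⟩
  · exact (Primrec.encode.comp (Code.primrec₂_curry.comp (Primrec.const c)
      Primrec.encode)).to_comp
  · intro I hI b
    by_contra hemp
    have hb := (hW2 _).1 hemp
    -- the other class is nonempty
    have hother : ∀ b', (∃ s, W0 (pre Z s) (I.1, (encode (Code.curry c (encode I)), b') :: I.2)) →
        b' = b := by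
      intro b' hb'
      have h1 := (hW2 _).2 hb'
      obtain ⟨X, hX⟩ := hI
      by_contra hne
      have hcase : ∀ b'' : Bool, (b'' = true ↔ encode (Code.curry c (encode I)) ∈ X) →
          (Cl V Z (I.1, (encode (Code.curry c (encode I)), b'') :: I.2)).Nonempty := by
        intro b'' hb''
        refine ⟨X, hX.1, hX.2.1, fun p hp => ?_⟩
        rcases List.mem_cons.1 hp with rfl | hp
        · exact hb''
        · exact hX.2.2 p hp
      by_cases hm : encode (Code.curry c (encode I)) ∈ X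
      · have := hcase true (by simp [hm])
        cases b <;> cases b' <;> simp_all
      · have := hcase false (by simp [hm])
        cases b <;> cases b' <;> simp_all
    obtain ⟨s, hs⟩ := hc Z (encode I) (cond b 0 1) (by
      rintro s v' ⟨x, hx1, hx2, rfl⟩
      rw [encodek] at hx1
      obtain ⟨x1, x2⟩ := x
      simp only [Option.some.injEq] at hx1
      subst hx1
      rw [hother x2 ⟨s, hx2⟩]) (by
      obtain ⟨s, hs⟩ := hb
      exact ⟨s, (I, b), encodek _, hs, rfl⟩)
    obtain ⟨X, hX⟩ := hI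
    apply hemp
    refine ⟨X, hX.1, hX.2.1, fun p hp => ?_⟩
    rcases List.mem_cons.1 hp with rfl | hp
    · have h1 := hX.1 _ _ _ hs
      cases b
      · have := h1.2 rfl
        simp [this]
      · have := h1.1 rfl
        simp [this]
    · exact hX.2.2 p hp

theorem isPA_of_Cl {V : List Bool → ℕ → Prop} {Z X : Set ℕ} (h : X ∈ Cl V Z ([], [])) :
    IsPA (join X Z) := by
  classical
  intro φ hφ
  have hce : CE Z fun p : ℕ × Bool => p.2 ∈ φ p.1 := ce_graph hφ.recursiveIn
  obtain ⟨W1, hW1, hW2, hW3⟩ := hce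
  let W : Code → List Bool → ℕ → ℕ → Prop := fun _ σ y v => ∃ b : Bool, W1 σ (y, b) ∧ v = cond b 1 0
  have hW : Sig1 fun x : (Code × List Bool) × (ℕ × ℕ) => W x.1.1 x.1.2 x.2.1 x.2.2 := by
    refine Sig1.ex (p := fun (x : (Code × List Bool) × (ℕ × ℕ)) (b : Bool) =>
      W1 x.1.2 (x.2.1, b) ∧ x.2.2 = cond b 1 0) ?_
    refine Sig1.and ?_ ?_
    · exact hW1.comp (f := fun y : ((Code × List Bool) × (ℕ × ℕ)) × Bool =>
        (y.1.1.2, (y.1.2.1, y.2))) (Computable.pair (Computable.snd.comp (Computable.fst.comp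
          Computable.fst)) (Computable.pair (Computable.fst.comp (Computable.snd.comp
          Computable.fst)) Computable.snd))
    · have h2 : Primrec fun y : ((Code × List Bool) × (ℕ × ℕ)) × Bool =>
          decide (y.1.2.2 = cond y.2 1 0) :=
        (Primrec.eq (α := ℕ)).decide.comp (Primrec.snd.comp (Primrec.snd.comp Primrec.fst))
          (Primrec.cond Primrec.snd (Primrec.const 1) (Primrec.const 0))
      exact (Sig1.of_computable h2.to_comp).of_eq fun y => by simp
  obtain ⟨c, hc⟩ := recursion W hW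
  let q : ℕ → ℕ := fun n => encode (Code.curry c n)
  have hq : Computable q :=
    (Primrec.encode.comp (Code.primrec₂_curry.comp (Primrec.const c) Primrec.id)).to_comp
  have hval : ∀ n b, b ∈ φ n → ∃ s, Jt (pre Z s) (q n) = some (cond b 1 0) := by
    intro n b hb
    refine hc Z n (cond b 1 0) ?_ ?_
    · rintro s v' ⟨b', hb', rfl⟩
      have h1 : b' ∈ φ n := (hW3 (n, b')).2 ⟨s, hb'⟩
      rw [Part.mem_unique h1 hb]
    · obtain ⟨s, hs⟩ := (hW3 (n, b)).1 hb
      exact ⟨s, b, hs, rfl⟩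
  refine ⟨fun n => decide (q n ∉ X), ?_, ?_⟩
  · have h1 : Dec (join X Z) fun n => q n ∈ X := (red_join_left X Z).comp hq
    have h2 : Red {n | q n ∉ X} (join X Z) := h1.not
    have h3 := RecursiveIn.iff_nat.1 (turing_iff_red.2 h2)
    unfold ComputableIn RecursiveIn
    refine h3.of_eq fun n => ?_
    simp only [Encodable.decode_nat, Part.coe_some, Part.bind_some, Part.map_some, chi]
    by_cases hn : q n ∈ X <;> simp [hn]
  · intro n b hb
    obtain ⟨s, hs⟩ := hval n b hb
    have h1 := h.1 _ _ _ hs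
    cases b
    · have := h1.1 rfl
      simp [this]
    · have := h1.2 rfl
      simp [this]

end AC
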