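import Pool.Agent.Hhelper54.AC.Proc

/-!
# The arithmetic code of a history

`cw h m` is the binary expansion (length `m + 1`) of `⌈wt h * 2 ^ (m + 1)⌉`.  The dyadic intervals of
the code words of successive placements are contained in the disjoint intervals
`[wt h, wt h + 2 ^ (-m))`, hence the code words are prefix free.
-/

set_option autoImplicit false

namespace AC.Cw

/-! ### the weight in integer units -/

theorem esum_le {h : Hist} : ∀ p ∈ h, p.2 ≤ esum h := by
  intro p hp
  exact List.single_le_sum (by simp) _ (List.mem_map_of_mem hp)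

theorem wsum_eq (N : ℕ) : ∀ h : Hist, (∀ p ∈ h, p.2 ≤ N) → (wsum N h : ℚ) = wt h * 2 ^ N := by
  intro h
  induction h with
  | nil => intro _; simp [wsum, wt]
  | cons p h ih =>
    intro hp
    have h1 := ih (fun q hq => hp q (by simp [hq]))
    have h2 : p.2 ≤ N := hp p (by simp)
    have e1 : wsum N (p :: h) = 2 ^ (N - p.2) + wsum N h := by simp [wsum]
    have e2 : wt (p :: h) = (1 / 2 : ℚ) ^ p.2 + wt h := by simp [wt]
    rw [e1, e2, Nat.cast_add, h1, add_mul]
    congr 1
    obtain ⟨j, rfl⟩ := Nat.exists_eq_add_of_le h2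
    rw [Nat.add_sub_cancel_left, pow_add, Nat.cast_pow, Nat.cast_ofNat, one_div, ← mul_assoc,
      ← mul_pow]
    norm_num

theorem wt_append (h h' : Hist) : wt (h ++ h') = wt h + wt h' := by
  simp [wt]

theorem wt_single (t m : ℕ) : wt [(t, m)] = (1 / 2 : ℚ) ^ m := by
  simp [wt]

theorem wt_nonneg (h : Hist) : 0 ≤ wt h := by
  rw [wt]
  refine List.sum_nonneg ?_
  intro x hx
  obtain ⟨p, -, rfl⟩ := List.mem_map.1 hx
  positivity

theorem wt_prefix {h h' : Hist} (hp : h <+: h') : wt h ≤ wt h' := by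
  obtain ⟨g, rfl⟩ := hp
  rw [wt_append]
  have := wt_nonneg g
  linarith

/-! ### the code -/

/-- `⌈wt h * 2 ^ (m + 1)⌉` -/
def cnum (h : Hist) (m : ℕ) : ℕ :=
  (wsum (esum h + (m + 1)) h + (2 ^ esum h - 1)) / 2 ^ esum h

/-- the code word -/
def cw (h : Hist) (m : ℕ) : List Bool :=
  (List.range (m + 1)).map fun j => decide (cnum h m / 2 ^ (m - j) % 2 = 1)

theorem cw_length (h : Hist) (m : ℕ) : (cw h m).length = m + 1 := by
  simp [cw]

theorem cnum_bounds (h : Hist) (m : ℕ) :
    wt h * 2 ^ (m + 1) ≤ cnum h m ∧ (cnum h m : ℚ) < wt h * 2 ^ (m + 1) + 1 := by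
  have hE : 0 < 2 ^ esum h := by positivity
  have hEq : (0 : ℚ) < 2 ^ esum h := by positivity
  have hA : (wsum (esum h + (m + 1)) h : ℚ) = wt h * 2 ^ (m + 1) * 2 ^ esum h := by
    rw [wsum_eq _ h (fun p hp => (esum_le p hp).trans (by omega)), pow_add]
    ring
  set A := wsum (esum h + (m + 1)) h
  set E := 2 ^ esum h with hEdef
  have hEc : ((E : ℕ) : ℚ) = 2 ^ esum h := by rw [hEdef]; push_cast; rfl
  have h1 : cnum h m * E ≤ A + (E - 1) := Nat.div_mul_le_self _ _
  have h2 : A + (E - 1) < (cnum h m + 1) * E := by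
    have := Nat.lt_div_mul_add (a := A + (E - 1)) hE
    rw [add_mul, one_mul]
    exact this
  have h2' : A ≤ cnum h m * E := by
    rw [add_mul, one_mul] at h2
    omega
  have h1' : cnum h m * E < A + E := by omega
  constructor
  · have : (A : ℚ) ≤ cnum h m * E := by exact_mod_cast h2'
    rw [hA, hEc] at this
    exact le_of_mul_le_mul_right this hEq
  · have : (cnum h m : ℚ) * E < A + E := by exact_mod_cast h1'
    rw [hA, hEc] at this
    refine lt_of_mul_lt_mul_right (a := (2 : ℚ) ^ esum h) ?_ hEq.le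
    linarith

/-- digits determine the number -/
theorem eq_of_digits (n a b : ℕ) (ha : a < 2 ^ n) (hb : b < 2 ^ n)
    (h : ∀ j < n, (a / 2 ^ j % 2 = 1 ↔ b / 2 ^ j % 2 = 1)) : a = b := by
  apply Nat.eq_of_testBit_eq
  intro j
  rw [Nat.testBit_eq_decide_div_mod_eq, Nat.testBit_eq_decide_div_mod_eq]
  by_cases hj : j < n
  · simp only [h j hj]
  · have hj' : 2 ^ n ≤ 2 ^ j := Nat.pow_le_pow_right (by norm_num) (by omega)
    rw [Nat.div_eq_of_lt (ha.trans_le hj'), Nat.div_eq_of_lt (hb.trans_le hj')]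

theorem cnum_lt {h : Hist} {t m : ℕ} (hw : wt (h ++ [(t, m)]) ≤ 1) : cnum h m < 2 ^ (m + 1) := by
  rw [wt_append, wt_single] at hw
  have h1 := (cnum_bounds h m).2
  have h2 : (wt h + (1 / 2) ^ m) * 2 ^ (m + 1) ≤ 1 * 2 ^ (m + 1) :=
    mul_le_mul_of_nonneg_right hw (by positivity)
  have h3 : ((1 : ℚ) / 2) ^ m * 2 ^ (m + 1) = 2 := by
    rw [pow_succ, ← mul_assoc, ← mul_pow]
    norm_num
  rw [add_mul, h3] at h2
  have h4 : (cnum h m : ℚ) < 2 ^ (m + 1) := by linarith
  exact_mod_cast h4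

/-- if the first code word is a prefix of the second, its number is the quotient -/
theorem cnum_of_prefix {h h' : Hist} {m m' : ℕ} (ha : cnum h m < 2 ^ (m + 1))
    (hb : cnum h' m' < 2 ^ (m' + 1)) (hp : cw h m <+: cw h' m') :
    ∃ d, m' = m + d ∧ cnum h m = cnum h' m' / 2 ^ d := by
  have hl := hp.length_le
  rw [cw_length, cw_length] at hl
  obtain ⟨d, hd⟩ := Nat.exists_eq_add_of_le (show m ≤ m' by omega)
  refine ⟨d, hd, ?_⟩
  have hlt : cnum h' m' / 2 ^ d < 2 ^ (m + 1) := by
    rw [Nat.div_lt_iff_lt_mul (by positivity), ← pow_add]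
    rw [hd] at hb
    rw [show m + 1 + d = m + d + 1 by ring, hd]
    exact hb
  refine eq_of_digits (m + 1) _ _ ha hlt ?_
  intro j hj
  -- digit number `m - j`
  have hget : ∀ i (hi : i < m + 1), (decide (cnum h m / 2 ^ (m - i) % 2 = 1))
      = decide (cnum h' m' / 2 ^ (m' - i) % 2 = 1) := by
    intro i hi
    have h1 : (cw h m)[i]? = some (decide (cnum h m / 2 ^ (m - i) % 2 = 1)) := by
      simp [cw, List.getElem?_map, List.getElem?_range hi]
    have h2 : (cw h' m')[i]? = some (decide (cnum h' m' / 2 ^ (m' - i) % 2 = 1)) := by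
      simp [cw, List.getElem?_map, List.getElem?_range (show i < m' + 1 by omega)]
    have h3 : (cw h' m')[i]? = (cw h m)[i]? := by
      obtain ⟨g, hg⟩ := hp
      rw [← hg, List.getElem?_append_left (by rw [cw_length]; exact hi)]
    rw [h1, h2] at h3
    exact (Option.some.inj h3).symm
  have := hget (m - j) (by omega)
  rw [show m - (m - j) = j by omega, show m' - (m - j) = d + j by omega] at this
  rw [Nat.div_div_eq_div_mul, ← pow_add]
  exact decide_eq_decide.1 this

theorem cw_prefix_free (h : Hist) (t m : ℕ) (h' : Hist) (t' m' : ℕ)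
    (hp : (h ++ [(t, m)]) <+: h') (hw : wt (h' ++ [(t', m')]) ≤ 1) :
    ¬ (cw h m <+: cw h' m') ∧ ¬ (cw h' m' <+: cw h m) := by
  have hw1 : wt (h ++ [(t, m)]) ≤ wt h' := wt_prefix hp
  have hw2 : wt h' ≤ wt (h' ++ [(t', m')]) := wt_prefix (List.prefix_append _ _)
  have ha := cnum_lt (hw1.trans (hw2.trans hw))
  have hb := cnum_lt hw
  rw [wt_append, wt_single] at hw1
  obtain ⟨b1, b2⟩ := cnum_bounds h m
  obtain ⟨c1, c2⟩ := cnum_bounds h' m'
  have e3 : ∀ k : ℕ, ((1 : ℚ) / 2) ^ k * 2 ^ (k + 1) = 2 := by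
    intro k
    rw [pow_succ, ← mul_assoc, ← mul_pow]
    norm_num
  -- `(a + 1) / 2^(m+1) < wt h'`
  have key : (cnum h m : ℚ) + 1 < wt h' * 2 ^ (m + 1) := by
    have h2 : (wt h + (1 / 2) ^ m) * 2 ^ (m + 1) ≤ wt h' * 2 ^ (m + 1) :=
      mul_le_mul_of_nonneg_right hw1 (by positivity)
    rw [add_mul, e3] at h2
    linarith
  constructor
  · intro hpre
    obtain ⟨d, hd, hq⟩ := cnum_of_prefix ha hb hpre
    have h1 : cnum h' m' < (cnum h m + 1) * 2 ^ d := by
      have := Nat.lt_div_mul_add (a := cnum h' m') (b := 2 ^ d) (by positivity)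
      rw [← hq] at this
      rw [add_mul, one_mul]
      exact this
    have h2 : (cnum h' m' : ℚ) < (cnum h m + 1) * 2 ^ d := by exact_mod_cast h1
    have h3 : ((cnum h m : ℚ) + 1) * 2 ^ d < wt h' * 2 ^ (m + 1) * 2 ^ d :=
      mul_lt_mul_of_pos_right key (by positivity)
    have h4 : wt h' * 2 ^ (m + 1) * 2 ^ d = wt h' * 2 ^ (m' + 1) := by
      rw [hd]; ring
    linarith
  · intro hpre
    obtain ⟨d, hd, hq⟩ := cnum_of_prefix hb ha hpre
    have h1 : cnum h' m' * 2 ^ d ≤ cnum h m := by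
      rw [hq]
      exact Nat.div_mul_le_self _ _
    have h2 : (cnum h' m' : ℚ) * 2 ^ d ≤ cnum h m := by exact_mod_cast h1
    have h3 : wt h' * 2 ^ (m' + 1) * 2 ^ d ≤ cnum h' m' * 2 ^ d :=
      mul_le_mul_of_nonneg_right c1 (by positivity)
    have h4 : wt h' * 2 ^ (m' + 1) * 2 ^ d = wt h' * 2 ^ (m + 1) := by
      rw [hd]; ring
    linarith

/-! ### primitive recursiveness -/

theorem primrec_pow : Primrec₂ ((· ^ ·) : ℕ → ℕ → ℕ) :=
  Primrec₂.unpaired'.1 Nat.Primrec.pow

theorem wsum_foldr (N : ℕ) (h : Hist) :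
    wsum N h = h.foldr (fun p s => 2 ^ (N - p.2) + s) 0 := by
  induction h with
  | nil => rfl
  | cons p h ih =>
    rw [List.foldr_cons, ← ih]
    simp [wsum]

theorem esum_foldr (h : Hist) : esum h = h.foldr (fun p s => p.2 + s) 0 := by
  induction h with
  | nil => rfl
  | cons p h ih =>
    rw [List.foldr_cons, ← ih]
    simp [esum]

theorem primrec_wsum : Primrec fun x : ℕ × Hist => wsum x.1 x.2 := by
  have h : Primrec fun x : ℕ × Hist =>
      x.2.foldr (fun p s => 2 ^ (x.1 - p.2) + s) 0 := by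
    refine Primrec.list_foldr (f := fun x : ℕ × Hist => x.2) (g := fun _ => 0)
      (h := fun x y => 2 ^ (x.1 - y.1.2) + y.2) Primrec.snd (Primrec.const 0) ?_
    exact Primrec.nat_add.comp
      (primrec_pow.comp (Primrec.const 2) (Primrec.nat_sub.comp (Primrec.fst.comp Primrec.fst)
        (Primrec.snd.comp (Primrec.fst.comp Primrec.snd))))
      (Primrec.snd.comp Primrec.snd)
  exact h.of_eq fun x => (wsum_foldr _ _).symm

theorem primrec_esum : Primrec esum := by
  have h : Primrec fun x : Hist => x.foldr (fun p s => p.2 + s) 0 := by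
    refine Primrec.list_foldr (f := fun x : Hist => x) (g := fun _ => 0)
      (h := fun _ y => y.1.2 + y.2) Primrec.id (Primrec.const 0) ?_
    exact Primrec.nat_add.comp (Primrec.snd.comp (Primrec.fst.comp Primrec.snd))
      (Primrec.snd.comp Primrec.snd)
  exact h.of_eq fun x => (esum_foldr _).symm

theorem primrec_cnum : Primrec fun x : Hist × ℕ => cnum x.1 x.2 := by
  have hE : Primrec fun x : Hist × ℕ => esum x.1 := primrec_esum.comp Primrec.fst
  have hE2 : Primrec fun x : Hist × ℕ => 2 ^ esum x.1 := primrec_pow.comp (Primrec.const 2) hE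
  exact Primrec.nat_div.comp
    (Primrec.nat_add.comp
      (primrec_wsum.comp (Primrec.pair
        (Primrec.nat_add.comp hE (Primrec.succ.comp Primrec.snd)) Primrec.fst))
      (Primrec.nat_sub.comp hE2 (Primrec.const 1))) hE2

theorem primrec_cw : Primrec fun x : Hist × ℕ => cw x.1 x.2 := by
  refine Primrec.list_map (f := fun x : Hist × ℕ => List.range (x.2 + 1))
    (g := fun x j => decide (cnum x.1 x.2 / 2 ^ (x.2 - j) % 2 = 1))
    (Primrec.list_range.comp (Primrec.succ.comp Primrec.snd)) ?_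
  refine PrimrecPred.decide ?_
  exact PrimrecRel.comp Primrec.eq
    (Primrec.nat_mod.comp (Primrec.nat_div.comp (primrec_cnum.comp Primrec.fst)
      (primrec_pow.comp (Primrec.const 2) (Primrec.nat_sub.comp
        (Primrec.snd.comp Primrec.fst) Primrec.snd))) (Primrec.const 2)) (Primrec.const 1)

end AC.Cw
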