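import Pool.Agent.Hhelper54.AC.ThmA

/-!
# Compactness of Cantor space, in terms of binary strings
-/

namespace AC

open Low4 Encodable Denumerable
open Nat.Partrec (Code)

namespace Cpt

/-- binary strings of an infinite sequence -/
def seg (x : ℕ → Bool) (s : ℕ) : List Bool := (List.range s).map x

theorem seg_eq_pre (x : ℕ → Bool) (s : ℕ) : seg x s = pre {i | x i = true} s := by
  unfold seg pre
  apply List.map_congr_left
  intro i _
  rw [Bool.eq_iff_iff]
  simp

theorem seg_length (x : ℕ → Bool) (s : ℕ) : (seg x s).length = s := by simp [seg]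

theorem isOpen_seg (D : List Bool → Prop) (s : ℕ) : IsOpen {x : ℕ → Bool | D (seg x s)} := by
  have h1 : {x : ℕ → Bool | D (seg x s)} =
      (fun x : ℕ → Bool => fun i : Fin s => x i) ⁻¹'
        {y : Fin s → Bool | D (List.ofFn y)} := by
    ext x
    simp only [Set.mem_ofPred_eq, Set.mem_preimage]
    have : seg x s = List.ofFn fun i : Fin s => x i := by
      unfold seg
      apply List.ext_getElem?
      intro i
      by_cases hi : i < s <;> simp [hi]
    rw [this]
  rw [h1]
  apply IsOpen.preimage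
  · exact continuous_pi fun i => continuous_apply _
  · exact isOpen_discrete _

theorem ext_string (τ : List Bool) : ∃ X : Set ℕ, pre X τ.length = τ := by
  refine ⟨{i | τ.getD i false = true}, ?_⟩
  apply List.ext_getElem?
  intro i
  by_cases hi : i < τ.length
  · rw [pre_getElem? _ _ _ hi, List.getElem?_eq_getElem hi]
    simp only [Set.mem_ofPred_eq, List.getD_eq_getElem?_getD, List.getElem?_eq_getElem hi,
      Option.getD_some, Bool.decide_eq_true]
  · rw [pre_getElem?_none _ _ _ (not_lt.1 hi), List.getElem?_eq_none (not_lt.1 hi)]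

end Cpt

theorem compact_tree (D : List Bool → Prop) (hD : ∀ σ τ, σ <+: τ → D σ → D τ)
    (h : ∀ X : Set ℕ, ∃ s, D (pre X s)) : ∃ N, ∀ τ : List Bool, τ.length = N → D τ := by
  have hcov : (Set.univ : Set (ℕ → Bool)) ⊆ ⋃ s : ℕ, {x : ℕ → Bool | D (Cpt.seg x s)} := by
    intro x _
    obtain ⟨s, hs⟩ := h {i | x i = true}
    rw [Set.mem_iUnion]
    refine ⟨s, ?_⟩
    rw [Set.mem_ofPred_eq, Cpt.seg_eq_pre]
    exact hs
  obtain ⟨t, ht⟩ := isCompact_univ.elim_finite_subcover _ (fun s => Cpt.isOpen_seg D s) hcov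
  refine ⟨t.sup id, fun τ hτ => ?_⟩
  obtain ⟨X, hX⟩ := Cpt.ext_string τ
  classical
  have hx := ht (Set.mem_univ (fun i => decide (i ∈ X)))
  rw [Set.mem_iUnion₂] at hx
  obtain ⟨s, hs, hxs⟩ := hx
  rw [Set.mem_ofPred_eq, Cpt.seg_eq_pre] at hxs
  have hXe : {i : ℕ | (decide (i ∈ X)) = true} = X := by
    ext i
    simp
  rw [hXe] at hxs
  have hsN : s ≤ τ.length := by
    rw [hτ]
    exact Finset.le_sup (f := id) hs
  rw [← hX]
  exact hD _ _ (pre_le X hsN) hxs

theorem ce_forall_strings {α : Type} [Primcodable α] {A : Set ℕ} {p : α → List Bool → Prop}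
    (hp : CE A fun z : α × List Bool => p z.1 z.2) {f : α → ℕ} (hf : Computable f) :
    CE A fun a => ∀ τ : List Bool, τ.length = f a → p a τ := by
  have h1 : CE A fun a => ∀ i < (TA.strs (f a)).length, p a ((TA.strs (f a)).getD i []) := by
    refine CE.ball (p := fun a i => p a ((TA.strs (f a)).getD i [])) ?_
      (Computable.list_length.comp (TA.primrec_strs.to_comp.comp hf))
    refine hp.comp (f := fun x : α × ℕ => (x.1, (TA.strs (f x.1)).getD x.2 [])) ?_
    refine Computable.pair Computable.fst ?_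
    exact (Primrec.list_getD ([] : List Bool)).to_comp.comp
      (TA.primrec_strs.to_comp.comp (hf.comp Computable.fst)) Computable.snd
  refine h1.of_eq fun a => ?_
  constructor
  · intro h τ hτ
    have hmem := TA.mem_strs.2 hτ
    obtain ⟨i, hi, hie⟩ := List.getElem_of_mem hmem
    have := h i hi
    rw [List.getD_eq_getElem?_getD, List.getElem?_eq_getElem hi, Option.getD_some, hie] at this
    exact this
  · intro h i hi
    rw [List.getD_eq_getElem?_getD, List.getElem?_eq_getElem hi, Option.getD_some]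
    exact h _ (TA.mem_strs.1 (List.getElem_mem hi))

theorem ce_tree_empty {α : Type} [Primcodable α] {A : Set ℕ} {D : α → List Bool → Prop}
    (hD : CE A fun z : α × List Bool => D z.1 z.2)
    (hmono : ∀ a σ τ, σ <+: τ → D a σ → D a τ) :
    CE A fun a => ¬ ∃ X : Set ℕ, ∀ s, ¬ D a (pre X s) := by
  have h1 : CE A fun x : α × ℕ => ∀ τ : List Bool, τ.length = x.2 → D x.1 τ := by
    refine ce_forall_strings (p := fun (x : α × ℕ) τ => D x.1 τ) ?_ Computable.snd
    exact hD.comp (f := fun z : (α × ℕ) × List Bool => (z.1.1, z.2))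
      (Computable.pair (Computable.fst.comp Computable.fst) Computable.snd)
  refine (CE.ex (p := fun (a : α) (N : ℕ) => ∀ τ : List Bool, τ.length = N → D a τ) h1).of_eq
    fun a => ?_
  constructor
  · rintro ⟨N, hN⟩ ⟨X, hX⟩
    exact hX N (hN _ (pre_length X N))
  · intro h
    push Not at h
    exact compact_tree (D a) (hmono a) h

theorem inter_tree (D : ℕ → List Bool → Prop) (hmono : ∀ n σ τ, σ <+: τ → D n σ → D n τ)
    (hanti : ∀ n (X : Set ℕ), (∀ s, ¬ D (n + 1) (pre X s)) → ∀ s, ¬ D n (pre X s))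
    (hne : ∀ n, ∃ X : Set ℕ, ∀ s, ¬ D n (pre X s)) : ∃ X : Set ℕ, ∀ n s, ¬ D n (pre X s) := by
  by_contra hcon
  push Not at hcon
  obtain ⟨N, hN⟩ := compact_tree (fun τ => ∃ n ≤ τ.length, D n τ) (by
    rintro σ τ h ⟨n, hn, hD⟩
    exact ⟨n, hn.trans h.length_le, hmono n σ τ h hD⟩) (by
    intro X
    obtain ⟨n, s, hs⟩ := hcon X
    refine ⟨max n s, n, ?_, hmono n _ _ (pre_le X (le_max_right n s)) hs⟩
    rw [pre_length]
    exact le_max_left n s)
  obtain ⟨X, hX⟩ := hne N
  have hall : ∀ k n, n + k = N → ∀ s, ¬ D n (pre X s) := by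
    intro k
    induction k with
    | zero =>
      intro n hn
      have : n = N := by omega
      rw [this]
      exact hX
    | succ k ih =>
      intro n hn
      exact hanti n X (ih (n + 1) (by omega))
  obtain ⟨n, hn, hD⟩ := hN (pre X N) (pre_length X N)
  rw [pre_length] at hn
  exact hall (N - n) n (by omega) N hD

end AC
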