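import Mathlib

/-!
# Definitions: almost complete sets, 1-random sets, PA degrees

Turing reducibility is Mathlib's `TuringReducible` applied to characteristic functions.
-/

namespace AC

open Classical in
/-- The characteristic function of a set of natural numbers, as an oracle. -/
noncomputable def chi (A : Set ℕ) : ℕ →. ℕ := fun n => Part.some (if n ∈ A then 1 else 0)

/-- Turing reducibility `A ≤_T B` between sets of natural numbers. -/
def LeT (A B : Set ℕ) : Prop := TuringReducible (chi A) (chi B)

/-- The join `A ⊕ B` of two sets. -/
def Join (A B : Set ℕ) : Set ℕ := {n | (∃ k ∈ A, n = 2 * k) ∨ ∃ k ∈ B, n = 2 * k + 1}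

open Classical in
/-- The initial segment `X ↾ n` of (the characteristic sequence of) `X`, as a binary string. -/
noncomputable def restr (X : Set ℕ) (n : ℕ) : List Bool :=
  (List.range n).map fun i => decide (i ∈ X)

/-- The halting set `∅'`: the set of all `e` such that the `e`-th partial recursive function is
defined at `e`. -/
def halting : Set ℕ :=
  {e | (Nat.Partrec.Code.eval (Denumerable.ofNat Nat.Partrec.Code e) e).Dom}

/-- `M` is a prefix-free machine relative to the oracle `B`. -/
structure IsMachine (B : Set ℕ) (M : List Bool →. ℕ) : Prop where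
  /-- `M` is partial recursive in `B` -/
  recursive : RecursiveIn {chi B} M
  /-- no program is a proper initial segment of another one -/
  prefixFree : ∀ σ τ, (M σ).Dom → (M τ).Dom → σ <+: τ → σ = τ

/-- `U` is an optimal (universal) prefix-free machine relative to the oracle `B`: it simulates
every prefix-free machine relative to `B` with a constant increase of the length of programs. -/
structure IsOptimal (B : Set ℕ) (U : List Bool →. ℕ) : Prop where
  /-- `U` is a prefix-free machine relative to `B` -/
  machine : IsMachine B U
  /-- `U` simulates every prefix-free machine relative to `B` -/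
  simulates : ∀ M, IsMachine B M → ∃ c : ℕ, ∀ σ x, x ∈ M σ → ∃ τ, x ∈ U τ ∧ τ.length ≤ σ.length + c

/-- Prefix-free Kolmogorov complexity of a number with respect to the machine `U`: the least length
of a program for it. -/
noncomputable def KC (U : List Bool →. ℕ) (x : ℕ) : ℕ := sInf {l | ∃ σ, x ∈ U σ ∧ σ.length = l}

/-- `X` is K-trivial relative to the oracle `B`: `K^B(X ↾ n) ≤ K^B(n) + c` for some `c` and all `n`.
Strings are identified with numbers by `Encodable.encode`. -/
def KTrivialIn (B X : Set ℕ) : Prop :=
  ∃ U, IsOptimal B U ∧ ∃ c : ℕ, ∀ n, KC U (Encodable.encode (restr X n)) ≤ KC U n + c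

/-- `B` is almost complete: `∅'` is K-trivial relative to `B`. -/
def AlmostComplete (B : Set ℕ) : Prop := KTrivialIn B halting

/-- The fair-coin measure on infinite binary sequences. -/
noncomputable def coin : MeasureTheory.Measure (ℕ → Bool) :=
  MeasureTheory.Measure.infinitePi fun _ => ProbabilityTheory.uniformOn Set.univ

/-- The basic open set of all infinite binary sequences extending the string `σ`. -/
def cyl (σ : List Bool) : Set (ℕ → Bool) := {x | ∀ i b, σ[i]? = some b → x i = b}

/-- `W` enumerates a Martin-Löf test: the sets `⋃ {cyl σ | W m σ}` are uniformly c.e. open sets, of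
measure at most `2 ^ (-m)`. -/
structure IsMLTest (W : ℕ → List Bool → Prop) : Prop where
  /-- uniformly computably enumerable -/
  re : REPred fun p : ℕ × List Bool => W p.1 p.2
  /-- small measure -/
  small : ∀ m, coin (⋃ σ ∈ {σ | W m σ}, cyl σ) ≤ (1 / 2) ^ m

open Classical in
/-- `X` is 1-random (Martin-Löf random): for every Martin-Löf test, `X` is outside one of its open
sets. -/
def IsRandom (X : Set ℕ) : Prop :=
  ∀ W, IsMLTest W → ∃ m, (fun n => decide (n ∈ X)) ∉ ⋃ σ ∈ {σ | W m σ}, cyl σ

/-- `A` has PA degree: for every partial computable `{0,1}`-valued function `φ`, `A` computes a total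
`{0,1}`-valued extension of `φ`. -/
def IsPA (A : Set ℕ) : Prop :=
  ∀ φ : ℕ →. Bool, Partrec φ → ∃ g : ℕ → Bool, ComputableIn {chi A} g ∧ ∀ n b, b ∈ φ n → g n = b

end AC
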