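import Pool.Agent.Hhelper54.AC.Pw
import Pool.Agent.Hhelper54.AC.CodeW
import Pool.Agent.Hhelper54.AC.Br

/-!
# The machine existence theorem
-/

namespace AC

open Low4 Encodable

namespace Kcm

/-- the history of a list of requests -/
def hi (L : List (List Bool × ℕ)) : Hist := L.map fun a => (a.2, a.1.length + 1)

theorem hi_def (L : List (List Bool × ℕ)) : hi L = L.map fun a => (a.2, a.1.length + 1) := rfl

theorem wt_hi (L : List (List Bool × ℕ)) : wt (hi L) = pw L / 2 := by
  induction L with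
  | nil => simp [hi, wt, pw]
  | cons a L ih =>
    have e1 : wt (hi (a :: L)) = (1 / 2 : ℚ) ^ (a.1.length + 1) + wt (hi L) := by simp [hi, wt]
    have e2 : pw (a :: L) = (1 / 2 : ℚ) ^ a.1.length + pw L := by simp [pw]
    rw [e1, e2, ih, pow_succ]
    ring

theorem hi_prefix {L L' : List (List Bool × ℕ)} (h : L <+: L') : hi L <+: hi L' := by
  obtain ⟨g, rfl⟩ := h
  exact ⟨hi g, by simp [hi]⟩

/-- the graph of the machine, for a finite oracle string -/
def G0 (H : List Bool → List (List Bool × ℕ)) (σ τ : List Bool) (x : ℕ) : Prop :=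
  ∃ w : ℕ × List Bool, (H σ)[w.1]? = some (w.2, x) ∧
    τ = Cw.cw (hi ((H σ).take w.1)) (w.2.length + 1)

/-- the graph of the machine -/
def G (H : List Bool → List (List Bool × ℕ)) (B : Set ℕ) (τ : List Bool) (x : ℕ) : Prop :=
  ∃ s, G0 H (pre B s) τ x

theorem computable_hi : Computable hi := by
  refine Primrec.to_comp ?_
  refine Primrec.list_map (f := fun L : List (List Bool × ℕ) => L)
    (g := fun _ a => (a.2, a.1.length + 1)) Primrec.id ?_
  exact (Primrec.pair (Primrec.snd.comp Primrec.snd) (Primrec.succ.comp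
    (Primrec.list_length.comp (Primrec.fst.comp Primrec.snd)))).to₂

theorem sig_eq {α β : Type} [Primcodable α] [Primcodable β] {f g : α → β}
    (hf : Computable f) (hg : Computable g) : Sig1 fun a => f a = g a := by
  refine (Sig1.of_computable (f := fun a => decide (encode (f a) = encode (g a)))
    ?_).of_eq ?_
  · exact (Primrec.eq (α := ℕ)).decide.to_comp.comp (Computable.encode.comp hf)
      (Computable.encode.comp hg)
  · intro a; simp

theorem sig_G0 {H : List Bool → List (List Bool × ℕ)} (hH : Computable H) :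
    Sig1 fun z : List Bool × (List Bool × ℕ) => G0 H z.1 z.2.1 z.2.2 := by
  refine Sig1.ex (α := List Bool × (List Bool × ℕ)) (β := ℕ × List Bool)
    (p := fun z w => (H z.1)[w.1]? = some (w.2, z.2.2) ∧
      z.2.1 = Cw.cw (hi ((H z.1).take w.1)) (w.2.length + 1)) ?_
  have hL : Computable fun z : (List Bool × (List Bool × ℕ)) × (ℕ × List Bool) => H z.1.1 :=
    hH.comp (Computable.fst.comp Computable.fst)
  have hn : Computable fun z : (List Bool × (List Bool × ℕ)) × (ℕ × List Bool) => z.2.1 :=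
    Computable.fst.comp Computable.snd
  have hr : Computable fun z : (List Bool × (List Bool × ℕ)) × (ℕ × List Bool) => z.2.2 :=
    Computable.snd.comp Computable.snd
  have hτ : Computable fun z : (List Bool × (List Bool × ℕ)) × (ℕ × List Bool) => z.1.2.1 :=
    Computable.fst.comp (Computable.snd.comp Computable.fst)
  have hx : Computable fun z : (List Bool × (List Bool × ℕ)) × (ℕ × List Bool) => z.1.2.2 :=
    Computable.snd.comp (Computable.snd.comp Computable.fst)
  refine Sig1.and ?_ ?_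
  · exact sig_eq (Computable.list_getElem?.comp hL hn)
      (Computable.option_some.comp (Computable.pair hr hx))
  · have h1 : Computable fun z : (List Bool × (List Bool × ℕ)) × (ℕ × List Bool) =>
        (H z.1.1).take z.2.1 := Primrec.list_take.to_comp.comp hn hL
    have h2 : Computable fun z : (List Bool × (List Bool × ℕ)) × (ℕ × List Bool) =>
        hi ((H z.1.1).take z.2.1) := computable_hi.comp h1
    have h3 : Computable fun z : (List Bool × (List Bool × ℕ)) × (ℕ × List Bool) =>
        z.2.2.length + 1 := Computable.succ.comp (Computable.list_length.comp hr)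
    have h4 : Computable fun z : (List Bool × (List Bool × ℕ)) × (ℕ × List Bool) =>
        (hi ((H z.1.1).take z.2.1), z.2.2.length + 1) := Computable.pair h2 h3
    have h5 := Cw.primrec_cw.to_comp.comp h4
    exact sig_eq hτ h5

theorem ce_G {H : List Bool → List (List Bool × ℕ)} (hH : Computable H) (B : Set ℕ) :
    CE B fun z : List Bool × ℕ => G H B z.1 z.2 :=
  CE.mk' (W := fun σ z => G0 H σ z.1 z.2) (sig_G0 hH) fun _ => Iff.rfl

theorem take_append_prefix {L : List (List Bool × ℕ)} {n : ℕ} {a : List Bool × ℕ}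
    (h : L[n]? = some a) : L.take n ++ [a] <+: L := by
  have h1 : L.take (n + 1) = L.take n ++ [a] := by
    rw [List.take_add_one, h]
    rfl
  rw [← h1]
  exact List.take_prefix _ _

/-- the two requests in a common list -/
theorem G0_prefix {L : List (List Bool × ℕ)} (hw : pw L ≤ 2) {n n' : ℕ} {ρ ρ' : List Bool}
    {x x' : ℕ} (h : L[n]? = some (ρ, x)) (h' : L[n']? = some (ρ', x'))
    (hp : Cw.cw (hi (L.take n)) (ρ.length + 1) <+: Cw.cw (hi (L.take n')) (ρ'.length + 1)) :
    n = n' := by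
  have key : ∀ (n n' : ℕ) (ρ ρ' : List Bool) (x x' : ℕ), L[n]? = some (ρ, x) →
      L[n']? = some (ρ', x') → n < n' →
      ¬ (Cw.cw (hi (L.take n)) (ρ.length + 1) <+: Cw.cw (hi (L.take n')) (ρ'.length + 1)) ∧
      ¬ (Cw.cw (hi (L.take n')) (ρ'.length + 1) <+: Cw.cw (hi (L.take n)) (ρ.length + 1)) := by
    intro n n' ρ ρ' x x' h h' hn
    refine Cw.cw_prefix_free (hi (L.take n)) x (ρ.length + 1) (hi (L.take n')) x'
      (ρ'.length + 1) ?_ ?_
    · have h1 : (L.take n')[n]? = some (ρ, x) := by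
        rw [List.getElem?_take_of_lt hn, h]
      have h2 := hi_prefix (take_append_prefix h1)
      rw [List.take_take, min_eq_left hn.le] at h2
      have e : hi (L.take n ++ [(ρ, x)]) = hi (L.take n) ++ [(x, ρ.length + 1)] := by
        simp [hi]
      rw [← e]
      exact h2
    · have h2 := hi_prefix (take_append_prefix h')
      have e : hi (L.take n' ++ [(ρ', x')]) = hi (L.take n') ++ [(x', ρ'.length + 1)] := by
        simp [hi]
      rw [← e]
      refine (Cw.wt_prefix h2).trans ?_
      rw [wt_hi]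
      linarith
  rcases lt_trichotomy n n' with hn | hn | hn
  · exact absurd hp (key n n' ρ ρ' x x' h h' hn).1
  · exact hn
  · exact absurd hp (key n' n ρ' ρ x' x h' h hn).2

theorem G_prefix {H : List Bool → List (List Bool × ℕ)}
    (hmono : ∀ σ τ, σ <+: τ → H σ <+: H τ) (hw : ∀ σ, pw (H σ) ≤ 2) {B : Set ℕ}
    {τ τ' : List Bool} {x x' : ℕ} (h : G H B τ x) (h' : G H B τ' x') (hp : τ <+: τ') :
    τ = τ' ∧ x = x' := by
  obtain ⟨s, ⟨n, ρ⟩, h1, h2⟩ := h
  obtain ⟨s', ⟨n', ρ'⟩, h1', h2'⟩ := h'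
  simp only at h1 h2 h1' h2'
  set S := max s s' with hS
  have e : ∀ (s n : ℕ) (ρ : List Bool) (x : ℕ), s ≤ S → (H (pre B s))[n]? = some (ρ, x) →
      (H (pre B S))[n]? = some (ρ, x) ∧ (H (pre B S)).take n = (H (pre B s)).take n := by
    intro s n ρ x hs h
    obtain ⟨g, hg⟩ := hmono _ _ (pre_le B hs)
    have hlt : n < (H (pre B s)).length := by
      by_contra hge
      rw [List.getElem?_eq_none (not_lt.1 hge)] at h
      cases h
    rw [← hg]
    refine ⟨by rw [List.getElem?_append_left hlt, h], ?_⟩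
    rw [List.take_append_of_le_length hlt.le]
  obtain ⟨a1, a2⟩ := e s n ρ x (le_max_left _ _) h1
  obtain ⟨a1', a2'⟩ := e s' n' ρ' x' (le_max_right _ _) h1'
  rw [← a2] at h2
  rw [← a2'] at h2'
  have hn : n = n' := by
    apply G0_prefix (hw (pre B S)) a1 a1'
    rw [← h2, ← h2']
    exact hp
  subst hn
  rw [a1] at a1'
  have h3 : (ρ, x) = (ρ', x') := Option.some.inj a1'
  cases h3
  exact ⟨by rw [h2, h2'], rfl⟩

end Kcm

theorem exists_machine (H : List Bool → List (List Bool × ℕ)) (hH : Computable H)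
    (hmono : ∀ σ τ, σ <+: τ → H σ <+: H τ) (hw : ∀ σ, pw (H σ) ≤ 2) (B : Set ℕ) :
    ∃ M, IsMachine B M ∧ ∀ s, ∀ a ∈ H (pre B s), ∃ τ, a.2 ∈ M τ ∧ τ.length ≤ a.1.length + 2 := by
  have h1 : ∀ τ x x', Kcm.G H B τ x → Kcm.G H B τ x' → x = x' :=
    fun τ x x' h h' => (Kcm.G_prefix hmono hw h h' List.prefix_rfl).2
  refine ⟨partOf (Kcm.G H B), ⟨recursiveIn_of_ce (Kcm.ce_G hH B) h1, ?_⟩, ?_⟩
  · rintro σ σ' ⟨t, h⟩ ⟨t', h'⟩ hp
    exact (Kcm.G_prefix hmono hw h h' hp).1
  · intro s a ha
    obtain ⟨n, hn⟩ := List.mem_iff_getElem?.1 ha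
    refine ⟨Cw.cw (Kcm.hi ((H (pre B s)).take n)) (a.1.length + 1), ?_, ?_⟩
    · rw [mem_partOf h1]
      exact ⟨s, (n, a.1), hn, rfl⟩
    · rw [Cw.cw_length]

end AC
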