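import Mathlib

/-!
# The nested strategy (decanter) as a stack machine

`kk` = number of levels, `κ` = slack exponent, `V y k t` says that the candidate `k` for
the marker `y` is valid at stage `t`.

A frame is `(e, c, y, comp, killed)`:
* `e`: the target weight of the run is `2^(-e)`;
* `c`: number of placements (length of the history) at the creation of the frame;
* `y`: the marker, one more than the number of the round in which the frame was created (`0` for
  the initial frame);
* `comp = some (r, k, f)`: the current phase started in round `r` with candidate `k`, when the
  history had length `f`; `none`: waiting for a computation;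
* `killed`.

The stack has its innermost frame at the head.
The history is the chronological list of placements `(position, exponent)`.
-/

namespace AC

/-- frames of the stack -/
abbrev Frame : Type := ℕ × ℕ × ℕ × Option (ℕ × ℕ × ℕ) × Bool

namespace Frame
/-- target exponent -/
def e (F : Frame) : ℕ := F.1
/-- start index -/
def c (F : Frame) : ℕ := F.2.1
/-- marker -/
def y (F : Frame) : ℕ := F.2.2.1
/-- current computation -/
def comp (F : Frame) : Option (ℕ × ℕ × ℕ) := F.2.2.2.1
/-- killed flag -/
def killed (F : Frame) : Bool := F.2.2.2.2
end Frame

/-- history of placements -/
abbrev Hist : Type := List (ℕ × ℕ)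

/-- state: stack and history -/
abbrev St : Type := List Frame × Hist

/-- a fresh frame -/
def fresh (e c y : ℕ) : Frame := (e, c, y, none, false)

/-- the frame has a computation which is invalid at stage `t` -/
def bad (V : ℕ → ℕ → ℕ → Bool) (t : ℕ) (F : Frame) : Bool :=
  match F.comp with
  | none => false
  | some x => !(V F.y x.2.1 t)

/-- handling of the outermost bad frame `F` with outer stack `L`, in round `i`, with history length
`N` -/
def handle (i N : ℕ) (F : Frame) (L : List Frame) : List Frame :=
  bif F.killed then
    (match L with
      | [] => []
      | G :: L' => fresh F.e N (i + 1) :: G :: L')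
  else (F.e, F.c, F.y, none, false) :: L

/-- find the outermost bad frame and handle it -/
def trim (V : ℕ → ℕ → ℕ → Bool) (i t N : ℕ) : List Frame → Option (List Frame)
  | [] => none
  | F :: L =>
    match trim V i t N L with
    | some L' => some L'
    | none => bif bad V t F then some (handle i N F L) else none

/-- weight of a history, in units of `2 ^ (-N)` -/
def wsum (N : ℕ) (h : Hist) : ℕ := (h.map fun p => 2 ^ (N - p.2)).sum

/-- sum of the exponents -/
def esum (h : Hist) : ℕ := (h.map fun p => p.2).sum

/-- the weight of `h` is at least `2^(-e)` -/
def reach (h : Hist) (e : ℕ) : Bool := decide (2 ^ esum h ≤ wsum (e + esum h) h)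

/-- kill the outermost frame which has reached its target -/
def killStack (h : Hist) : List Frame → Option (List Frame)
  | [] => none
  | F :: L =>
    match killStack h L with
    | some L' => some L'
    | none =>
      bif reach (h.drop F.c) F.e then some ((F.e, F.c, F.y, F.comp, true) :: L) else none

/-- least valid candidate at stage `t` -/
def findc (V : ℕ → ℕ → ℕ → Bool) (y t : ℕ) : Option ℕ :=
  (List.range (t + 1)).find? fun k => V y k t

/-- one round of the strategy; `i` = number of the round, `t` = its stage -/
def step (kk κ : ℕ) (V : ℕ → ℕ → ℕ → Bool) (i t : ℕ) (S : St) : St :=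
  match trim V i t S.2.length S.1 with
  | some st => (st, S.2)
  | none =>
    match S.1 with
    | [] => S
    | F :: L =>
      bif F.killed then S else
        match F.comp with
        | none =>
          (match findc V F.y t with
            | none => S
            | some k => ((F.e, F.c, F.y, some (i, k, S.2.length), false) :: L, S.2))
        | some x =>
          match killStack S.2 S.1 with
          | some st => (st, S.2)
          | none =>
            bif decide (S.1.length < kk) then
              (fresh (F.e + x.1 + κ) S.2.length (i + 1) :: S.1, S.2)
            else (S.1, S.2 ++ [(t, F.e + x.1 + κ)])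

/-- the initial state -/
def init : St := ([fresh 1 0 0], [])

/-- the sequence of states along a sequence `τ` of stages -/
def run (kk κ : ℕ) (V : ℕ → ℕ → ℕ → Bool) (τ : ℕ → ℕ) : ℕ → St
  | 0 => init
  | i + 1 => step kk κ V i (τ i) (run kk κ V τ i)

/-- weight of a history -/
def wt (h : Hist) : ℚ := (h.map fun p => (1 / 2 : ℚ) ^ p.2).sum

open Classical in
/-- number of rounds `i < I` in which a placement at position `t`, made earlier, is charged;
`Ch i t` says that the set `D` changes below `t` between the stages `τ i` and `τ (i + 1)` -/
noncomputable def cnt (Ch : ℕ → ℕ → Prop) (τ : ℕ → ℕ) (t I : ℕ) : ℕ :=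
  ((Finset.range I).filter fun i => t < τ i ∧ Ch i t).card

/-- total charge of a history after `I` rounds -/
noncomputable def chQ (Ch : ℕ → ℕ → Prop) (τ : ℕ → ℕ) (h : Hist) (I : ℕ) : ℚ :=
  (h.map fun p => (1 / 2 : ℚ) ^ p.2 * (cnt Ch τ p.1 I : ℚ)).sum

end AC
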