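import Mathlib
import Pool.Agent.Hhelper54.AC.Proc

/-!
# Upper bound for the charges, from Kraft's inequality
-/

namespace AC

namespace Kr

/-- A prefix-free set of nonempty strings is uniquely decodable. -/
lemma ud_of_prefixFree {S : Set (List Bool)} (h0 : [] ∉ S)
    (hp : ∀ σ ∈ S, ∀ τ ∈ S, σ <+: τ → σ = τ) : InformationTheory.UniquelyDecodable S := by
  intro L₁
  induction L₁ with
  | nil =>
    intro L₂ _ h2 h
    cases L₂ with
    | nil => rfl
    | cons b B =>
      exfalso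
      have : b ++ B.flatten = [] := by simpa using h.symm
      have hb : b = [] := (List.append_eq_nil_iff.1 this).1
      exact h0 (hb ▸ h2 b (by simp))
  | cons a A ih =>
    intro L₂ h1 h2 h
    cases L₂ with
    | nil =>
      exfalso
      have : a ++ A.flatten = [] := by simpa using h
      have hb : a = [] := (List.append_eq_nil_iff.1 this).1
      exact h0 (hb ▸ h1 a (by simp))
    | cons b B =>
      have h' : a ++ A.flatten = b ++ B.flatten := by simpa using h
      have hab : a = b := by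
        have ha : a <+: a ++ A.flatten := List.prefix_append _ _
        have hb : b <+: a ++ A.flatten := h' ▸ List.prefix_append _ _
        rcases List.prefix_or_prefix_of_prefix ha hb with h3 | h3
        · exact hp a (h1 a (by simp)) b (h2 b (by simp)) h3
        · exact (hp b (h2 b (by simp)) a (h1 a (by simp)) h3).symm
      subst hab
      have h4 : A.flatten = B.flatten := List.append_cancel_left h'
      rw [ih B (fun w hw => h1 w (by simp [hw])) (fun w hw => h2 w (by simp [hw])) h4]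

/-- Kraft's inequality. -/
lemma kraft (S : Finset (List Bool)) (hp : ∀ σ ∈ S, ∀ τ ∈ S, σ <+: τ → σ = τ) :
    ∑ σ ∈ S, (1 / 2 : ℚ) ^ σ.length ≤ 1 := by
  by_cases h0 : [] ∈ S
  · have hS : S = {[]} := by
      ext σ
      simp only [Finset.mem_singleton]
      constructor
      · intro hσ
        exact (hp [] h0 σ hσ (List.nil_prefix)).symm
      · rintro rfl
        exact h0
    rw [hS]
    simp
  · have h := InformationTheory.kraft_mcmillan_inequality (S := S)
      (ud_of_prefixFree (by simpa using h0) (by simpa using hp))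
    simp only [Fintype.card_bool] at h
    have h' : ((∑ σ ∈ S, (1 / 2 : ℚ) ^ σ.length : ℚ) : ℝ) ≤ 1 := by
      push_cast
      simpa using h
    exact_mod_cast h'

end Kr

theorem charge_upper {U : List Bool →. ℕ}
    (hp : ∀ σ τ, (U σ).Dom → (U τ).Dom → σ <+: τ → σ = τ)
    {D : ℕ → ℕ → List Bool} (hlen : ∀ t x, (D t x).length = x) {τ : ℕ → ℕ}
    (hD : ∀ i i' x, i < i' → D (τ i) x ≠ D (τ (i + 1)) x → D (τ i) x ≠ D (τ i') x)
    {h : Hist} (hh : (h.map Prod.fst).Pairwise (· < ·)) {q I : ℕ}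
    (hprog : ∀ p ∈ h, ∀ i < I, p.1 < τ i →
      ∃ σ, σ.length ≤ p.2 + q ∧ Encodable.encode (D (τ i) p.1) ∈ U σ) :
    chQ (fun i p => D (τ i) p ≠ D (τ (i + 1)) p) τ h I ≤ 2 ^ q := by
  classical
  have hnd1 : (h.map Prod.fst).Nodup := hh.imp (fun h => h.ne)
  have hnd : h.Nodup := List.Nodup.of_map _ hnd1
  have hinj : ∀ p ∈ h, ∀ p' ∈ h, p.1 = p'.1 → p = p' := by
    intro p hp p' hp' he
    exact List.inj_on_of_nodup_map hnd1 hp hp' he
  set T : ℕ × ℕ → Finset ℕ := fun p =>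
    (Finset.range I).filter fun i => p.1 < τ i ∧ D (τ i) p.1 ≠ D (τ (i + 1)) p.1 with hT
  have h1 : chQ (fun i p => D (τ i) p ≠ D (τ (i + 1)) p) τ h I =
      ∑ z ∈ h.toFinset.sigma T, (1 / 2 : ℚ) ^ z.1.2 := by
    rw [Finset.sum_sigma, chQ, ← List.sum_toFinset _ hnd]
    apply Finset.sum_congr rfl
    intro p _
    have h0 : ∑ s ∈ T p, (1 / 2 : ℚ) ^ (⟨p, s⟩ : (_ : ℕ × ℕ) × ℕ).fst.2 =
        ((T p).card : ℚ) * (1 / 2 : ℚ) ^ p.2 := by
      simp only [Finset.sum_const, nsmul_eq_mul]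
    have hc : cnt (fun i p => D (τ i) p ≠ D (τ (i + 1)) p) τ p.1 I = (T p).card := by
      unfold cnt
      rw [hT]
      congr 1
      apply Finset.filter_congr_decidable
    rw [h0, hc, mul_comm]
  have hmem : ∀ z ∈ h.toFinset.sigma T, z.1 ∈ h ∧ z.2 < I ∧ z.1.1 < τ z.2 ∧
      D (τ z.2) z.1.1 ≠ D (τ (z.2 + 1)) z.1.1 := by
    intro z hz
    rw [Finset.mem_sigma] at hz
    obtain ⟨hz1, hz2⟩ := hz
    rw [hT, Finset.mem_filter, Finset.mem_range] at hz2
    exact ⟨List.mem_toFinset.1 hz1, hz2.1, hz2.2.1, hz2.2.2⟩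
  have hex : ∀ z ∈ h.toFinset.sigma T, ∃ σ : List Bool, σ.length ≤ z.1.2 + q ∧
      Encodable.encode (D (τ z.2) z.1.1) ∈ U σ := by
    intro z hz
    obtain ⟨a, b, c, _⟩ := hmem z hz
    exact hprog z.1 a z.2 b c
  choose! P hP1 hP2 using hex
  have hPinj : Set.InjOn P (h.toFinset.sigma T : Finset _) := by
    intro z hz z' hz' he
    have hz := Finset.mem_coe.1 hz
    have hz' := Finset.mem_coe.1 hz'
    have e1 := hP2 z hz
    have e2 := hP2 z' hz'
    rw [← he] at e2
    have e3 : D (τ z.2) z.1.1 = D (τ z'.2) z'.1.1 := Encodable.encode_injective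
      (Part.mem_unique e1 e2)
    have e4 : z.1.1 = z'.1.1 := by
      have := congrArg List.length e3
      simpa [hlen] using this
    obtain ⟨a, b, c, d⟩ := hmem z hz
    obtain ⟨a', b', c', d'⟩ := hmem z' hz'
    have e5 : z.1 = z'.1 := hinj _ a _ a' e4
    obtain ⟨p, i⟩ := z
    obtain ⟨p', i'⟩ := z'
    simp only at *
    subst e5
    rcases lt_trichotomy i i' with hlt | heq | hlt
    · exact absurd e3 (hD i i' p.1 hlt d)
    · rw [heq]
    · exact absurd e3.symm (hD i' i p.1 hlt d')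
  rw [h1]
  have h2 : ∑ z ∈ h.toFinset.sigma T, (1 / 2 : ℚ) ^ z.1.2 ≤
      ∑ z ∈ h.toFinset.sigma T, 2 ^ q * (1 / 2 : ℚ) ^ (P z).length := by
    apply Finset.sum_le_sum
    intro z hz
    have h3 := hP1 z hz
    have h4 : (1 / 2 : ℚ) ^ (z.1.2 + q) ≤ (1 / 2 : ℚ) ^ (P z).length :=
      pow_le_pow_of_le_one (by norm_num) (by norm_num) h3
    calc (1 / 2 : ℚ) ^ z.1.2 = 2 ^ q * (1 / 2 : ℚ) ^ (z.1.2 + q) := by
          rw [pow_add, mul_comm ((1 / 2 : ℚ) ^ z.1.2), ← mul_assoc, ← mul_pow]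
          norm_num
      _ ≤ _ := by
          apply mul_le_mul_of_nonneg_left h4 (by positivity)
  refine h2.trans ?_
  rw [← Finset.mul_sum]
  have h5 : ∑ z ∈ h.toFinset.sigma T, (1 / 2 : ℚ) ^ (P z).length =
      ∑ σ ∈ (h.toFinset.sigma T).image P, (1 / 2 : ℚ) ^ σ.length := by
    rw [Finset.sum_image]
    exact hPinj
  have h6 : ∑ σ ∈ (h.toFinset.sigma T).image P, (1 / 2 : ℚ) ^ σ.length ≤ 1 := by
    apply Kr.kraft
    intro σ hσ σ' hσ' hpre
    obtain ⟨z, hz, rfl⟩ := Finset.mem_image.1 hσ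
    obtain ⟨z', hz', rfl⟩ := Finset.mem_image.1 hσ'
    exact hp _ _ (Part.dom_iff_mem.2 ⟨_, hP2 z hz⟩) (Part.dom_iff_mem.2 ⟨_, hP2 z' hz'⟩) hpre
  rw [h5]
  calc (2 : ℚ) ^ q * _ ≤ 2 ^ q * 1 := mul_le_mul_of_nonneg_left h6 (by positivity)
    _ = 2 ^ q := mul_one _

end AC
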