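import Pool.Agent.Hhelper54.AC.Br

/-!
# The universal functional and the recursion theorem
-/

namespace AC

open Low4 Encodable Denumerable
open Nat.Partrec (Code)

/-- one query of the universal functional -/
def Jq (σ : List Bool) (n k : ℕ) : Option ℕ :=
  Code.evaln k.unpair.1 (ofNat Code n) (encode (σ.take k.unpair.2))

/-- the first value of `g` below `m` -/
def jrec (g : ℕ → Option ℕ) : ℕ → Option ℕ :=
  fun m => Nat.rec none (fun k r => (r <|> g k : Option ℕ)) m

/-- the universal functional with oracle string `σ` -/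
def Jt (σ : List Bool) (n : ℕ) : Option ℕ := jrec (Jq σ n) (σ.length + 1)

theorem primrec_Jq : Primrec fun x : (List Bool × ℕ) × ℕ => Jq x.1.1 x.1.2 x.2 := by
  unfold Jq
  refine Code.primrec_evaln.comp (Primrec.pair (Primrec.pair ?_ ?_) ?_)
  · exact Primrec.fst.comp (Primrec.unpair.comp Primrec.snd)
  · exact (Primrec.ofNat Code).comp (Primrec.snd.comp Primrec.fst)
  · refine Primrec.encode.comp (Primrec.list_take.comp ?_ (Primrec.fst.comp Primrec.fst))
    exact Primrec.snd.comp (Primrec.unpair.comp Primrec.snd)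

theorem primrec_Jt : Primrec₂ Jt := by
  unfold Jt jrec
  refine Primrec.nat_rec' (f := fun x : List Bool × ℕ => x.1.length + 1)
    (g := fun _ => (none : Option ℕ))
    (h := fun (x : List Bool × ℕ) (p : ℕ × Option ℕ) => (p.2 <|> Jq x.1 x.2 p.1 : Option ℕ)) ?_ ?_ ?_
  · exact Primrec.succ.comp (Primrec.list_length.comp Primrec.fst)
  · exact Primrec.const _
  · refine Primrec.option_orElse.comp (Primrec.snd.comp Primrec.snd) ?_
    exact primrec_Jq.comp (Primrec.pair Primrec.fst (Primrec.fst.comp Primrec.snd))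

theorem jrec_succ (g : ℕ → Option ℕ) (m : ℕ) : jrec g (m + 1) = (jrec g m <|> g m) := rfl

theorem jrec_eq_none {g : ℕ → Option ℕ} {m : ℕ} : jrec g m = none ↔ ∀ k < m, g k = none := by
  induction m with
  | zero => simp [jrec]
  | succ m ih =>
    rw [jrec_succ, Option.orElse_eq_none, ih]
    constructor
    · rintro ⟨h1, h2⟩ k hk
      rcases Nat.lt_succ_iff_lt_or_eq.1 hk with h | h
      · exact h1 k h
      · rw [h]; exact h2
    · intro h
      exact ⟨fun k hk => h k (Nat.lt_succ_of_lt hk), h m (Nat.lt_succ_self m)⟩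

theorem jrec_eq_some {g : ℕ → Option ℕ} {m v : ℕ} :
    jrec g m = some v ↔ ∃ k < m, g k = some v ∧ ∀ k' < k, g k' = none := by
  induction m with
  | zero => simp [jrec]
  | succ m ih =>
    rw [jrec_succ]
    rcases hr : jrec g m with _ | w
    · have hnone := jrec_eq_none.1 hr
      rw [show ((none : Option ℕ) <|> g m) = g m from rfl]
      constructor
      · intro h
        exact ⟨m, Nat.lt_succ_self m, h, hnone⟩
      · rintro ⟨k, hk, h1, h2⟩
        rcases Nat.lt_succ_iff_lt_or_eq.1 hk with h | h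
        · rw [hnone k h] at h1; simp at h1
        · rw [← h]; exact h1
    · rw [hr] at ih
      rw [show ((some w : Option ℕ) <|> g m) = some w from rfl]
      constructor
      · intro h
        obtain ⟨k, hk, h1, h2⟩ := ih.1 h
        exact ⟨k, Nat.lt_succ_of_lt hk, h1, h2⟩
      · rintro ⟨k, hk, h1, h2⟩
        rcases Nat.lt_succ_iff_lt_or_eq.1 hk with h | h
        · exact ih.2 ⟨k, h, h1, h2⟩
        · exfalso
          subst h
          rw [jrec_eq_none.2 h2] at hr
          simp at hr

theorem Jt_eq_some {σ : List Bool} {n v : ℕ} :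
    Jt σ n = some v ↔ ∃ k < σ.length + 1, Jq σ n k = some v ∧ ∀ k' < k, Jq σ n k' = none :=
  jrec_eq_some

theorem Jq_ext {σ τ : List Bool} (h : σ <+: τ) {n k : ℕ} (hk : k ≤ σ.length) :
    Jq τ n k = Jq σ n k := by
  unfold Jq
  obtain ⟨ρ, rfl⟩ := h
  rw [List.take_append_of_le_length]
  exact le_trans (Nat.unpair_right_le k) hk

theorem Jt_mono {σ τ : List Bool} (h : σ <+: τ) {n v : ℕ} (hv : Jt σ n = some v) :
    Jt τ n = some v := by
  rw [Jt_eq_some] at hv ⊢
  obtain ⟨k, hk, h1, h2⟩ := hv
  refine ⟨k, lt_of_lt_of_le hk (Nat.succ_le_succ h.length_le), ?_, fun k' hk' => ?_⟩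
  · rw [Jq_ext h (Nat.lt_succ_iff.1 hk)]; exact h1
  · rw [Jq_ext h (by omega)]; exact h2 k' hk'

theorem Jt_complete {Z : Set ℕ} {n v : ℕ}
    (h1 : ∀ s v', v' ∈ Code.eval (ofNat Code n) (encode (pre Z s)) → v' = v)
    (h2 : ∃ s, v ∈ Code.eval (ofNat Code n) (encode (pre Z s))) : ∃ s, Jt (pre Z s) n = some v := by
  obtain ⟨s, hs⟩ := h2
  obtain ⟨k1, hk1⟩ := Code.evaln_complete.1 hs
  classical
  have hq : ∀ S, Nat.pair k1 s ≤ S → Jq (pre Z S) n (Nat.pair k1 s) = some v := by
    intro S hS
    unfold Jq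
    rw [Nat.unpair_pair, pre_take Z _ _ (le_trans (Nat.right_le_pair k1 s) hS)]
    exact hk1
  have hex : ∃ k, Jq (pre Z (Nat.pair k1 s)) n k ≠ none ∧ k ≤ Nat.pair k1 s :=
    ⟨_, by rw [hq _ le_rfl]; simp, le_rfl⟩
  obtain ⟨K, ⟨h3, h4⟩, h6⟩ : ∃ K, (Jq (pre Z (Nat.pair k1 s)) n K ≠ none ∧ K ≤ Nat.pair k1 s) ∧
      ∀ k' < K, ¬ (Jq (pre Z (Nat.pair k1 s)) n k' ≠ none ∧ k' ≤ Nat.pair k1 s) :=
    ⟨Nat.find hex, Nat.find_spec hex, fun k' hk' => Nat.find_min hex hk'⟩
  refine ⟨Nat.pair k1 s, Jt_eq_some.2 ⟨K, ?_, ?_, ?_⟩⟩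
  · rw [pre_length]
    exact Nat.lt_succ_of_le h4
  · obtain ⟨w, hw⟩ := Option.ne_none_iff_exists'.1 h3
    rw [hw]
    unfold Jq at hw
    have h5 := Code.evaln_sound hw
    rw [pre_take Z _ _ (le_trans (Nat.unpair_right_le _) h4)] at h5
    rw [h1 _ _ h5]
  · intro k' hk'
    by_contra hne
    exact h6 k' hk' ⟨hne, by omega⟩

/-- Recursion theorem: for a c.e. functional `W` depending on a code, there is a code `c` such that
`curry c y` computes, with oracle `Z`, the value `v` given by `W c`. -/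
theorem recursion (W : Code → List Bool → ℕ → ℕ → Prop)
    (hW : Sig1 fun x : (Code × List Bool) × (ℕ × ℕ) => W x.1.1 x.1.2 x.2.1 x.2.2) :
    ∃ c : Code, ∀ (Z : Set ℕ) (y v : ℕ), (∀ s v', W c (pre Z s) y v' → v' = v) →
      (∃ s, W c (pre Z s) y v) → ∃ s, Jt (pre Z s) (encode (Code.curry c y)) = some v := by
  obtain ⟨R, hR, hRW⟩ := hW
  let f : Code → ℕ →. ℕ := fun c a =>
    Nat.rfindOpt fun k => cond (R ((c, (decode (α := List Bool) a.unpair.2).getD []),
      (a.unpair.1, k.unpair.1)) k.unpair.2) (some k.unpair.1) none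
  have hf : Partrec₂ f := by
    refine Partrec.rfindOpt (α := Code × ℕ) (f := fun x k =>
      cond (R ((x.1, (decode (α := List Bool) x.2.unpair.2).getD []),
      (x.2.unpair.1, k.unpair.1)) k.unpair.2) (some k.unpair.1) none) ?_
    have h1 : Computable fun z : (Code × ℕ) × ℕ =>
        R ((z.1.1, (decode (α := List Bool) z.1.2.unpair.2).getD []),
          (z.1.2.unpair.1, z.2.unpair.1)) z.2.unpair.2 := by
      refine hR.comp (Computable.pair (Computable.pair (Computable.fst.comp Computable.fst) ?_)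
        (Computable.pair ?_ ?_)) ?_
      · exact Computable.option_getD (Computable.decode.comp (Computable.snd.comp
          (Computable.unpair.comp (Computable.snd.comp Computable.fst)))) (Computable.const [])
      · exact Computable.fst.comp (Computable.unpair.comp (Computable.snd.comp Computable.fst))
      · exact Computable.fst.comp (Computable.unpair.comp Computable.snd)
      · exact Computable.snd.comp (Computable.unpair.comp Computable.snd)
    exact (Computable.cond h1 (Computable.option_some.comp (Computable.fst.comp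
      (Computable.unpair.comp Computable.snd))) (Computable.const _)).to₂
  obtain ⟨c, hc⟩ := Code.fixed_point₂ hf
  refine ⟨c, fun Z y v h1 h2 => ?_⟩
  have hev : ∀ s, Code.eval (ofNat Code (encode (Code.curry c y))) (encode (pre Z s)) =
      Nat.rfindOpt fun k => cond (R ((c, pre Z s), (y, k.unpair.1)) k.unpair.2)
        (some k.unpair.1) none := by
    intro s
    rw [ofNat_encode, Code.eval_curry, hc]
    simp only [f, Nat.unpair_pair, Encodable.encodek, Option.getD_some]
  have hsound : ∀ s v', v' ∈ Code.eval (ofNat Code (encode (Code.curry c y))) (encode (pre Z s)) →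
      W c (pre Z s) y v' := by
    intro s v' hv'
    rw [hev] at hv'
    obtain ⟨k, hk⟩ := Nat.rfindOpt_spec hv'
    cases hr : R ((c, pre Z s), (y, k.unpair.1)) k.unpair.2 with
    | false => rw [hr] at hk; simp at hk
    | true =>
      rw [hr] at hk
      simp only [cond_true, Option.mem_def, Option.some.injEq] at hk
      subst hk
      exact (hRW ((c, pre Z s), (y, k.unpair.1))).2 ⟨_, hr⟩
  refine Jt_complete (fun s v' hv' => h1 s v' (hsound s v' hv')) ?_
  obtain ⟨s, hs⟩ := h2
  obtain ⟨w, hw⟩ := (hRW ((c, pre Z s), (y, v))).1 hs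
  refine ⟨s, ?_⟩
  have hdom : (Code.eval (ofNat Code (encode (Code.curry c y))) (encode (pre Z s))).Dom := by
    rw [hev, Nat.rfindOpt_dom]
    exact ⟨Nat.pair v w, v, by simp only [Nat.unpair_pair]; rw [hw]; rfl⟩
  obtain ⟨v', hv'⟩ := Part.dom_iff_mem.1 hdom
  have := h1 s v' (hsound s v' hv')
  rw [← this]; exact hv'

end AC
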