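import Pool.Agent.Hhelper54.AC.Iter
import Pool.Agent.Hhelper54.AC.Jt

/-!
# Low for K and above the halting set implies almost complete
-/

namespace AC

open Low4 Encodable

namespace Lowk

/-- the machine which computes the initial segments of the halting set -/
def G (U : List Bool →. ℕ) (ρ : List Bool) (x : ℕ) : Prop :=
  ∃ n : ℕ, n ∈ U ρ ∧ ∃ σ : List Bool, σ = pre halting σ.length ∧ σ.length = n ∧ x = encode σ

theorem G_iff {U : List Bool →. ℕ} {ρ : List Bool} {x : ℕ} :
    G U ρ x ↔ ∃ n : ℕ, n ∈ U ρ ∧ x = encode (restr halting n) := by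
  constructor
  · rintro ⟨n, h1, σ, h2, h3, h4⟩
    refine ⟨n, h1, ?_⟩
    rw [h4, h2, h3]
    rfl
  · rintro ⟨n, h1, h2⟩
    exact ⟨n, h1, restr halting n, by rw [restr_eq, pre_length], by rw [restr_eq, pre_length], h2⟩

theorem G_unique {U : List Bool →. ℕ} (ρ : List Bool) (x y : ℕ) (hx : G U ρ x) (hy : G U ρ y) :
    x = y := by
  rw [G_iff] at hx hy
  obtain ⟨n, h1, rfl⟩ := hx
  obtain ⟨m, h2, rfl⟩ := hy
  rw [Part.mem_unique h1 h2]

theorem sig_eq {α β : Type} [Primcodable α] [Primcodable β] {f g : α → β}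
    (hf : Computable f) (hg : Computable g) : Sig1 fun a => f a = g a := by
  refine (Sig1.of_computable (f := fun a => decide (encode (f a) = encode (g a)))
    ?_).of_eq ?_
  · exact (Primrec.eq (α := ℕ)).decide.to_comp.comp (Computable.encode.comp hf)
      (Computable.encode.comp hg)
  · intro a; simp

theorem ce_G {Y : Set ℕ} (hY : Red halting Y) {U : List Bool →. ℕ} (hU : IsMachine Y U) :
    CE Y fun z : List Bool × ℕ => G U z.1 z.2 := by
  have hg := ce_graph (A := Y) hU.recursive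
  refine CE.ex (p := fun (z : List Bool × ℕ) (n : ℕ) => n ∈ U z.1 ∧ ∃ σ : List Bool,
    σ = pre halting σ.length ∧ σ.length = n ∧ z.2 = encode σ) ?_
  refine CE.and ?_ ?_
  · exact hg.comp (f := fun z : (List Bool × ℕ) × ℕ => (z.1.1, z.2))
      (Computable.pair (Computable.fst.comp Computable.fst) Computable.snd)
  · refine CE.ex (p := fun (z : (List Bool × ℕ) × ℕ) (σ : List Bool) =>
      σ = pre halting σ.length ∧ σ.length = z.2 ∧ z.1.2 = encode σ) ?_
    refine CE.and ((ce_initial hY).comp Computable.snd) (CE.and ?_ ?_)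
    · exact CE.of_sig1 (sig_eq (Computable.list_length.comp Computable.snd)
        (Computable.snd.comp Computable.fst))
    · exact CE.of_sig1 (sig_eq (Computable.snd.comp (Computable.fst.comp Computable.fst))
        (Computable.encode.comp Computable.snd))

theorem isMachine_G {Y : Set ℕ} (hY : Red halting Y) {U : List Bool →. ℕ} (hU : IsMachine Y U) :
    IsMachine Y (partOf (G U)) := by
  refine ⟨recursiveIn_of_ce (ce_G hY hU) G_unique, ?_⟩
  rintro σ τ ⟨x, hx⟩ ⟨y, hy⟩ hp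
  rw [G_iff] at hx hy
  obtain ⟨n, h1, -⟩ := hx
  obtain ⟨m, h2, -⟩ := hy
  exact hU.prefixFree σ τ (Part.dom_iff_mem.2 ⟨n, h1⟩) (Part.dom_iff_mem.2 ⟨m, h2⟩) hp

theorem isMachine_trans {B Y : Set ℕ} (h : Red B Y) {U : List Bool →. ℕ} (hU : IsMachine B U) :
    IsMachine Y U := by
  have hg := (ce_graph (A := B) hU.recursive).trans h
  have h1 : ∀ a x y, x ∈ U a → y ∈ U a → x = y := fun a x y hx hy => Part.mem_unique hx hy
  have e : U = partOf fun a x => x ∈ U a := by
    funext a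
    apply Part.ext
    intro x
    exact (mem_partOf h1).symm
  refine ⟨?_, hU.prefixFree⟩
  rw [e]
  exact recursiveIn_of_ce hg h1

end Lowk

theorem almostComplete_of_low {B Y : Set ℕ} (hBY : Red B Y) (hY : Red halting Y)
    {UB UY : List Bool →. ℕ} (hUB : IsOptimal B UB) (hUY : IsOptimal Y UY) (c : ℕ)
    (hlow : ∀ ρ x, x ∈ UY ρ → ∃ τ, x ∈ UB τ ∧ τ.length ≤ ρ.length + c) : AlmostComplete B := by
  obtain ⟨c1, hc1⟩ := hUY.simulates _ (Lowk.isMachine_G hY hUY.machine)
  obtain ⟨c2, hc2⟩ := hUY.simulates _ (Lowk.isMachine_trans hBY hUB.machine)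
  refine ⟨UB, hUB, c + c1 + c2, fun n => ?_⟩
  obtain ⟨σ, h1, h2⟩ := exists_KC hUB n
  obtain ⟨τ, h3, h4⟩ := hc2 σ n h1
  have h5 : encode (restr halting n) ∈ partOf (Lowk.G UY) τ := by
    rw [mem_partOf Lowk.G_unique, Lowk.G_iff]
    exact ⟨n, h3, rfl⟩
  obtain ⟨ρ, h6, h7⟩ := hc1 τ _ h5
  obtain ⟨π, h8, h9⟩ := hlow ρ _ h6
  have h10 := KC_le h8
  omega

end AC
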