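import Mathlib

/-!
# Weight of a list of pairs (program, output)
-/

namespace AC

/-- weight of a list of pairs (program, output) -/
def pw (L : List (List Bool × ℕ)) : ℚ := (L.map fun a => (1 / 2 : ℚ) ^ a.1.length).sum

theorem pw_append (A B : List (List Bool × ℕ)) : pw (A ++ B) = pw A + pw B := by
  simp [pw]

theorem pw_nonneg (A : List (List Bool × ℕ)) : 0 ≤ pw A := by
  unfold pw
  apply List.sum_nonneg
  intro x hx
  obtain ⟨a, -, rfl⟩ := List.mem_map.1 hx
  positivity

theorem pw_prefix {A B : List (List Bool × ℕ)} (h : A <+: B) : pw A ≤ pw B := by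
  obtain ⟨C, rfl⟩ := h
  rw [pw_append]
  linarith [pw_nonneg C]

end AC
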