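import Pool.Agent.Hhelper54.AC.Op
import Pool.Agent.Hhelper54.AC.Pw
import Pool.Agent.Hhelper54.AC.CodeW

/-!
# Muchnik's low for K operator
-/

namespace AC

open Low4 Encodable Denumerable
open Nat.Partrec (Code)

namespace Much

/-! ### definitions -/

/-- membership test -/
def mem' (L : List ℕ) (i : ℕ) : Bool := decide (L.idxOf i < L.length)

theorem mem'_iff {L : List ℕ} {i : ℕ} : mem' L i = true ↔ i ∈ L := by
  unfold mem'
  rw [decide_eq_true_eq, List.idxOf_lt_length_iff]

/-- bits of the join of the oracle and the enumerated list -/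
def yb (σ : List Bool) (L : List ℕ) (i : ℕ) : Bool :=
  cond i.bodd (mem' L i.div2) (σ.getD i.div2 false)

/-- initial segments of the join of the oracle and the enumerated list -/
def Y (σ : List Bool) (L : List ℕ) (c : ℕ) : List Bool := (List.range c).map (yb σ L)

/-- conversion to a history -/
def hs (L : List (List Bool × ℕ)) : Hist := L.map fun a => (0, a.1.length)

/-- comparison of the cost -/
def tst (e : ℕ) (A B : List (List Bool × ℕ)) : Bool :=
  decide (wsum (esum (hs A) + (e + 1)) (hs A) ≤
    wsum (esum (hs A) + (e + 1)) (hs B) + 2 ^ (esum (hs A)))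

/-- the candidate at stage `s` -/
def xs (s : ℕ) : ℕ := Nat.pair s.unpair.1 s.unpair.2.unpair.1

variable (UL : List Bool → List (List Bool × ℕ))

/-- does the strategy act at stage `s`? -/
def act (σ : List Bool) (L : List ℕ) (s : ℕ) : Bool :=
  !(mem' (L.map fun y => y.unpair.1) s.unpair.1) && (decide (xs s < s) &&
    (En s.unpair.1 (σ.take s) (xs s) &&
      tst s.unpair.1 (UL (Y σ L (2 * s))) (UL (Y σ L (2 * xs s + 1)))))

/-- the length which is preserved at stage `s` -/
def cc (σ : List Bool) (L : List ℕ) (s : ℕ) : ℕ := cond (act UL σ L s) (2 * xs s + 1) (2 * s)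

/-- the new list -/
def LL (σ : List Bool) (L : List ℕ) (s : ℕ) : List ℕ := cond (act UL σ L s) (L ++ [xs s]) L

/-- one stage -/
def step (σ : List Bool) (s : ℕ) (S : List ℕ × List (List Bool × ℕ)) :
    List ℕ × List (List Bool × ℕ) :=
  (LL UL σ S.1 s, S.2 ++ (UL (Y σ (LL UL σ S.1 s) (2 * (s + 1)))).drop
    (UL (Y σ S.1 (cc UL σ S.1 s))).length)

/-- state at stage `s` -/
def st (σ : List Bool) (s : ℕ) : List ℕ × List (List Bool × ℕ) :=
  Nat.rec ([], UL []) (fun s S => step UL σ s S) s

theorem st_zero (σ : List Bool) : st UL σ 0 = ([], UL []) := rfl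

theorem st_succ (σ : List Bool) (s : ℕ) : st UL σ (s + 1) = step UL σ s (st UL σ s) := rfl

/-! ### computability -/

section comp

theorem computable_and {α : Type} [Primcodable α] {f g : α → Bool} (hf : Computable f)
    (hg : Computable g) : Computable fun a => f a && g a := Primrec.and.to_comp.comp hf hg

theorem computable_not {α : Type} [Primcodable α] {f : α → Bool} (hf : Computable f) :
    Computable fun a => !(f a) := Primrec.not.to_comp.comp hf

theorem primrec_mem' : Primrec₂ mem' := by
  have h : Primrec₂ fun (L : List ℕ) (i : ℕ) => decide (L.idxOf i < L.length) :=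
    Primrec.nat_lt.decide.comp (Primrec.list_idxOf.comp Primrec.snd Primrec.fst)
      (Primrec.list_length.comp Primrec.fst)
  exact h

theorem computable_mem' {α : Type} [Primcodable α] {f : α → List ℕ} {g : α → ℕ}
    (hf : Computable f) (hg : Computable g) : Computable fun a => mem' (f a) (g a) :=
  primrec_mem'.to_comp.comp hf hg

theorem primrec_Y : Primrec fun z : (List Bool × List ℕ) × ℕ => Y z.1.1 z.1.2 z.2 := by
  unfold Y yb
  refine Primrec.list_map (Primrec.list_range.comp Primrec.snd) ?_
  refine Primrec.cond (Primrec.nat_bodd.comp Primrec.snd) ?_ ?_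
  · exact primrec_mem'.comp (Primrec.snd.comp (Primrec.fst.comp Primrec.fst))
      (Primrec.nat_div2.comp Primrec.snd)
  · exact (Primrec.list_getD false).comp (Primrec.fst.comp (Primrec.fst.comp Primrec.fst))
      (Primrec.nat_div2.comp Primrec.snd)

theorem computable_Y {α : Type} [Primcodable α] {f : α → List Bool} {g : α → List ℕ} {h : α → ℕ}
    (hf : Computable f) (hg : Computable g) (hh : Computable h) :
    Computable fun a => Y (f a) (g a) (h a) :=
  primrec_Y.to_comp.comp (f := fun z : (List Bool × List ℕ) × ℕ => Y z.1.1 z.1.2 z.2)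
    (g := fun a => ((f a, g a), h a)) (Computable.pair (Computable.pair hf hg) hh)

theorem primrec_hs : Primrec hs := by
  unfold hs
  refine Primrec.list_map Primrec.id ?_
  exact (Primrec.pair (Primrec.const 0) (Primrec.list_length.comp
    (Primrec.fst.comp Primrec.snd))).to₂

theorem primrec_tst : Primrec fun z : ℕ × (List (List Bool × ℕ) × List (List Bool × ℕ)) =>
    tst z.1 z.2.1 z.2.2 := by
  have hA : Primrec fun z : ℕ × (List (List Bool × ℕ) × List (List Bool × ℕ)) => hs z.2.1 :=
    primrec_hs.comp (Primrec.fst.comp Primrec.snd)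
  have hB : Primrec fun z : ℕ × (List (List Bool × ℕ) × List (List Bool × ℕ)) => hs z.2.2 :=
    primrec_hs.comp (Primrec.snd.comp Primrec.snd)
  have hE : Primrec fun z : ℕ × (List (List Bool × ℕ) × List (List Bool × ℕ)) =>
      esum (hs z.2.1) := Cw.primrec_esum.comp hA
  have hN : Primrec fun z : ℕ × (List (List Bool × ℕ) × List (List Bool × ℕ)) =>
      esum (hs z.2.1) + (z.1 + 1) := Primrec.nat_add.comp hE (Primrec.succ.comp Primrec.fst)
  have h1 : Primrec fun z : ℕ × (List (List Bool × ℕ) × List (List Bool × ℕ)) =>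
      wsum (esum (hs z.2.1) + (z.1 + 1)) (hs z.2.1) :=
    Cw.primrec_wsum.comp (Primrec.pair hN hA)
  have h2 : Primrec fun z : ℕ × (List (List Bool × ℕ) × List (List Bool × ℕ)) =>
      wsum (esum (hs z.2.1) + (z.1 + 1)) (hs z.2.2) + 2 ^ esum (hs z.2.1) :=
    Primrec.nat_add.comp (Cw.primrec_wsum.comp (Primrec.pair hN hB))
      (Cw.primrec_pow.comp (Primrec.const 2) hE)
  exact Primrec.nat_le.decide.comp h1 h2

theorem computable_tst {α : Type} [Primcodable α] {f : α → ℕ} {g h : α → List (List Bool × ℕ)}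
    (hf : Computable f) (hg : Computable g) (hh : Computable h) :
    Computable fun a => tst (f a) (g a) (h a) :=
  primrec_tst.to_comp.comp
    (f := fun z : ℕ × (List (List Bool × ℕ) × List (List Bool × ℕ)) => tst z.1 z.2.1 z.2.2)
    (g := fun a => (f a, (g a, h a))) (Computable.pair hf (Computable.pair hg hh))

theorem primrec_xs : Primrec xs := by
  unfold xs
  exact Primrec₂.natPair.comp (Primrec.fst.comp Primrec.unpair)
    (Primrec.fst.comp (Primrec.unpair.comp (Primrec.snd.comp Primrec.unpair)))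

theorem computable_En {α : Type} [Primcodable α] {f : α → ℕ} {g : α → List Bool} {h : α → ℕ}
    (hf : Computable f) (hg : Computable g) (hh : Computable h) :
    Computable fun a => En (f a) (g a) (h a) :=
  primrec_En.to_comp.comp (f := fun z : ℕ × List Bool × ℕ => En z.1 z.2.1 z.2.2)
    (g := fun a => (f a, (g a, h a))) (Computable.pair hf (Computable.pair hg hh))

variable {UL}
variable (hUL : Computable UL)
include hUL

theorem computable_act {α : Type} [Primcodable α] {f : α → List Bool} {g : α → List ℕ} {h : α → ℕ}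
    (hf : Computable f) (hg : Computable g) (hh : Computable h) :
    Computable fun a => act UL (f a) (g a) (h a) := by
  have he : Computable fun a => (h a).unpair.1 := Computable.fst.comp (Computable.unpair.comp hh)
  have hx : Computable fun a => xs (h a) := primrec_xs.to_comp.comp hh
  have hm : Computable fun L : List ℕ => L.map fun y => y.unpair.1 :=
    (Primrec.list_map Primrec.id (Primrec.fst.comp (Primrec.unpair.comp Primrec.snd)).to₂).to_comp
  have h1 : Computable fun a => mem' ((g a).map fun y => y.unpair.1) (h a).unpair.1 :=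
    computable_mem' (hm.comp hg) he
  have h2 : Computable fun a => decide (xs (h a) < h a) :=
    (Primrec.nat_lt.decide.to_comp).comp hx hh
  have h3 : Computable fun a => En (h a).unpair.1 ((f a).take (h a)) (xs (h a)) :=
    computable_En he (computable_take.comp hf hh) hx
  have d1 : Computable fun a => 2 * h a := Primrec.nat_double.to_comp.comp hh
  have d2 : Computable fun a => 2 * xs (h a) + 1 := Primrec.nat_double_succ.to_comp.comp hx
  have h4 : Computable fun a => tst (h a).unpair.1 (UL (Y (f a) (g a) (2 * h a)))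
      (UL (Y (f a) (g a) (2 * xs (h a) + 1))) :=
    computable_tst he (hUL.comp (computable_Y hf hg d1)) (hUL.comp (computable_Y hf hg d2))
  exact computable_and (computable_not h1) (computable_and h2 (computable_and h3 h4))

theorem computable_cc {α : Type} [Primcodable α] {f : α → List Bool} {g : α → List ℕ} {h : α → ℕ}
    (hf : Computable f) (hg : Computable g) (hh : Computable h) :
    Computable fun a => cc UL (f a) (g a) (h a) := by
  have hx : Computable fun a => xs (h a) := primrec_xs.to_comp.comp hh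
  have d1 : Computable fun a => 2 * h a := Primrec.nat_double.to_comp.comp hh
  have d2 : Computable fun a => 2 * xs (h a) + 1 := Primrec.nat_double_succ.to_comp.comp hx
  exact Computable.cond (computable_act hUL hf hg hh) d2 d1

theorem computable_LL {α : Type} [Primcodable α] {f : α → List Bool} {g : α → List ℕ} {h : α → ℕ}
    (hf : Computable f) (hg : Computable g) (hh : Computable h) :
    Computable fun a => LL UL (f a) (g a) (h a) := by
  have hx : Computable fun a => xs (h a) := primrec_xs.to_comp.comp hh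
  have d : Computable fun a => g a ++ [xs (h a)] := Computable.list_concat.comp hg hx
  exact Computable.cond (computable_act hUL hf hg hh) d hg

theorem computable_step {α : Type} [Primcodable α] {f : α → List Bool} {h : α → ℕ}
    {g : α → List ℕ × List (List Bool × ℕ)}
    (hf : Computable f) (hg : Computable g) (hh : Computable h) :
    Computable fun a => step UL (f a) (h a) (g a) := by
  have g1 : Computable fun a => (g a).1 := Computable.fst.comp hg
  have g2 : Computable fun a => (g a).2 := Computable.snd.comp hg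
  have hLL := computable_LL hUL hf g1 hh
  have hcc := computable_cc hUL hf g1 hh
  have d : Computable fun a => 2 * (h a + 1) :=
    Primrec.nat_double.to_comp.comp (Computable.succ.comp hh)
  have u1 : Computable fun a => (UL (Y (f a) (g a).1 (cc UL (f a) (g a).1 (h a)))).length :=
    Computable.list_length.comp (hUL.comp (computable_Y hf g1 hcc))
  have u2 : Computable fun a => UL (Y (f a) (LL UL (f a) (g a).1 (h a)) (2 * (h a + 1))) :=
    hUL.comp (computable_Y hf hLL d)
  have u3 : Computable fun a => (UL (Y (f a) (LL UL (f a) (g a).1 (h a)) (2 * (h a + 1)))).drop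
      (UL (Y (f a) (g a).1 (cc UL (f a) (g a).1 (h a)))).length :=
    Primrec.list_drop.to_comp.comp u1 u2
  exact Computable.pair hLL (Computable.list_append.comp g2 u3)

theorem computable_st : Computable fun z : List Bool × ℕ => st UL z.1 z.2 := by
  have h : Computable fun z : List Bool × ℕ => (Nat.rec ([], UL [])
      (fun s S => step UL z.1 s S) z.2 : List ℕ × List (List Bool × ℕ)) := by
    refine Computable.nat_rec (f := fun z : List Bool × ℕ => z.2) (g := fun _ => ([], UL []))
      (h := fun (z : List Bool × ℕ) (q : ℕ × (List ℕ × List (List Bool × ℕ))) =>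
        step UL z.1 q.1 q.2) Computable.snd (Computable.const _) ?_
    exact (computable_step hUL (f := fun x : (List Bool × ℕ) × (ℕ × (List ℕ ×
      List (List Bool × ℕ))) => x.1.1) (h := fun x => x.2.1) (g := fun x => x.2.2)
      (Computable.fst.comp Computable.fst) (Computable.snd.comp Computable.snd)
      (Computable.fst.comp Computable.snd)).to₂
  exact h

end comp

/-! ### basic properties -/

theorem Y_length (σ : List Bool) (L : List ℕ) (c : ℕ) : (Y σ L c).length = c := by simp [Y]

theorem Y_prefix (σ : List Bool) (L : List ℕ) {c d : ℕ} (h : c ≤ d) : Y σ L c <+: Y σ L d := by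
  unfold Y
  refine List.IsPrefix.map _ ?_
  rw [← Nat.add_sub_cancel' h, List.range_add]
  exact List.prefix_append _ _

theorem Y_congr {σ τ : List Bool} {L M : List ℕ} {c : ℕ}
    (h : ∀ i < c, yb σ L i = yb τ M i) : Y σ L c = Y τ M c := by
  unfold Y
  rw [List.map_inj_left]
  intro i hi
  exact h i (List.mem_range.1 hi)

theorem yb_ext {σ τ : List Bool} (h : σ <+: τ) (L : List ℕ) {i s : ℕ} (hi : i < 2 * s)
    (hs : s ≤ σ.length) : yb σ L i = yb τ L i := by
  unfold yb
  have h1 : i.div2 < σ.length := by rw [Nat.div2_val]; omega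
  obtain ⟨ρ, rfl⟩ := h
  rw [List.getD_eq_getElem?_getD, List.getD_eq_getElem?_getD, List.getElem?_append_left h1]

theorem take_ext {σ τ : List Bool} (h : σ <+: τ) {s : ℕ} (hs : s ≤ σ.length) :
    σ.take s = τ.take s := by
  obtain ⟨ρ, rfl⟩ := h
  rw [List.take_append_of_le_length hs]

theorem act_lt {σ : List Bool} {L : List ℕ} {s : ℕ} (h : act UL σ L s = true) : xs s < s := by
  unfold act at h
  simp only [Bool.and_eq_true, decide_eq_true_eq] at h
  exact h.2.1

theorem act_ext {σ τ : List Bool} (h : σ <+: τ) (L : List ℕ) {s : ℕ} (hs : s ≤ σ.length) :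
    act UL σ L s = act UL τ L s := by
  unfold act
  by_cases hx : xs s < s
  · rw [take_ext h hs, Y_congr (σ := σ) (τ := τ) (L := L) (M := L) (c := 2 * s)
      (fun i hi => yb_ext h L hi hs),
      Y_congr (σ := σ) (τ := τ) (L := L) (M := L) (c := 2 * xs s + 1)
      (fun i hi => yb_ext h L (by omega) hs)]
  · simp [hx]

theorem cc_le {σ : List Bool} {L : List ℕ} {s : ℕ} : cc UL σ L s ≤ 2 * s := by
  unfold cc
  cases h : act UL σ L s with
  | false => simp
  | true =>
    have := act_lt UL h
    simp only [cond_true]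
    omega

theorem step_ext {σ τ : List Bool} (h : σ <+: τ) {s : ℕ} (hs : s + 1 ≤ σ.length)
    (S : List ℕ × List (List Bool × ℕ)) : step UL σ s S = step UL τ s S := by
  unfold step
  have h1 : act UL σ S.1 s = act UL τ S.1 s := act_ext UL h S.1 (by omega)
  have h2 : LL UL σ S.1 s = LL UL τ S.1 s := by unfold LL; rw [h1]
  have h3 : cc UL σ S.1 s = cc UL τ S.1 s := by unfold cc; rw [h1]
  rw [h2, h3, Y_congr (σ := σ) (τ := τ) (L := LL UL τ S.1 s) (M := LL UL τ S.1 s)
    (c := 2 * (s + 1)) (fun i hi => yb_ext h _ hi hs)]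
  rw [Y_congr (σ := σ) (τ := τ) (L := S.1) (M := S.1)
    (c := cc UL τ S.1 s) (fun i hi => yb_ext h _ (s := s) (lt_of_lt_of_le hi (cc_le UL))
      (by omega))]

theorem st_ext {σ τ : List Bool} (h : σ <+: τ) {s : ℕ} (hs : s ≤ σ.length) :
    st UL σ s = st UL τ s := by
  induction s with
  | zero => rfl
  | succ s ih =>
    rw [st_succ, st_succ, ih (by omega), step_ext UL h hs]

/-- the part of the join which is preserved -/
theorem Y_LL (σ : List Bool) (L : List ℕ) (s c : ℕ) (hc : c ≤ cc UL σ L s) :
    Y σ (LL UL σ L s) c = Y σ L c := by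
  unfold LL
  unfold cc at hc
  cases h : act UL σ L s with
  | false => rfl
  | true =>
    rw [h] at hc
    simp only [cond_true] at hc ⊢
    refine Y_congr fun i hi => ?_
    unfold yb
    cases hb : i.bodd with
    | false => rfl
    | true =>
      simp only [cond_true]
      rw [Bool.eq_iff_iff, mem'_iff, mem'_iff, List.mem_append, List.mem_singleton]
      constructor
      · rintro (h | h)
        · exact h
        · exfalso
          have h1 := Nat.bodd_add_div2 i
          rw [hb, h] at h1
          simp at h1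
          omega
      · exact Or.inl

theorem LL_prefix (σ : List Bool) (L : List ℕ) (s : ℕ) : L <+: LL UL σ L s := by
  unfold LL
  cases act UL σ L s with
  | false => exact List.prefix_rfl
  | true => exact List.prefix_append _ _

theorem st_fst_prefix (σ : List Bool) {s t : ℕ} (h : s ≤ t) : (st UL σ s).1 <+: (st UL σ t).1 := by
  induction t, h using Nat.le_induction with
  | base => exact List.prefix_rfl
  | succ t _ ih =>
    rw [st_succ]
    exact ih.trans (LL_prefix UL σ _ t)

theorem st_snd_prefix (σ : List Bool) {s t : ℕ} (h : s ≤ t) : (st UL σ s).2 <+: (st UL σ t).2 := by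
  induction t, h using Nat.le_induction with
  | base => exact List.prefix_rfl
  | succ t _ ih =>
    rw [st_succ]
    exact ih.trans (List.prefix_append _ _)

section mono

variable {UL}
variable (hmono : ∀ σ τ, σ <+: τ → UL σ <+: UL τ)
include hmono

theorem UL_cc_prefix (σ : List Bool) (L : List ℕ) (s : ℕ) :
    UL (Y σ L (cc UL σ L s)) <+: UL (Y σ (LL UL σ L s) (2 * (s + 1))) := by
  rw [← Y_LL UL σ L s _ le_rfl]
  exact hmono _ _ (Y_prefix _ _ (by have := cc_le UL (σ := σ) (L := L) (s := s); omega))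

theorem UL_cc_prefix' (σ : List Bool) (L : List ℕ) (s : ℕ) :
    UL (Y σ L (cc UL σ L s)) <+: UL (Y σ L (2 * s)) :=
  hmono _ _ (Y_prefix _ _ (cc_le UL))

omit hmono in
theorem pw_drop {A B : List (List Bool × ℕ)} (h : A <+: B) : pw (B.drop A.length) = pw B - pw A := by
  obtain ⟨g, rfl⟩ := h
  rw [List.drop_left, pw_append]
  ring

theorem pw_step (σ : List Bool) (s : ℕ) :
    pw (st UL σ (s + 1)).2 = pw (st UL σ s).2 +
      (pw (UL (Y σ (st UL σ (s + 1)).1 (2 * (s + 1)))) -
        pw (UL (Y σ (st UL σ s).1 (cc UL σ (st UL σ s).1 s)))) := by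
  rw [st_succ]
  unfold step
  simp only
  rw [pw_append, pw_drop (UL_cc_prefix hmono _ _ _)]

/-- every computation of the universal machine is honoured -/
theorem mem_H (σ : List Bool) (s : ℕ) : ∀ a ∈ UL (Y σ (st UL σ s).1 (2 * s)), a ∈ (st UL σ s).2 := by
  induction s with
  | zero =>
    intro a ha
    rw [st_zero] at ha ⊢
    simpa [Y] using ha
  | succ s ih =>
    intro a ha
    rw [st_succ] at ha ⊢
    unfold step at ha ⊢
    simp only at ha ⊢
    rw [List.mem_append]
    have h1 := UL_cc_prefix hmono σ (st UL σ s).1 s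
    obtain ⟨g, hg⟩ := h1
    rw [← hg] at ha ⊢
    rw [List.drop_left]
    rcases List.mem_append.1 ha with h | h
    · exact Or.inl (ih a ((UL_cc_prefix' hmono σ (st UL σ s).1 s).subset h))
    · exact Or.inr h

end mono

/-! ### weights -/

theorem wt_hs (L : List (List Bool × ℕ)) : wt (hs L) = pw L := by
  unfold wt hs pw
  rw [List.map_map]
  rfl

theorem tst_iff {e : ℕ} {A B : List (List Bool × ℕ)} (h : B <+: A) :
    tst e A B = true ↔ pw A - pw B ≤ (1 / 2 : ℚ) ^ (e + 1) := by
  unfold tst
  rw [decide_eq_true_eq]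
  have hB : ∀ p ∈ hs B, p.2 ≤ esum (hs A) + (e + 1) := by
    intro p hp
    have : p ∈ hs A := by
      unfold hs at hp ⊢
      obtain ⟨a, ha, rfl⟩ := List.mem_map.1 hp
      exact List.mem_map_of_mem (h.subset ha)
    exact (Cw.esum_le p this).trans (Nat.le_add_right _ _)
  have hA : ∀ p ∈ hs A, p.2 ≤ esum (hs A) + (e + 1) := fun p hp =>
    (Cw.esum_le p hp).trans (Nat.le_add_right _ _)
  have e1 := Cw.wsum_eq (esum (hs A) + (e + 1)) (hs A) hA
  have e2 := Cw.wsum_eq (esum (hs A) + (e + 1)) (hs B) hB
  rw [wt_hs] at e1 e2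
  have e3 : ((2 ^ esum (hs A) : ℕ) : ℚ) = (1 / 2 : ℚ) ^ (e + 1) * 2 ^ (esum (hs A) + (e + 1)) := by
    rw [Nat.cast_pow, Nat.cast_ofNat, pow_add 2 (esum (hs A)) (e + 1)]
    have : ((1 : ℚ) / 2) ^ (e + 1) * 2 ^ (e + 1) = 1 := by
      rw [← mul_pow]; norm_num
    calc (2 : ℚ) ^ esum (hs A) = 2 ^ esum (hs A) * ((1 / 2 : ℚ) ^ (e + 1) * 2 ^ (e + 1)) := by
          rw [this, mul_one]
      _ = _ := by ring
  have hpos : (0 : ℚ) < 2 ^ (esum (hs A) + (e + 1)) := by positivity
  rw [← Nat.cast_le (α := ℚ), Nat.cast_add, e1, e2, e3, ← add_mul,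
    mul_le_mul_iff_of_pos_right hpos, sub_le_iff_le_add, add_comm]

/-- each requirement acts at most once -/
theorem st_nodup (σ : List Bool) (s : ℕ) : ((st UL σ s).1.map fun y => y.unpair.1).Nodup := by
  induction s with
  | zero => simp [st_zero]
  | succ s ih =>
    rw [st_succ]
    unfold step LL
    simp only
    cases h : act UL σ (st UL σ s).1 s with
    | false => exact ih
    | true =>
      simp only [cond_true]
      rw [List.map_append, List.map_singleton]
      refine List.Nodup.append ih (List.nodup_singleton _) ?_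
      unfold act at h
      simp only [Bool.and_eq_true, Bool.not_eq_true'] at h
      have h1 := h.1
      rw [← Bool.not_eq_true, mem'_iff] at h1
      rw [List.disjoint_singleton]
      unfold xs
      rw [Nat.unpair_pair]
      exact h1

theorem sum_nodup (l : List ℕ) (h : l.Nodup) : (l.map fun e => (1 / 2 : ℚ) ^ (e + 1)).sum ≤ 1 := by
  have h1 : (l.map fun e => (1 / 2 : ℚ) ^ (e + 1)).sum = ∑ e ∈ l.toFinset, (1 / 2 : ℚ) ^ (e + 1) := by
    rw [List.sum_toFinset _ h]
  rw [h1]
  have h2 : ∀ n : ℕ, ∑ e ∈ Finset.range n, (1 / 2 : ℚ) ^ (e + 1) = 1 - (1 / 2) ^ n := by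
    intro n
    induction n with
    | zero => simp
    | succ n ih => rw [Finset.sum_range_succ, ih]; ring
  have h3 : l.toFinset ⊆ Finset.range (l.toFinset.sup id + 1) := by
    intro e he
    rw [Finset.mem_range]
    exact Nat.lt_succ_of_le (Finset.le_sup (f := id) he)
  calc ∑ e ∈ l.toFinset, (1 / 2 : ℚ) ^ (e + 1)
      ≤ ∑ e ∈ Finset.range (l.toFinset.sup id + 1), (1 / 2 : ℚ) ^ (e + 1) :=
        Finset.sum_le_sum_of_subset_of_nonneg h3 (fun _ _ _ => by positivity)
    _ = 1 - (1 / 2) ^ (l.toFinset.sup id + 1) := h2 _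
    _ ≤ 1 := by
        have : (0 : ℚ) ≤ (1 / 2) ^ (l.toFinset.sup id + 1) := by positivity
        linarith

section weights

variable {UL}
variable (hmono : ∀ σ τ, σ <+: τ → UL σ <+: UL τ)
include hmono

theorem pw_inv (σ : List Bool) (s : ℕ) :
    pw (st UL σ s).2 ≤ pw (UL (Y σ (st UL σ s).1 (2 * s))) +
      ((st UL σ s).1.map fun y => (1 / 2 : ℚ) ^ (y.unpair.1 + 1)).sum := by
  induction s with
  | zero => simp [st_zero, Y]
  | succ s ih =>
    rw [pw_step hmono]
    have hst : (st UL σ (s + 1)).1 = LL UL σ (st UL σ s).1 s := by rw [st_succ]; rfl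
    cases h : act UL σ (st UL σ s).1 s with
    | false =>
      have h1 : (st UL σ (s + 1)).1 = (st UL σ s).1 := by rw [hst]; unfold LL; rw [h]; rfl
      have h2 : cc UL σ (st UL σ s).1 s = 2 * s := by unfold cc; rw [h]; rfl
      rw [h2, h1]
      linarith
    | true =>
      have h1 : (st UL σ (s + 1)).1 = (st UL σ s).1 ++ [xs s] := by
        rw [hst]; unfold LL; rw [h]; rfl
      have h2 : cc UL σ (st UL σ s).1 s = 2 * xs s + 1 := by unfold cc; rw [h]; rfl
      rw [h2]
      have h3 : pw (UL (Y σ (st UL σ s).1 (2 * s))) -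
          pw (UL (Y σ (st UL σ s).1 (2 * xs s + 1))) ≤ (1 / 2 : ℚ) ^ (s.unpair.1 + 1) := by
        have hlt := act_lt UL h
        rw [← tst_iff (hmono _ _ (Y_prefix _ _ (by omega)))]
        unfold act at h
        simp only [Bool.and_eq_true] at h
        exact h.2.2.2
      have h4 : ((st UL σ (s + 1)).1.map fun y => (1 / 2 : ℚ) ^ (y.unpair.1 + 1)).sum =
          ((st UL σ s).1.map fun y => (1 / 2 : ℚ) ^ (y.unpair.1 + 1)).sum +
            (1 / 2 : ℚ) ^ (s.unpair.1 + 1) := by
        rw [h1, List.map_append, List.sum_append, List.map_singleton, List.sum_singleton]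
        unfold xs
        rw [Nat.unpair_pair]
      rw [h4]
      linarith

theorem pw_le_two (hw : ∀ σ, pw (UL σ) ≤ 1) (σ : List Bool) (s : ℕ) : pw (st UL σ s).2 ≤ 2 := by
  have h1 := pw_inv hmono σ s
  have h2 := hw (Y σ (st UL σ s).1 (2 * s))
  have h3 := sum_nodup _ (st_nodup UL σ s)
  rw [List.map_map] at h3
  have h4 : ((st UL σ s).1.map fun y => (1 / 2 : ℚ) ^ (y.unpair.1 + 1)).sum ≤ 1 := h3
  linarith

/-- growth of the weight of `H` -/
theorem pw_growth (σ : List Bool) (s₁ s : ℕ) (h : s₁ ≤ s) :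
    pw (UL (Y σ (st UL σ s).1 (2 * s))) - pw (UL (Y σ (st UL σ s).1 (2 * s₁))) ≤
      pw (st UL σ s).2 - pw (st UL σ s₁).2 := by
  induction s, h using Nat.le_induction with
  | base => simp
  | succ s hs ih =>
    rw [pw_step hmono]
    have hst : (st UL σ (s + 1)).1 = LL UL σ (st UL σ s).1 s := by rw [st_succ]; rfl
    have key : pw (UL (Y σ (st UL σ s).1 (2 * s₁))) - pw (UL (Y σ (st UL σ (s + 1)).1 (2 * s₁))) ≤
        pw (UL (Y σ (st UL σ s).1 (2 * s))) -
          pw (UL (Y σ (st UL σ s).1 (cc UL σ (st UL σ s).1 s))) := by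
      have hnn : pw (UL (Y σ (st UL σ s).1 (cc UL σ (st UL σ s).1 s))) ≤
          pw (UL (Y σ (st UL σ s).1 (2 * s))) := pw_prefix (UL_cc_prefix' hmono _ _ _)
      rcases le_or_gt (2 * s₁) (cc UL σ (st UL σ s).1 s) with hc | hc
      · rw [hst, Y_LL UL σ _ s _ hc]
        linarith
      · have h1 : pw (UL (Y σ (st UL σ s).1 (cc UL σ (st UL σ s).1 s))) ≤
            pw (UL (Y σ (st UL σ (s + 1)).1 (2 * s₁))) := by
          rw [hst, ← Y_LL UL σ (st UL σ s).1 s _ le_rfl]
          exact pw_prefix (hmono _ _ (Y_prefix _ _ hc.le))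
        have h2 : pw (UL (Y σ (st UL σ s).1 (2 * s₁))) ≤ pw (UL (Y σ (st UL σ s).1 (2 * s))) :=
          pw_prefix (hmono _ _ (Y_prefix _ _ (by omega)))
        linarith
    linarith

omit hmono in
theorem pw_H_mono (σ : List Bool) {s t : ℕ} (h : s ≤ t) : pw (st UL σ s).2 ≤ pw (st UL σ t).2 :=
  pw_prefix (st_snd_prefix UL σ h)

end weights

/-! ### the operator -/

/-- the operator -/
def Vf (σ : List Bool) (x : ℕ) : Prop := x ∈ (st UL σ σ.length).1

/-- the requests -/
def Hf (σ : List Bool) : List (List Bool × ℕ) := (st UL σ σ.length).2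

theorem mem_Op_Vf {B : Set ℕ} {x : ℕ} : x ∈ Op (Vf UL) B ↔ ∃ s, x ∈ (st UL (pre B s) s).1 := by
  rw [mem_Op]
  unfold Vf
  simp only [pre_length]

theorem stB_eq (B : Set ℕ) {s n : ℕ} (h : s ≤ n) : st UL (pre B n) s = st UL (pre B s) s :=
  (st_ext UL (pre_le B h) (by simp)).symm

theorem stB_prefix (B : Set ℕ) {s n : ℕ} (h : s ≤ n) :
    (st UL (pre B s) s).1 <+: (st UL (pre B n) n).1 := by
  rw [← stB_eq UL B h]
  exact st_fst_prefix UL _ h

theorem Vf_mono {σ τ : List Bool} (h : σ <+: τ) : (st UL σ σ.length).1 <+: (st UL τ τ.length).1 := by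
  rw [st_ext UL h le_rfl]
  exact st_fst_prefix UL _ h.length_le

theorem Hf_mono {σ τ : List Bool} (h : σ <+: τ) : Hf UL σ <+: Hf UL τ := by
  unfold Hf
  rw [st_ext UL h le_rfl]
  exact st_snd_prefix UL _ h.length_le

theorem computable_Hf {UL : List Bool → List (List Bool × ℕ)} (hUL : Computable UL) :
    Computable (Hf UL) := by
  have h := (computable_st hUL).comp (g := fun σ : List Bool => (σ, σ.length))
    (Computable.pair Computable.id Computable.list_length)
  exact Computable.snd.comp h

theorem isOp_Vf {UL : List Bool → List (List Bool × ℕ)} (hUL : Computable UL) :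
    IsOp (Vf UL) := by
  refine ⟨?_, fun σ τ n h hn => (Vf_mono UL h).subset hn⟩
  have h : Computable fun z : List Bool × ℕ => st UL z.1 z.1.length :=
    (computable_st hUL).comp (g := fun z : List Bool × ℕ => (z.1, z.1.length))
      (Computable.pair Computable.fst (Computable.list_length.comp Computable.fst))
  have h1 : Computable fun z : List Bool × ℕ => (st UL z.1 z.1.length).1 := Computable.fst.comp h
  have h2 : Computable fun z : List Bool × ℕ => mem' (st UL z.1 z.1.length).1 z.2 :=
    computable_mem' h1 Computable.snd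
  exact (Sig1.of_computable h2).of_eq fun z => mem'_iff

/-- elements enter only because of the enumeration by the opponent -/
theorem En_of_mem (σ : List Bool) (s : ℕ) {x : ℕ} (hx : x ∈ (st UL σ s).1) :
    ∃ s' < s, En x.unpair.1 (σ.take s') x = true := by
  induction s with
  | zero => simp [st_zero] at hx
  | succ s ih =>
    rw [st_succ] at hx
    unfold step LL at hx
    simp only at hx
    cases h : act UL σ (st UL σ s).1 s with
    | false =>
      rw [h] at hx
      obtain ⟨s', hs', h'⟩ := ih hx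
      exact ⟨s', by omega, h'⟩
    | true =>
      rw [h] at hx
      simp only [cond_true] at hx
      rcases List.mem_append.1 hx with hx | hx
      · obtain ⟨s', hs', h'⟩ := ih hx
        exact ⟨s', by omega, h'⟩
      · rw [List.mem_singleton] at hx
        subst hx
        refine ⟨s, Nat.lt_succ_self s, ?_⟩
        unfold act at h
        simp only [Bool.and_eq_true] at h
        have h1 : (xs s).unpair.1 = s.unpair.1 := by unfold xs; rw [Nat.unpair_pair]
        rw [h1]
        exact h.2.2.1

/-- the strings `Y` converge to the join -/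
theorem exists_Y_eq (B : Set ℕ) (u : ℕ) : ∃ s, u ≤ 2 * s ∧
    Y (pre B s) (st UL (pre B s) s).1 u = pre (join B (Op (Vf UL) B)) u := by
  classical
  have h : ∀ i, ∃ s, i ∈ Op (Vf UL) B → i ∈ (st UL (pre B s) s).1 := by
    intro i
    by_cases hi : i ∈ Op (Vf UL) B
    · obtain ⟨s, hs⟩ := (mem_Op_Vf UL).1 hi
      exact ⟨s, fun _ => hs⟩
    · exact ⟨0, fun h => absurd h hi⟩
  choose f hf using h
  refine ⟨(Finset.range u).sup f + u, by omega, ?_⟩
  set S := (Finset.range u).sup f + u with hS
  have hmem : ∀ i < u, (i ∈ (st UL (pre B S) S).1 ↔ i ∈ Op (Vf UL) B) := by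
    intro i hi
    constructor
    · intro h
      exact (mem_Op_Vf UL).2 ⟨S, h⟩
    · intro h
      have h1 : f i ≤ S := by
        have := Finset.le_sup (f := f) (Finset.mem_range.2 hi)
        omega
      exact (stB_prefix UL B h1).subset (hf i h)
  unfold Y pre
  rw [List.map_inj_left]
  intro i hi
  rw [List.mem_range] at hi
  have hd : i.div2 ≤ i := by rw [Nat.div2_val]; omega
  have e1 : (((List.range S).map fun i => decide (i ∈ B)) : List Bool) = pre B S := rfl
  unfold yb
  cases hb : i.bodd with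
  | false =>
    simp only [cond_false]
    rw [e1, List.getD_eq_getElem?_getD, pre_getElem? B S _ (by omega)]
    simp [join, hb]
  | true =>
    simp only [cond_true]
    rw [e1, Bool.eq_iff_iff, mem'_iff, hmem _ (by omega)]
    simp [join, hb]

theorem exists_limit (f : ℕ → ℚ) (C : ℚ) (hC : ∀ n, f n ≤ C) {ε : ℚ}
    (hε : 0 < ε) : ∃ n₁, ∀ n ≥ n₁, f n - f n₁ ≤ ε := by
  by_contra hcon
  push Not at hcon
  have h : ∀ k : ℕ, ∃ n, f 0 + k * ε ≤ f n := by
    intro k
    induction k with
    | zero => exact ⟨0, by simp⟩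
    | succ k ih =>
      obtain ⟨n, hn⟩ := ih
      obtain ⟨m, hm, h2⟩ := hcon n
      refine ⟨m, ?_⟩
      push_cast
      linarith
  obtain ⟨k, hk⟩ := exists_nat_gt ((C - f 0) / ε)
  obtain ⟨n, hn⟩ := h k
  have h1 := hC n
  rw [div_lt_iff₀ hε] at hk
  linarith

theorem not_red {UL : List Bool → List (List Bool × ℕ)}
    (hmono : ∀ σ τ, σ <+: τ → UL σ <+: UL τ) (hw : ∀ σ, pw (UL σ) ≤ 1) (B : Set ℕ) :
    ¬ Red (Op (Vf UL) B) B := by
  intro hred
  obtain ⟨e, he⟩ := En_universal hred.2
  -- no element of column `e` is enumerated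
  have hcol : ∀ k, Nat.pair e k ∉ Op (Vf UL) B := by
    intro k hk
    obtain ⟨s, hs⟩ := (mem_Op_Vf UL).1 hk
    obtain ⟨s', hs', h'⟩ := En_of_mem UL _ _ hs
    rw [Nat.unpair_pair, pre_take B _ _ hs'.le] at h'
    exact (he _).2 ⟨s', h'⟩ hk
  have hlim : ∃ s₁, ∀ s ≥ s₁, pw (st UL (pre B s) s).2 - pw (st UL (pre B s₁) s₁).2 ≤
      (1 / 2 : ℚ) ^ (e + 1) := by
    exact exists_limit (fun s => pw (st UL (pre B s) s).2) 2
      (fun s => pw_le_two hmono hw _ _) (by positivity)
  obtain ⟨s₁, hs₁⟩ := hlim
  obtain ⟨s₂, hs₂⟩ := (he (Nat.pair e s₁)).1 (hcol s₁)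
  have hx1 : s₁ ≤ Nat.pair e s₁ := Nat.right_le_pair _ _
  obtain ⟨w, hw1, hw2⟩ : ∃ w, s₂ ≤ w ∧ Nat.pair e s₁ + 1 ≤ w :=
    ⟨max s₂ (Nat.pair e s₁ + 1), le_max_left _ _, le_max_right _ _⟩
  obtain ⟨s, hs⟩ : ∃ s, s = Nat.pair e (Nat.pair s₁ w) := ⟨_, rfl⟩
  have hws : w ≤ s := by
    rw [hs]
    exact (Nat.right_le_pair s₁ w).trans (Nat.right_le_pair _ _)
  have hse : s.unpair.1 = e := by rw [hs, Nat.unpair_pair]
  have hsx : xs s = Nat.pair e s₁ := by
    unfold xs
    rw [hs, Nat.unpair_pair]
    simp only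
    rw [Nat.unpair_pair]
  have hst1 : st UL (pre B (s + 1)) s = st UL (pre B s) s := stB_eq UL B (Nat.le_succ s)
  have hact : act UL (pre B (s + 1)) (st UL (pre B (s + 1)) s).1 s = true := by
    unfold act
    simp only [Bool.and_eq_true, Bool.not_eq_true', decide_eq_true_eq]
    refine ⟨?_, ?_, ?_, ?_⟩
    · rw [← Bool.not_eq_true, mem'_iff, hse]
      intro hmem
      obtain ⟨y, hy, hye⟩ := List.mem_map.1 hmem
      rw [hst1] at hy
      have h1 : y ∈ Op (Vf UL) B := (mem_Op_Vf UL).2 ⟨s, hy⟩
      have h2 : y = Nat.pair e y.unpair.2 := by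
        rw [← hye, Nat.pair_unpair]
      rw [h2] at h1
      exact hcol _ h1
    · rw [hsx]; omega
    · rw [hse, hsx, pre_take B _ _ (Nat.le_succ s)]
      exact En_mono (pre_le B (by omega)) hs₂
    · rw [tst_iff (hmono _ _ (Y_prefix _ _ (by rw [hsx]; omega))), hse, hsx]
      have h1 := pw_growth hmono (pre B (s + 1)) s₁ s (by omega)
      rw [stB_eq UL B (show s₁ ≤ s + 1 by omega), hst1] at h1
      rw [hst1]
      have h2 := hs₁ s (by omega)
      have h3 : pw (UL (Y (pre B (s + 1)) (st UL (pre B s) s).1 (2 * s₁))) ≤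
          pw (UL (Y (pre B (s + 1)) (st UL (pre B s) s).1 (2 * Nat.pair e s₁ + 1))) :=
        pw_prefix (hmono _ _ (Y_prefix _ _ (by omega)))
      linarith
  have hfin : xs s ∈ (st UL (pre B (s + 1)) (s + 1)).1 := by
    rw [st_succ]
    unfold step LL
    simp only
    rw [hact]
    simp
  rw [hsx] at hfin
  exact hcol _ ((mem_Op_Vf UL).2 ⟨s + 1, hfin⟩)

end Much

/-- Muchnik's low for K operator, for an abstract universal machine `UL` -/
theorem exists_muchnik (UL : List Bool → List (List Bool × ℕ)) (hUL : Computable UL)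
    (hmono : ∀ σ τ, σ <+: τ → UL σ <+: UL τ) (hw : ∀ σ, pw (UL σ) ≤ 1) :
    ∃ (V : List Bool → ℕ → Prop) (H : List Bool → List (List Bool × ℕ)), IsOp V ∧ Computable H ∧
      (∀ σ τ, σ <+: τ → H σ <+: H τ) ∧ (∀ σ, pw (H σ) ≤ 2) ∧
      (∀ B s, ∀ a ∈ UL (pre (join B (Op V B)) s), ∃ s', a ∈ H (pre B s')) ∧
      ∀ B, ¬ Red (Op V B) B := by
  refine ⟨Much.Vf UL, Much.Hf UL, Much.isOp_Vf hUL, Much.computable_Hf hUL,
    fun σ τ h => Much.Hf_mono UL h, fun σ => Much.pw_le_two hmono hw _ _, ?_,
    fun B => Much.not_red hmono hw B⟩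
  intro B u a ha
  obtain ⟨s, hs, h⟩ := Much.exists_Y_eq UL B u
  refine ⟨s, ?_⟩
  rw [← h] at ha
  unfold Much.Hf
  rw [pre_length]
  exact Much.mem_H hmono _ _ _ ((hmono _ _ (Much.Y_prefix _ _ hs)).subset ha)

end AC
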