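import Pool.Agent.Hhelper54.AC.ClZ

/-!
# The main construction of an almost complete PA set above `Z`
-/

namespace AC

open Low4 Encodable Denumerable
open Nat.Partrec (Code)

namespace PaJ

section defs

variable (q : Idx → ℕ)

/-- add one coding constraint -/
def app (I : Idx) (b : Bool) : Idx := (I.1, (q I, b) :: I.2)

/-- add `k` times the value `false` -/
def fl (I : Idx) (k : ℕ) : Idx := Nat.rec I (fun _ J => app q J false) k

/-- code the number `k` -/
def code (I : Idx) (k : ℕ) : Idx := app q (fl q I k) true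

/-- intermediate index -/
def mid (e : ℕ) (I : Idx) (k : ℕ) (c : Bool) : Idx :=
  (cond c I.1 (e :: I.1), (code q I k).2)

end defs

variable {q : Idx → ℕ}

theorem fl_succ (I : Idx) (k : ℕ) : fl q I (k + 1) = app q (fl q I k) false := rfl

theorem fl_fst (I : Idx) (k : ℕ) : (fl q I k).1 = I.1 := by
  induction k with
  | zero => rfl
  | succ k ih => rw [fl_succ]; exact ih

theorem code_fst (I : Idx) (k : ℕ) : (code q I k).1 = I.1 := fl_fst I k

section comp

variable {γ : Type} [Primcodable γ]

theorem computable_app (hq : Computable q) {f : γ → Idx} {g : γ → Bool} (hf : Computable f)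
    (hg : Computable g) : Computable fun c => app q (f c) (g c) := by
  have h1 : Computable fun c => (f c).1 := Computable.fst.comp hf
  have h2 : Computable fun c => (f c).2 := Computable.snd.comp hf
  have h3 : Computable fun c => (q (f c), g c) := Computable.pair (hq.comp hf) hg
  have h4 : Computable fun c => (q (f c), g c) :: (f c).2 := Computable.list_cons.comp h3 h2
  exact Computable.pair h1 h4

theorem computable_fl (hq : Computable q) {f : γ → Idx} {g : γ → ℕ} (hf : Computable f)
    (hg : Computable g) : Computable fun c => fl q (f c) (g c) := by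
  have h1 : Computable fun p : γ × (ℕ × Idx) => p.2.2 := Computable.snd.comp Computable.snd
  have h2 : Computable fun p : γ × (ℕ × Idx) => app q p.2.2 false :=
    computable_app hq h1 (Computable.const false)
  exact Computable.nat_rec (f := g) (g := f)
    (h := fun (_ : γ) (p : ℕ × Idx) => app q p.2 false) hg hf h2.to₂

theorem computable_code (hq : Computable q) {f : γ → Idx} {g : γ → ℕ} (hf : Computable f)
    (hg : Computable g) : Computable fun c => code q (f c) (g c) :=
  computable_app hq (computable_fl hq hf hg) (Computable.const true)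

theorem computable_mid (hq : Computable q) {e : γ → ℕ} {f : γ → Idx} {g : γ → ℕ} {b : γ → Bool}
    (he : Computable e) (hf : Computable f) (hg : Computable g) (hb : Computable b) :
    Computable fun c => mid q (e c) (f c) (g c) (b c) := by
  have h1 : Computable fun c => (f c).1 := Computable.fst.comp hf
  have h2 : Computable fun c => e c :: (f c).1 := Computable.list_cons.comp he h1
  have h3 : Computable fun c => (cond (b c) (f c).1 (e c :: (f c).1) : List ℕ) :=
    Computable.cond hb h1 h2
  have h4 : Computable fun c => (code q (f c) (g c)).2 :=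
    Computable.snd.comp (computable_code hq hf hg)
  exact Computable.pair h3 h4

end comp

section cls

variable {V : List Bool → ℕ → Prop} {Z : Set ℕ}

theorem Cl_app_sub (I : Idx) (b : Bool) : Cl V Z (app q I b) ⊆ Cl V Z I := by
  rintro X ⟨h1, h2, h3⟩
  exact ⟨h1, h2, fun p hp => h3 p (List.mem_cons_of_mem _ hp)⟩

theorem Cl_app_mem {I : Idx} {b : Bool} {X : Set ℕ} (h : X ∈ Cl V Z (app q I b)) :
    b = true ↔ q I ∈ X := h.2.2 (q I, b) (by simp [app])

theorem Cl_fl_sub (I : Idx) {k k' : ℕ} (h : k ≤ k') : Cl V Z (fl q I k') ⊆ Cl V Z (fl q I k) := by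
  induction h with
  | refl => exact subset_rfl
  | @step m _ ih => exact (Cl_app_sub (fl q I m) false).trans ih

theorem Cl_code_sub (I : Idx) (k : ℕ) : Cl V Z (code q I k) ⊆ Cl V Z I :=
  (Cl_app_sub _ _).trans (Cl_fl_sub I (Nat.zero_le k))

theorem Cl_mid_sub (e : ℕ) (I : Idx) (k : ℕ) (c : Bool) :
    Cl V Z (mid q e I k c) ⊆ Cl V Z (code q I k) := by
  rintro X ⟨h1, h2, h3⟩
  refine ⟨h1, fun i hi => h2 i ?_, h3⟩
  rw [code_fst] at hi
  cases c
  · exact List.mem_cons_of_mem _ hi
  · exact hi

theorem Cl_fl_nonempty (hq : ∀ I, (Cl V Z I).Nonempty → ∀ b : Bool,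
      (Cl V Z (I.1, (q I, b) :: I.2)).Nonempty) {I : Idx} (hI : (Cl V Z I).Nonempty) (k : ℕ) :
    (Cl V Z (fl q I k)).Nonempty := by
  induction k with
  | zero => exact hI
  | succ k ih => exact hq _ ih false

theorem Cl_code_nonempty (hq : ∀ I, (Cl V Z I).Nonempty → ∀ b : Bool,
      (Cl V Z (I.1, (q I, b) :: I.2)).Nonempty) {I : Idx} (hI : (Cl V Z I).Nonempty) (k : ℕ) :
    (Cl V Z (code q I k)).Nonempty := hq _ (Cl_fl_nonempty hq hI k) true

/-- `k` is the number coded in `X` after `I` -/
def Unq (q : Idx → ℕ) (X : Set ℕ) (I : Idx) (k : ℕ) : Prop :=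
  (∀ i < k, q (fl q I i) ∉ X) ∧ q (fl q I k) ∈ X

theorem Unq.unique {X : Set ℕ} {I : Idx} {k k' : ℕ} (h : Unq q X I k) (h' : Unq q X I k') :
    k = k' := by
  rcases lt_trichotomy k k' with hlt | heq | hlt
  · exact absurd h.2 (h'.1 k hlt)
  · exact heq
  · exact absurd h'.2 (h.1 k' hlt)

theorem unq_of_code {X : Set ℕ} {I : Idx} {k : ℕ} (h : X ∈ Cl V Z (code q I k)) :
    Unq q X I k := by
  refine ⟨fun i hi => ?_, (Cl_app_mem h).1 rfl⟩
  have h1 : X ∈ Cl V Z (fl q I (i + 1)) := Cl_fl_sub I hi (Cl_app_sub _ _ h)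
  rw [fl_succ] at h1
  intro hX
  exact absurd ((Cl_app_mem h1).2 hX) (by simp)

end cls

section ce

theorem ce_eq {α γ : Type} [Primcodable α] [Primcodable γ] {A : Set ℕ} {f g : γ → α}
    (hf : Computable f) (hg : Computable g) : CE A fun c => f c = g c := by
  have : DecidableEq α := Encodable.decidableEqOfEncodable α
  have heq : Computable fun z : α × α => decide (z.1 = z.2) :=
    (Primrec.eq (α := α)).decide.to_comp
  have h3 : Computable fun c : γ => decide (f c = g c) := heq.comp (Computable.pair hf hg)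
  exact (CE.of_sig1 (Sig1.of_computable h3)).of_eq fun z => by simp

theorem ce_Unq {γ : Type} [Primcodable γ] {X A : Set ℕ} (hX : Red X A) (hq : Computable q)
    {f : γ → Idx} {g : γ → ℕ} (hf : Computable f) (hg : Computable g) :
    CE A fun c => Unq q X (f c) (g c) := by
  have e1 : Computable fun z : γ × ℕ => f z.1 := hf.comp Computable.fst
  have e2 : Computable fun z : γ × ℕ => q (fl q (f z.1) z.2) :=
    hq.comp (computable_fl hq e1 Computable.snd)
  have h1 : CE A fun c : γ => ∀ i < g c, q (fl q (f c) i) ∉ X :=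
    CE.ball (p := fun (c : γ) i => q (fl q (f c) i) ∉ X) (f := g) (hX.2.comp e2) hg
  have e3 : Computable fun c : γ => q (fl q (f c) (g c)) := hq.comp (computable_fl hq hf hg)
  exact CE.and h1 (hX.1.comp e3)

/-- one step of the recovery -/
def Stp (q : Idx → ℕ) (X : Set ℕ) (P : ℕ → ℕ → Prop) (e : ℕ) (I : Idx) (z : ℕ × (Bool × Bool)) :
    Prop :=
  Unq q X I z.1 ∧ ((z.2.1 = true ∧ P e z.1) ∨ (z.2.1 = false ∧ ¬ P e z.1)) ∧
    ((z.2.2 = true ∧ q (mid q e I z.1 z.2.1) ∈ X) ∨ (z.2.2 = false ∧ q (mid q e I z.1 z.2.1) ∉ X))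

theorem Stp.unique {X : Set ℕ} {P : ℕ → ℕ → Prop} {e : ℕ} {I : Idx} {z z' : ℕ × (Bool × Bool)}
    (h : Stp q X P e I z) (h' : Stp q X P e I z') : z = z' := by
  obtain ⟨k, c, b⟩ := z
  obtain ⟨k', c', b'⟩ := z'
  obtain ⟨h1, h2, h3⟩ := h
  obtain ⟨h1', h2', h3'⟩ := h'
  simp only at h1 h2 h3 h1' h2' h3'
  have hk : k = k' := h1.unique h1'
  subst hk
  have hc : c = c' := by
    rcases h2 with ⟨r1, r2⟩ | ⟨r1, r2⟩ <;> rcases h2' with ⟨r1', r2'⟩ | ⟨r1', r2'⟩
    · rw [r1, r1']
    · exact absurd r2 r2'
    · exact absurd r2' r2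
    · rw [r1, r1']
  subst hc
  have hb : b = b' := by
    rcases h3 with ⟨r1, r2⟩ | ⟨r1, r2⟩ <;> rcases h3' with ⟨r1', r2'⟩ | ⟨r1', r2'⟩
    · rw [r1, r1']
    · exact absurd r2 r2'
    · exact absurd r2' r2
    · rw [r1, r1']
  rw [hb]

theorem ce_Stp {γ : Type} [Primcodable γ] {X A : Set ℕ} (hX : Red X A) {P : ℕ → ℕ → Prop}
    (hP : Dec A fun z : ℕ × ℕ => P z.1 z.2) (hq : Computable q) {e : γ → ℕ} {f : γ → Idx}
    {z : γ → ℕ × (Bool × Bool)} (he : Computable e) (hf : Computable f) (hz : Computable z) :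
    CE A fun y => Stp q X P (e y) (f y) (z y) := by
  have hk : Computable fun y => (z y).1 := Computable.fst.comp hz
  have hz2 : Computable fun y => (z y).2 := Computable.snd.comp hz
  have hc : Computable fun y => (z y).2.1 := Computable.fst.comp hz2
  have hb : Computable fun y => (z y).2.2 := Computable.snd.comp hz2
  have hm : Computable fun y => q (mid q (e y) (f y) (z y).1 (z y).2.1) :=
    hq.comp (computable_mid hq he hf hk hc)
  have hek : Computable fun y => (e y, (z y).1) := Computable.pair he hk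
  have p1 : CE A fun y => Unq q X (f y) (z y).1 := ce_Unq hX hq hf hk
  have p2 : CE A fun y => (z y).2.1 = true := ce_eq hc (Computable.const true)
  have p3 : CE A fun y => (z y).2.1 = false := ce_eq hc (Computable.const false)
  have p4 : CE A fun y => (z y).2.2 = true := ce_eq hb (Computable.const true)
  have p5 : CE A fun y => (z y).2.2 = false := ce_eq hb (Computable.const false)
  have p6 : CE A fun y => P (e y) (z y).1 := hP.1.comp hek
  have p7 : CE A fun y => ¬ P (e y) (z y).1 := hP.2.comp hek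
  have p8 : CE A fun y => q (mid q (e y) (f y) (z y).1 (z y).2.1) ∈ X := hX.1.comp hm
  have p9 : CE A fun y => q (mid q (e y) (f y) (z y).1 (z y).2.1) ∉ X := hX.2.comp hm
  exact CE.and p1 (CE.and (CE.or (CE.and p2 p6) (CE.and p3 p7))
    (CE.or (CE.and p4 p8) (CE.and p5 p9)))

/-- recovery of the sequence -/
theorem recover {X A : Set ℕ} (hX : Red X A) {P : ℕ → ℕ → Prop}
    (hP : Dec A fun z : ℕ × ℕ => P z.1 z.2) (hq : Computable q) (S : ℕ → Idx)
    (w : ℕ → ℕ × (Bool × Bool)) (h0 : S 0 = ([], []))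
    (hw : ∀ e, Stp q X P e (S e) (w e))
    (hS : ∀ e, S (e + 1) = app q (mid q e (S e) (w e).1 (w e).2.1) (w e).2.2) :
    CE A fun y : ℕ × (ℕ × (Bool × Bool)) => y.2 = w y.1 := by
  let N : Unit → ℕ → Idx → Idx → Prop := fun _ e I J =>
    ∃ z : ℕ × (Bool × Bool), Stp q X P e I z ∧ J = app q (mid q e I z.1 z.2.1) z.2.2
  let x0 : Unit → Idx := fun _ => ([], [])
  have hN : CE A fun z : (Unit × ℕ) × (Idx × Idx) => N z.1.1 z.1.2 z.2.1 z.2.2 := by
    refine CE.ex (p := fun (z : (Unit × ℕ) × (Idx × Idx)) (y : ℕ × (Bool × Bool)) =>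
      Stp q X P z.1.2 z.2.1 y ∧ z.2.2 = app q (mid q z.1.2 z.2.1 y.1 y.2.1) y.2.2) ?_
    have e1 : Computable fun y : ((Unit × ℕ) × (Idx × Idx)) × (ℕ × (Bool × Bool)) => y.1.1.2 :=
      Computable.snd.comp (Computable.fst.comp Computable.fst)
    have e2 : Computable fun y : ((Unit × ℕ) × (Idx × Idx)) × (ℕ × (Bool × Bool)) => y.1.2.1 :=
      Computable.fst.comp (Computable.snd.comp Computable.fst)
    have e3 : Computable fun y : ((Unit × ℕ) × (Idx × Idx)) × (ℕ × (Bool × Bool)) => y.1.2.2 :=
      Computable.snd.comp (Computable.snd.comp Computable.fst)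
    have e4 : Computable fun y : ((Unit × ℕ) × (Idx × Idx)) × (ℕ × (Bool × Bool)) => y.2.1 :=
      Computable.fst.comp Computable.snd
    have e5 : Computable fun y : ((Unit × ℕ) × (Idx × Idx)) × (ℕ × (Bool × Bool)) => y.2.2.1 :=
      Computable.fst.comp (Computable.snd.comp Computable.snd)
    have e6 : Computable fun y : ((Unit × ℕ) × (Idx × Idx)) × (ℕ × (Bool × Bool)) => y.2.2.2 :=
      Computable.snd.comp (Computable.snd.comp Computable.snd)
    exact CE.and (ce_Stp hX hP hq e1 e2 Computable.snd)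
      (ce_eq e3 (computable_app hq (computable_mid hq e1 e2 e4 e5) e6))
  have hIt : ∀ e I, It x0 N () e I ↔ I = S e := by
    intro e
    induction e with
    | zero =>
      intro I
      constructor
      · intro h
        cases h
        rw [h0]
      · rintro rfl
        rw [h0]
        exact It.zero
    | succ e ih =>
      intro J
      constructor
      · intro h
        cases h with
        | @succ _ x _ h1 h2 =>
          rw [ih] at h1
          subst h1
          obtain ⟨z, hz, hJ⟩ := h2
          have : z = w e := hz.unique (hw e)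
          subst this
          rw [hJ, hS]
      · rintro rfl
        exact It.succ ((ih _).2 rfl) ⟨w e, hw e, hS e⟩
  have h1 := ce_It (A := A) (x0 := x0) (N := N) (Computable.const _) hN
  have h2 : CE A fun y : ℕ × (ℕ × (Bool × Bool)) => ∃ I : Idx, It x0 N () y.1 I ∧
      Stp q X P y.1 I y.2 := by
    refine CE.ex (p := fun (y : ℕ × (ℕ × (Bool × Bool))) (I : Idx) => It x0 N () y.1 I ∧
      Stp q X P y.1 I y.2) (CE.and ?_ ?_)
    · exact h1.comp (f := fun y : (ℕ × (ℕ × (Bool × Bool))) × Idx => ((), (y.1.1, y.2)))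
        (Computable.pair (Computable.const ()) (Computable.pair
          (Computable.fst.comp Computable.fst) Computable.snd))
    · exact ce_Stp hX hP hq (e := fun y : (ℕ × (ℕ × (Bool × Bool))) × Idx => y.1.1)
        (f := fun y => y.2) (z := fun y => y.1.2) (Computable.fst.comp Computable.fst)
        Computable.snd (Computable.snd.comp Computable.fst)
  refine h2.of_eq fun y => ?_
  constructor
  · rintro ⟨I, hI, hy⟩
    rw [hIt] at hI
    subst hI
    exact hy.unique (hw y.1)
  · intro h
    exact ⟨S y.1, (hIt _ _).2 rfl, by rw [h]; exact hw y.1⟩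

theorem dec_of_graph {A : Set ℕ} {w : ℕ → ℕ × (Bool × Bool)}
    (h : CE A fun y : ℕ × (ℕ × (Bool × Bool)) => y.2 = w y.1) (g : ℕ × (Bool × Bool) → Bool)
    (hg : Computable g) : Dec A fun e => g (w e) = true := by
  have key : ∀ v : Bool, CE A fun e => g (w e) = v := by
    intro v
    have h2 : CE A fun e : ℕ => ∃ z : ℕ × (Bool × Bool), z = w e ∧ g z = v := by
      refine CE.ex (p := fun (e : ℕ) (z : ℕ × (Bool × Bool)) => z = w e ∧ g z = v) (CE.and h ?_)
      exact ce_eq (hg.comp Computable.snd) (Computable.const v)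
    refine h2.of_eq fun e => ?_
    constructor
    · rintro ⟨z, rfl, h⟩; exact h
    · intro h; exact ⟨_, rfl, h⟩
  exact ⟨key true, (key false).of_eq fun e => by simp⟩

end ce

theorem ce_halting (A : Set ℕ) : CE A fun n => n ∈ halting := by
  refine (CE.of_sig1 (Sig1.ex_nat (α := ℕ) (p := fun i t => KS t i = true) ?_)).of_eq
    fun i => mem_halting.symm
  exact Sig1.of_computable (primrec_KS.to_comp.comp (Computable.pair Computable.snd
    Computable.fst))

end PaJ

open PaJ in
theorem pa_join {V : List Bool → ℕ → Prop} (hV : IsOp V) (hV2 : ∀ B, ¬ Red (Op V B) B)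
    (Z : Set ℕ) (hZ : ¬ Red halting Z) :
    ∃ B, Red Z B ∧ IsPA B ∧ ¬ Red halting B ∧ Red halting (join B (Op V B)) := by
  classical
  obtain ⟨q, hq, hsplit⟩ := exists_split hV Z
  -- choice of the coded number
  have hchoice : ∀ (e : ℕ) (I : Idx), (Cl V Z I).Nonempty → ∃ k,
      (k ∉ halting ∧ (Cl V Z (e :: I.1, (code q I k).2)).Nonempty) ∨
      (k ∈ halting ∧ ¬ (Cl V Z (e :: I.1, (code q I k).2)).Nonempty) := by
    intro e I hI
    by_contra hcon
    push Not at hcon
    apply hZ
    refine ⟨ce_halting Z, ?_⟩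
    have h1 : CE Z fun k : ℕ => ¬ (Cl V Z (e :: I.1, (code q I k).2)).Nonempty := by
      have e1 : Computable fun k : ℕ => (code q I k).2 :=
        Computable.snd.comp (computable_code hq (Computable.const I) Computable.id)
      have e2 : Computable fun k : ℕ => ((e :: I.1, (code q I k).2) : Idx) :=
        Computable.pair (Computable.const _) e1
      exact (ce_Cl_empty hV Z).comp e2
    refine h1.of_eq fun k => ?_
    constructor
    · intro h hk
      exact h ((hcon k).2 hk)
    · intro h
      rw [(hcon k).1 h]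
      exact Set.not_nonempty_empty
  let kk : ℕ → Idx → ℕ := fun e I => if h : (Cl V Z I).Nonempty then (hchoice e I h).choose else 0
  have hkk : ∀ e I, (Cl V Z I).Nonempty →
      (kk e I ∉ halting ∧ (Cl V Z (e :: I.1, (code q I (kk e I)).2)).Nonempty) ∨
      (kk e I ∈ halting ∧ ¬ (Cl V Z (e :: I.1, (code q I (kk e I)).2)).Nonempty) := by
    intro e I h
    have := (hchoice e I h).choose_spec
    simp only [kk, dif_pos h]
    exact this
  let ww : ℕ → Idx → ℕ × (Bool × Bool) := fun e I =>
    (kk e I, (decide (kk e I ∈ halting), decide (e ∈ halting)))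
  let S : ℕ → Idx := fun e => Nat.rec ([], [])
    (fun e I => app q (mid q e I (ww e I).1 (ww e I).2.1) (ww e I).2.2) e
  have hS0 : S 0 = ([], []) := rfl
  have hS : ∀ e, S (e + 1) = app q (mid q e (S e) (ww e (S e)).1 (ww e (S e)).2.1)
      (ww e (S e)).2.2 := fun e => rfl
  have hmid : ∀ e I, (Cl V Z I).Nonempty →
      (Cl V Z (mid q e I (ww e I).1 (ww e I).2.1)).Nonempty := by
    intro e I hI
    rcases hkk e I hI with ⟨h1, h2⟩ | ⟨h1, h2⟩
    · have : mid q e I (ww e I).1 (ww e I).2.1 = (e :: I.1, (code q I (kk e I)).2) := by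
        simp [mid, ww, h1]
      rw [this]; exact h2
    · have : mid q e I (ww e I).1 (ww e I).2.1 = code q I (kk e I) := by
        have h3 : I.1 = (code q I (kk e I)).1 := (code_fst I _).symm
        simp only [mid, ww, h1, decide_true, cond_true]
        rw [h3]
      rw [this]; exact Cl_code_nonempty hsplit hI _
  have hne : ∀ e, (Cl V Z (S e)).Nonempty := by
    intro e
    induction e with
    | zero => exact Cl_nil V Z
    | succ e ih => rw [hS]; exact hsplit _ (hmid e _ ih) _
  have hsub1 : ∀ e, Cl V Z (S (e + 1)) ⊆ Cl V Z (code q (S e) (kk e (S e))) := by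
    intro e
    rw [hS]
    exact (Cl_app_sub _ _).trans (Cl_mid_sub _ _ _ _)
  obtain ⟨X, hX⟩ := Cl_inter hV Z S hne fun e => (hsub1 e).trans (Cl_code_sub _ _)
  set B := join X Z with hB
  have hXB : Red X B := red_join_left X Z
  -- behaviour of the operator
  have hop : ∀ e, e ∈ Op V B ↔ kk e (S e) ∈ halting := by
    intro e
    have hX1 := hX (e + 1)
    rcases hkk e (S e) (hne e) with ⟨h1, h2⟩ | ⟨h1, h2⟩
    · refine iff_of_false ?_ h1
      refine hX1.2.1 e ?_
      rw [hS]
      simp [app, mid, ww, h1]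
    · refine iff_of_true ?_ h1
      by_contra hcon
      apply h2
      have hX2 := hsub1 e hX1
      refine ⟨X, hX2.1, ?_, hX2.2.2⟩
      intro i hi
      rcases List.mem_cons.1 hi with h | h
      · rw [h]; exact hcon
      · exact (hX e).2.1 i h
  -- the recovery steps
  have hstp : ∀ (P : ℕ → ℕ → Prop), (∀ e, P e (kk e (S e)) ↔ kk e (S e) ∈ halting) →
      ∀ e, Stp q X P e (S e) (ww e (S e)) := by
    intro P hP e
    refine ⟨unq_of_code (hsub1 e (hX (e + 1))), ?_, ?_⟩
    · by_cases h : kk e (S e) ∈ halting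
      · left; exact ⟨by simp [ww, h], (hP e).2 h⟩
      · right; exact ⟨by simp [ww, h], fun h' => h ((hP e).1 h')⟩
    · have h1 := hX (e + 1)
      rw [hS] at h1
      have h2 := Cl_app_mem h1
      by_cases h : (ww e (S e)).2.2 = true
      · left; exact ⟨h, h2.1 h⟩
      · right; exact ⟨by simpa using h, fun h' => h (h2.2 h')⟩
  refine ⟨B, red_join_right X Z, isPA_of_Cl (V := V) (hX 0), ?_, ?_⟩
  · intro hcon
    apply hV2 B
    have hP : Dec B fun z : ℕ × ℕ => z.2 ∈ halting := Dec.comp hcon Computable.snd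
    have h1 := recover hXB hP hq S (fun e => ww e (S e)) hS0
      (hstp (fun _ k => k ∈ halting) fun e => Iff.rfl) hS
    have h2 := dec_of_graph (w := fun e => ww e (S e)) h1 (fun z => z.2.1)
      (Computable.fst.comp Computable.snd)
    refine h2.of_eq fun e => ?_
    rw [hop e]
    simp [ww]
  · have hXA : Red X (join B (Op V B)) := hXB.trans (red_join_left _ _)
    have hP : Dec (join B (Op V B)) fun z : ℕ × ℕ => z.1 ∈ Op V B :=
      Dec.comp (red_join_right B (Op V B)) Computable.fst
    have h1 := recover hXA hP hq S (fun e => ww e (S e)) hS0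
      (hstp (fun e _ => e ∈ Op V B) hop) hS
    have h2 := dec_of_graph (w := fun e => ww e (S e)) h1 (fun z => z.2.2)
      (Computable.snd.comp Computable.snd)
    refine h2.of_eq fun e => ?_
    simp [ww]

end AC
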