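import Pool.Agent.Hhelper54.AC.Cpt
import Pool.Agent.Hhelper54.AC.Op
import Pool.Agent.Hhelper54.AC.Iter
import Pool.Agent.Hhelper54.AC.PreK

/-!
# Classes of random sets
-/

namespace AC

open Low4 Encodable Denumerable
open Nat.Partrec (Code)

/-- number of strings of length `s` on which the `n`-th computation has not converged -/
def alive (n s : ℕ) : ℕ := Fintype.card {τ : List.Vector Bool s // Jt τ.1 n = none}

/-- index of a class: elements kept out, and an initial segment -/
abbrev IdxR : Type := List ℕ × List Bool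

/-- the class with index `I` -/
def ClR (G : List Bool → Prop) (V : List Bool → ℕ → Prop) (I : IdxR) : Set (Set ℕ) :=
  {X | (∀ s, ¬ G (pre X s)) ∧ (∀ e ∈ I.1, e ∉ Op V X) ∧ pre X I.2.length = I.2}

namespace RanCl

/-- dead strings of a class -/
def Dead (G : List Bool → Prop) (V : List Bool → ℕ → Prop) (I : IdxR) (τ : List Bool) : Prop :=
  G τ ∨ (∃ e ∈ I.1, V τ e) ∨ τ.take I.2.length ≠ I.2.take τ.length

theorem dead_mono {G : List Bool → Prop} {V : List Bool → ℕ → Prop}
    (hG2 : ∀ σ τ, σ <+: τ → G σ → G τ) (hV : IsOp V) (I : IdxR) (σ τ : List Bool) (h : σ <+: τ)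
    (hd : Dead G V I σ) : Dead G V I τ := by
  rcases hd with hd | ⟨e, he, hd⟩ | hd
  · exact Or.inl (hG2 σ τ h hd)
  · exact Or.inr (Or.inl ⟨e, he, hV.mono σ τ e h hd⟩)
  · refine Or.inr (Or.inr fun heq => hd ?_)
    have h1 : σ = τ.take σ.length := List.prefix_iff_eq_take.1 h
    have h2 : (τ.take I.2.length).take σ.length = (I.2.take τ.length).take σ.length := by rw [heq]
    rw [List.take_take, List.take_take] at h2
    have h3 : min σ.length τ.length = σ.length := min_eq_left h.length_le
    rw [h3] at h2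
    rw [← h2]
    nth_rewrite 1 [h1]
    rw [List.take_take, min_comm]

theorem mem_ClR {G : List Bool → Prop} {V : List Bool → ℕ → Prop} {I : IdxR} {X : Set ℕ} :
    X ∈ ClR G V I ↔ ∀ s, ¬ Dead G V I (pre X s) := by
  constructor
  · rintro ⟨h1, h2, h3⟩ s hd
    rcases hd with hd | ⟨e, he, hd⟩ | hd
    · exact h1 s hd
    · exact h2 e he ⟨s, hd⟩
    · apply hd
      rw [pre_length]
      nth_rewrite 2 [← h3]
      rcases le_total s I.2.length with h | h
      · rw [pre_take X _ _ h, List.take_of_length_le (by rw [pre_length]; exact h)]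
      · rw [pre_take X _ _ h, List.take_of_length_le (by rw [pre_length]; exact h)]
  · intro h
    refine ⟨fun s hs => h s (Or.inl hs), ?_, ?_⟩
    · rintro e he ⟨s, hs⟩
      exact h s (Or.inr (Or.inl ⟨e, he, hs⟩))
    · by_contra hne
      apply h I.2.length
      right; right
      rw [pre_length, List.take_of_length_le (by rw [pre_length]), List.take_of_length_le le_rfl]
      exact hne

theorem sig_dead {G : List Bool → Prop} {V : List Bool → ℕ → Prop} (hG : Sig1 G) (hV : IsOp V) :
    Sig1 fun z : IdxR × List Bool => Dead G V z.1 z.2 := by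
  refine Sig1.or (hG.comp Computable.snd) (Sig1.or ?_ ?_)
  · have h1 : Sig1 fun z : IdxR × List Bool => ∃ i < z.1.1.length, V z.2 (z.1.1.getD i 0) := by
      refine Sig1.bex (p := fun (z : IdxR × List Bool) i => V z.2 (z.1.1.getD i 0)) ?_
        (Computable.list_length.comp (Computable.fst.comp Computable.fst))
      refine hV.sig.comp (f := fun x : (IdxR × List Bool) × ℕ => (x.1.2, x.1.1.1.getD x.2 0)) ?_
      refine Computable.pair (Computable.snd.comp Computable.fst) ?_
      exact (Primrec.list_getD (0 : ℕ)).to_comp.comp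
        (Computable.fst.comp (Computable.fst.comp Computable.fst)) Computable.snd
    refine h1.of_eq fun z => ?_
    constructor
    · rintro ⟨i, hi, h⟩
      rw [List.getD_eq_getElem?_getD, List.getElem?_eq_getElem hi, Option.getD_some] at h
      exact ⟨_, List.getElem_mem hi, h⟩
    · rintro ⟨e, he, h⟩
      obtain ⟨i, hi, hie⟩ := List.getElem_of_mem he
      refine ⟨i, hi, ?_⟩
      rw [List.getD_eq_getElem?_getD, List.getElem?_eq_getElem hi, Option.getD_some, hie]
      exact h
  · have h2 : Computable fun z : IdxR × List Bool =>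
        !(decide (z.2.take z.1.2.length = z.1.2.take z.2.length)) := by
      refine Primrec.not.to_comp.comp ?_
      have h3 : Primrec fun y : List Bool × List Bool => decide (y.1 = y.2) :=
        (Primrec.eq (α := List Bool)).decide
      refine h3.to_comp.comp (Computable.pair ?_ ?_)
      · exact computable_take.comp Computable.snd
          (Computable.list_length.comp (Computable.snd.comp Computable.fst))
      · exact computable_take.comp (Computable.snd.comp Computable.fst)
          (Computable.list_length.comp Computable.snd)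
    refine (Sig1.of_computable h2).of_eq fun z => ?_
    simp

theorem pre_empty (s : ℕ) : pre (∅ : Set ℕ) s = List.replicate s false := by
  apply List.ext_getElem?
  intro i
  by_cases hi : i < s
  · rw [pre_getElem? _ _ _ hi, List.getElem?_replicate]
    simp [hi]
  · rw [pre_getElem?_none _ _ _ (not_lt.1 hi), List.getElem?_replicate]
    simp [hi]

theorem sig1_of_ce_empty {α : Type} [Primcodable α] {p : α → Prop} (h : CE ∅ p) : Sig1 p := by
  obtain ⟨W, hW, -, hp⟩ := h
  have hrep : Computable fun s : ℕ => pre (∅ : Set ℕ) s := by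
    have h1 : Computable fun s : ℕ => (List.range s).map fun _ => false := by
      exact (Primrec.list_map (f := fun s : ℕ => List.range s) (g := fun _ _ => false)
        Primrec.list_range (Primrec.const false).to₂).to_comp
    refine h1.of_eq fun s => ?_
    rw [pre_empty]
    apply List.ext_getElem?
    intro i
    by_cases hi : i < s <;> simp [hi]
  have h2 : Sig1 fun x : α × ℕ => W (pre (∅ : Set ℕ) x.2) x.1 :=
    hW.comp (f := fun x : α × ℕ => (pre (∅ : Set ℕ) x.2, x.1))
      (Computable.pair (hrep.comp Computable.snd) Computable.fst)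
  refine (Sig1.ex_nat (p := fun (a : α) (s : ℕ) => W (pre (∅ : Set ℕ) s) a) h2).of_eq fun a => ?_
  exact (hp a).symm

theorem card_ext (N l : ℕ) (hl : l ≤ N) (τ₀ : List Bool) (h0 : τ₀.length = l) (n : ℕ)
    (h : ∀ τ : List Bool, τ.length = N → (Jt τ n).isSome = true ∨ τ₀ <+: τ) :
    alive n N ≤ 2 ^ (N - l) := by
  unfold alive
  have hcard : Fintype.card (List.Vector Bool (N - l)) = 2 ^ (N - l) := by
    rw [card_vector, Fintype.card_bool]
  rw [← hcard]
  have hpre : ∀ τ : {τ : List.Vector Bool N // Jt τ.1 n = none}, τ₀ <+: τ.1.1 := by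
    intro τ
    rcases h τ.1.1 τ.1.2 with h1 | h1
    · rw [τ.2] at h1
      simp at h1
    · exact h1
  refine Fintype.card_le_of_injective
    (fun τ => (⟨τ.1.1.drop l, by rw [List.length_drop, τ.1.2]⟩ : List.Vector Bool (N - l))) ?_
  intro τ τ' hττ
  have h1 : τ.1.1.drop l = τ'.1.1.drop l := congrArg Subtype.val hττ
  have h2 : τ.1.1.take l = τ₀ := by
    have := List.prefix_iff_eq_take.1 (hpre τ)
    rw [h0] at this
    exact this.symm
  have h3 : τ'.1.1.take l = τ₀ := by
    have := List.prefix_iff_eq_take.1 (hpre τ')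
    rw [h0] at this
    exact this.symm
  apply Subtype.ext
  apply Subtype.ext
  rw [← List.take_append_drop l τ.1.1, ← List.take_append_drop l τ'.1.1, h1, h2, h3]

end RanCl

theorem re_ClR_empty {G : List Bool → Prop} {V : List Bool → ℕ → Prop} (hG : Sig1 G)
    (hG2 : ∀ σ τ, σ <+: τ → G σ → G τ) (hV : IsOp V) :
    Sig1 fun I : IdxR => ¬ (ClR G V I).Nonempty := by
  have h1 : CE ∅ fun I : IdxR => ¬ ∃ X : Set ℕ, ∀ s, ¬ RanCl.Dead G V I (pre X s) :=
    ce_tree_empty (CE.of_sig1 (RanCl.sig_dead hG hV)) (RanCl.dead_mono hG2 hV)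
  refine (RanCl.sig1_of_ce_empty h1).of_eq fun I => not_congr ?_
  constructor
  · rintro ⟨X, hX⟩
    exact ⟨X, RanCl.mem_ClR.2 hX⟩
  · rintro ⟨X, hX⟩
    exact ⟨X, RanCl.mem_ClR.1 hX⟩

theorem ClR_inter {G : List Bool → Prop} {V : List Bool → ℕ → Prop} (hG : Sig1 G)
    (hG2 : ∀ σ τ, σ <+: τ → G σ → G τ) (hV : IsOp V) (I : ℕ → IdxR)
    (hne : ∀ n, (ClR G V (I n)).Nonempty) (hanti : ∀ n, ClR G V (I (n + 1)) ⊆ ClR G V (I n)) :
    ∃ X, ∀ n, X ∈ ClR G V (I n) := by
  obtain ⟨X, hX⟩ := inter_tree (fun n τ => RanCl.Dead G V (I n) τ)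
    (fun n σ τ h hd => RanCl.dead_mono hG2 hV (I n) σ τ h hd)
    (fun n X h => RanCl.mem_ClR.1 (hanti n (RanCl.mem_ClR.2 h)))
    (fun n => by
      obtain ⟨X, hX⟩ := hne n
      exact ⟨X, RanCl.mem_ClR.1 hX⟩)
  exact ⟨X, fun n => RanCl.mem_ClR.2 (hX n)⟩

theorem two_ext {G : List Bool → Prop} {V : List Bool → ℕ → Prop} (hG : Sig1 G)
    (hG2 : ∀ σ τ, σ <+: τ → G σ → G τ) (hV : IsOp V)
    (hG3 : ∀ (n : ℕ) (X : Set ℕ), (∀ s, ¬ G (pre X s)) → (∀ s, Jt (pre X s) n = none) →
      ∀ s, 2 ^ s < 2 ^ (n + 3) * alive n s) :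
    ∃ l : IdxR → ℕ, Computable l ∧ ∀ I, (ClR G V I).Nonempty → ∃ τ₁ τ₂ : List Bool,
      τ₁.length = l I ∧ τ₂.length = l I ∧ τ₁ ≠ τ₂ ∧ I.2 <+: τ₁ ∧ I.2 <+: τ₂ ∧
      (ClR G V (I.1, τ₁)).Nonempty ∧ (ClR G V (I.1, τ₂)).Nonempty := by
  obtain ⟨c, hc⟩ := smn (fun τ y => RanCl.Dead G V ((decode y : Option IdxR).getD ([], [])) τ) (by
    refine (RanCl.sig_dead hG hV).comp
      (f := fun x : List Bool × ℕ => ((decode x.2 : Option IdxR).getD ([], []), x.1)) ?_
    refine Computable.pair ?_ Computable.fst
    exact Computable.option_getD (Computable.decode.comp Computable.snd) (Computable.const _))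
  have hc' : ∀ (I : IdxR) (X : Set ℕ), (∃ s, RanCl.Dead G V I (pre X s)) ↔
      ∃ s, (Jt (pre X s) (encode (Code.curry c (encode I)))).isSome = true := by
    intro I X
    have := hc X (encode I)
    simp only [encodek, Option.getD_some] at this
    exact this
  refine ⟨fun I => encode (Code.curry c (encode I)) + 3, ?_, ?_⟩
  · refine Computable.succ.comp (Computable.succ.comp (Computable.succ.comp ?_))
    exact Computable.encode.comp (Code.primrec₂_curry.to_comp.comp (Computable.const c)
      Computable.encode)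
  · intro I hne
    set n := encode (Code.curry c (encode I)) with hn
    set l := n + 3 with hl
    have hex : ∃ X₁ ∈ ClR G V I, ∃ X₂ ∈ ClR G V I, pre X₁ l ≠ pre X₂ l := by
      by_contra hcon
      push Not at hcon
      obtain ⟨X₀, hX₀⟩ := hne
      obtain ⟨N', hN'⟩ := compact_tree (fun τ => (Jt τ n).isSome = true ∨ pre X₀ l <+: τ) (by
        rintro σ τ h (h1 | h1)
        · exact Or.inl (Jt_isSome_mono h h1)
        · exact Or.inr (h1.trans h)) (by
        intro X
        by_cases hX : X ∈ ClR G V I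
        · refine ⟨l, Or.inr ?_⟩
          rw [hcon X₀ hX₀ X hX]
        · rw [RanCl.mem_ClR] at hX
          push Not at hX
          obtain ⟨s, hs⟩ := (hc' I X).1 hX
          exact ⟨s, Or.inl hs⟩)
      set N := max N' l with hNdef
      have hN : ∀ τ : List Bool, τ.length = N → (Jt τ n).isSome = true ∨ pre X₀ l <+: τ := by
        intro τ hτ
        have h1 : τ.take N' <+: τ := List.take_prefix _ _
        rcases hN' (τ.take N') (by
          rw [List.length_take, hτ]
          exact min_eq_left (le_max_left _ _)) with h2 | h2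
        · exact Or.inl (Jt_isSome_mono h1 h2)
        · exact Or.inr (h2.trans h1)
      have h1 := RanCl.card_ext N l (le_max_right _ _) (pre X₀ l) (pre_length X₀ l) n hN
      have h2 := hG3 n X₀ hX₀.1 (by
        intro s
        by_contra hne
        obtain ⟨v, hv⟩ := Option.ne_none_iff_exists'.1 hne
        obtain ⟨s', hs'⟩ := (hc' I X₀).2 ⟨s, by rw [hv]; rfl⟩
        exact RanCl.mem_ClR.1 hX₀ s' hs') N
      have h3 : 2 ^ (n + 3) * alive n N ≤ 2 ^ (n + 3) * 2 ^ (N - l) := Nat.mul_le_mul_left _ h1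
      rw [← pow_add] at h3
      have h4 : n + 3 + (N - l) = N := by
        have : l ≤ N := le_max_right _ _
        omega
      rw [h4] at h3
      omega
    obtain ⟨X₁, hX₁, X₂, hX₂, hne12⟩ := hex
    have hlen : I.2.length ≤ l := by
      by_contra hlt
      push Not at hlt
      apply hne12
      rw [← pre_take X₁ I.2.length l hlt.le, ← pre_take X₂ I.2.length l hlt.le, hX₁.2.2, hX₂.2.2]
    refine ⟨pre X₁ l, pre X₂ l, pre_length _ _, pre_length _ _, hne12, ?_, ?_, ?_, ?_⟩
    · have := pre_le X₁ hlen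
      rwa [hX₁.2.2] at this
    · have := pre_le X₂ hlen
      rwa [hX₂.2.2] at this
    · refine ⟨X₁, hX₁.1, hX₁.2.1, ?_⟩
      simp only [pre_length]
    · refine ⟨X₂, hX₂.1, hX₂.2.1, ?_⟩
      simp only [pre_length]

end AC
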