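import Mathlib
import Pool.Agent.Hhelper54.AC.Defs

/-!
# The measure of a Martin-Löf test given by blocks of strings
-/

namespace AC

open MeasureTheory ProbabilityTheory ENNReal

lemma uniformOn_bool (b : Bool) :
    (uniformOn (Set.univ : Set Bool) {b}) = (1 / 2 : ℝ≥0∞) := by
  rw [uniformOn_univ, Measure.count_singleton]
  simp

/-- The measure of a cylinder. -/
lemma coin_cyl (σ : List Bool) : coin (cyl σ) ≤ (1 / 2) ^ σ.length := by
  have h : cyl σ ⊆ Set.pi (Finset.range σ.length : Set ℕ) (fun i => {σ.getD i false}) := by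
    intro x hx i hi
    have hi' : i < σ.length := by simpa using hi
    have h1 : σ[i]? = some (σ.getD i false) := by
      rw [List.getD_eq_getElem _ _ hi', List.getElem?_eq_getElem hi']
    exact hx i _ h1
  refine (measure_mono h).trans ?_
  rw [coin, Measure.infinitePi_pi _ (fun i _ => measurableSet_singleton _)]
  rw [Finset.prod_congr rfl (fun i _ => uniformOn_bool _), Finset.prod_const, Finset.card_range]

lemma geom_tail (m : ℕ) : ∑' k : ℕ, (1 / 2 : ℝ≥0∞) ^ (m + k + 1) = (1 / 2) ^ m := by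
  have h : ∀ k : ℕ, (1 / 2 : ℝ≥0∞) ^ (m + k + 1) = (1 / 2) ^ (m + 1) * (1 / 2) ^ k := by
    intro k
    rw [← pow_add]
    congr 1
    omega
  simp only [h]
  rw [ENNReal.tsum_mul_left, ENNReal.tsum_geometric, pow_succ, mul_assoc]
  have h2 : (1 - 1 / 2 : ℝ≥0∞) = 2⁻¹ := by
    rw [one_div, ENNReal.one_sub_inv_two]
  rw [h2, inv_inv, one_div, ENNReal.inv_mul_cancel (by norm_num) (by norm_num), mul_one]

/-- The measure of one block. -/
lemma block_small {n s : ℕ} {l : List (List Bool)} (hl : ∀ σ ∈ l, σ.length = s)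
    (hc : l.length * 2 ^ (2 * n + 1) ≤ 2 ^ s) :
    coin (⋃ σ ∈ {σ | σ ∈ l}, cyl σ) ≤ (1 / 2) ^ (2 * n + 1) := by
  classical
  have h1 : (⋃ σ ∈ {σ | σ ∈ l}, cyl σ) = ⋃ σ ∈ l.toFinset, cyl σ := by
    ext x
    simp
  rw [h1]
  refine (measure_biUnion_finset_le _ _).trans ?_
  have h2 : ∑ σ ∈ l.toFinset, coin (cyl σ) ≤ ∑ σ ∈ l.toFinset, (1 / 2 : ℝ≥0∞) ^ s := by
    apply Finset.sum_le_sum
    intro σ hσ
    have := coin_cyl σ
    rwa [hl σ (List.mem_toFinset.1 hσ)] at this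
  refine h2.trans ?_
  rw [Finset.sum_const, nsmul_eq_mul]
  have h3 : (l.toFinset.card : ℝ≥0∞) ≤ l.length := by
    exact_mod_cast l.toFinset_card_le
  have h4 : (l.length : ℝ≥0∞) * 2 ^ (2 * n + 1) ≤ 2 ^ s := by exact_mod_cast hc
  have h5 : (l.toFinset.card : ℝ≥0∞) ≤ 2 ^ s / 2 ^ (2 * n + 1) := by
    rw [ENNReal.le_div_iff_mul_le (Or.inl (by positivity)) (Or.inl (by finiteness))]
    exact (mul_le_mul_left h3 _).trans h4
  calc (l.toFinset.card : ℝ≥0∞) * (1 / 2) ^ s ≤ 2 ^ s / 2 ^ (2 * n + 1) * (1 / 2) ^ s :=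
        mul_le_mul_left h5 _
    _ = (1 / 2) ^ (2 * n + 1) := by
        rw [one_div, ← ENNReal.inv_pow, ← ENNReal.inv_pow, div_eq_mul_inv, mul_comm, ← mul_assoc,
          ENNReal.inv_mul_cancel (by positivity) (by finiteness), one_mul]

theorem small_of_lists (W : ℕ → List Bool → Prop) (C : ℕ → ℕ → List Bool → Prop)
    (hW : ∀ m σ, W m σ ↔ ∃ n ≥ m, ∃ c ≤ n, C n c σ)
    (hC : ∀ n c, ∃ (s : ℕ) (l : List (List Bool)), (∀ σ, C n c σ → σ ∈ l) ∧
      (∀ σ ∈ l, σ.length = s) ∧ l.length * 2 ^ (2 * n + 1) ≤ 2 ^ s) (m : ℕ) :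
    coin (⋃ σ ∈ {σ | W m σ}, cyl σ) ≤ (1 / 2) ^ m := by
  choose s l h1 h2 h3 using hC
  have hsub : (⋃ σ ∈ {σ | W m σ}, cyl σ) ⊆
      ⋃ k : ℕ, ⋃ c ∈ Finset.range (m + k + 1), ⋃ σ ∈ {σ | σ ∈ l (m + k) c}, cyl σ := by
    intro x hx
    simp only [Set.mem_iUnion, Set.mem_ofPred_eq, exists_prop] at hx ⊢
    obtain ⟨σ, hσ, hxσ⟩ := hx
    obtain ⟨n, hn, c, hc, hC⟩ := (hW m σ).1 hσ
    obtain ⟨k, rfl⟩ := Nat.exists_eq_add_of_le hn
    exact ⟨k, c, Finset.mem_range.2 (by omega), σ, h1 _ _ _ hC, hxσ⟩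
  refine (measure_mono hsub).trans ((measure_iUnion_le _).trans ?_)
  rw [← geom_tail m]
  apply ENNReal.tsum_le_tsum
  intro k
  refine (measure_biUnion_finset_le _ _).trans ?_
  have h4 : ∑ c ∈ Finset.range (m + k + 1), coin (⋃ σ ∈ {σ | σ ∈ l (m + k) c}, cyl σ)
      ≤ ∑ c ∈ Finset.range (m + k + 1), (1 / 2 : ℝ≥0∞) ^ (2 * (m + k) + 1) := by
    apply Finset.sum_le_sum
    intro c _
    exact block_small (h2 _ _) (h3 _ _)
  refine h4.trans ?_
  rw [Finset.sum_const, Finset.card_range, nsmul_eq_mul]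
  have h5 : ((m + k + 1 : ℕ) : ℝ≥0∞) ≤ 2 ^ (m + k) := by
    have : m + k + 1 ≤ 2 ^ (m + k) := Nat.lt_two_pow_self
    exact_mod_cast this
  calc ((m + k + 1 : ℕ) : ℝ≥0∞) * (1 / 2) ^ (2 * (m + k) + 1)
      ≤ 2 ^ (m + k) * (1 / 2) ^ (2 * (m + k) + 1) := mul_le_mul_left h5 _
    _ = (1 / 2) ^ (m + k + 1) := by
        have h6 : 2 * (m + k) + 1 = (m + k) + (m + k + 1) := by ring
        rw [h6, pow_add (1 / 2 : ℝ≥0∞) (m + k) (m + k + 1), ← mul_assoc, ← mul_pow, one_div,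
          ENNReal.mul_inv_cancel (by norm_num) (by norm_num), one_pow, one_mul]

end AC
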