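import Pool.Agent.Hhelper54.AC.Jt
import Pool.Agent.Hhelper54.AC.Test

/-!
# Random sets below PA sets which do not compute the halting set: diagonalising the jump
-/

namespace AC.TA

open Low4 Encodable Denumerable
open Nat.Partrec (Code)

/-- `i` has entered the halting set by stage `s` -/
def KS (s i : ℕ) : Bool := (Code.evaln s (ofNat Code i) i).isSome

theorem primrec_KS : Primrec₂ KS := by
  unfold KS
  have h : Primrec fun x : ℕ × ℕ => Code.evaln x.1 (ofNat Code x.2) x.2 :=
    Code.primrec_evaln.comp (Primrec.pair (Primrec.pair Primrec.fst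
      ((Primrec.ofNat Code).comp Primrec.snd)) Primrec.snd)
  exact (Primrec.option_isSome.comp h).to₂

theorem KS_mono {s t i : ℕ} (h : s ≤ t) (h1 : KS s i = true) : KS t i = true := by
  unfold KS at *
  obtain ⟨x, hx⟩ := Option.isSome_iff_exists.1 h1
  rw [show Code.evaln t (ofNat Code i) i = some x from Code.evaln_mono h hx]
  rfl

theorem mem_halting_iff {i : ℕ} : i ∈ halting ↔ ∃ s, KS s i = true := by
  unfold halting KS
  rw [Set.mem_ofPred_eq, Part.dom_iff_mem]
  constructor
  · rintro ⟨y, hy⟩
    obtain ⟨k, hk⟩ := Code.evaln_complete.1 hy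
    exact ⟨k, Option.isSome_iff_exists.2 ⟨y, hk⟩⟩
  · rintro ⟨s, hs⟩
    obtain ⟨x, hx⟩ := Option.isSome_iff_exists.1 hs
    exact ⟨x, Code.evaln_complete.2 ⟨s, hx⟩⟩

/-- the number of elements below `n` which have entered the halting set by stage `s` -/
def count (n s : ℕ) : ℕ := Nat.rec 0 (fun i c => cond (KS s i) (c + 1) c) n

theorem count_succ (n s : ℕ) : count (n + 1) s = cond (KS s n) (count n s + 1) (count n s) := rfl

theorem primrec_count : Primrec₂ count := by
  unfold count
  refine Primrec.nat_rec' (f := fun x : ℕ × ℕ => x.1) (g := fun _ => 0)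
    (h := fun (x : ℕ × ℕ) (p : ℕ × ℕ) => cond (KS x.2 p.1) (p.2 + 1) p.2)
    Primrec.fst (Primrec.const 0) ?_
  refine Primrec.cond (primrec_KS.comp (Primrec.snd.comp Primrec.fst)
    (Primrec.fst.comp Primrec.snd)) (Primrec.succ.comp (Primrec.snd.comp Primrec.snd))
    (Primrec.snd.comp Primrec.snd)

theorem count_le (n s : ℕ) : count n s ≤ n := by
  induction n with
  | zero => exact le_rfl
  | succ n ih => rw [count_succ]; cases KS s n <;> simp <;> omega

theorem count_mono (n : ℕ) {s t : ℕ} (h : s ≤ t) : count n s ≤ count n t := by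
  induction n with
  | zero => exact le_rfl
  | succ n ih =>
    rw [count_succ, count_succ]
    cases h1 : KS s n with
    | true => rw [KS_mono h h1]; simpa using ih
    | false => cases h2 : KS t n <;> simp <;> omega

theorem count_lt {n x s t : ℕ} (hx : x < n) (h : s ≤ t) (h1 : KS s x = false)
    (h2 : KS t x = true) : count n s < count n t := by
  induction n with
  | zero => omega
  | succ n ih =>
    rw [count_succ, count_succ]
    rcases Nat.lt_succ_iff_lt_or_eq.1 hx with hx | hx
    · have ih := ih hx
      cases h3 : KS s n with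
      | true => rw [KS_mono h h3]; simpa using ih
      | false => cases h4 : KS t n <;> simp <;> omega
    · subst hx
      rw [h1, h2]
      have := count_mono x h
      simp
      omega

/-- stage `s` is the first one at which the count below `n` is `c` -/
def isFirst (n c s : ℕ) : Bool :=
  decide (count n s = c) && bAll (fun s' => !decide (count n s' = c)) s

theorem isFirst_iff {n c s : ℕ} :
    isFirst n c s = true ↔ count n s = c ∧ ∀ s' < s, count n s' ≠ c := by
  unfold isFirst
  rw [Bool.and_eq_true, bAll_iff]
  simp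

theorem computable_isFirst : Computable fun x : ℕ × ℕ × ℕ => isFirst x.1 x.2.1 x.2.2 := by
  unfold isFirst
  refine Primrec.and.to_comp.comp ?_ ?_
  · exact (Primrec.eq (α := ℕ)).decide.to_comp.comp (primrec_count.to_comp.comp Computable.fst
      (Computable.snd.comp Computable.snd)) (Computable.fst.comp Computable.snd)
  · refine computable_bAll (α := ℕ × ℕ × ℕ) (R := fun x s' => !decide (count x.1 s' = x.2.1))
      (f := fun x => x.2.2) ?_ (Computable.snd.comp Computable.snd)
    have h1 : Computable fun y : (ℕ × ℕ × ℕ) × ℕ => count y.1.1 y.2 :=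
      primrec_count.to_comp.comp (Computable.fst.comp Computable.fst) Computable.snd
    have h2 : Computable fun y : (ℕ × ℕ × ℕ) × ℕ => y.1.2.1 :=
      Computable.fst.comp (Computable.snd.comp Computable.fst)
    have h3 : Computable fun y : (ℕ × ℕ × ℕ) × ℕ => decide (count y.1.1 y.2 = y.1.2.1) :=
      (Primrec.eq (α := ℕ)).decide.to_comp.comp h1 h2
    exact (Primrec.not.to_comp.comp h3).to₂

theorem isFirst_unique {n c s t : ℕ} (h1 : isFirst n c s = true) (h2 : isFirst n c t = true) :
    s = t := by
  rw [isFirst_iff] at h1 h2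
  rcases lt_trichotomy s t with h | h | h
  · exact absurd h1.1 (h2.2 s h)
  · exact h
  · exact absurd h2.1 (h1.2 t h)

/-- if the element `x < n` enters after stage `s`, then some later stage is the first one at which the
count has its value -/
theorem exists_isFirst {n x s : ℕ} (hx : x < n) (h1 : KS s x = false) (h2 : x ∈ halting) :
    ∃ t ≥ s, isFirst n (count n t) t = true := by
  obtain ⟨t0, ht0⟩ := mem_halting_iff.1 h2
  have hst : s ≤ t0 := by
    by_contra hlt
    have := KS_mono (le_of_lt (not_le.1 hlt)) ht0
    rw [h1] at this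
    exact absurd this (by simp)
  have hex : ∃ t, count n s < count n t := ⟨t0, count_lt hx hst h1 ht0⟩
  refine ⟨Nat.find hex, ?_, ?_⟩
  · by_contra hlt
    have h3 := Nat.find_spec hex
    have h4 := count_mono n (le_of_lt (not_le.1 hlt))
    omega
  · rw [isFirst_iff]
    refine ⟨rfl, fun s' hs' heq => ?_⟩
    have h3 := Nat.find_spec hex
    have h4 := Nat.find_min hex hs'
    omega

/-- block length -/
def L (n : ℕ) : ℕ := 2 * n + 1

theorem primrec_L : Primrec L :=
  Primrec.succ.comp (Primrec.nat_mul.comp (Primrec.const 2) Primrec.id)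

/-- the list of all binary strings of length `s` -/
def strs (s : ℕ) : List (List Bool) :=
  Nat.rec [[]] (fun _ l => l.flatMap fun σ => [false :: σ, true :: σ]) s

theorem strs_succ (s : ℕ) : strs (s + 1) = (strs s).flatMap fun σ => [false :: σ, true :: σ] := rfl

theorem primrec_strs : Primrec strs := by
  unfold strs
  refine Primrec.nat_rec₁ _ ?_
  refine Primrec.list_flatMap (f := fun x : ℕ × List (List Bool) => x.2)
    (g := fun _ (σ : List Bool) => [false :: σ, true :: σ]) Primrec.snd ?_
  exact (Primrec.list_cons.comp (Primrec.list_cons.comp (Primrec.const false) Primrec.snd)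
    (Primrec.list_cons.comp (Primrec.list_cons.comp (Primrec.const true) Primrec.snd)
      (Primrec.const []))).to₂

theorem mem_strs {s : ℕ} {σ : List Bool} : σ ∈ strs s ↔ σ.length = s := by
  induction s generalizing σ with
  | zero => simp [strs, List.length_eq_zero_iff]
  | succ s ih =>
    rw [strs_succ, List.mem_flatMap]
    constructor
    · rintro ⟨τ, h1, h2⟩
      rw [ih] at h1
      simp only [List.mem_cons, List.not_mem_nil, or_false] at h2
      rcases h2 with rfl | rfl <;> simp [h1]
    · intro h
      rcases σ with _ | ⟨b, τ⟩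
      · simp at h
      · refine ⟨τ, ih.2 (by simpa using h), ?_⟩
        cases b <;> simp

theorem length_strs (s : ℕ) : (strs s).length = 2 ^ s := by
  induction s with
  | zero => rfl
  | succ s ih =>
    rw [strs_succ, List.length_flatMap]
    simp [ih, pow_succ]

theorem nodup_strs (s : ℕ) : (strs s).Nodup := by
  induction s with
  | zero => simp [strs]
  | succ s ih =>
    rw [strs_succ, List.nodup_flatMap]
    refine ⟨fun σ _ => by simp, ?_⟩
    refine ih.imp fun {σ τ} hne => ?_
    intro ρ h1 h2
    simp only [List.mem_cons, List.not_mem_nil, or_false] at h1 h2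
    apply hne
    rcases h1 with rfl | rfl <;> rcases h2 with h2 | h2 <;> simp_all

/-- the `c`-th block of the string with code `w` -/
def blk (n c w : ℕ) : List Bool :=
  (((decode w : Option (List Bool)).getD []).drop (c * L n)).take (L n)

theorem primrec_blk : Primrec fun x : ℕ × ℕ × ℕ => blk x.1 x.2.1 x.2.2 := by
  unfold blk
  refine Primrec.list_take.comp (primrec_L.comp Primrec.fst) (Primrec.list_drop.comp
    (Primrec.nat_mul.comp (Primrec.fst.comp Primrec.snd) (primrec_L.comp Primrec.fst)) ?_)
  exact Primrec.option_getD.comp (Primrec.decode.comp (Primrec.snd.comp Primrec.snd))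
    (Primrec.const [])

/-- does the `c`-th block of the value computed by `σ` equal `v`? -/
def hits (n c : ℕ) (v σ : List Bool) : Bool := decide ((Jt σ n).map (blk n c) = some v)

theorem primrec_hits : Primrec fun x : (ℕ × ℕ) × (List Bool × List Bool) =>
    hits x.1.1 x.1.2 x.2.1 x.2.2 := by
  unfold hits
  refine (Primrec.eq (α := Option (List Bool))).decide.comp ?_ ?_
  · refine Primrec.option_map (primrec_Jt.comp (Primrec.snd.comp Primrec.snd)
      (Primrec.fst.comp Primrec.fst)) ?_
    exact (primrec_blk.comp (Primrec.pair (Primrec.fst.comp (Primrec.fst.comp Primrec.fst))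
      (Primrec.pair (Primrec.snd.comp (Primrec.fst.comp Primrec.fst)) Primrec.snd))).to₂
  · exact Primrec.option_some.comp (Primrec.fst.comp Primrec.snd)

/-- the strings of length `s` which hit `v` -/
def hitl (n c s : ℕ) (v : List Bool) : List (List Bool) :=
  (strs s).filterMap fun σ => cond (hits n c v σ) (some σ) none

theorem primrec_hitl : Primrec fun x : (ℕ × ℕ × ℕ) × List Bool =>
    hitl x.1.1 x.1.2.1 x.1.2.2 x.2 := by
  unfold hitl
  refine Primrec.listFilterMap (f := fun x : (ℕ × ℕ × ℕ) × List Bool => strs x.1.2.2)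
    (g := fun x σ => cond (hits x.1.1 x.1.2.1 x.2 σ) (some σ) none) ?_ ?_
  · exact primrec_strs.comp (Primrec.snd.comp (Primrec.snd.comp Primrec.fst))
  · have h1 : Primrec fun y : ((ℕ × ℕ × ℕ) × List Bool) × List Bool =>
        hits y.1.1.1 y.1.1.2.1 y.1.2 y.2 :=
      primrec_hits.comp (Primrec.pair
        (Primrec.pair (Primrec.fst.comp (Primrec.fst.comp Primrec.fst))
          (Primrec.fst.comp (Primrec.snd.comp (Primrec.fst.comp Primrec.fst))))
        (Primrec.pair (Primrec.snd.comp Primrec.fst) Primrec.snd))
    exact (Primrec.cond h1 (Primrec.option_some.comp Primrec.snd) (Primrec.const none)).to₂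

theorem mem_hitl {n c s : ℕ} {v σ : List Bool} :
    σ ∈ hitl n c s v ↔ σ.length = s ∧ (Jt σ n).map (blk n c) = some v := by
  unfold hitl
  rw [List.mem_filterMap]
  constructor
  · rintro ⟨τ, h1, h2⟩
    cases h3 : hits n c v τ with
    | false => rw [h3] at h2; simp at h2
    | true =>
      rw [h3] at h2
      simp only [cond_true, Option.some.injEq] at h2
      subst h2
      exact ⟨mem_strs.1 h1, of_decide_eq_true h3⟩
  · rintro ⟨h1, h2⟩
    refine ⟨σ, mem_strs.2 h1, ?_⟩
    rw [show hits n c v σ = true from decide_eq_true h2]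
    rfl

/-- pigeonhole -/
theorem sum_filterMap_le {T : Finset (List Bool)} (f : List Bool → Option (List Bool))
    (l : List (List Bool)) :
    ∑ v ∈ T, (l.filterMap fun σ => cond (decide (f σ = some v)) (some σ) none).length ≤
      l.length := by
  induction l with
  | nil => simp
  | cons σ l ih =>
    have h1 : ∀ v, ((σ :: l).filterMap fun σ => cond (decide (f σ = some v)) (some σ) none).length
        = (l.filterMap fun σ => cond (decide (f σ = some v)) (some σ) none).length +
          (if f σ = some v then 1 else 0) := by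
      intro v
      rw [List.filterMap_cons]
      by_cases h : f σ = some v <;> simp [h]
    rw [Finset.sum_congr rfl fun v _ => h1 v, Finset.sum_add_distrib]
    have h2 : ∑ v ∈ T, (if f σ = some v then 1 else 0) ≤ 1 := by
      rw [Finset.sum_ite, Finset.sum_const_zero, add_zero, Finset.sum_const, smul_eq_mul, mul_one,
        Finset.card_le_one]
      intro a ha b hb
      have h3 := (Finset.mem_filter.1 ha).2
      have h4 := (Finset.mem_filter.1 hb).2
      rw [h3] at h4
      exact Option.some.inj h4
    rw [List.length_cons]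
    omega

theorem exists_small (n c s : ℕ) : ∃ v ∈ strs (L n), (hitl n c s v).length * 2 ^ L n ≤ 2 ^ s := by
  by_contra hcon
  push Not at hcon
  have h1 := sum_filterMap_le (T := (strs (L n)).toFinset) (fun σ => (Jt σ n).map (blk n c))
    (strs s)
  have h2 : ∑ v ∈ (strs (L n)).toFinset, 2 ^ s <
      ∑ v ∈ (strs (L n)).toFinset, (hitl n c s v).length * 2 ^ L n := by
    refine Finset.sum_lt_sum_of_nonempty ?_ fun v hv => hcon v (List.mem_toFinset.1 hv)
    refine ⟨List.replicate (L n) false, ?_⟩
    rw [List.mem_toFinset, mem_strs]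
    simp
  rw [← Finset.sum_mul, Finset.sum_const, smul_eq_mul, List.toFinset_card_of_nodup (nodup_strs _),
    length_strs] at h2
  rw [length_strs] at h1
  have h3 : (∑ v ∈ (strs (L n)).toFinset, (hitl n c s v).length) * 2 ^ L n ≤ 2 ^ s * 2 ^ L n :=
    Nat.mul_le_mul_right _ h1
  rw [mul_comm (2 ^ L n)] at h2
  omega

/-- the value of the block `(n, c)` avoided by most strings of length `s` -/
def vv (n c s : ℕ) : List Bool :=
  (strs (L n)).getD ((strs (L n)).findIdx fun v =>
    decide ((hitl n c s v).length * 2 ^ L n ≤ 2 ^ s)) []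

theorem primrec_vv : Primrec fun x : ℕ × ℕ × ℕ => vv x.1 x.2.1 x.2.2 := by
  unfold vv
  refine (Primrec.list_getD []).comp (primrec_strs.comp (primrec_L.comp Primrec.fst)) ?_
  refine Primrec.list_findIdx (f := fun x : ℕ × ℕ × ℕ => strs (L x.1))
    (p := fun x v => decide ((hitl x.1 x.2.1 x.2.2 v).length * 2 ^ L x.1 ≤ 2 ^ x.2.2))
    (primrec_strs.comp (primrec_L.comp Primrec.fst)) ?_
  have hpow : Primrec fun k : ℕ => 2 ^ k := by
    have := Primrec.nat_rec₁ (f := fun _ r => 2 * r) 1
      ((Primrec.nat_mul.comp (Primrec.const 2) (Primrec.snd (α := ℕ) (β := ℕ))).to₂)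
    refine this.of_eq fun k => ?_
    induction k with
    | zero => rfl
    | succ k ih => rw [pow_succ, mul_comm, ← ih]
  have h1 : Primrec fun y : (ℕ × ℕ × ℕ) × List Bool =>
      (hitl y.1.1 y.1.2.1 y.1.2.2 y.2).length * 2 ^ L y.1.1 :=
    Primrec.nat_mul.comp (Primrec.list_length.comp primrec_hitl)
      (hpow.comp (primrec_L.comp (Primrec.fst.comp Primrec.fst)))
  have h2 : Primrec fun y : (ℕ × ℕ × ℕ) × List Bool => 2 ^ y.1.2.2 :=
    hpow.comp (Primrec.snd.comp (Primrec.snd.comp Primrec.fst))
  exact (Primrec.nat_le.decide.comp h1 h2).to₂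

theorem vv_spec (n c s : ℕ) :
    (vv n c s).length = L n ∧ (hitl n c s (vv n c s)).length * 2 ^ L n ≤ 2 ^ s := by
  obtain ⟨v, hv, hv2⟩ := exists_small n c s
  set p : List Bool → Bool := fun v =>
    decide ((hitl n c s v).length * 2 ^ L n ≤ 2 ^ s) with hp
  have h1 : (strs (L n)).findIdx p < (strs (L n)).length :=
    List.findIdx_lt_length_of_exists ⟨v, hv, by rw [hp]; exact decide_eq_true hv2⟩
  have h2 : vv n c s = (strs (L n))[(strs (L n)).findIdx p] := by
    unfold vv
    rw [List.getD_eq_getElem _ _ h1]
  constructor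
  · rw [h2]
    exact mem_strs.1 (List.getElem_mem h1)
  · have h3 : p ((strs (L n))[(strs (L n)).findIdx p]) = true := List.findIdx_getElem
    rw [← h2] at h3
    exact of_decide_eq_true h3

theorem hits_iff {n c : ℕ} {v σ : List Bool} :
    hits n c v σ = true ↔ (Jt σ n).map (blk n c) = some v := by
  unfold hits
  exact decide_eq_true_iff

attribute [local irreducible] KS count isFirst hits vv hitl strs

/-- the strings in the block `(n, c)` of the test -/
def Cb (n c : ℕ) (σ : List Bool) : Prop :=
  isFirst n c σ.length = true ∧ hits n c (vv n c σ.length) σ = true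

/-- the test -/
def Wt (m : ℕ) (σ : List Bool) : Prop := ∃ n ≥ m, ∃ c ≤ n, Cb n c σ

theorem re_Wt : REPred fun p : ℕ × List Bool => Wt p.1 p.2 := by
  have h1 : Computable fun y : (ℕ × List Bool) × (ℕ × ℕ) => isFirst y.2.1 y.2.2 y.1.2.length :=
    computable_isFirst.comp (Computable.pair (Computable.fst.comp Computable.snd)
      (Computable.pair (Computable.snd.comp Computable.snd)
        (Computable.list_length.comp (Computable.snd.comp Computable.fst))))
  have h2 : Computable fun y : (ℕ × List Bool) × (ℕ × ℕ) =>
      vv y.2.1 y.2.2 y.1.2.length :=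
    primrec_vv.to_comp.comp (Computable.pair (Computable.fst.comp Computable.snd)
      (Computable.pair (Computable.snd.comp Computable.snd)
        (Computable.list_length.comp (Computable.snd.comp Computable.fst))))
  have h3 : Computable fun y : (ℕ × List Bool) × (ℕ × ℕ) =>
      hits y.2.1 y.2.2 (vv y.2.1 y.2.2 y.1.2.length) y.1.2 :=
    primrec_hits.to_comp.comp (Computable.pair Computable.snd
      (Computable.pair h2 (Computable.snd.comp Computable.fst)))
  have h4 : Computable fun y : (ℕ × List Bool) × (ℕ × ℕ) => decide (y.1.1 ≤ y.2.1) :=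
    Primrec.nat_le.decide.to_comp.comp (Computable.fst.comp Computable.fst)
      (Computable.fst.comp Computable.snd)
  have h5 : Computable fun y : (ℕ × List Bool) × (ℕ × ℕ) => decide (y.2.2 ≤ y.2.1) :=
    Primrec.nat_le.decide.to_comp.comp (Computable.snd.comp Computable.snd)
      (Computable.fst.comp Computable.snd)
  have h6 := ((Sig1.of_computable h4).and (Sig1.of_computable h5)).and
    ((Sig1.of_computable h1).and (Sig1.of_computable h3))
  have h7 := Sig1.ex (α := ℕ × List Bool) (β := ℕ × ℕ) (p := fun x y =>
    (decide (x.1 ≤ y.1) = true ∧ decide (y.2 ≤ y.1) = true) ∧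
      (isFirst y.1 y.2 x.2.length = true ∧ hits y.1 y.2 (vv y.1 y.2 x.2.length) x.2 = true)) h6
  refine (h7.of_eq fun x => ?_).re
  unfold Wt Cb
  constructor
  · rintro ⟨⟨n, c⟩, ⟨k1, k2⟩, k3, k4⟩
    exact ⟨n, of_decide_eq_true k1, c, of_decide_eq_true k2, k3, k4⟩
  · rintro ⟨n, k1, c, k2, k3, k4⟩
    exact ⟨(n, c), ⟨decide_eq_true k1, decide_eq_true k2⟩, k3, k4⟩

theorem isMLTest_Wt : IsMLTest Wt := by
  refine ⟨re_Wt, small_of_lists Wt Cb (fun m σ => Iff.rfl) fun n c => ?_⟩
  by_cases hex : ∃ s, isFirst n c s = true
  · obtain ⟨s, hs⟩ := hex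
    refine ⟨s, hitl n c s (vv n c s), ?_, ?_, (vv_spec n c s).2⟩
    · rintro σ ⟨h1, h2⟩
      have h3 := isFirst_unique h1 hs
      rw [h3] at h2
      exact mem_hitl.2 ⟨h3, hits_iff.1 h2⟩
    · intro σ hσ
      exact (mem_hitl.1 hσ).1
  · refine ⟨0, [], ?_, by simp, by simp⟩
    rintro σ ⟨h1, -⟩
    exact absurd ⟨_, h1⟩ hex

/-- is `s` the first stage relevant for the bit `a`? -/
def phiF (a s : ℕ) : Bool := isFirst a.unpair.1 (a.unpair.2 / L a.unpair.1) s

/-- the bit `a`, computed from the stage `s` -/
def phiV (a s : ℕ) : Bool :=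
  (vv a.unpair.1 (a.unpair.2 / L a.unpair.1) s).getD (a.unpair.2 % L a.unpair.1) false

theorem computable_unp1 : Computable fun y : ℕ × ℕ => y.1.unpair.1 :=
  Computable.fst.comp (Computable.unpair.comp Computable.fst)

theorem computable_unp2 : Computable fun y : ℕ × ℕ => y.1.unpair.2 :=
  Computable.snd.comp (Computable.unpair.comp Computable.fst)

theorem computable_div : Computable fun y : ℕ × ℕ => y.1.unpair.2 / L y.1.unpair.1 :=
  Primrec.nat_div.to_comp.comp computable_unp2 (primrec_L.to_comp.comp computable_unp1)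

theorem computable_mod : Computable fun y : ℕ × ℕ => y.1.unpair.2 % L y.1.unpair.1 :=
  Primrec.nat_mod.to_comp.comp computable_unp2 (primrec_L.to_comp.comp computable_unp1)

theorem computable_phiF : Computable₂ phiF := by
  unfold phiF
  exact (computable_isFirst.comp
    (Computable.pair computable_unp1 (Computable.pair computable_div Computable.snd))).to₂

theorem computable_phiV : Computable₂ phiV := by
  unfold phiV
  have h1 : Computable fun y : ℕ × ℕ =>
      vv y.1.unpair.1 (y.1.unpair.2 / L y.1.unpair.1) y.2 :=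
    Computable.comp (f := fun x : ℕ × ℕ × ℕ => vv x.1 x.2.1 x.2.2)
      (g := fun y : ℕ × ℕ => (y.1.unpair.1, y.1.unpair.2 / L y.1.unpair.1, y.2))
      primrec_vv.to_comp
      (Computable.pair computable_unp1 (Computable.pair computable_div Computable.snd))
  exact ((Primrec.list_getD false).to_comp.comp h1 computable_mod).to₂

/-- the bits of the blocks, as a partial computable function -/
def phi : ℕ →. Bool := fun a => (Nat.rfind fun s => Part.some (phiF a s)).map (phiV a)

theorem partrec_phi : Partrec phi :=
  Partrec.map (Partrec.rfind computable_phiF.partrec₂) computable_phiV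

theorem mem_phi {n c s j : ℕ} (h : isFirst n c s = true) (hj : j < L n) :
    (vv n c s).getD j false ∈ phi (Nat.pair n (c * L n + j)) := by
  have hL : 0 < L n := by unfold L; omega
  have h1 : (c * L n + j) / L n = c := by
    rw [mul_comm, Nat.mul_add_div hL, Nat.div_eq_of_lt hj, add_zero]
  have h2 : (c * L n + j) % L n = j := by
    rw [mul_comm, Nat.mul_add_mod, Nat.mod_eq_of_lt hj]
  have h5 : phiV (Nat.pair n (c * L n + j)) s = (vv n c s).getD j false := by
    unfold phiV
    simp only [Nat.unpair_pair, h1, h2]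
  have h6 : ∀ t, phiF (Nat.pair n (c * L n + j)) t = isFirst n c t := by
    intro t
    unfold phiF
    simp only [Nat.unpair_pair, h1]
  unfold phi
  rw [← h5]
  refine Part.mem_map _ ?_
  simp only [h6]
  rw [Nat.mem_rfind]
  refine ⟨by rw [h]; exact Part.mem_some _, fun {t} ht => ?_⟩
  have h3 : isFirst n c t = false := by
    cases h4 : isFirst n c t with
    | false => rfl
    | true => exact absurd (isFirst_unique h4 h) (ne_of_lt ht)
  rw [h3]
  exact Part.mem_some _

/-- the function avoiding the jump -/
def hh (g : ℕ → Bool) (n : ℕ) : ℕ :=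
  encode ((List.range ((n + 1) * L n)).map fun j => g (Nat.pair n j))

theorem blk_hh {g : ℕ → Bool} (hg : ∀ n b, b ∈ phi n → g n = b) {n c s : ℕ} (hc : c ≤ n)
    (hs : isFirst n c s = true) : blk n c (hh g n) = vv n c s := by
  unfold blk hh
  rw [Encodable.encodek, Option.getD_some]
  apply List.ext_getElem?
  intro i
  by_cases hi : i < L n
  · have h1 : c * L n + i < (n + 1) * L n := by
      have : (c + 1) * L n ≤ (n + 1) * L n := Nat.mul_le_mul_right _ (by omega)
      have h2 : (c + 1) * L n = c * L n + L n := by ring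
      omega
    rw [List.getElem?_take_of_lt hi, List.getElem?_drop, List.getElem?_map,
      List.getElem?_range h1, Option.map_some, hg _ _ (mem_phi hs hi)]
    have h3 : i < (vv n c s).length := by rw [(vv_spec n c s).1]; exact hi
    rw [List.getD_eq_getElem _ _ h3, List.getElem?_eq_getElem h3]
  · rw [List.getElem?_eq_none, List.getElem?_eq_none]
    · rw [(vv_spec n c s).1]; omega
    · exact (List.length_take_le _ _).trans (not_lt.1 hi)

theorem ce_hh {A : Set ℕ} {g : ℕ → Bool} (hg : ComputableIn {chi A} g) :
    CE A fun p : ℕ × ℕ => hh g p.1 = p.2 := by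
  have hd := dec_of_computableIn hg
  have h0 : Computable fun y : ((ℕ × ℕ) × List Bool) × ℕ => y.1.2.getD y.2 false :=
    (Primrec.list_getD false).to_comp.comp (Computable.snd.comp Computable.fst) Computable.snd
  have h1 : Computable fun y : ((ℕ × ℕ) × List Bool) × ℕ => Nat.pair y.1.1.1 y.2 :=
    Primrec₂.natPair.to_comp.comp (Computable.fst.comp (Computable.fst.comp Computable.fst))
      Computable.snd
  have h2 : CE A fun y : ((ℕ × ℕ) × List Bool) × ℕ =>
      (y.1.2.getD y.2 false = true ∧ g (Nat.pair y.1.1.1 y.2) = true) ∨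
      ((!(y.1.2.getD y.2 false)) = true ∧ ¬ g (Nat.pair y.1.1.1 y.2) = true) :=
    ((CE.of_sig1 (Sig1.of_computable h0)).and (hd.1.comp h1)).or
      ((CE.of_sig1 (Sig1.of_computable (Primrec.not.to_comp.comp h0))).and (hd.2.comp h1))
  have h3 := CE.ball (A := A) (α := (ℕ × ℕ) × List Bool) (p := fun y j =>
      (y.2.getD j false = true ∧ g (Nat.pair y.1.1 j) = true) ∨
      ((!(y.2.getD j false)) = true ∧ ¬ g (Nat.pair y.1.1 j) = true))
      (f := fun y => y.2.length) h2 (Computable.list_length.comp Computable.snd)
  have h4 : Computable fun y : (ℕ × ℕ) × List Bool => decide (encode y.2 = y.1.2) :=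
    (Primrec.eq (α := ℕ)).decide.to_comp.comp (Computable.encode.comp Computable.snd)
      (Computable.snd.comp Computable.fst)
  have h5 : Computable fun y : (ℕ × ℕ) × List Bool =>
      decide (y.2.length = (y.1.1 + 1) * L y.1.1) := by
    have k1 : Computable fun y : (ℕ × ℕ) × List Bool => y.1.1 :=
      Computable.fst.comp Computable.fst
    exact (Primrec.eq (α := ℕ)).decide.to_comp.comp (Computable.list_length.comp Computable.snd)
      (Primrec.nat_mul.to_comp.comp (Primrec.succ.to_comp.comp k1) (primrec_L.to_comp.comp k1))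
  have h6 := CE.ex (A := A) (α := ℕ × ℕ) (β := List Bool) (p := fun x l =>
      (decide (encode l = x.2) = true ∧ decide (l.length = (x.1 + 1) * L x.1) = true) ∧
      ∀ j < l.length, (l.getD j false = true ∧ g (Nat.pair x.1 j) = true) ∨
      ((!(l.getD j false)) = true ∧ ¬ g (Nat.pair x.1 j) = true))
      (((CE.of_sig1 (Sig1.of_computable h4)).and (CE.of_sig1 (Sig1.of_computable h5))).and h3)
  refine h6.of_eq ?_
  rintro ⟨n, w⟩
  simp only
  constructor
  · rintro ⟨l, ⟨k1, k2⟩, k3⟩
    have k1 := of_decide_eq_true k1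
    have k2 := of_decide_eq_true k2
    rw [← k1]
    unfold hh
    congr 1
    apply List.ext_getElem?
    intro i
    rw [List.getElem?_map]
    by_cases hi : i < l.length
    · rw [List.getElem?_range (by omega), List.getElem?_eq_getElem hi, Option.map_some]
      have k4 := k3 i hi
      rw [List.getD_eq_getElem _ _ hi] at k4
      congr 1
      rcases k4 with ⟨e1, e2⟩ | ⟨e1, e2⟩
      · rw [e1, e2]
      · rw [Bool.not_eq_true'] at e1
        rw [e1]
        simpa using e2
    · rw [List.getElem?_eq_none (not_lt.1 hi), List.getElem?_eq_none (by simp; omega)]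
      rfl
  · intro h
    refine ⟨(List.range ((n + 1) * L n)).map fun j => g (Nat.pair n j),
      ⟨decide_eq_true h, decide_eq_true (by simp)⟩, fun j hj => ?_⟩
    have hj2 : j < (n + 1) * L n := by simpa using hj
    rw [List.getD_eq_getElem _ _ hj, List.getElem_map, List.getElem_range]
    cases g (Nat.pair n j) <;> simp

theorem sig1_halting : Sig1 fun x : ℕ => x ∈ halting := by
  refine (Sig1.ex_nat (α := ℕ) (p := fun x s => KS s x = true)
    (Sig1.of_computable (primrec_KS.to_comp.comp Computable.snd Computable.fst))).of_eq fun x => ?_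
  rw [mem_halting_iff]

theorem thmA (Z A : Set ℕ) (hZ : IsRandom Z) (hZA : Low4.Red Z A) (hPA : IsPA A) :
    Low4.Red halting A ∨ ∃ h : ℕ → ℕ, Low4.CE A (fun p : ℕ × ℕ => h p.1 = p.2) ∧
      ∀ n s, Jt (Low4.pre Z s) n ≠ some (h n) := by
  classical
  obtain ⟨g, hgA, hg⟩ := hPA phi partrec_phi
  have hce := ce_hh hgA
  obtain ⟨m, hm⟩ : ∃ m, ∀ s, ¬ Wt m (pre Z s) := by
    obtain ⟨m, hm⟩ := hZ Wt isMLTest_Wt
    refine ⟨m, fun s hs => hm ?_⟩
    rw [Set.mem_iUnion₂]
    refine ⟨pre Z s, hs, fun i b hib => ?_⟩
    by_cases hi : i < s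
    · rw [pre_getElem? Z _ _ hi] at hib
      simpa using hib
    · rw [pre_getElem?_none Z _ _ (not_lt.1 hi)] at hib
      simp at hib
  by_cases hcase : ∀ N, ∃ n ≥ N, ∃ s, Jt (pre Z s) n = some (hh g n)
  · left
    refine ⟨CE.of_sig1 sig1_halting, ?_⟩
    -- the complement of the halting set is c.e. in `A`
    have h1 : CE A fun y : ℕ × (ℕ × List Bool × ℕ) => y.2.2.1 = pre Z y.2.2.1.length :=
      (ce_initial hZA).comp (Computable.fst.comp (Computable.snd.comp Computable.snd))
    have h2 : CE A fun y : ℕ × (ℕ × List Bool × ℕ) => hh g y.2.1 = y.2.2.2 :=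
      hce.comp (f := fun y : ℕ × (ℕ × List Bool × ℕ) => (y.2.1, y.2.2.2))
        (Computable.pair (Computable.fst.comp Computable.snd)
          (Computable.snd.comp (Computable.snd.comp Computable.snd)))
    have h3 : Computable fun y : ℕ × (ℕ × List Bool × ℕ) => decide (y.1 < y.2.1) :=
      Primrec.nat_lt.decide.to_comp.comp Computable.fst (Computable.fst.comp Computable.snd)
    have h4 : Computable fun y : ℕ × (ℕ × List Bool × ℕ) => decide (m ≤ y.2.1) :=
      Primrec.nat_le.decide.to_comp.comp (Computable.const m)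
        (Computable.fst.comp Computable.snd)
    have h5 : Computable fun y : ℕ × (ℕ × List Bool × ℕ) =>
        decide (Jt y.2.2.1 y.2.1 = some y.2.2.2) :=
      (Primrec.eq (α := Option ℕ)).decide.to_comp.comp
        (primrec_Jt.to_comp.comp (Computable.fst.comp (Computable.snd.comp Computable.snd))
          (Computable.fst.comp Computable.snd))
        (Computable.option_some.comp (Computable.snd.comp (Computable.snd.comp Computable.snd)))
    have h6 : Computable fun y : ℕ × (ℕ × List Bool × ℕ) => !(KS y.2.2.1.length y.1) :=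
      Primrec.not.to_comp.comp (primrec_KS.to_comp.comp (Computable.list_length.comp
        (Computable.fst.comp (Computable.snd.comp Computable.snd))) Computable.fst)
    have h7 := CE.ex (A := A) (α := ℕ) (β := ℕ × List Bool × ℕ) (p := fun x y =>
        (y.2.1 = pre Z y.2.1.length ∧ hh g y.1 = y.2.2) ∧
        ((decide (x < y.1) = true ∧ decide (m ≤ y.1) = true) ∧
          (decide (Jt y.2.1 y.1 = some y.2.2) = true ∧ (!(KS y.2.1.length x)) = true)))
        ((h1.and h2).and (((CE.of_sig1 (Sig1.of_computable h3)).and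
          (CE.of_sig1 (Sig1.of_computable h4))).and ((CE.of_sig1 (Sig1.of_computable h5)).and
          (CE.of_sig1 (Sig1.of_computable h6)))))
    refine h7.of_eq fun x => ?_
    constructor
    · rintro ⟨⟨n, σ, w⟩, ⟨k1, k2⟩, ⟨k3, k4⟩, k5, k6⟩ hx
      simp only at k1 k2 k3 k4 k5 k6
      have k3 := of_decide_eq_true k3
      have k4 := of_decide_eq_true k4
      have k5 := of_decide_eq_true k5
      rw [Bool.not_eq_true'] at k6
      obtain ⟨t, ht, hfirst⟩ := exists_isFirst k3 k6 hx
      apply hm t
      refine ⟨n, k4, count n t, count_le n t, ?_, ?_⟩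
      · rw [pre_length]; exact hfirst
      · rw [pre_length]
        rw [hits_iff]
        have k7 : Jt (pre Z t) n = some (hh g n) := by
          refine Jt_mono (σ := σ) ?_ (by rw [k5, k2])
          rw [k1]
          exact pre_le Z ht
        rw [k7, Option.map_some, blk_hh hg (count_le n t) hfirst]
    · intro hx
      obtain ⟨n, hn, s, hs⟩ := hcase (max (x + 1) m)
      refine ⟨(n, pre Z s, hh g n), ⟨by simp, rfl⟩, ⟨decide_eq_true ?_, decide_eq_true ?_⟩,
        decide_eq_true hs, ?_⟩
      · exact lt_of_lt_of_le (Nat.lt_succ_self x) ((le_max_left _ _).trans hn)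
      · exact (le_max_right _ _).trans hn
      · rw [Bool.not_eq_true']
        cases hks : KS (pre Z s).length x with
        | false => rfl
        | true => exact absurd (mem_halting_iff.2 ⟨_, hks⟩) hx
  · right
    push Not at hcase
    obtain ⟨N, hN⟩ := hcase
    have htab : ∀ n, ∃ w, ∀ s, Jt (pre Z s) n ≠ some w := by
      intro n
      by_cases h0 : ∃ s, Jt (pre Z s) n = some 0
      · obtain ⟨s0, hs0⟩ := h0
        refine ⟨1, fun s hs => ?_⟩
        have e1 := Jt_mono (pre_le Z (le_max_left s s0)) hs
        have e2 := Jt_mono (pre_le Z (le_max_right s s0)) hs0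
        rw [e1] at e2
        simp at e2
      · exact ⟨0, fun s hs => h0 ⟨s, hs⟩⟩
    choose tab htab using htab
    refine ⟨fun n => if n < N then tab n else hh g n, ?_, fun n s => ?_⟩
    · have h1 : Computable fun p : ℕ × ℕ => decide (((List.range N).map tab)[p.1]? = some p.2) :=
        (Primrec.eq (α := Option ℕ)).decide.to_comp.comp
          (Computable.list_getElem?.comp (Computable.const _) Computable.fst)
          (Computable.option_some.comp Computable.snd)
      have h2 : Computable fun p : ℕ × ℕ => decide (N ≤ p.1) :=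
        Primrec.nat_le.decide.to_comp.comp (Computable.const N) Computable.fst
      refine ((CE.of_sig1 (Sig1.of_computable h1)).or
        ((CE.of_sig1 (Sig1.of_computable h2)).and hce)).of_eq ?_
      rintro ⟨n, w⟩
      simp only [decide_eq_true_eq]
      by_cases hn : n < N
      · rw [List.getElem?_map, List.getElem?_range hn]
        simp [hn, not_le.2 hn]
      · rw [List.getElem?_eq_none (by simpa using hn)]
        simp [hn, not_lt.1 hn]
    · by_cases hn : n < N
      · simp only [hn, if_true]
        exact htab n s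
      · simp only [hn, if_false]
        exact hN n (not_lt.1 hn) s

end AC.TA
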