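import Pool.Agent.Hhelper54.AC.Op
import Pool.Agent.Hhelper54.AC.ThmA
import Pool.Agent.Hhelper54.AC.RanCl

/-!
# A c.e. open set with random complement, with lower bounds for the measure of subclasses
-/

namespace AC

open Low4 Encodable Denumerable
open Nat.Partrec (Code)
open MeasureTheory ProbabilityTheory ENNReal

namespace RanG

open TA (strs mem_strs length_strs nodup_strs primrec_strs)

/-- the strings of length `s` with (`b = true`) or without (`b = false`) convergence -/
def selL (b : Bool) (n s : ℕ) : List (List Bool) :=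
  (strs s).filterMap fun σ => cond (decide ((Jt σ n).isSome = b)) (some σ) none

theorem primrec_selL (b : Bool) : Primrec fun x : ℕ × ℕ => selL b x.1 x.2 := by
  unfold selL
  refine Primrec.listFilterMap (f := fun x : ℕ × ℕ => strs x.2)
    (g := fun x σ => cond (decide ((Jt σ x.1).isSome = b)) (some σ) none)
    (primrec_strs.comp Primrec.snd) ?_
  have h1 : Primrec fun y : (ℕ × ℕ) × List Bool => decide ((Jt y.2 y.1.1).isSome = b) :=
    (Primrec.eq (α := Bool)).decide.comp (Primrec.option_isSome.comp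
      (primrec_Jt.comp Primrec.snd (Primrec.fst.comp Primrec.fst))) (Primrec.const b)
  exact (Primrec.cond h1 (Primrec.option_some.comp Primrec.snd) (Primrec.const none)).to₂

theorem selL_eq (b : Bool) (n s : ℕ) :
    selL b n s = (strs s).filter fun σ => decide ((Jt σ n).isSome = b) := by
  unfold selL
  rw [← List.filterMap_eq_filter]
  congr 1
  funext σ
  by_cases h : (Jt σ n).isSome = b <;> simp [Option.guard, h]

theorem mem_selL {b : Bool} {n s : ℕ} {σ : List Bool} :
    σ ∈ selL b n s ↔ σ.length = s ∧ (Jt σ n).isSome = b := by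
  rw [selL_eq, List.mem_filter, mem_strs, decide_eq_true_iff]

theorem nodup_selL (b : Bool) (n s : ℕ) : (selL b n s).Nodup := by
  rw [selL_eq]
  exact (nodup_strs s).filter _

theorem alive_eq (n s : ℕ) : alive n s = (selL false n s).length := by
  classical
  rw [← List.toFinset_card_of_nodup (nodup_selL false n s), alive, Fintype.card_subtype]
  refine Finset.card_bij (fun τ _ => τ.1) ?_ ?_ ?_
  · intro τ hτ
    rw [List.mem_toFinset, mem_selL]
    have := (Finset.mem_filter.1 hτ).2
    exact ⟨τ.2, by rw [this]; rfl⟩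
  · intro a _ b _ hab
    exact Subtype.ext hab
  · intro σ hσ
    rw [List.mem_toFinset, mem_selL] at hσ
    refine ⟨⟨σ, hσ.1⟩, ?_, rfl⟩
    rw [Finset.mem_filter]
    refine ⟨Finset.mem_univ _, ?_⟩
    have := hσ.2
    simpa using this

/-- index of the `c`-th test -/
def ix (c : ℕ) : ℕ := encode (Code.curry (ofNat Code c) (c + 2))

theorem primrec_ix : Primrec ix := by
  unfold ix
  exact Primrec.encode.comp (Code.primrec₂_curry.comp (Primrec.ofNat Code)
    (Primrec.nat_add.comp Primrec.id (Primrec.const 2)))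

/-- the condition of the first kind at level `s` -/
def gA (c s : ℕ) : Prop := (selL true (ix c) s).length * 2 ^ (c + 2) ≤ 2 ^ s

/-- the condition of the second kind at level `s` -/
def gB (n s : ℕ) : Prop := (selL false n s).length * 2 ^ (n + 3) ≤ 2 ^ s

/-- the c.e. open set -/
def G (τ : List Bool) : Prop :=
  ∃ c s, s ≤ τ.length ∧ ((gA c s ∧ (Jt (τ.take s) (ix c)).isSome = true) ∨
    (gB c s ∧ (Jt (τ.take s) c).isSome = false))

theorem primrec_pow2 : Primrec fun k : ℕ => 2 ^ k := by
  have := Primrec.nat_rec₁ (f := fun _ r => 2 * r) 1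
    ((Primrec.nat_mul.comp (Primrec.const 2) (Primrec.snd (α := ℕ) (β := ℕ))).to₂)
  refine this.of_eq fun k => ?_
  induction k with
  | zero => rfl
  | succ k ih => rw [pow_succ, mul_comm, ← ih]

instance (c s : ℕ) : Decidable (gA c s) := inferInstanceAs (Decidable (_ ≤ _))
instance (c s : ℕ) : Decidable (gB c s) := inferInstanceAs (Decidable (_ ≤ _))

theorem computable_gA : Computable fun x : ℕ × ℕ => decide (gA x.1 x.2) := by
  have h1 : Primrec fun x : ℕ × ℕ => (ix x.1, x.2) :=
    Primrec.pair (primrec_ix.comp Primrec.fst) Primrec.snd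
  have h2 : Primrec fun x : ℕ × ℕ => selL true (ix x.1) x.2 := (primrec_selL true).comp h1
  have h3 : Primrec fun x : ℕ × ℕ => (selL true (ix x.1) x.2).length :=
    Primrec.list_length.comp h2
  have h4 : Primrec fun x : ℕ × ℕ => 2 ^ (x.1 + 2) :=
    primrec_pow2.comp (Primrec.nat_add.comp Primrec.fst (Primrec.const 2))
  have h5 : Primrec fun x : ℕ × ℕ => (selL true (ix x.1) x.2).length * 2 ^ (x.1 + 2) :=
    Primrec.nat_mul.comp h3 h4
  have h6 : Primrec fun x : ℕ × ℕ => 2 ^ x.2 := primrec_pow2.comp Primrec.snd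
  exact (Primrec.nat_le.decide.comp h5 h6).to_comp

theorem computable_gB : Computable fun x : ℕ × ℕ => decide (gB x.1 x.2) := by
  unfold gB
  refine Primrec.nat_le.decide.to_comp.comp ?_ (primrec_pow2.to_comp.comp Computable.snd)
  refine Primrec.nat_mul.to_comp.comp (Computable.list_length.comp
    ((primrec_selL false).to_comp.comp Computable.id)) (primrec_pow2.to_comp.comp ?_)
  exact Primrec.nat_add.to_comp.comp Computable.fst (Computable.const 3)

theorem sig_G_aux (a b d e : ℕ → List Bool → ℕ → Bool)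
    (h1 : Computable fun y : List Bool × (ℕ × ℕ) => decide (y.2.2 ≤ y.1.length))
    (ha : Computable fun y : List Bool × (ℕ × ℕ) => a y.2.2 y.1 y.2.1)
    (hb : Computable fun y : List Bool × (ℕ × ℕ) => b y.2.2 y.1 y.2.1)
    (hd : Computable fun y : List Bool × (ℕ × ℕ) => d y.2.2 y.1 y.2.1)
    (he : Computable fun y : List Bool × (ℕ × ℕ) => e y.2.2 y.1 y.2.1) :
    Sig1 fun τ : List Bool => ∃ c s, s ≤ τ.length ∧ ((a s τ c = true ∧ b s τ c = true) ∨
      (d s τ c = true ∧ e s τ c = true)) := by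
  have h6 := (Sig1.of_computable h1).and (((Sig1.of_computable ha).and (Sig1.of_computable hb)).or
    ((Sig1.of_computable hd).and (Sig1.of_computable he)))
  refine (Sig1.ex (p := fun (τ : List Bool) (y : ℕ × ℕ) => decide (y.2 ≤ τ.length) = true ∧
    ((a y.2 τ y.1 = true ∧ b y.2 τ y.1 = true) ∨
      (d y.2 τ y.1 = true ∧ e y.2 τ y.1 = true))) h6).of_eq fun τ => ?_
  constructor
  · rintro ⟨⟨c, s⟩, h1, h2⟩
    exact ⟨c, s, of_decide_eq_true h1, h2⟩
  · rintro ⟨c, s, h1, h2⟩
    exact ⟨⟨c, s⟩, decide_eq_true h1, h2⟩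

theorem sig_G : Sig1 G := by
  have hc : Computable fun y : List Bool × (ℕ × ℕ) => y.2.1 := Computable.fst.comp Computable.snd
  have hs : Computable fun y : List Bool × (ℕ × ℕ) => y.2.2 := Computable.snd.comp Computable.snd
  have ht : Computable fun y : List Bool × (ℕ × ℕ) => y.1.take y.2.2 :=
    Primrec.list_take.to_comp.comp hs Computable.fst
  have h1 : Computable fun y : List Bool × (ℕ × ℕ) => decide (y.2.2 ≤ y.1.length) :=
    Primrec.nat_le.decide.to_comp.comp hs (Computable.list_length.comp Computable.fst)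
  have h2 : Computable fun y : List Bool × (ℕ × ℕ) => decide (gA y.2.1 y.2.2) :=
    computable_gA.comp Computable.snd
  have h3 : Computable fun y : List Bool × (ℕ × ℕ) => decide (gB y.2.1 y.2.2) :=
    computable_gB.comp Computable.snd
  have h4 : Computable fun y : List Bool × (ℕ × ℕ) =>
      (Jt (y.1.take y.2.2) (ix y.2.1)).isSome :=
    Primrec.option_isSome.to_comp.comp (primrec_Jt.to_comp.comp ht (primrec_ix.to_comp.comp hc))
  have h5 : Computable fun y : List Bool × (ℕ × ℕ) => !(Jt (y.1.take y.2.2) y.2.1).isSome :=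
    Primrec.not.to_comp.comp (Primrec.option_isSome.to_comp.comp (primrec_Jt.to_comp.comp ht hc))
  obtain ⟨a, ha⟩ : ∃ a : ℕ → List Bool → ℕ → Bool, ∀ s τ c, a s τ c = decide (gA c s) :=
    ⟨_, fun _ _ _ => rfl⟩
  obtain ⟨b, hb⟩ : ∃ b : ℕ → List Bool → ℕ → Bool, ∀ s τ c,
    b s τ c = (Jt (τ.take s) (ix c)).isSome := ⟨_, fun _ _ _ => rfl⟩
  obtain ⟨d, hd⟩ : ∃ d : ℕ → List Bool → ℕ → Bool, ∀ s τ c, d s τ c = decide (gB c s) :=
    ⟨_, fun _ _ _ => rfl⟩
  obtain ⟨e, he⟩ : ∃ e : ℕ → List Bool → ℕ → Bool, ∀ s τ c,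
    e s τ c = !(Jt (τ.take s) c).isSome := ⟨_, fun _ _ _ => rfl⟩
  have h6 := sig_G_aux a b d e h1 (h2.of_eq fun y => (ha _ _ _).symm)
    (h4.of_eq fun y => (hb _ _ _).symm) (h3.of_eq fun y => (hd _ _ _).symm)
    (h5.of_eq fun y => (he _ _ _).symm)
  refine h6.of_eq fun τ => ?_
  unfold G
  simp only [ha, hb, hd, he, decide_eq_true_eq, Bool.not_eq_true']

theorem G_mono (σ τ : List Bool) (h : σ <+: τ) (hG : G σ) : G τ := by
  obtain ⟨c, s, h1, h2⟩ := hG
  have h3 : τ.take s = σ.take s := by
    obtain ⟨ρ, rfl⟩ := h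
    rw [List.take_append_of_le_length h1]
  exact ⟨c, s, h1.trans h.length_le, by rw [h3]; exact h2⟩

/-- counting the strings of length `N` whose initial segment of length `s` is in `H` -/
theorem card_ext (N s : ℕ) (H : List (List Bool)) :
    ((strs N).toFinset.filter fun τ => τ.take s ∈ H).card ≤ H.length * 2 ^ (N - s) := by
  classical
  have h1 : ((strs N).toFinset.filter fun τ => τ.take s ∈ H).card ≤
      (H.toFinset ×ˢ (strs (N - s)).toFinset).card := by
    refine Finset.card_le_card_of_injOn (fun τ => (τ.take s, τ.drop s)) ?_ ?_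
    · intro τ hτ
      rw [Finset.mem_coe, Finset.mem_filter, List.mem_toFinset, mem_strs] at hτ
      rw [Finset.mem_coe, Finset.mem_product, List.mem_toFinset, List.mem_toFinset, mem_strs]
      refine ⟨hτ.2, ?_⟩
      rw [List.length_drop, hτ.1]
    · intro a _ b _ hab
      have h2 : a.take s = b.take s := congrArg Prod.fst hab
      have h3 : a.drop s = b.drop s := congrArg Prod.snd hab
      rw [← List.take_append_drop s a, ← List.take_append_drop s b, h2, h3]
  refine h1.trans ?_
  rw [Finset.card_product, List.toFinset_card_of_nodup (nodup_strs _), length_strs]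
  exact Nat.mul_le_mul_right _ H.toFinset_card_le

/-- strings of length `N` covered by the `c`-th condition of the first kind -/
noncomputable def covA (N c : ℕ) : Finset (List Bool) := by
  classical
  exact (strs N).toFinset.filter fun τ => ∃ s ≤ N, gA c s ∧ (Jt (τ.take s) (ix c)).isSome = true

/-- strings of length `N` covered by the `n`-th condition of the second kind -/
noncomputable def covB (N n : ℕ) : Finset (List Bool) := by
  classical
  exact (strs N).toFinset.filter fun τ => ∃ s ≤ N, gB n s ∧ (Jt (τ.take s) n).isSome = false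

theorem take_prefix_take (τ : List Bool) {s t : ℕ} (h : s ≤ t) : τ.take s <+: τ.take t := by
  rw [show τ.take s = (τ.take t).take s by rw [List.take_take, min_eq_left h]]
  exact List.take_prefix _ _

theorem card_covA (N c : ℕ) : (covA N c).card * 2 ^ (c + 2) ≤ 2 ^ N := by
  classical
  by_cases hex : ∃ s ≤ N, gA c s
  · obtain ⟨s0, hs0, hg0⟩ := hex
    set s := Nat.findGreatest (fun s => gA c s) N with hs
    have h1 : gA c s := Nat.findGreatest_spec (P := fun s => gA c s) hs0 hg0
    have h2 : s ≤ N := Nat.findGreatest_le N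
    have h3 : covA N c ⊆ (strs N).toFinset.filter fun τ => τ.take s ∈ selL true (ix c) s := by
      intro τ hτ
      unfold covA at hτ
      rw [Finset.mem_filter] at hτ ⊢
      obtain ⟨h4, s', h5, h6, h7⟩ := hτ
      refine ⟨h4, mem_selL.2 ⟨?_, ?_⟩⟩
      · rw [List.mem_toFinset, mem_strs] at h4
        rw [List.length_take, h4, min_eq_left h2]
      · have h8 : s' ≤ s := Nat.le_findGreatest h5 h6
        exact Jt_isSome_mono (take_prefix_take τ h8) h7
    have h4 := (Finset.card_le_card h3).trans (card_ext N s _)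
    calc (covA N c).card * 2 ^ (c + 2) ≤ ((selL true (ix c) s).length * 2 ^ (N - s)) * 2 ^ (c + 2) :=
          Nat.mul_le_mul_right _ h4
      _ = ((selL true (ix c) s).length * 2 ^ (c + 2)) * 2 ^ (N - s) := by ring
      _ ≤ 2 ^ s * 2 ^ (N - s) := Nat.mul_le_mul_right _ h1
      _ = 2 ^ N := by rw [← pow_add]; congr 1; omega
  · have h1 : covA N c = ∅ := by
      unfold covA
      refine Finset.filter_eq_empty_iff.2 ?_
      rintro τ _ ⟨s, h1, h2, -⟩
      exact hex ⟨s, h1, h2⟩
    rw [h1]
    simp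

theorem card_covB (N n : ℕ) : (covB N n).card * 2 ^ (n + 3) ≤ 2 ^ N := by
  classical
  by_cases hex : ∃ s, s ≤ N ∧ gB n s
  · set s := Nat.find hex with hs
    obtain ⟨h2, h1⟩ : s ≤ N ∧ gB n s := Nat.find_spec hex
    have h3 : covB N n ⊆ (strs N).toFinset.filter fun τ => τ.take s ∈ selL false n s := by
      intro τ hτ
      unfold covB at hτ
      rw [Finset.mem_filter] at hτ ⊢
      obtain ⟨h4, s', h5, h6, h7⟩ := hτ
      refine ⟨h4, mem_selL.2 ⟨?_, ?_⟩⟩
      · rw [List.mem_toFinset, mem_strs] at h4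
        rw [List.length_take, h4, min_eq_left h2]
      · have h8 : s ≤ s' := Nat.find_min' hex ⟨h5, h6⟩
        by_contra hne
        rw [Bool.not_eq_false] at hne
        rw [Jt_isSome_mono (take_prefix_take τ h8) hne] at h7
        exact absurd h7 (by simp)
    have h4 := (Finset.card_le_card h3).trans (card_ext N s _)
    calc (covB N n).card * 2 ^ (n + 3) ≤ ((selL false n s).length * 2 ^ (N - s)) * 2 ^ (n + 3) :=
          Nat.mul_le_mul_right _ h4
      _ = ((selL false n s).length * 2 ^ (n + 3)) * 2 ^ (N - s) := by ring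
      _ ≤ 2 ^ s * 2 ^ (N - s) := Nat.mul_le_mul_right _ h1
      _ = 2 ^ N := by rw [← pow_add]; congr 1; omega
  · have h1 : covB N n = ∅ := by
      unfold covB
      refine Finset.filter_eq_empty_iff.2 ?_
      rintro τ _ ⟨s, h1, h2, -⟩
      exact hex ⟨s, h1, h2⟩
    rw [h1]
    simp

theorem sum_bound (N k : ℕ) (f : ℕ → ℕ) (hf : ∀ c, f c * 2 ^ (c + k) ≤ 2 ^ N) (M : ℕ) :
    ((∑ c ∈ Finset.range M, f c : ℕ) : ℚ) + 2 ^ N * 2 * (1 / 2) ^ (M + k) ≤
      2 ^ N * 2 * (1 / 2) ^ k := by
  induction M with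
  | zero => simp
  | succ M ih =>
    rw [Finset.sum_range_succ]
    have h1 : (f M : ℚ) ≤ 2 ^ N * (1 / 2) ^ (M + k) := by
      have h2 : (f M : ℚ) * 2 ^ (M + k) ≤ 2 ^ N := by exact_mod_cast hf M
      have h3 : (0 : ℚ) < 2 ^ (M + k) := by positivity
      rw [one_div, inv_pow, ← div_eq_mul_inv, le_div_iff₀ h3]
      exact h2
    have h4 : (2 : ℚ) ^ N * 2 * (1 / 2) ^ (M + 1 + k) = 2 ^ N * (1 / 2) ^ (M + k) := by
      rw [show M + 1 + k = (M + k) + 1 by ring, pow_succ]
      ring
    push_cast at ih ⊢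
    rw [h4]
    have h5 : (2 : ℚ) ^ N * 2 * (1 / 2) ^ (M + k) = 2 ^ N * (1 / 2) ^ (M + k) +
      2 ^ N * (1 / 2) ^ (M + k) := by ring
    linarith

theorem exists_not_G (N : ℕ) : ∃ τ : List Bool, τ.length = N ∧ ¬ G τ := by
  classical
  by_contra hcon
  push Not at hcon
  have h1 : (strs N).toFinset ⊆ ((Finset.range N).biUnion (covA N)) ∪
      ((Finset.range N).biUnion (covB N)) := by
    intro τ hτ
    have hl : τ.length = N := by rwa [List.mem_toFinset, mem_strs] at hτ
    obtain ⟨c, s, h2, h3⟩ := hcon τ hl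
    rw [hl] at h2
    have hcN : ∀ (m k : ℕ), m * 2 ^ (c + k) ≤ 2 ^ N → 0 < m → 0 < k → c < N := by
      intro m k h4 h5 hk
      by_contra h6
      have h7 : 2 ^ N < 2 ^ (c + k) := Nat.pow_lt_pow_right (by norm_num) (by omega)
      have h8 : 2 ^ (c + k) ≤ m * 2 ^ (c + k) := Nat.le_mul_of_pos_left _ h5
      omega
    rcases h3 with ⟨h3, h4⟩ | ⟨h3, h4⟩
    · have h5 : τ ∈ covA N c := by
        unfold covA
        exact Finset.mem_filter.2 ⟨hτ, s, h2, h3, h4⟩
      refine Finset.mem_union_left _ (Finset.mem_biUnion.2 ⟨c, ?_, h5⟩)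
      exact Finset.mem_range.2 (hcN _ 2 (card_covA N c) (Finset.card_pos.2 ⟨τ, h5⟩) (by norm_num))
    · have h5 : τ ∈ covB N c := by
        unfold covB
        exact Finset.mem_filter.2 ⟨hτ, s, h2, h3, h4⟩
      refine Finset.mem_union_right _ (Finset.mem_biUnion.2 ⟨c, ?_, h5⟩)
      exact Finset.mem_range.2 (hcN _ 3 (card_covB N c) (Finset.card_pos.2 ⟨τ, h5⟩) (by norm_num))
  have h2 := (Finset.card_le_card h1).trans (Finset.card_union_le _ _)
  have h3 : ((Finset.range N).biUnion (covA N)).card ≤ ∑ c ∈ Finset.range N, (covA N c).card :=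
    Finset.card_biUnion_le
  have h4 : ((Finset.range N).biUnion (covB N)).card ≤ ∑ c ∈ Finset.range N, (covB N c).card :=
    Finset.card_biUnion_le
  have h5 := sum_bound N 2 _ (card_covA N) N
  have h6 := sum_bound N 3 _ (card_covB N) N
  rw [List.toFinset_card_of_nodup (nodup_strs _), length_strs] at h2
  have h7 : ((2 ^ N : ℕ) : ℚ) ≤ ((∑ c ∈ Finset.range N, (covA N c).card : ℕ) : ℚ) +
      ((∑ c ∈ Finset.range N, (covB N c).card : ℕ) : ℚ) := by
    exact_mod_cast h2.trans (Nat.add_le_add h3 h4)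
  have h8 : (0 : ℚ) < 2 ^ N := by positivity
  have h9 : (0 : ℚ) < 2 ^ N * 2 * (1 / 2) ^ (N + 2) := by positivity
  have h10 : (0 : ℚ) < 2 ^ N * 2 * (1 / 2) ^ (N + 3) := by positivity
  have h11 : (2 : ℚ) ^ N * 2 * (1 / 2) ^ 2 = 2 ^ N / 2 := by ring
  have h12 : (2 : ℚ) ^ N * 2 * (1 / 2) ^ 3 = 2 ^ N / 4 := by ring
  rw [h11] at h5
  rw [h12] at h6
  push_cast at h7 h5 h6
  linarith

/-! ### Compactness -/

/-- a node with non-dead extensions of all lengths -/
def Good (D : List Bool → Prop) (σ : List Bool) : Prop :=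
  ∀ N, ∃ τ : List Bool, N ≤ τ.length ∧ σ <+: τ ∧ ¬ D τ

theorem good_step {D : List Bool → Prop} {σ : List Bool} (h : Good D σ) : ∃ b, Good D (σ ++ [b]) := by
  by_contra hcon
  push Not at hcon
  have h0 := hcon false
  have h1 := hcon true
  unfold Good at h0 h1
  push Not at h0 h1
  obtain ⟨N0, h0⟩ := h0
  obtain ⟨N1, h1⟩ := h1
  obtain ⟨τ, h2, h3, h4⟩ := h (max (max N0 N1) (σ.length + 1))
  obtain ⟨ρ, rfl⟩ := h3
  have hN0 : N0 ≤ (σ ++ ρ).length := le_trans (le_trans (le_max_left _ _) (le_max_left _ _)) h2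
  have hN1 : N1 ≤ (σ ++ ρ).length := le_trans (le_trans (le_max_right _ _) (le_max_left _ _)) h2
  have h5 : σ.length + 1 ≤ (σ ++ ρ).length := le_trans (le_max_right _ _) h2
  cases ρ with
  | nil => simp at h5
  | cons b ρ =>
    have h6 : σ ++ [b] <+: σ ++ b :: ρ := ⟨ρ, by simp⟩
    cases b with
    | false => exact h4 (h0 _ hN0 h6)
    | true => exact h4 (h1 _ hN1 h6)

open Classical in
/-- the path -/
noncomputable def path (D : List Bool → Prop) : ℕ → List Bool
  | 0 => []
  | n + 1 => path D n ++ [if Good D (path D n ++ [true]) then true else false]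

theorem path_length (D : List Bool → Prop) (n : ℕ) : (path D n).length = n := by
  induction n with
  | zero => rfl
  | succ n ih => rw [path, List.length_append, ih]; rfl

theorem path_prefix (D : List Bool → Prop) {m n : ℕ} (h : m ≤ n) : path D m <+: path D n := by
  induction n, h using Nat.le_induction with
  | base => exact List.prefix_rfl
  | succ n _ ih => exact ih.trans (by rw [path]; exact List.prefix_append _ _)

theorem path_good {D : List Bool → Prop} (h0 : Good D [])
    (n : ℕ) : Good D (path D n) := by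
  induction n with
  | zero => exact h0
  | succ n ih =>
    rw [path]
    obtain ⟨b, hb⟩ := good_step ih
    by_cases ht : Good D (path D n ++ [true])
    · rw [if_pos ht]; exact ht
    · rw [if_neg ht]
      cases b with
      | false => exact hb
      | true => exact absurd hb ht

/-- the set with a given characteristic function given by its initial segments -/
theorem pre_of_chain (P : ℕ → List Bool) (h1 : ∀ n, (P n).length = n)
    (h2 : ∀ m n, m ≤ n → P m <+: P n) (s : ℕ) :
    pre {n | (P (n + 1))[n]? = some true} s = P s := by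
  apply List.ext_getElem?
  intro i
  by_cases hi : i < s
  · rw [pre_getElem? _ _ _ hi]
    have h3 : (P s)[i]? = (P (i + 1))[i]? := by
      obtain ⟨ρ, hρ⟩ := h2 (i + 1) s hi
      rw [← hρ, List.getElem?_append_left (by rw [h1]; omega)]
    rw [h3]
    have h4 : i < (P (i + 1)).length := by rw [h1]; omega
    rw [List.getElem?_eq_getElem h4]
    congr 1
    rw [Set.mem_ofPred_eq, List.getElem?_eq_getElem h4]
    cases (P (i + 1))[i] <;> simp
  · rw [pre_getElem?_none _ _ _ (not_lt.1 hi), eq_comm, List.getElem?_eq_none]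
    rw [h1]; omega

theorem exists_alive {D : List Bool → Prop} (hD : ∀ σ τ, σ <+: τ → D σ → D τ)
    (h : ∀ N, ∃ τ : List Bool, τ.length = N ∧ ¬ D τ) : ∃ X : Set ℕ, ∀ s, ¬ D (pre X s) := by
  have h0 : Good D [] := by
    intro N
    obtain ⟨τ, h1, h2⟩ := h N
    exact ⟨τ, h1.ge, List.nil_prefix, h2⟩
  refine ⟨{n | (path D (n + 1))[n]? = some true}, fun s => ?_⟩
  rw [pre_of_chain (path D) (path_length D) (fun m n h => path_prefix D h)]
  intro hc
  obtain ⟨τ, -, h2, h3⟩ := path_good h0 s 0
  exact h3 (hD _ _ h2 hc)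

/-! ### Measure of cylinders -/

theorem cyl_eq_pi (σ : List Bool) :
    cyl σ = Set.pi (Finset.range σ.length : Set ℕ) (fun i => {σ.getD i false}) := by
  ext x
  constructor
  · intro hx i hi
    have hi' : i < σ.length := by simpa using hi
    have h1 : σ[i]? = some (σ.getD i false) := by
      rw [List.getD_eq_getElem _ _ hi', List.getElem?_eq_getElem hi']
    exact hx i _ h1
  · intro hx i b hb
    have hi' : i < σ.length := by
      by_contra hi
      rw [List.getElem?_eq_none (not_lt.1 hi)] at hb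
      exact absurd hb (by simp)
    have h1 := hx i (by simpa using hi')
    rw [Set.mem_singleton_iff] at h1
    rw [h1, List.getD_eq_getElem _ _ hi']
    rw [List.getElem?_eq_getElem hi'] at hb
    exact Option.some.inj hb

theorem coin_cyl_eq (σ : List Bool) : coin (cyl σ) = (1 / 2) ^ σ.length := by
  rw [cyl_eq_pi, coin, Measure.infinitePi_pi _ (fun i _ => measurableSet_singleton _)]
  rw [Finset.prod_congr rfl (fun i _ => uniformOn_bool _), Finset.prod_const, Finset.card_range]

theorem measurableSet_cyl (σ : List Bool) : MeasurableSet (cyl σ) := by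
  rw [cyl_eq_pi]
  exact MeasurableSet.pi (Finset.countable_toSet _) (fun i _ => measurableSet_singleton _)

theorem cyl_disjoint {σ τ : List Bool} (h : σ.length = τ.length) (hne : σ ≠ τ) :
    Disjoint (cyl σ) (cyl τ) := by
  rw [Set.disjoint_left]
  intro x h1 h2
  apply hne
  apply List.ext_getElem?
  intro i
  by_cases hi : i < σ.length
  · have hi' : i < τ.length := by omega
    rw [List.getElem?_eq_getElem hi, List.getElem?_eq_getElem hi']
    have h3 := h1 i _ (List.getElem?_eq_getElem hi)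
    have h4 := h2 i _ (List.getElem?_eq_getElem hi')
    rw [← h3, ← h4]
  · rw [List.getElem?_eq_none (not_lt.1 hi), List.getElem?_eq_none (by omega)]

theorem coin_union {l : List (List Bool)} {s : ℕ} (hl : ∀ σ ∈ l, σ.length = s) (hn : l.Nodup) :
    coin (⋃ σ ∈ l.toFinset, cyl σ) = l.length * (1 / 2) ^ s := by
  classical
  rw [measure_biUnion_finset]
  · rw [Finset.sum_congr rfl (g := fun _ => (1 / 2 : ℝ≥0∞) ^ s), Finset.sum_const,
      List.toFinset_card_of_nodup hn, nsmul_eq_mul]
    intro σ hσ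
    rw [coin_cyl_eq, hl σ (List.mem_toFinset.1 hσ)]
  · intro σ hσ τ hτ hne
    rw [Finset.mem_coe, List.mem_toFinset] at hσ hτ
    exact cyl_disjoint ((hl σ hσ).trans (hl τ hτ).symm) hne
  · intro σ _
    exact measurableSet_cyl σ

theorem card_of_coin {l : List (List Bool)} {s m : ℕ} (hl : ∀ σ ∈ l, σ.length = s) (hn : l.Nodup)
    {U : Set (ℕ → Bool)} (hU : ∀ σ ∈ l, cyl σ ⊆ U) (hc : coin U ≤ (1 / 2) ^ m) :
    l.length * 2 ^ m ≤ 2 ^ s := by
  classical
  have h1 : coin (⋃ σ ∈ l.toFinset, cyl σ) ≤ (1 / 2) ^ m := by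
    refine (measure_mono ?_).trans hc
    refine Set.iUnion₂_subset fun σ hσ => hU σ (List.mem_toFinset.1 hσ)
  rw [coin_union hl hn] at h1
  have h2 : (l.length : ℝ≥0∞) * 2 ^ m ≤ 2 ^ s := by
    have h3 : (l.length : ℝ≥0∞) = (l.length * (1 / 2) ^ s) * 2 ^ s := by
      rw [mul_assoc, ← mul_pow, one_div, ENNReal.inv_mul_cancel (by norm_num) (by norm_num),
        one_pow, mul_one]
    have h4 : ((1 / 2 : ℝ≥0∞)) ^ m * 2 ^ m = 1 := by
      rw [← mul_pow, one_div, ENNReal.inv_mul_cancel (by norm_num) (by norm_num), one_pow]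
    calc (l.length : ℝ≥0∞) * 2 ^ m = (l.length * (1 / 2) ^ s) * 2 ^ s * 2 ^ m := by rw [← h3]
      _ = (l.length * (1 / 2) ^ s) * 2 ^ m * 2 ^ s := by ring
      _ ≤ (1 / 2) ^ m * 2 ^ m * 2 ^ s := by gcongr
      _ = 2 ^ s := by rw [h4, one_mul]
  exact_mod_cast h2

/-! ### Randomness -/

theorem mem_cyl_pre (X : Set ℕ) (s : ℕ) :
    (open Classical in fun n => decide (n ∈ X)) ∈ cyl (pre X s) := by
  intro i b hb
  by_cases hi : i < s
  · rw [pre_getElem? _ _ _ hi] at hb
    exact Option.some.inj hb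
  · rw [pre_getElem?_none _ _ _ (not_lt.1 hi)] at hb
    exact absurd hb (by simp)

theorem pre_of_mem_cyl {x : ℕ → Bool} {σ : List Bool} (h : x ∈ cyl σ) :
    pre {n | x n = true} σ.length = σ := by
  apply List.ext_getElem?
  intro i
  by_cases hi : i < σ.length
  · rw [pre_getElem? _ _ _ hi, List.getElem?_eq_getElem hi]
    have h1 := h i _ (List.getElem?_eq_getElem hi)
    congr 1
    rw [← h1, Set.mem_ofPred_eq]
    cases x i <;> simp
  · rw [pre_getElem?_none _ _ _ (not_lt.1 hi), List.getElem?_eq_none (not_lt.1 hi)]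

theorem gA_of_test {W : ℕ → List Bool → Prop} (hW : IsMLTest W) :
    ∃ c, (∀ s, gA c s) ∧ ∀ X : Set ℕ, (∃ σ s, σ <+: pre X s ∧ W (c + 2) σ) →
      ∃ s, (Jt (pre X s) (ix c)).isSome = true := by
  have h1 : Sig1 fun x : List Bool × ℕ => ∃ n < x.1.length + 1, W x.2 (x.1.take n) := by
    refine Sig1.bex (α := List Bool × ℕ) (p := fun x n => W x.2 (x.1.take n))
      (f := fun x => x.1.length + 1) ?_ ?_
    · exact (Sig1.of_re hW.re).comp (f := fun y : (List Bool × ℕ) × ℕ => (y.1.2, y.1.1.take y.2))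
        (Computable.pair (Computable.snd.comp Computable.fst)
          (computable_take.comp (Computable.fst.comp Computable.fst) Computable.snd))
    · exact Primrec.succ.to_comp.comp (Computable.list_length.comp Computable.fst)
  obtain ⟨c, hc⟩ := smn (fun ρ m => ∃ n < ρ.length + 1, W m (ρ.take n)) h1
  have h2 : ∀ (X : Set ℕ) (m : ℕ), (∃ s, ∃ n < (pre X s).length + 1, W m ((pre X s).take n)) ↔
      ∃ σ s, σ <+: pre X s ∧ W m σ := by
    intro X m
    constructor
    · rintro ⟨s, n, -, h⟩
      exact ⟨_, s, List.take_prefix _ _, h⟩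
    · rintro ⟨σ, s, h, h'⟩
      refine ⟨s, σ.length, Nat.lt_succ_of_le h.length_le, ?_⟩
      rw [← List.prefix_iff_eq_take.1 h]
      exact h'
  have h3 : ix (encode c) = encode (Code.curry c (encode c + 2)) := by
    unfold ix
    rw [ofNat_encode]
  refine ⟨encode c, fun s => ?_, fun X hX => ?_⟩
  · unfold gA
    refine card_of_coin (l := selL true (ix (encode c)) s) (s := s)
      (fun σ hσ => (mem_selL.1 hσ).1) (nodup_selL _ _ _) ?_ (hW.small (encode c + 2))
    intro σ hσ x hx
    obtain ⟨h4, h5⟩ := mem_selL.1 hσ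
    have h6 := pre_of_mem_cyl hx
    have h7 : ∃ s, (Jt (pre {n | x n = true} s)
        (encode (Code.curry c (encode c + 2)))).isSome = true := by
      refine ⟨σ.length, ?_⟩
      rw [h6, ← h3]
      exact h5
    obtain ⟨τ, t, h8, h9⟩ := (h2 _ _).1 ((hc _ _).2 h7)
    rw [Set.mem_iUnion₂]
    refine ⟨τ, h9, ?_⟩
    intro i b hb
    have h10 := mem_cyl_pre {n | x n = true} t i b (by
      obtain ⟨ρ, hρ⟩ := h8
      have hi : i < τ.length := by
        by_contra hi
        rw [List.getElem?_eq_none (not_lt.1 hi)] at hb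
        exact absurd hb (by simp)
      rw [← hρ, List.getElem?_append_left hi]
      exact hb)
    rw [← h10]
    simp
  · rw [h3]
    exact (hc _ _).1 ((h2 _ _).2 hX)

theorem not_G_random {X : Set ℕ} (hX : ∀ s, ¬ G (pre X s)) : IsRandom X := by
  intro W hW
  by_contra hcon
  push Not at hcon
  obtain ⟨c, h1, h2⟩ := gA_of_test hW
  have h3 := hcon (c + 2)
  rw [Set.mem_iUnion₂] at h3
  obtain ⟨σ, h4, h5⟩ := h3
  have h6 : pre X σ.length = σ := by
    have h7 := pre_of_mem_cyl h5
    rw [← h7]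
    congr 1
    · ext n
      simp
    · rw [pre_length]
  obtain ⟨s, hs⟩ := h2 X ⟨σ, σ.length, by rw [h6], h4⟩
  refine hX s ⟨c, s, by rw [pre_length], Or.inl ⟨h1 s, ?_⟩⟩
  rw [pre_take X s s le_rfl]
  exact hs

end RanG

/-- A c.e. open set, whose complement is not empty and consists of 1-random sets, with lower bounds
for the measure of its subclasses. -/
theorem exists_G : ∃ G : List Bool → Prop, Sig1 G ∧ (∀ σ τ, σ <+: τ → G σ → G τ) ∧
    (∃ X : Set ℕ, ∀ s, ¬ G (pre X s)) ∧ (∀ X : Set ℕ, (∀ s, ¬ G (pre X s)) → IsRandom X) ∧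
    ∀ (n : ℕ) (X : Set ℕ), (∀ s, ¬ G (pre X s)) → (∀ s, Jt (pre X s) n = none) →
      ∀ s, 2 ^ s < 2 ^ (n + 3) * alive n s := by
  refine ⟨RanG.G, RanG.sig_G, RanG.G_mono, RanG.exists_alive RanG.G_mono RanG.exists_not_G,
    fun X hX => RanG.not_G_random hX, fun n X hX hn s => ?_⟩
  by_contra hcon
  refine hX s ⟨n, s, by rw [pre_length], Or.inr ⟨?_, ?_⟩⟩
  · unfold RanG.gB
    rw [← RanG.alive_eq, mul_comm]
    exact not_lt.1 hcon
  · rw [pre_take X s s le_rfl, hn s]
    rfl

end AC
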