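import Pool.Agent.Hhelper54.AC.RanCl

/-!
# Random pseudojump inversion
-/

namespace AC

open Low4 Encodable Denumerable
open Nat.Partrec (Code)

namespace RI

/-- c.e. predicates are many-one reducible to the (diagonal) halting set -/
theorem many_one_halting {α : Type} [Primcodable α] {p : α → Prop} (h : Sig1 p) :
    ∃ f : α → ℕ, Computable f ∧ ∀ a, p a ↔ f a ∈ halting := by
  have h1' := h.re
  have h2 : Partrec fun q : ℕ =>
      (Part.bind (decode (α := α) q.unpair.1 : Part α) fun x =>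
          (Part.assert (p x) fun _ => Part.some ()).map fun _ => (0 : ℕ)) := by
    refine Partrec.bind ?_ ?_
    · refine Computable.ofOption (Computable.decode.comp ?_)
      exact (Computable.fst.comp Computable.unpair)
    · exact (Partrec.map h1' (Computable.const 0).to₂).comp Computable.snd
  obtain ⟨c, hc⟩ := Code.exists_code.1 (Partrec.nat_iff.1 h2)
  refine ⟨fun a => encode (Code.curry c (encode a)), ?_, fun a => ?_⟩
  · exact Computable.encode.comp (Code.primrec₂_curry.to_comp.comp (Computable.const c)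
      Computable.encode)
  · show p a ↔ (Code.eval (ofNat Code (encode (Code.curry c (encode a))))
      (encode (Code.curry c (encode a)))).Dom
    rw [ofNat_encode, Code.eval_curry, hc]
    simp only [Nat.unpair_pair]
    rw [Encodable.encodek]
    simp [Part.dom_iff_mem]

theorem dec_halting {α : Type} [Primcodable α] {p : α → Prop} (h : Sig1 p) : Dec halting p := by
  obtain ⟨f, hf, hp⟩ := many_one_halting h
  exact (Dec.comp (Red.refl halting) hf).of_eq fun a => (hp a).symm

theorem sig1_halting : Sig1 fun x : ℕ => x ∈ halting := by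
  refine (Sig1.ex_nat (α := ℕ) (p := fun x s => KS s x = true)
    (Sig1.of_computable (primrec_KS.to_comp.comp
      (Computable.pair Computable.snd Computable.fst)))).of_eq fun x => ?_
  rw [mem_halting]

/-- the next step of the construction -/
def Nx (N : IdxR → Prop) (l : IdxR → ℕ) (e : ℕ) (I I' : IdxR) : Prop :=
  ((N (e :: I.1, I.2) ∧ I'.1 = e :: I.1) ∨ (¬ N (e :: I.1, I.2) ∧ I'.1 = I.1)) ∧
  I'.2.length = l (I'.1, I.2) ∧ I.2 <+: I'.2 ∧ N (I'.1, I'.2) ∧
  ((e ∉ halting ∧ ∀ τ : List Bool, τ.length = l (I'.1, I.2) →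
      (decide (I.2 <+: τ) && decide (encode τ < encode I'.2)) = true → ¬ N (I'.1, τ)) ∨
   (e ∈ halting ∧ ∀ τ : List Bool, τ.length = l (I'.1, I.2) →
      (decide (I.2 <+: τ) && decide (encode I'.2 < encode τ)) = true → ¬ N (I'.1, τ)))

/-- the hypothesis on two extensions -/
def Two (N : IdxR → Prop) (l : IdxR → ℕ) : Prop :=
  ∀ I, N I → ∃ τ₁ τ₂ : List Bool,
      τ₁.length = l I ∧ τ₂.length = l I ∧ τ₁ ≠ τ₂ ∧ I.2 <+: τ₁ ∧ I.2 <+: τ₂ ∧
      N (I.1, τ₁) ∧ N (I.1, τ₂)

/-- existence of extremal candidates -/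
theorem exists_min (P : List Bool → Prop) (h : ∃ τ, P τ) :
    ∃ τ, P τ ∧ ∀ τ', encode τ' < encode τ → ¬ P τ' := by
  classical
  obtain ⟨τ, hτ⟩ := h
  have hex : ∃ n, ∃ τ, encode τ = n ∧ P τ := ⟨_, τ, rfl, hτ⟩
  obtain ⟨τ0, h1, h2⟩ := Nat.find_spec hex
  refine ⟨τ0, h2, fun τ' h3 h4 => ?_⟩
  rw [h1] at h3
  exact Nat.find_min hex h3 ⟨τ', rfl, h4⟩

theorem exists_max (P : List Bool → Prop) (h : ∃ τ, P τ) (L : ℕ) (hL : ∀ τ, P τ → τ.length = L) :
    ∃ τ, P τ ∧ ∀ τ', encode τ < encode τ' → ¬ P τ' := by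
  classical
  have hfin : Set.Finite {τ : List Bool | P τ} :=
    (List.finite_length_eq Bool L).subset fun τ hτ => hL τ hτ
  obtain ⟨τ, hτ⟩ := h
  obtain ⟨τ0, h1, h2⟩ := Set.exists_max_image {τ : List Bool | P τ} (fun τ => encode τ) hfin
    ⟨τ, hτ⟩
  exact ⟨τ0, h1, fun τ' h3 h4 => absurd (h2 τ' h4) (not_le.2 h3)⟩

theorem exists_Nx {N : IdxR → Prop} {l : IdxR → ℕ} (h2 : Two N l) (e : ℕ) {I : IdxR} (hI : N I) :
    ∃ I', Nx N l e I I' := by
  classical
  obtain ⟨F, hF, hNF⟩ : ∃ F : List ℕ, ((N (e :: I.1, I.2) ∧ F = e :: I.1) ∨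
      (¬ N (e :: I.1, I.2) ∧ F = I.1)) ∧ N (F, I.2) := by
    by_cases h : N (e :: I.1, I.2)
    · exact ⟨_, Or.inl ⟨h, rfl⟩, h⟩
    · exact ⟨_, Or.inr ⟨h, rfl⟩, hI⟩
  obtain ⟨τ₁, τ₂, h3, h4, h5, h6, h7, h8, h9⟩ := h2 (F, I.2) hNF
  let P : List Bool → Prop := fun τ => τ.length = l (F, I.2) ∧ I.2 <+: τ ∧ N (F, τ)
  have hP : ∃ τ, P τ := ⟨τ₁, h3, h6, h8⟩
  by_cases he : e ∈ halting
  · obtain ⟨τ, hτ, hm⟩ := exists_max P hP _ fun τ h => h.1
    refine ⟨(F, τ), hF, hτ.1, hτ.2.1, hτ.2.2, Or.inr ⟨he, fun τ' h10 h11 h12 => ?_⟩⟩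
    simp only [Bool.and_eq_true, decide_eq_true_eq] at h11
    exact hm τ' h11.2 ⟨h10, h11.1, h12⟩
  · obtain ⟨τ, hτ, hm⟩ := exists_min P hP
    refine ⟨(F, τ), hF, hτ.1, hτ.2.1, hτ.2.2, Or.inl ⟨he, fun τ' h10 h11 h12 => ?_⟩⟩
    simp only [Bool.and_eq_true, decide_eq_true_eq] at h11
    exact hm τ' h11.2 ⟨h10, h11.1, h12⟩

theorem Nx_unique {N : IdxR → Prop} {l : IdxR → ℕ} {e : ℕ} {I J K : IdxR}
    (hJ : Nx N l e I J) (hK : Nx N l e I K) : J = K := by
  obtain ⟨F, τ⟩ := J
  obtain ⟨F', τ'⟩ := K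
  obtain ⟨a1, a2, a3, a4, a5⟩ := hJ
  obtain ⟨b1, b2, b3, b4, b5⟩ := hK
  dsimp only at a1 a2 a3 a4 a5 b1 b2 b3 b4 b5
  have hF : F = F' := by
    rcases a1 with ⟨x1, x2⟩ | ⟨x1, x2⟩ <;> rcases b1 with ⟨y1, y2⟩ | ⟨y1, y2⟩
    · rw [x2, y2]
    · exact absurd x1 y1
    · exact absurd y1 x1
    · rw [x2, y2]
  subst hF
  have hτ : encode τ = encode τ' := by
    rcases a5 with ⟨x1, x2⟩ | ⟨x1, x2⟩ <;> rcases b5 with ⟨y1, y2⟩ | ⟨y1, y2⟩
    · rcases lt_trichotomy (encode τ) (encode τ') with h | h | h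
      · exact absurd a4 (y2 τ a2 (by simp [a3, h]))
      · exact h
      · exact absurd b4 (x2 τ' b2 (by simp [b3, h]))
    · exact absurd y1 x1
    · exact absurd x1 y1
    · rcases lt_trichotomy (encode τ) (encode τ') with h | h | h
      · exact absurd b4 (x2 τ' b2 (by simp [b3, h]))
      · exact h
      · exact absurd a4 (y2 τ a2 (by simp [a3, h]))
  rw [encode_injective hτ]

/-- the sequence of the construction -/
def Sq (N : IdxR → Prop) (l : IdxR → ℕ) (n : ℕ) (I : IdxR) : Prop :=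
  It (fun _ : Unit => (([], []) : IdxR)) (fun _ e I I' => Nx N l e I I') () n I

theorem Sq_ne {N : IdxR → Prop} {l : IdxR → ℕ} (h0 : N ([], [])) {n : ℕ} {I : IdxR}
    (h : Sq N l n I) : N I := by
  cases h with
  | zero => exact h0
  | succ _ h => exact h.2.2.2.1

theorem Sq_exists {N : IdxR → Prop} {l : IdxR → ℕ} (h2 : Two N l) (h0 : N ([], [])) (n : ℕ) :
    ∃ I, Sq N l n I := by
  induction n with
  | zero => exact ⟨_, It.zero⟩
  | succ n ih =>
    obtain ⟨I, hI⟩ := ih
    obtain ⟨I', hI'⟩ := exists_Nx h2 n (Sq_ne h0 hI)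
    exact ⟨I', It.succ hI hI'⟩

theorem Sq_unique {N : IdxR → Prop} {l : IdxR → ℕ} {n : ℕ} {I J : IdxR}
    (h : Sq N l n I) (h' : Sq N l n J) : I = J := by
  induction n generalizing I J with
  | zero =>
    cases h; cases h'; rfl
  | succ n ih =>
    cases h with
    | succ h1 h2 =>
      cases h' with
      | succ h3 h4 =>
        have := ih h1 h3
        subst this
        exact Nx_unique h2 h4

theorem Sq_step {N : IdxR → Prop} {l : IdxR → ℕ} {n : ℕ} {I J : IdxR}
    (h : Sq N l n I) (h' : Sq N l (n + 1) J) : Nx N l n I J := by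
  cases h' with
  | succ h1 h2 =>
    rw [Sq_unique h h1]
    exact h2

theorem Sq_len {N : IdxR → Prop} {l : IdxR → ℕ} (h2 : Two N l) (h0 : N ([], [])) {n : ℕ}
    {I : IdxR} (h : Sq N l n I) : n ≤ I.2.length := by
  induction n generalizing I with
  | zero => exact Nat.zero_le _
  | succ n ih =>
    cases h with
    | @succ _ J _ h1 h3 =>
      have hJ := ih h1
      have hNJ := Sq_ne h0 h1
      obtain ⟨a1, a2, a3, a4, a5⟩ := h3
      have hNF : N (I.1, J.2) := by
        rcases a1 with ⟨x1, x2⟩ | ⟨x1, x2⟩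
        · rw [x2]; exact x1
        · rw [x2]; exact hNJ
      obtain ⟨τ₁, τ₂, h3, h4, h5, h6, h7, h8, h9⟩ := h2 (I.1, J.2) hNF
      dsimp only at h3 h4 h6 h7
      rw [a2]
      by_contra hcon
      have hlt : l (I.1, J.2) ≤ J.2.length := by omega
      apply h5
      have e1 : J.2 = τ₁ := h6.eq_of_length (le_antisymm h6.length_le (by rw [h3]; exact hlt))
      have e2 : J.2 = τ₂ := h7.eq_of_length (le_antisymm h7.length_le (by rw [h4]; exact hlt))
      rw [← e1, ← e2]

theorem computable_prefix {α : Type} [Primcodable α] {f g : α → List Bool} (hf : Computable f)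
    (hg : Computable g) : Computable fun a => decide (f a <+: g a) :=
  computable_isPrefix.comp (Computable.pair hf hg)

theorem computable_lt {α : Type} [Primcodable α] {f g : α → ℕ} (hf : Computable f)
    (hg : Computable g) : Computable fun a => decide (f a < g a) :=
  (Primrec.nat_lt.decide.to_comp).comp hf hg

theorem computable_and {α : Type} [Primcodable α] {f g : α → Bool} (hf : Computable f)
    (hg : Computable g) : Computable fun a => f a && g a :=
  Primrec.and.to_comp.comp hf hg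

theorem ce_low {A : Set ℕ} {N : IdxR → Prop} {l : IdxR → ℕ} (hN : Sig1 fun I => ¬ N I)
    (hl : Computable l) :
    CE A fun z : IdxR × IdxR => ∀ τ : List Bool, τ.length = l (z.2.1, z.1.2) →
      (decide (z.1.2 <+: τ) && decide (encode τ < encode z.2.2)) = true → ¬ N (z.2.1, τ) := by
  refine ce_forall_strings (p := fun (z : IdxR × IdxR) (τ : List Bool) =>
    (decide (z.1.2 <+: τ) && decide (encode τ < encode z.2.2)) = true → ¬ N (z.2.1, τ))
    (f := fun z => l (z.2.1, z.1.2)) ?_ ?_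
  · refine CE.of_sig1 (Sig1.imp (computable_and (computable_prefix ?_ Computable.snd)
      (computable_lt (Computable.encode.comp Computable.snd) (Computable.encode.comp ?_)))
      (hN.comp (Computable.pair ?_ Computable.snd)))
    · exact Computable.snd.comp (Computable.fst.comp Computable.fst)
    · exact Computable.snd.comp (Computable.snd.comp Computable.fst)
    · exact Computable.fst.comp (Computable.snd.comp Computable.fst)
  · exact hl.comp (Computable.pair (Computable.fst.comp Computable.snd)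
      (Computable.snd.comp Computable.fst))

theorem ce_high {A : Set ℕ} {N : IdxR → Prop} {l : IdxR → ℕ} (hN : Sig1 fun I => ¬ N I)
    (hl : Computable l) :
    CE A fun z : IdxR × IdxR => ∀ τ : List Bool, τ.length = l (z.2.1, z.1.2) →
      (decide (z.1.2 <+: τ) && decide (encode z.2.2 < encode τ)) = true → ¬ N (z.2.1, τ) := by
  refine ce_forall_strings (p := fun (z : IdxR × IdxR) (τ : List Bool) =>
    (decide (z.1.2 <+: τ) && decide (encode z.2.2 < encode τ)) = true → ¬ N (z.2.1, τ))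
    (f := fun z => l (z.2.1, z.1.2)) ?_ ?_
  · refine CE.of_sig1 (Sig1.imp (computable_and (computable_prefix ?_ Computable.snd)
      (computable_lt (Computable.encode.comp ?_) (Computable.encode.comp Computable.snd)))
      (hN.comp (Computable.pair ?_ Computable.snd)))
    · exact Computable.snd.comp (Computable.fst.comp Computable.fst)
    · exact Computable.snd.comp (Computable.snd.comp Computable.fst)
    · exact Computable.fst.comp (Computable.snd.comp Computable.fst)
  · exact hl.comp (Computable.pair (Computable.fst.comp Computable.snd)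
      (Computable.snd.comp Computable.fst))

theorem ce_eqOf {α β : Type} [Primcodable α] [Primcodable β] {A : Set ℕ} {f g : α → β}
    (hf : Computable f) (hg : Computable g) : CE A fun a => f a = g a := by
  have : DecidableEq β := Encodable.decidableEqOfEncodable β
  have h3 : Computable fun a => decide (f a = g a) :=
    ((Primrec.eq (α := β)).decide.to_comp).comp hf hg
  exact (CE.of_sig1 (Sig1.of_computable h3)).of_eq fun z => by simp

theorem ce_Nx {N : IdxR → Prop} {l : IdxR → ℕ} (hN : Sig1 fun I => ¬ N I) (hl : Computable l) :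
    CE halting fun z : (Unit × ℕ) × (IdxR × IdxR) => Nx N l z.1.2 z.2.1 z.2.2 := by
  have hD : Dec halting N := (dec_halting hN).not.of_eq fun I => not_not
  have c1 : Computable fun z : (Unit × ℕ) × (IdxR × IdxR) => z.1.2 :=
    Computable.snd.comp Computable.fst
  have c2 : Computable fun z : (Unit × ℕ) × (IdxR × IdxR) => z.2.1.1 :=
    Computable.fst.comp (Computable.fst.comp Computable.snd)
  have c3 : Computable fun z : (Unit × ℕ) × (IdxR × IdxR) => z.2.1.2 :=
    Computable.snd.comp (Computable.fst.comp Computable.snd)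
  have c4 : Computable fun z : (Unit × ℕ) × (IdxR × IdxR) => z.2.2.1 :=
    Computable.fst.comp (Computable.snd.comp Computable.snd)
  have c5 : Computable fun z : (Unit × ℕ) × (IdxR × IdxR) => z.2.2.2 :=
    Computable.snd.comp (Computable.snd.comp Computable.snd)
  have c6 : Computable fun z : (Unit × ℕ) × (IdxR × IdxR) => z.1.2 :: z.2.1.1 :=
    Computable.list_cons.comp c1 c2
  have c7 : Computable fun z : (Unit × ℕ) × (IdxR × IdxR) =>
      ((z.1.2 :: z.2.1.1, z.2.1.2) : IdxR) := Computable.pair c6 c3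
  have c8 : Computable fun z : (Unit × ℕ) × (IdxR × IdxR) =>
      ((z.2.2.1, z.2.2.2) : IdxR) := Computable.pair c4 c5
  have c9 : Computable fun z : (Unit × ℕ) × (IdxR × IdxR) =>
      l ((z.2.2.1, z.2.1.2) : IdxR) := hl.comp (Computable.pair c4 c3)
  unfold Nx
  refine CE.and (CE.or (CE.and (hD.1.comp c7) (ce_eqOf c4 c6)) (CE.and (hD.2.comp c7)
    (ce_eqOf c4 c2))) (CE.and (ce_eqOf (Computable.list_length.comp c5) c9) (CE.and ?_ (CE.and
    (hD.1.comp c8) (CE.or (CE.and ((Red.refl halting).2.comp c1) ?_)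
    (CE.and ((Red.refl halting).1.comp c1) ?_)))))
  · exact (CE.of_sig1 (Sig1.of_computable (computable_prefix c3 c5))).of_eq fun z => by simp
  · exact (ce_low hN hl).comp (f := fun z : (Unit × ℕ) × (IdxR × IdxR) => z.2) Computable.snd
  · exact (ce_high hN hl).comp (f := fun z : (Unit × ℕ) × (IdxR × IdxR) => z.2) Computable.snd

theorem ce_Sq {N : IdxR → Prop} {l : IdxR → ℕ} (hN : Sig1 fun I => ¬ N I) (hl : Computable l) :
    CE halting fun z : ℕ × IdxR => Sq N l z.1 z.2 :=
  (ce_It (α := IdxR) (β := Unit) (x0 := fun _ => ([], [])) (N := fun _ e I I' => Nx N l e I I')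
    (Computable.const _) (ce_Nx hN hl)).comp (f := fun z : ℕ × IdxR => ((), z))
    (Computable.pair (Computable.const ()) Computable.id)

/-- the recovery of the sequence from `Z` and a set `W` -/
def Rc (Z W : Set ℕ) (l : IdxR → ℕ) (e : ℕ) (I I' : IdxR) : Prop :=
  ((e ∉ W ∧ I'.1 = e :: I.1) ∨ (e ∈ W ∧ I'.1 = I.1)) ∧ I'.2.length = l (I'.1, I.2) ∧
    I'.2 = pre Z I'.2.length

theorem ce_Rc {A Z W : Set ℕ} {l : IdxR → ℕ} (hl : Computable l) (hZ : Red Z A) (hW : Red W A) :
    CE A fun z : (Unit × ℕ) × (IdxR × IdxR) => Rc Z W l z.1.2 z.2.1 z.2.2 := by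
  have c1 : Computable fun z : (Unit × ℕ) × (IdxR × IdxR) => z.1.2 :=
    Computable.snd.comp Computable.fst
  have c2 : Computable fun z : (Unit × ℕ) × (IdxR × IdxR) => z.2.1.1 :=
    Computable.fst.comp (Computable.fst.comp Computable.snd)
  have c3 : Computable fun z : (Unit × ℕ) × (IdxR × IdxR) => z.2.1.2 :=
    Computable.snd.comp (Computable.fst.comp Computable.snd)
  have c4 : Computable fun z : (Unit × ℕ) × (IdxR × IdxR) => z.2.2.1 :=
    Computable.fst.comp (Computable.snd.comp Computable.snd)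
  have c5 : Computable fun z : (Unit × ℕ) × (IdxR × IdxR) => z.2.2.2 :=
    Computable.snd.comp (Computable.snd.comp Computable.snd)
  have c6 : Computable fun z : (Unit × ℕ) × (IdxR × IdxR) => z.1.2 :: z.2.1.1 :=
    Computable.list_cons.comp c1 c2
  have c9 : Computable fun z : (Unit × ℕ) × (IdxR × IdxR) =>
      l ((z.2.2.1, z.2.1.2) : IdxR) := hl.comp (Computable.pair c4 c3)
  unfold Rc
  exact CE.and (CE.or (CE.and (hW.2.comp c1) (ce_eqOf c4 c6)) (CE.and (hW.1.comp c1)
    (ce_eqOf c4 c2))) (CE.and (ce_eqOf (Computable.list_length.comp c5) c9)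
    ((ce_initial hZ).comp c5))

/-- the sequence recovered from `Z` and `W` -/
def Rs (Z W : Set ℕ) (l : IdxR → ℕ) (n : ℕ) (I : IdxR) : Prop :=
  It (fun _ : Unit => (([], []) : IdxR)) (fun _ e I I' => Rc Z W l e I I') () n I

theorem ce_Rs {A Z W : Set ℕ} {l : IdxR → ℕ} (hl : Computable l) (hZ : Red Z A) (hW : Red W A) :
    CE A fun z : ℕ × IdxR => Rs Z W l z.1 z.2 :=
  (ce_It (α := IdxR) (β := Unit) (x0 := fun _ => ([], [])) (N := fun _ e I I' => Rc Z W l e I I')
    (Computable.const _) (ce_Rc hl hZ hW)).comp (f := fun z : ℕ × IdxR => ((), z))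
    (Computable.pair (Computable.const ()) Computable.id)

theorem Rc_unique {Z W : Set ℕ} {l : IdxR → ℕ} {e : ℕ} {I J K : IdxR}
    (hJ : Rc Z W l e I J) (hK : Rc Z W l e I K) : J = K := by
  obtain ⟨F, τ⟩ := J
  obtain ⟨F', τ'⟩ := K
  obtain ⟨a1, a2, a3⟩ := hJ
  obtain ⟨b1, b2, b3⟩ := hK
  dsimp only at a1 a2 a3 b1 b2 b3
  have hF : F = F' := by
    rcases a1 with ⟨x1, x2⟩ | ⟨x1, x2⟩ <;> rcases b1 with ⟨y1, y2⟩ | ⟨y1, y2⟩
    · rw [x2, y2]
    · exact absurd y1 x1
    · exact absurd x1 y1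
    · rw [x2, y2]
  subst hF
  rw [a3, b3, a2, b2]

theorem Rs_iff_Sq {N : IdxR → Prop} {l : IdxR → ℕ} {Z W : Set ℕ} (h2 : Two N l)
    (h0 : N ([], [])) (h : ∀ e I I', Sq N l e I → Nx N l e I I' → Rc Z W l e I I') (n : ℕ)
    (I : IdxR) : Rs Z W l n I ↔ Sq N l n I := by
  induction n generalizing I with
  | zero =>
    constructor
    · intro hh; cases hh; exact It.zero
    · intro hh; cases hh; exact It.zero
  | succ n ih =>
    constructor
    · intro hh
      cases hh with
      | @succ _ J _ h3 h4 =>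
        have h5 : Sq N l n J := (ih J).1 h3
        obtain ⟨J', hJ'⟩ := exists_Nx h2 n (Sq_ne h0 h5)
        have := Rc_unique h4 (h _ _ _ h5 hJ')
        rw [this]
        exact It.succ h5 hJ'
    · intro hh
      cases hh with
      | @succ _ J _ h3 h4 =>
        exact It.succ ((ih J).2 h3) (h _ _ _ h3 h4)

end RI

open RI in
/-- random pseudojump inversion, from the statement `exists_G` of `RanG.lean` -/
theorem random_inversion_of (exG : ∃ G : List Bool → Prop, Sig1 G ∧
      (∀ σ τ, σ <+: τ → G σ → G τ) ∧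
      (∃ X : Set ℕ, ∀ s, ¬ G (pre X s)) ∧ (∀ X : Set ℕ, (∀ s, ¬ G (pre X s)) → IsRandom X) ∧
      ∀ (n : ℕ) (X : Set ℕ), (∀ s, ¬ G (pre X s)) → (∀ s, Jt (pre X s) n = none) →
        ∀ s, 2 ^ s < 2 ^ (n + 3) * alive n s) {V : List Bool → ℕ → Prop} (hV : IsOp V) :
    ∃ Z : Set ℕ, IsRandom Z ∧ Red Z halting ∧ Red (Op V Z) halting ∧
      Red halting (join Z (Op V Z)) := by
  obtain ⟨G, hG, hG2, ⟨X0, hX0⟩, hran, hG3⟩ := exG
  obtain ⟨l, hl, hl2⟩ := two_ext hG hG2 hV hG3
  let N : IdxR → Prop := fun I => (ClR G V I).Nonempty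
  have hN : Sig1 fun I => ¬ N I := re_ClR_empty hG hG2 hV
  have h2 : Two N l := hl2
  have h0 : N ([], []) := ⟨X0, hX0, by simp, by simp [pre]⟩
  choose I hI using Sq_exists h2 h0
  have hNI : ∀ n, N (I n) := fun n => Sq_ne h0 (hI n)
  have hstep : ∀ n, Nx N l n (I n) (I (n + 1)) := fun n => Sq_step (hI n) (hI (n + 1))
  have hanti : ∀ n, ClR G V (I (n + 1)) ⊆ ClR G V (I n) := by
    intro n X hX
    obtain ⟨a1, a2, a3, a4, a5⟩ := hstep n
    refine ⟨hX.1, fun e he => hX.2.1 e ?_, ?_⟩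
    · rcases a1 with ⟨x1, x2⟩ | ⟨x1, x2⟩
      · rw [x2]; exact List.mem_cons_of_mem _ he
      · rw [x2]; exact he
    · have h3 := hX.2.2
      rw [← h3] at a3
      exact (eq_pre_of_le a3).symm
  obtain ⟨Z, hZ⟩ := ClR_inter hG hG2 hV I hNI hanti
  have hpre : ∀ n, (I n).2 = pre Z (I n).2.length := fun n => (hZ n).2.2.symm
  have hlen : ∀ n, n ≤ (I n).2.length := fun n => Sq_len h2 h0 (hI n)
  -- `e ∈ V^Z`
  have hOp : ∀ e, e ∈ Op V Z ↔ ¬ N (e :: (I e).1, (I e).2) := by
    intro e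
    constructor
    · intro he hcon
      obtain ⟨a1, -⟩ := hstep e
      rcases a1 with ⟨x1, x2⟩ | ⟨x1, x2⟩
      · exact (hZ (e + 1)).2.1 e (by rw [x2]; exact List.mem_cons_self) he
      · exact x1 hcon
    · intro hcon
      by_contra he
      refine hcon ⟨Z, (hZ e).1, ?_, (hZ e).2.2⟩
      intro x hx
      rcases List.mem_cons.1 hx with h | h
      · rw [h]; exact he
      · exact (hZ e).2.1 x h
  have hD : Dec halting N := (dec_halting hN).not.of_eq fun I => not_not
  have hcS := ce_Sq hN hl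
  have c1 : Computable fun z : ℕ × IdxR => ((z.1 :: z.2.1, z.2.2) : IdxR) :=
    Computable.pair (Computable.list_cons.comp Computable.fst (Computable.fst.comp
      Computable.snd)) (Computable.snd.comp Computable.snd)
  have hOpH : Red (Op V Z) halting := by
    constructor
    · refine (CE.ex (p := fun (e : ℕ) (J : IdxR) => Sq N l e J ∧ ¬ N (e :: J.1, J.2))
        (CE.and hcS (hD.2.comp c1))).of_eq fun e => ?_
      rw [hOp]
      constructor
      · rintro ⟨J, h3, h4⟩
        rw [Sq_unique (hI e) h3]; exact h4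
      · intro h3
        exact ⟨_, hI e, h3⟩
    · refine (CE.ex (p := fun (e : ℕ) (J : IdxR) => Sq N l e J ∧ N (e :: J.1, J.2))
        (CE.and hcS (hD.1.comp c1))).of_eq fun e => ?_
      show _ ↔ ¬ (e ∈ Op V Z)
      rw [hOp, not_not]
      constructor
      · rintro ⟨J, h3, h4⟩
        rw [Sq_unique (hI e) h3]; exact h4
      · intro h3
        exact ⟨_, hI e, h3⟩
  have hget : ∀ n, (I (n + 1)).2[n]? = some (open Classical in decide (n ∈ Z)) := by
    intro n
    rw [hpre (n + 1)]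
    exact pre_getElem? Z _ _ (hlen (n + 1))
  have hbit : ∀ b : Bool, CE halting fun n : ℕ => ∃ J : IdxR, Sq N l (n + 1) J ∧
      J.2[n]? = some b := by
    intro b
    refine CE.ex (p := fun (n : ℕ) (J : IdxR) => Sq N l (n + 1) J ∧ J.2[n]? = some b)
      (CE.and ?_ ?_)
    · exact hcS.comp (f := fun z : ℕ × IdxR => (z.1 + 1, z.2))
        (Computable.pair (Computable.succ.comp Computable.fst) Computable.snd)
    · exact Itr.ce_get (Computable.snd.comp Computable.snd) Computable.fst (Computable.const b)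
  have hZH : Red Z halting := by
    constructor
    · refine (hbit true).of_eq fun n => ?_
      constructor
      · rintro ⟨J, h3, h4⟩
        rw [← Sq_unique (hI (n + 1)) h3, hget n] at h4
        simpa using h4
      · intro h3
        exact ⟨_, hI (n + 1), by rw [hget n]; simp [h3]⟩
    · refine (hbit false).of_eq fun n => ?_
      constructor
      · rintro ⟨J, h3, h4⟩
        rw [← Sq_unique (hI (n + 1)) h3, hget n] at h4
        simpa using h4
      · intro h3
        exact ⟨_, hI (n + 1), by rw [hget n]; simp [h3]⟩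
  refine ⟨Z, hran Z (hZ 0).1, hZH, hOpH, ?_⟩
  -- recovery
  have rZ : Red Z (join Z (Op V Z)) := red_join_left _ _
  have rW : Red (Op V Z) (join Z (Op V Z)) := red_join_right _ _
  have hRc : ∀ e J J', Sq N l e J → Nx N l e J J' → Rc Z (Op V Z) l e J J' := by
    intro e J J' h3 h4
    have e1 : J = I e := Sq_unique h3 (hI e)
    subst e1
    have e2 : J' = I (e + 1) := Nx_unique h4 (hstep e)
    subst e2
    obtain ⟨a1, a2, a3, a4, a5⟩ := h4
    refine ⟨?_, a2, hpre (e + 1)⟩
    rcases a1 with ⟨x1, x2⟩ | ⟨x1, x2⟩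
    · exact Or.inl ⟨fun h => (hOp e).1 h x1, x2⟩
    · exact Or.inr ⟨(hOp e).2 x1, x2⟩
  have hRs := Rs_iff_Sq h2 h0 hRc
  have cRs := ce_Rs (A := join Z (Op V Z)) hl rZ rW
  have cLow := ce_low (A := join Z (Op V Z)) hN hl
  have key : ∀ e, e ∉ halting ↔ ∃ p : IdxR × IdxR, (Rs Z (Op V Z) l e p.1 ∧
      Rs Z (Op V Z) l (e + 1) p.2) ∧ ∀ τ : List Bool, τ.length = l (p.2.1, p.1.2) →
      (decide (p.1.2 <+: τ) && decide (encode τ < encode p.2.2)) = true → ¬ N (p.2.1, τ) := by
    intro e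
    constructor
    · intro he
      refine ⟨(I e, I (e + 1)), ⟨(hRs _ _).2 (hI e), (hRs _ _).2 (hI (e + 1))⟩, ?_⟩
      obtain ⟨a1, a2, a3, a4, a5⟩ := hstep e
      rcases a5 with ⟨x1, x2⟩ | ⟨x1, x2⟩
      · exact x2
      · exact absurd x1 he
    · rintro ⟨⟨J, J'⟩, ⟨h3, h4⟩, h5⟩ he
      dsimp only at h3 h4 h5
      have e1 : J = I e := Sq_unique ((hRs _ _).1 h3) (hI e)
      have e2 : J' = I (e + 1) := Sq_unique ((hRs _ _).1 h4) (hI (e + 1))
      subst e1 e2
      obtain ⟨a1, a2, a3, a4, a5⟩ := hstep e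
      rcases a5 with ⟨x1, x2⟩ | ⟨x1, x2⟩
      · exact absurd he x1
      · have hNF : N ((I (e + 1)).1, (I e).2) := by
          rcases a1 with ⟨y1, y2⟩ | ⟨y1, y2⟩
          · rw [y2]; exact y1
          · rw [y2]; exact hNI e
        obtain ⟨τ₁, τ₂, b3, b4, b5, b6, b7, b8, b9⟩ := h2 _ hNF
        have hone : ∀ τ : List Bool, τ.length = l ((I (e + 1)).1, (I e).2) → (I e).2 <+: τ →
            N ((I (e + 1)).1, τ) → τ = (I (e + 1)).2 := by
          intro τ k1 k2 k3
          rcases lt_trichotomy (encode τ) (encode (I (e + 1)).2) with h | h | h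
          · exact absurd k3 (h5 τ k1 (by simp [k2, h]))
          · exact encode_injective h
          · exact absurd k3 (x2 τ k1 (by simp [k2, h]))
        exact b5 ((hone τ₁ b3 b6 b8).trans (hone τ₂ b4 b7 b9).symm)
  constructor
  · exact CE.of_sig1 sig1_halting
  · refine (CE.ex (p := fun (e : ℕ) (p : IdxR × IdxR) => (Rs Z (Op V Z) l e p.1 ∧
      Rs Z (Op V Z) l (e + 1) p.2) ∧ ∀ τ : List Bool, τ.length = l (p.2.1, p.1.2) →
      (decide (p.1.2 <+: τ) && decide (encode τ < encode p.2.2)) = true → ¬ N (p.2.1, τ))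
      (CE.and (CE.and ?_ ?_) ?_)).of_eq fun e => (key e).symm
    · exact cRs.comp (f := fun z : ℕ × (IdxR × IdxR) => (z.1, z.2.1))
        (Computable.pair Computable.fst (Computable.fst.comp Computable.snd))
    · exact cRs.comp (f := fun z : ℕ × (IdxR × IdxR) => (z.1 + 1, z.2.2))
        (Computable.pair (Computable.succ.comp Computable.fst)
          (Computable.snd.comp Computable.snd))
    · exact cLow.comp (f := fun z : ℕ × (IdxR × IdxR) => z.2) Computable.snd

end AC
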