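import Pool.Agent.Hhelper54.AC.Uom
import Pool.Agent.Hhelper54.AC.Much
import Pool.Agent.Hhelper54.AC.Kcm
import Pool.Agent.Hhelper54.AC.Lowk
import Pool.Agent.Hhelper54.AC.PaJoin
import Pool.Agent.Hhelper54.AC.RanG
import Pool.Agent.Hhelper54.AC.RanInv
import Pool.Agent.Hhelper54.AC.Kraft

/-!
# Existence of almost complete random sets and of almost complete PA sets above them
-/

namespace AC

open Low4 Encodable Denumerable
open Nat.Partrec (Code)

theorem pw_UL (σ : List Bool) : pw (UL σ) ≤ 1 := by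
  have hfree := UL_free σ
  have hnd : ((UL σ).map Prod.fst).Nodup := by
    rw [List.Nodup, List.pairwise_map]
    refine hfree.imp ?_
    rintro a b ⟨h1, -⟩ h2
    exact h1 (by rw [h2])
  have hk := Kr.kraft ((UL σ).map Prod.fst).toFinset (by
    intro x hx y hy hxy
    rw [List.mem_toFinset, List.mem_map] at hx hy
    obtain ⟨a, ha, rfl⟩ := hx
    obtain ⟨b, hb, rfl⟩ := hy
    by_contra hne
    have hab : a ≠ b := fun h => hne (by rw [h])
    have : Std.Symm fun a b : List Bool × ℕ => ¬ a.1 <+: b.1 ∧ ¬ b.1 <+: a.1 :=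
      ⟨fun a b h => ⟨h.2, h.1⟩⟩
    exact (hfree.forall ha hb hab).1 hxy)
  have h2 : pw (UL σ) = ∑ x ∈ ((UL σ).map Prod.fst).toFinset, (1 / 2 : ℚ) ^ x.length := by
    rw [List.sum_toFinset _ hnd]
    unfold pw
    rw [List.map_map]
    rfl
  rw [h2]
  exact hk

/-- there is a c.e. operator which is nowhere computable and low for complexity everywhere -/
theorem exists_goodOp : ∃ V : List Bool → ℕ → Prop, IsOp V ∧ (∀ B, ¬ Red (Op V B) B) ∧
    ∀ B, Red halting (join B (Op V B)) → AlmostComplete B := by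
  obtain ⟨V, H, hV, hH, hmono, hw, hcov, hne⟩ := exists_muchnik UL computable_UL
    (fun σ τ h => UL_mono h) pw_UL
  refine ⟨V, hV, hne, fun B hB => ?_⟩
  obtain ⟨M, hM, hM2⟩ := exists_machine H hH hmono hw B
  obtain ⟨c, hc⟩ := (isOptimal_Uo B).simulates M hM
  refine almostComplete_of_low (red_join_left B (Op V B)) hB (isOptimal_Uo B)
    (isOptimal_Uo (join B (Op V B))) (2 + c) ?_
  intro ρ x hx
  obtain ⟨s, hs⟩ := mem_Uo.1 hx
  obtain ⟨s', hs'⟩ := hcov B s _ hs
  obtain ⟨τ, h1, h2⟩ := hM2 s' _ hs'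
  obtain ⟨τ', h3, h4⟩ := hc τ x h1
  exact ⟨τ', h3, by simp only at h2; omega⟩

/-- there is an incomplete almost complete 1-random set below the halting set -/
theorem exists_random : ∃ Z : Set ℕ, IsRandom Z ∧ AlmostComplete Z ∧ Red Z halting ∧
    ¬ Red halting Z := by
  obtain ⟨V, hV, hne, hac⟩ := exists_goodOp
  obtain ⟨Z, h1, h2, h3, h4⟩ := random_inversion_of exists_G hV
  exact ⟨Z, h1, hac Z h4, h2, fun h => hne Z (h3.trans h)⟩

/-- every set not computing the halting set is below an almost complete PA set not computing it -/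
theorem exists_PA (Z : Set ℕ) (hZ : ¬ Red halting Z) : ∃ B, Red Z B ∧ IsPA B ∧ AlmostComplete B ∧
    ¬ Red halting B := by
  obtain ⟨V, hV, hne, hac⟩ := exists_goodOp
  obtain ⟨B, h1, h2, h3, h4⟩ := pa_join hV hne Z hZ
  exact ⟨B, h1, h2, hac B h4, h3⟩

end AC
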