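import Pool.Agent.Hhelper54.AC.Proc

/-!
# Termination of the nested strategy by stabilisation
-/

namespace AC

namespace Term

variable {kk κ : ℕ} {V : ℕ → ℕ → ℕ → Bool} {τ : ℕ → ℕ}

/-! ### Lists -/

theorem split3 {α : Type*} {P P1 : List α} {X F : α} {T L : List α}
    (h : P ++ X :: T = P1 ++ F :: L) :
    (∃ L1, P = P1 ++ F :: L1 ∧ L = L1 ++ X :: T) ∨ (P = P1 ∧ X = F ∧ T = L) ∨
      (∃ T1, T = T1 ++ F :: L ∧ P1 = P ++ X :: T1) := by
  induction P generalizing P1 with
  | nil =>
    cases P1 with
    | nil =>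
      simp only [List.nil_append, List.cons.injEq] at h
      exact Or.inr (Or.inl ⟨rfl, h.1, h.2⟩)
    | cons a P1 =>
      simp only [List.nil_append, List.cons_append, List.cons.injEq] at h
      exact Or.inr (Or.inr ⟨P1, h.2, by rw [h.1]; rfl⟩)
  | cons a P ih =>
    cases P1 with
    | nil =>
      simp only [List.nil_append, List.cons_append, List.cons.injEq] at h
      exact Or.inl ⟨P, by rw [h.1]; rfl, h.2.symm⟩
    | cons b P1 =>
      simp only [List.cons_append, List.cons.injEq] at h
      obtain ⟨h1, h2⟩ := h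
      subst h1
      rcases ih h2 with ⟨L1, h3, h4⟩ | ⟨h3, h4, h5⟩ | ⟨T1, h3, h4⟩
      · exact Or.inl ⟨L1, by rw [h3]; rfl, h4⟩
      · exact Or.inr (Or.inl ⟨by rw [h3], h4, h5⟩)
      · exact Or.inr (Or.inr ⟨T1, h3, by rw [h4]; rfl⟩)

theorem mem_tail_of_append {α : Type*} {P : List α} {X : α} {T : List α} (hP : P ≠ []) :
    X ∈ (P ++ X :: T).tail := by
  cases P with
  | nil => exact absurd rfl hP
  | cons a P => simp

/-! ### The parts of a step -/

theorem trim_none {i t N : ℕ} {s : List Frame} (h : trim V i t N s = none) :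
    ∀ F ∈ s, bad V t F = false := by
  induction s with
  | nil => intro F hF; simp at hF
  | cons F L ih =>
    rw [trim] at h
    cases hL : trim V i t N L with
    | some L' => rw [hL] at h; simp at h
    | none =>
      rw [hL] at h
      have h1 := ih hL
      intro G hG
      rcases List.mem_cons.1 hG with rfl | hG
      · by_contra hb
        rw [Bool.not_eq_false] at hb
        rw [hb] at h
        simp at h
      · exact h1 G hG

theorem trim_some {i t N : ℕ} {s s' : List Frame} (h : trim V i t N s = some s') :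
    ∃ P F L, s = P ++ F :: L ∧ bad V t F = true ∧ (∀ G ∈ L, bad V t G = false) ∧
      s' = handle i N F L := by
  induction s generalizing s' with
  | nil => simp [trim] at h
  | cons F L ih =>
    rw [trim] at h
    cases hL : trim V i t N L with
    | some L' =>
      rw [hL] at h
      simp only [Option.some.injEq] at h
      subst h
      obtain ⟨P, F', L'', h1, h2, h3, h4⟩ := ih hL
      exact ⟨F :: P, F', L'', by rw [h1]; rfl, h2, h3, h4⟩
    | none =>
      rw [hL] at h
      have h1 := trim_none hL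
      cases hb : bad V t F with
      | false => rw [hb] at h; simp at h
      | true =>
        rw [hb] at h
        simp only [cond_true, Option.some.injEq] at h
        exact ⟨[], F, L, rfl, hb, h1, h.symm⟩

theorem killStack_some {h : Hist} {s s' : List Frame} (hs : killStack h s = some s') :
    ∃ (P : List Frame) (F : Frame) (L : List Frame), s = P ++ F :: L ∧ reach (h.drop F.c) F.e = true ∧
      s' = (F.e, F.c, F.y, F.comp, true) :: L := by
  induction s generalizing s' with
  | nil => simp [killStack] at hs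
  | cons F L ih =>
    rw [killStack] at hs
    cases hL : killStack h L with
    | some L' =>
      rw [hL] at hs
      simp only [Option.some.injEq] at hs
      subst hs
      obtain ⟨P, F', L'', h1, h2, h3⟩ := ih hL
      exact ⟨F :: P, F', L'', by rw [h1]; rfl, h2, h3⟩
    | none =>
      rw [hL] at hs
      cases hb : reach (h.drop F.c) F.e with
      | false => rw [hb] at hs; simp at hs
      | true =>
        rw [hb] at hs
        simp only [cond_true, Option.some.injEq] at hs
        exact ⟨[], F, L, rfl, hb, hs.symm⟩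

/-- the possible steps -/
inductive Cases (kk κ : ℕ) (V : ℕ → ℕ → ℕ → Bool) (i t : ℕ) (S : St) : St → Prop
  | trim (P : List Frame) (F : Frame) (L : List Frame) (h1 : S.1 = P ++ F :: L)
      (h2 : bad V t F = true) (h3 : ∀ G ∈ L, bad V t G = false) :
      Cases kk κ V i t S (handle i S.2.length F L, S.2)
  | empty (h : S.1 = []) : Cases kk κ V i t S S
  | wait (F : Frame) (L : List Frame) (h0 : ∀ G ∈ S.1, bad V t G = false) (h1 : S.1 = F :: L)
      (h2 : F.killed = true ∨ (F.killed = false ∧ F.comp = none ∧ findc V F.y t = none)) :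
      Cases kk κ V i t S S
  | find (F : Frame) (L : List Frame) (k : ℕ) (h0 : ∀ G ∈ S.1, bad V t G = false)
      (h1 : S.1 = F :: L) (h2 : F.killed = false) (h3 : F.comp = none)
      (h4 : findc V F.y t = some k) :
      Cases kk κ V i t S ((F.e, F.c, F.y, some (i, k, S.2.length), false) :: L, S.2)
  | kill (F : Frame) (L : List Frame) (x : ℕ × ℕ × ℕ) (h0 : ∀ G ∈ S.1, bad V t G = false)
      (h1 : S.1 = F :: L) (h2 : F.killed = false) (h3 : F.comp = some x)
      (P : List Frame) (G : Frame) (L' : List Frame) (h4 : S.1 = P ++ G :: L')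
      (h5 : reach (S.2.drop G.c) G.e = true) :
      Cases kk κ V i t S ((G.e, G.c, G.y, G.comp, true) :: L', S.2)
  | push (F : Frame) (L : List Frame) (x : ℕ × ℕ × ℕ) (h0 : ∀ G ∈ S.1, bad V t G = false)
      (h1 : S.1 = F :: L) (h2 : F.killed = false) (h3 : F.comp = some x)
      (h4 : S.1.length < kk) :
      Cases kk κ V i t S (fresh (F.e + x.1 + κ) S.2.length (i + 1) :: S.1, S.2)
  | place (F : Frame) (L : List Frame) (x : ℕ × ℕ × ℕ) (h0 : ∀ G ∈ S.1, bad V t G = false)
      (h1 : S.1 = F :: L) (h2 : F.killed = false) (h3 : F.comp = some x)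
      (h4 : ¬ S.1.length < kk) :
      Cases kk κ V i t S (S.1, S.2 ++ [(t, F.e + x.1 + κ)])

theorem step_cases (i t : ℕ) (S : St) : Cases kk κ V i t S (step kk κ V i t S) := by
  unfold step
  cases htr : trim V i t S.2.length S.1 with
  | some st =>
    obtain ⟨P, F, L, h1, h2, h3, h4⟩ := trim_some htr
    simp only
    rw [h4]
    exact Cases.trim P F L h1 h2 h3
  | none =>
    have h0 := trim_none htr
    simp only
    cases hS : S.1 with
    | nil => exact Cases.empty hS
    | cons F L =>
      simp only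
      cases hk : F.killed with
      | true =>
        simp only [cond_true]
        exact Cases.wait F L h0 hS (Or.inl hk)
      | false =>
        simp only [cond_false]
        cases hc : F.comp with
        | none =>
          simp only
          cases hf : findc V F.y t with
          | none =>
            simp only
            exact Cases.wait F L h0 hS (Or.inr ⟨hk, hc, hf⟩)
          | some k =>
            simp only
            exact Cases.find F L k h0 hS hk hc hf
        | some x =>
          simp only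
          cases hks : killStack S.2 (F :: L) with
          | some st =>
            simp only
            rw [← hS] at hks
            obtain ⟨P, G, L', h1, h2, h3⟩ := killStack_some hks
            rw [h3]
            exact Cases.kill F L x h0 hS hk hc P G L' h1 h2
          | none =>
            simp only
            by_cases hl : S.1.length < kk
            · have hl' : (F :: L).length < kk := hS ▸ hl
              rw [decide_eq_true hl']
              simp only [cond_true]
              rw [← hS]
              exact Cases.push F L x h0 hS hk hc hl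
            · have hl' : ¬ (F :: L).length < kk := hS ▸ hl
              rw [decide_eq_false hl']
              simp only [cond_false]
              rw [← hS]
              exact Cases.place F L x h0 hS hk hc hl

/-! ### Invariants of the stack -/

/-- only the head may be killed or wait for a computation -/
def Inv (kk : ℕ) (s : List Frame) : Prop :=
  (∀ F ∈ s, F.killed = true → F.comp ≠ none) ∧
    (∀ F ∈ s.tail, F.comp ≠ none ∧ F.killed = false) ∧ s.length ≤ kk

theorem handle_eq (i N : ℕ) (F : Frame) (L : List Frame) :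
    handle i N F L = [] ∧ F.killed = true ∧ L = [] ∨
      handle i N F L = fresh F.e N (i + 1) :: L ∧ F.killed = true ∧ L ≠ [] ∨
      handle i N F L = (F.e, F.c, F.y, none, false) :: L ∧ F.killed = false := by
  unfold handle
  cases hk : F.killed with
  | true =>
    cases L with
    | nil => left; simp
    | cons G L => right; left; simp
  | false => right; right; simp

theorem inv_of_tail {L : List Frame} {s P : List Frame} {F : Frame} (hs : Inv kk s)
    (h : s = P ++ F :: L) :
    ∀ G ∈ L, G.comp ≠ none ∧ G.killed = false := by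
  intro G hG
  refine hs.2.1 G ?_
  rw [h]
  cases P with
  | nil => simpa using hG
  | cons a P => simp [hG]

theorem inv_cons {L : List Frame} {s P : List Frame} {F F' : Frame} (hs : Inv kk s)
    (h : s = P ++ F :: L) (hF' : F'.killed = true → F'.comp ≠ none) : Inv kk (F' :: L) := by
  have h1 := inv_of_tail hs h
  refine ⟨?_, ?_, ?_⟩
  · intro G hG hk
    rcases List.mem_cons.1 hG with rfl | hG
    · exact hF' hk
    · exact (h1 G hG).1
  · intro G hG
    exact h1 G hG
  · have h2 := hs.2.2
    rw [h] at h2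
    simp only [List.length_append, List.length_cons] at h2 ⊢
    omega

theorem inv_step {i t : ℕ} {S S' : St} (h : Cases kk κ V i t S S') (hs : Inv kk S.1) :
    Inv kk S'.1 := by
  cases h with
  | trim P F L h1 h2 h3 =>
    rcases handle_eq i S.2.length F L with ⟨h4, -, -⟩ | ⟨h4, -, -⟩ | ⟨h4, -⟩
    · rw [h4]
      exact ⟨by simp, by simp, by simp⟩
    · rw [h4]
      exact inv_cons hs h1 (by intro h; simp [fresh, Frame.killed] at h)
    · rw [h4]
      exact inv_cons hs h1 (by intro h; simp [Frame.killed] at h)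
  | empty h => exact hs
  | wait F L h0 h1 h2 => exact hs
  | find F L k h0 h1 h2 h3 h4 =>
    exact inv_cons (P := []) hs h1 (by intro h; simp [Frame.killed] at h)
  | kill F L x h0 h1 h2 h3 P G L' h4 h5 =>
    refine inv_cons hs h4 ?_
    intro _
    have hG : G ∈ S.1 := by rw [h4]; simp
    rw [h1] at hG
    rcases List.mem_cons.1 hG with rfl | hG
    · show G.comp ≠ none
      rw [h3]; simp
    · exact (hs.2.1 G (by rw [h1]; exact hG)).1
  | push F L x h0 h1 h2 h3 h4 =>
    refine ⟨?_, ?_, ?_⟩
    · intro G hG hk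
      rcases List.mem_cons.1 hG with rfl | hG
      · simp [fresh, Frame.killed] at hk
      · exact hs.1 G hG hk
    · intro G hG
      have hG' : G ∈ S.1 := hG
      rw [h1] at hG'
      rcases List.mem_cons.1 hG' with rfl | hG'
      · exact ⟨by rw [h3]; simp, h2⟩
      · exact hs.2.1 G (by rw [h1]; exact hG')
    · simp only [List.length_cons]; omega
  | place F L x h0 h1 h2 h3 h4 => exact hs

theorem inv_run (hk : 0 < kk) (i : ℕ) : Inv kk (run kk κ V τ i).1 := by
  induction i with
  | zero =>
    refine ⟨?_, ?_, ?_⟩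
    · intro F hF hk
      have : F = fresh 1 0 0 := by simpa [run, init] using hF
      subst this
      simp [fresh, Frame.killed] at hk
    · intro F hF
      simp [run, init] at hF
    · simp [run, init]; omega
  | succ i ih => exact inv_step (step_cases i (τ i) _) ih

/-! ### The outermost frame above a fixed stack -/

/-- possible changes of a frame in a round -/
inductive Rel (V : ℕ → ℕ → ℕ → Bool) (i t : ℕ) (h : Hist) (X : Frame) : Frame → Prop
  | completion (h1 : bad V t X = true) (h2 : X.killed = true) :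
      Rel V i t h X (fresh X.e h.length (i + 1))
  | reset (h1 : bad V t X = true) (h2 : X.killed = false) :
      Rel V i t h X (X.e, X.c, X.y, none, false)
  | same (h1 : bad V t X = false) (h2 : X.comp = none → findc V X.y t = none) : Rel V i t h X X
  | find (h1 : bad V t X = false) (h2 : X.comp = none) (k : ℕ) (h3 : findc V X.y t = some k) :
      Rel V i t h X (X.e, X.c, X.y, some (i, k, h.length), false)
  | kill (h1 : bad V t X = false) (h2 : X.comp ≠ none) (h3 : reach (h.drop X.c) X.e = true) :
      Rel V i t h X (X.e, X.c, X.y, X.comp, true)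

theorem rel_step {i t : ℕ} {S S' : St} (h : Cases kk κ V i t S S') (hs : Inv kk S.1)
    {P T : List Frame} {X : Frame} (hS : S.1 = P ++ X :: T)
    (hT : ∀ F ∈ T, F.killed = false) (hTb : ∀ F ∈ T, bad V t F = false)
    (hne : S'.1 ≠ []) (hS' : ∃ P', S'.1 = P' ++ T) :
    ∃ P' X', S'.1 = P' ++ X' :: T ∧ Rel V i t S.2 X X' := by
  cases h with
  | trim P1 F L h1 h2 h3 =>
    rcases split3 (hS.symm.trans h1) with ⟨L1, h4, h5⟩ | ⟨h4, h5, h6⟩ | ⟨T1, h4, h5⟩
    · have hXL : X ∈ L := by rw [h5]; simp
      have hXc := (inv_of_tail hs h1 X hXL).1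
      rcases handle_eq i S.2.length F L with ⟨h7, -, h8⟩ | ⟨h7, -, -⟩ | ⟨h7, -⟩
      · rw [h8] at hXL; simp at hXL
      · refine ⟨fresh F.e S.2.length (i + 1) :: L1, X, ?_, Rel.same (h3 X hXL) (fun h => absurd h hXc)⟩
        rw [h7, h5]; rfl
      · refine ⟨(F.e, F.c, F.y, none, false) :: L1, X, ?_,
          Rel.same (h3 X hXL) (fun h => absurd h hXc)⟩
        rw [h7, h5]; rfl
    · subst h5 h6
      rcases handle_eq i S.2.length X T with ⟨h7, -, h8⟩ | ⟨h7, h8, -⟩ | ⟨h7, h8⟩
      · exact absurd h7 hne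
      · exact ⟨[], _, h7, Rel.completion h2 h8⟩
      · exact ⟨[], _, h7, Rel.reset h2 h8⟩
    · have : F ∈ T := by rw [h4]; simp
      rw [hTb F this] at h2
      simp at h2
  | empty h => rw [h] at hS; simp at hS
  | wait F L h0 h1 h2 =>
    refine ⟨P, X, hS, Rel.same (h0 X (by rw [hS]; simp)) ?_⟩
    intro hXc
    have hP : P = [] := by
      by_contra hP
      have := hs.2.1 X (by rw [hS]; exact mem_tail_of_append hP)
      exact this.1 hXc
    subst hP
    have hXF : X = F := by
      have := hS.symm.trans h1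
      simp only [List.nil_append, List.cons.injEq] at this
      exact this.1
    subst hXF
    rcases h2 with h2 | ⟨-, -, h2⟩
    · exact absurd hXc (hs.1 X (by rw [h1]; simp) h2)
    · exact h2
  | find F L k h0 h1 h2 h3 h4 =>
    cases P with
    | nil =>
      have := hS.symm.trans h1
      simp only [List.nil_append, List.cons.injEq] at this
      obtain ⟨rfl, rfl⟩ := this
      exact ⟨[], _, rfl, Rel.find (h0 X (by rw [h1]; simp)) h3 k h4⟩
    | cons a P =>
      have := hS.symm.trans h1
      simp only [List.cons_append, List.cons.injEq] at this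
      obtain ⟨rfl, rfl⟩ := this
      refine ⟨_ :: P, X, rfl, Rel.same (h0 X (by rw [hS]; simp)) (fun h => ?_)⟩
      have := hs.2.1 X (by rw [hS]; simp)
      exact absurd h this.1
  | kill F L x h0 h1 h2 h3 P1 G L' h4 h5 =>
    rcases split3 (hS.symm.trans h4) with ⟨L1, h6, h7⟩ | ⟨h6, h7, h8⟩ | ⟨T1, h6, h7⟩
    · refine ⟨(G.e, G.c, G.y, G.comp, true) :: L1, X, ?_, Rel.same (h0 X (by rw [hS]; simp))
        (fun h => ?_)⟩
      · show _ :: L' = _
        rw [h7]; rfl
      · have hXL : X ∈ L' := by rw [h7]; simp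
        exact absurd h (inv_of_tail hs h4 X hXL).1
    · subst h7 h8
      refine ⟨[], _, rfl, Rel.kill (h0 X (by rw [hS]; simp)) ?_ h5⟩
      cases P with
      | nil =>
        have := hS.symm.trans h1
        simp only [List.nil_append, List.cons.injEq] at this
        rw [this.1, h3]; simp
      | cons a P =>
        exact (hs.2.1 X (by rw [hS]; simp)).1
    · exfalso
      obtain ⟨P', hP'⟩ := hS'
      have hlen := congrArg List.length hP'
      simp only [List.length_cons, List.length_append] at hlen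
      have hlen2 := congrArg List.length h6
      simp only [List.length_cons, List.length_append] at hlen2
      have hP0 : P'.length = 0 := by omega
      rw [List.length_eq_zero_iff] at hP0
      subst hP0
      have hmem : ((G.e, G.c, G.y, G.comp, true) : Frame) ∈ T := by
        have h8 : (G.e, G.c, G.y, G.comp, true) :: L' = T := by simpa using hP'
        rw [← h8]; simp
      have := hT _ hmem
      simp [Frame.killed] at this
  | push F L x h0 h1 h2 h3 h4 =>
    refine ⟨fresh (F.e + x.1 + κ) S.2.length (i + 1) :: P, X, ?_,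
      Rel.same (h0 X (by rw [hS]; simp)) (fun h => ?_)⟩
    · show _ :: S.1 = _
      rw [hS]; rfl
    · cases P with
      | nil =>
        have := hS.symm.trans h1
        simp only [List.nil_append, List.cons.injEq] at this
        rw [this.1, h3] at h
        simp at h
      | cons a P => exact absurd h (hs.2.1 X (by rw [hS]; simp)).1
  | place F L x h0 h1 h2 h3 h4 =>
    refine ⟨P, X, hS, Rel.same (h0 X (by rw [hS]; simp)) (fun h => ?_)⟩
    cases P with
    | nil =>
      have := hS.symm.trans h1
      simp only [List.nil_append, List.cons.injEq] at this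
      rw [this.1, h3] at h
      simp at h
    | cons a P => exact absurd h (hs.2.1 X (by rw [hS]; simp)).1

/-- when nothing lies above the fixed stack, a frame is pushed -/
theorem push_step {i t : ℕ} {S S' : St} (h : Cases kk κ V i t S S')
    (hTb : ∀ F ∈ S.1, bad V t F = false) (hTk : ∀ F ∈ S.1, F.comp ≠ none ∧ F.killed = false)
    (hlen : S.1.length < kk) (hne : S.1 ≠ []) (hS' : ∃ P', S'.1 = P' ++ S.1) :
    ∃ X', S'.1 = X' :: S.1 := by
  cases h with
  | trim P1 F L h1 h2 h3 =>
    rw [hTb F (by rw [h1]; simp)] at h2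
    simp at h2
  | empty h => exact absurd h hne
  | wait F L h0 h1 h2 =>
    have h3 := hTk F (by rw [h1]; simp)
    rcases h2 with h2 | ⟨-, h2, -⟩
    · rw [h2] at h3; simp at h3
    · exact absurd h2 h3.1
  | find F L k h0 h1 h2 h3 h4 =>
    exact absurd h3 (hTk F (by rw [h1]; simp)).1
  | kill F L x h0 h1 h2 h3 P1 G L' h4 h5 =>
    exfalso
    obtain ⟨P', hP'⟩ := hS'
    have hlen := congrArg List.length hP'
    simp only [List.length_cons, List.length_append] at hlen
    have hlen2 := congrArg List.length h4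
    simp only [List.length_cons, List.length_append] at hlen2
    have hP0 : P'.length = 0 := by omega
    rw [List.length_eq_zero_iff] at hP0
    subst hP0
    have hmem : ((G.e, G.c, G.y, G.comp, true) : Frame) ∈ S.1 := by
      have h8 : (G.e, G.c, G.y, G.comp, true) :: L' = S.1 := by simpa using hP'
      rw [← h8]; simp
    have := (hTk _ hmem).2
    simp [Frame.killed] at this
  | push F L x h0 h1 h2 h3 h4 => exact ⟨_, rfl⟩
  | place F L x h0 h1 h2 h3 h4 => exact absurd hlen h4

/-- when the stack is full and constant, weight is placed -/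
theorem place_step {i t : ℕ} {S S' : St} (h : Cases kk κ V i t S S')
    (hTb : ∀ F ∈ S.1, bad V t F = false) (hTk : ∀ F ∈ S.1, F.comp ≠ none ∧ F.killed = false)
    (hlen : S.1.length = kk) (hS' : S'.1 = S.1) {F : Frame} {L : List Frame}
    {x : ℕ × ℕ × ℕ} (hF : S.1 = F :: L) (hx : F.comp = some x) :
    S'.2 = S.2 ++ [(t, F.e + x.1 + κ)] := by
  cases h with
  | trim P1 F' L' h1 h2 h3 =>
    rw [hTb F' (by rw [h1]; simp)] at h2
    simp at h2
  | empty h => rw [h] at hF; simp at hF
  | wait F' L' h0 h1 h2 =>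
    have h3 := hTk F' (by rw [h1]; simp)
    rcases h2 with h2 | ⟨-, h2, -⟩
    · rw [h2] at h3; simp at h3
    · exact absurd h2 h3.1
  | find F' L' k h0 h1 h2 h3 h4 =>
    exact absurd h3 (hTk F' (by rw [h1]; simp)).1
  | kill F' L' x' h0 h1 h2 h3 P1 G L'' h4 h5 =>
    exfalso
    have hmem : ((G.e, G.c, G.y, G.comp, true) : Frame) ∈ S.1 := by
      have h8 : (G.e, G.c, G.y, G.comp, true) :: L'' = S.1 := by simpa using hS'
      rw [← h8]; simp
    have := (hTk _ hmem).2
    simp [Frame.killed] at this
  | push F' L' x' h0 h1 h2 h3 h4 => omega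
  | place F' L' x' h0 h1 h2 h3 h4 =>
    have := hF.symm.trans h1
    simp only [List.cons.injEq] at this
    obtain ⟨rfl, rfl⟩ := this
    rw [h3] at hx
    simp only [Option.some.injEq] at hx
    subst hx
    rfl

theorem hist_step {i t : ℕ} {S S' : St} (h : Cases kk κ V i t S S') :
    ∃ l, S'.2 = S.2 ++ l := by
  cases h with
  | trim P1 F' L' h1 h2 h3 => exact ⟨[], by simp⟩
  | empty h => exact ⟨[], by simp⟩
  | wait F' L' h0 h1 h2 => exact ⟨[], by simp⟩
  | find F' L' k h0 h1 h2 h3 h4 => exact ⟨[], by simp⟩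
  | kill F' L' x' h0 h1 h2 h3 P1 G L'' h4 h5 => exact ⟨[], by simp⟩
  | push F' L' x' h0 h1 h2 h3 h4 => exact ⟨[], by simp⟩
  | place F' L' x' h0 h1 h2 h3 h4 => exact ⟨_, rfl⟩

/-! ### Weights -/

theorem wt_append (a b : Hist) : wt (a ++ b) = wt a + wt b := by
  simp [wt]

theorem wt_nonneg (a : Hist) : 0 ≤ wt a := by
  unfold wt
  apply List.sum_nonneg
  intro x hx
  obtain ⟨p, -, rfl⟩ := List.mem_map.1 hx
  positivity

theorem le_esum {h : Hist} {p : ℕ × ℕ} (hp : p ∈ h) : p.2 ≤ esum h := by
  unfold esum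
  exact List.single_le_sum (by intro x _; exact Nat.zero_le x) _ (List.mem_map_of_mem hp)

theorem wsum_eq (N : ℕ) (h : Hist) (hN : ∀ p ∈ h, p.2 ≤ N) :
    ((wsum N h : ℕ) : ℚ) = 2 ^ N * wt h := by
  induction h with
  | nil => simp [wsum, wt]
  | cons p h ih =>
    have h1 : p.2 ≤ N := hN p (by simp)
    have h2 := ih (fun q hq => hN q (by simp [hq]))
    have h3 : wsum N (p :: h) = 2 ^ (N - p.2) + wsum N h := by simp [wsum]
    have h4 : wt (p :: h) = (1 / 2 : ℚ) ^ p.2 + wt h := by simp [wt]
    rw [h3, h4]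
    push_cast
    rw [h2, mul_add]
    congr 1
    have h5 : (2 : ℚ) ^ N = 2 ^ (N - p.2) * 2 ^ p.2 := by rw [← pow_add, Nat.sub_add_cancel h1]
    rw [h5, mul_assoc, ← mul_pow]
    norm_num

theorem reach_wt {h : Hist} {e : ℕ} (hr : reach h e = true) : (1 / 2 : ℚ) ^ e ≤ wt h := by
  unfold reach at hr
  rw [decide_eq_true_eq] at hr
  have h1 : ((2 ^ esum h : ℕ) : ℚ) ≤ ((wsum (e + esum h) h : ℕ) : ℚ) := by exact_mod_cast hr
  rw [wsum_eq _ _ (fun p hp => (le_esum hp).trans (Nat.le_add_left _ _))] at h1
  push_cast at h1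
  rw [pow_add] at h1
  have h2 : (0 : ℚ) < 2 ^ esum h := by positivity
  have h3 : 1 ≤ (2 : ℚ) ^ e * wt h := by
    by_contra hcon
    push Not at hcon
    have : (2 : ℚ) ^ e * 2 ^ esum h * wt h < 2 ^ esum h := by
      calc (2 : ℚ) ^ e * 2 ^ esum h * wt h = ((2 : ℚ) ^ e * wt h) * 2 ^ esum h := by ring
        _ < 1 * 2 ^ esum h := by exact mul_lt_mul_of_pos_right hcon h2
        _ = _ := one_mul _
    linarith
  have h4 : (0 : ℚ) < 2 ^ e := by positivity
  rw [one_div, inv_pow]
  rw [inv_le_iff_one_le_mul₀ h4]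
  linarith [mul_comm ((2 : ℚ) ^ e) (wt h)]

/-! ### Finitely many completions -/

theorem rel_e {i t : ℕ} {h : Hist} {X X' : Frame} (hr : Rel V i t h X X') : X'.e = X.e := by
  cases hr <;> rfl

/-- state of the count of completions -/
def Cnt (e0 : ℕ) (h : Hist) (X : Frame) : Prop :=
  X.e = e0 ∧ X.c ≤ h.length ∧ (X.killed = true → (1 / 2 : ℚ) ^ e0 ≤ wt (h.drop X.c))

theorem cnt_step {i t e0 : ℕ} {h : Hist} {X X' : Frame} (hr : Rel V i t h X X')
    (hc : Cnt e0 h X) (l : Hist) : Cnt e0 (h ++ l) X' ∧
      wt (h.take X.c) ≤ wt ((h ++ l).take X'.c) := by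
  obtain ⟨he, hc1, hc2⟩ := hc
  have hw : wt (h.take X.c) = wt ((h ++ l).take X.c) := by
    rw [List.take_append_of_le_length hc1]
  have hd : ∀ X'' : Frame, X''.e = X.e → X''.c = X.c →
      (X''.killed = true → (1 / 2 : ℚ) ^ e0 ≤ wt (h.drop X.c)) →
      Cnt e0 (h ++ l) X'' ∧ wt (h.take X.c) ≤ wt ((h ++ l).take X''.c) := by
    intro X'' h1 h2 h3
    refine ⟨⟨h1.trans he, ?_, ?_⟩, ?_⟩
    · rw [h2, List.length_append]; omega
    · intro hk
      rw [h2, List.drop_append_of_le_length hc1, wt_append]
      linarith [h3 hk, wt_nonneg l]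
    · rw [h2, ← hw]
  cases hr with
  | completion h1 h2 =>
    refine ⟨⟨he, ?_, ?_⟩, ?_⟩
    · show h.length ≤ (h ++ l).length
      simp
    · intro hk
      simp [fresh, Frame.killed] at hk
    · show wt (h.take X.c) ≤ wt ((h ++ l).take h.length)
      rw [List.take_left]
      calc wt (h.take X.c) ≤ wt (h.take X.c) + wt (h.drop X.c) := by
            linarith [wt_nonneg (h.drop X.c)]
        _ = wt h := by rw [← wt_append, List.take_append_drop]
  | reset h1 h2 => exact hd _ rfl rfl (by intro hk; simp [Frame.killed] at hk)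
  | same h1 h2 => exact hd _ rfl rfl hc2
  | find h1 h2 k h3 => exact hd _ rfl rfl (by intro hk; simp [Frame.killed] at hk)
  | kill h1 h2 h3 => exact hd _ rfl rfl (fun _ => he ▸ reach_wt h3)

theorem cnt_completion {i t e0 : ℕ} {h : Hist} {X X' : Frame} (hr : Rel V i t h X X')
    (hb : bad V t X = true) (hk : X.killed = true)
    (hc : Cnt e0 h X) (l : Hist) :
      wt (h.take X.c) + (1 / 2 : ℚ) ^ e0 ≤ wt ((h ++ l).take X'.c) := by
  obtain ⟨he, hc1, hc2⟩ := hc
  cases hr with
  | completion h1 h2 =>
    show wt (h.take X.c) + (1 / 2 : ℚ) ^ e0 ≤ wt ((h ++ l).take h.length)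
    rw [List.take_left]
    calc wt (h.take X.c) + (1 / 2 : ℚ) ^ e0 ≤ wt (h.take X.c) + wt (h.drop X.c) := by
          linarith [hc2 hk]
      _ = wt h := by rw [← wt_append, List.take_append_drop]
  | reset h1 h2 => rw [hk] at h2; simp at h2
  | same h1 h2 => rw [hb] at h1; simp at h1
  | find h1 h2 k h3 => rw [hb] at h1; simp at h1
  | kill h1 h2 h3 => rw [hb] at h1; simp at h1

theorem finite_completions (I : ℕ) (X : ℕ → Frame) (H : ℕ → Hist)
    (hR : ∀ n, Rel V (I + n) (τ (I + n)) (H n) (X n) (X (n + 1)))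
    (hH : ∀ n, ∃ l, H (n + 1) = H n ++ l) (hW : ∀ n, wt (H n) ≤ 1) :
    ∃ n0, ∀ n ≥ n0, ¬ (bad V (τ (I + n)) (X n) = true ∧ (X n).killed = true) := by
  by_contra hcon
  push Not at hcon
  obtain ⟨n0, -, hb0, hk0⟩ := hcon 0
  set e0 := (X n0).e with he0
  have hC : ∀ m, Cnt e0 (H (n0 + 1 + m)) (X (n0 + 1 + m)) := by
    intro m
    induction m with
    | zero =>
      have h1 := hR n0
      obtain ⟨l, hl⟩ := hH n0
      rw [add_zero]
      generalize hX : X (n0 + 1) = X' at h1
      cases h1 with
      | completion h1 h2 =>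
        refine ⟨rfl, ?_, ?_⟩
        · show (H n0).length ≤ _
          rw [hl]; simp
        · intro hk
          simp [fresh, Frame.killed] at hk
      | reset h1 h2 => rw [hk0] at h2; simp at h2
      | same h1 h2 => rw [hb0] at h1; simp at h1
      | find h1 h2 k h3 => rw [hb0] at h1; simp at h1
      | kill h1 h2 h3 => rw [hb0] at h1; simp at h1
    | succ m ih =>
      obtain ⟨l, hl⟩ := hH (n0 + 1 + m)
      have := (cnt_step (hR (n0 + 1 + m)) ih l).1
      rw [← hl] at this
      exact this
  set w : ℕ → ℚ := fun m => wt ((H (n0 + 1 + m)).take (X (n0 + 1 + m)).c) with hw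
  have hmono : Monotone w := by
    apply monotone_nat_of_le_succ
    intro m
    obtain ⟨l, hl⟩ := hH (n0 + 1 + m)
    have := (cnt_step (hR (n0 + 1 + m)) (hC m) l).2
    rw [← hl] at this
    exact this
  have hgrow : ∀ j : ℕ, ∃ m, (j : ℚ) * (1 / 2 : ℚ) ^ e0 ≤ w m := by
    intro j
    induction j with
    | zero => exact ⟨0, by simpa using wt_nonneg _⟩
    | succ j ih =>
      obtain ⟨m, hm⟩ := ih
      obtain ⟨n, hn, hb, hk⟩ := hcon (n0 + 1 + m)
      obtain ⟨m', rfl⟩ := Nat.exists_eq_add_of_le hn
      obtain ⟨l, hl⟩ := hH (n0 + 1 + m + m')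
      have h1 : Cnt e0 (H (n0 + 1 + m + m')) (X (n0 + 1 + m + m')) := by
        have := hC (m + m')
        rw [← add_assoc] at this
        exact this
      have h2 := cnt_completion (hR (n0 + 1 + m + m')) hb hk h1 l
      rw [← hl] at h2
      refine ⟨m + m' + 1, ?_⟩
      have h3 : w m ≤ w (m + m') := hmono (by omega)
      have h4 : w (m + m') = wt ((H (n0 + 1 + m + m')).take (X (n0 + 1 + m + m')).c) := by
        simp only [hw]; rw [← add_assoc]
      have h5 : w (m + m' + 1) = wt ((H (n0 + 1 + m + m' + 1)).take (X (n0 + 1 + m + m' + 1)).c) := by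
        simp only [hw]
        have : n0 + 1 + (m + m' + 1) = n0 + 1 + m + m' + 1 := by ring
        rw [this]
      rw [h5]
      push_cast
      rw [h4] at h3
      linarith
  obtain ⟨m, hm⟩ := hgrow (2 ^ e0 + 1)
  have h1 : w m ≤ 1 := by
    refine le_trans ?_ (hW (n0 + 1 + m))
    calc w m ≤ w m + wt ((H (n0 + 1 + m)).drop (X (n0 + 1 + m)).c) := by
          linarith [wt_nonneg ((H (n0 + 1 + m)).drop (X (n0 + 1 + m)).c)]
      _ = wt (H (n0 + 1 + m)) := by
          simp only [hw]
          rw [← wt_append, List.take_append_drop]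
  have h2 : ((2 : ℚ) ^ e0) * (1 / 2 : ℚ) ^ e0 = 1 := by
    rw [← mul_pow]; norm_num
  have h3 : (0 : ℚ) < (1 / 2 : ℚ) ^ e0 := by positivity
  push_cast at hm
  nlinarith

/-! ### Stabilisation of a frame -/

theorem findc_some {y t k : ℕ} (h : findc V y t = some k) :
    V y k t = true ∧ ∀ k' < k, V y k' t = false := by
  unfold findc at h
  rw [List.find?_range_eq_some] at h
  exact ⟨h.1, fun k' hk' => by simpa using h.2.2 k' hk'⟩

theorem findc_none {y t : ℕ} (h : findc V y t = none) : ∀ k ≤ t, V y k t = false := by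
  intro k hk
  unfold findc at h
  rw [List.find?_eq_none] at h
  simpa using h k (List.mem_range.2 (by omega))

theorem stabilise (hτ : StrictMono τ)
    (h4 : ∀ y k, ∃ T, ∀ t ≥ T, V y k t = V y k T)
    (h5 : ∀ y, ∃ k T, ∀ t ≥ T, V y k t = true)
    (I : ℕ) (X : ℕ → Frame) (H : ℕ → Hist)
    (hR : ∀ n, Rel V (I + n) (τ (I + n)) (H n) (X n) (X (n + 1)))
    (hH : ∀ n, ∃ l, H (n + 1) = H n ++ l) (hW : ∀ n, wt (H n) ≤ 1)
    (h6 : ∀ n r k f, (X n).killed = true → (X n).comp = some (r, k, f) →
      ∃ n' ≥ n, V (X n).y k (τ (I + n')) = false) :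
    ∃ n0 Y, (∀ n ≥ n0, X n = Y ∧ bad V (τ (I + n)) Y = false) ∧ Y.comp ≠ none ∧
      Y.killed = false := by
  obtain ⟨n1, hn1⟩ := finite_completions I X H hR hH hW
  -- the marker is fixed
  set y := (X n1).y with hy
  have hyc : ∀ n ≥ n1, (X n).y = y := by
    intro n hn
    induction n, hn using Nat.le_induction with
    | base => rfl
    | succ n hn ih =>
      rw [← ih]
      have h1 := hR n
      generalize hX : X (n + 1) = X' at h1
      cases h1 with
      | completion h1 h2 => exact absurd ⟨h1, h2⟩ (hn1 n hn)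
      | reset h1 h2 => rfl
      | same h1 h2 => rfl
      | find h1 h2 k h3 => rfl
      | kill h1 h2 h3 => rfl
  obtain ⟨ks, Ts, hks⟩ := h5 y
  choose Tk hTk using h4 y
  -- a stage after which everything below `ks` is decided
  obtain ⟨T0, hT0, hT0'⟩ : ∃ T0, Ts ≤ T0 ∧ ∀ k ≤ ks, Tk k ≤ T0 := by
    refine ⟨max Ts ((Finset.range (ks + 1)).sup Tk), le_max_left _ _, ?_⟩
    intro k hk
    exact le_trans (Finset.le_sup (f := Tk) (Finset.mem_range.2 (by omega))) (le_max_right _ _)
  set n2 := max n1 (max T0 ks) with hn2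
  have hτn : ∀ n ≥ n2, T0 ≤ τ (I + n) ∧ ks ≤ τ (I + n) := by
    intro n hn
    have h1 : I + n ≤ τ (I + n) := hτ.le_apply
    have h2 : T0 ≤ n := le_trans (le_trans (le_max_left _ _) (le_max_right _ _)) hn
    have h3 : ks ≤ n := le_trans (le_trans (le_max_right _ _) (le_max_right _ _)) hn
    constructor <;> omega
  have hn12 : ∀ n ≥ n2, n ≥ n1 := fun n hn => le_trans (le_max_left _ _) hn
  -- a waiting frame finds a computation which is valid forever
  have hfind : ∀ n ≥ n2, (X n).comp = none → ∃ r k f, (X (n + 1)).comp = some (r, k, f) ∧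
      ∀ t ≥ τ (I + n), V y k t = true := by
    intro n hn hc
    obtain ⟨ht1, ht2⟩ := hτn n hn
    have hyn := hyc n (hn12 n hn)
    have hbn : bad V (τ (I + n)) (X n) = false := by
      unfold bad
      rw [hc]
    have hval : V y ks (τ (I + n)) = true := hks _ (by omega)
    have h1 := hR n
    generalize hX : X (n + 1) = X' at h1
    cases h1 with
    | completion h1 h2 => rw [hbn] at h1; simp at h1
    | reset h1 h2 => rw [hbn] at h1; simp at h1
    | same h1 h2 =>
      have h3 := findc_none (h2 hc) ks ht2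
      rw [hyn, hval] at h3
      simp at h3
    | find h1 h2 k h3 =>
      obtain ⟨h4, h5⟩ := findc_some h3
      rw [hyn] at h4 h5
      have hkk : k ≤ ks := by
        by_contra hlt
        push Not at hlt
        rw [h5 ks hlt] at hval
        simp at hval
      refine ⟨_, k, _, rfl, ?_⟩
      intro t ht
      have h6 : Tk k ≤ τ (I + n) := (hT0' k hkk).trans ht1
      rw [hTk k t (by omega), ← hTk k (τ (I + n)) h6]
      exact h4
    | kill h1 h2 h3 => exact absurd hc h2
  -- how the computation changes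
  have hcomp : ∀ n ≥ n1, ∀ x, (X n).comp = some x → V y x.2.1 (τ (I + n)) = true →
      (X (n + 1)).comp = some x := by
    intro n hn x hx hv
    have hyn := hyc n hn
    have hbn : bad V (τ (I + n)) (X n) = false := by
      unfold bad
      rw [hx]
      simp only
      rw [hyn, hv]
      rfl
    have h1 := hR n
    generalize hX : X (n + 1) = X' at h1
    cases h1 with
    | completion h1 h2 => rw [hbn] at h1; simp at h1
    | reset h1 h2 => rw [hbn] at h1; simp at h1
    | same h1 h2 => exact hx
    | find h1 h2 k h3 => rw [h2] at hx; simp at hx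
    | kill h1 h2 h3 => exact hx
  have hbadnone : ∀ n ≥ n1, ∀ x, (X n).comp = some x → V y x.2.1 (τ (I + n)) = false →
      (X (n + 1)).comp = none := by
    intro n hn x hx hv
    have hyn := hyc n hn
    have hbn : bad V (τ (I + n)) (X n) = true := by
      unfold bad
      rw [hx]
      simp only
      rw [hyn, hv]
      rfl
    have h1 := hR n
    generalize hX : X (n + 1) = X' at h1
    cases h1 with
    | completion h1 h2 => exact absurd ⟨h1, h2⟩ (hn1 n hn)
    | reset h1 h2 => rfl
    | same h1 h2 => rw [hbn] at h1; simp at h1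
    | find h1 h2 k h3 => rw [hbn] at h1; simp at h1
    | kill h1 h2 h3 => rw [hbn] at h1; simp at h1
  -- eventually the computation is constant and valid
  obtain ⟨n3, x, hn3, hx3⟩ : ∃ n3 x, n2 ≤ n3 ∧ ∀ n ≥ n3, (X n).comp = some x ∧
      V y x.2.1 (τ (I + n)) = true := by
    by_cases hex : ∃ n ≥ n2, (X n).comp = none
    · obtain ⟨n, hn, hc⟩ := hex
      obtain ⟨r, k, f, h1, h2⟩ := hfind n hn hc
      refine ⟨n + 1, (r, k, f), by omega, ?_⟩
      have hv : ∀ m ≥ n, V y k (τ (I + m)) = true := fun m hm =>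
        h2 _ (hτ.monotone (by omega))
      intro m hm
      induction m, hm using Nat.le_induction with
      | base => exact ⟨h1, hv _ (by omega)⟩
      | succ m hm ih =>
        exact ⟨hcomp m (hn12 m (by omega)) _ ih.1 ih.2, hv _ (by omega)⟩
    · push Not at hex
      obtain ⟨x, hx⟩ := Option.ne_none_iff_exists'.1 (hex n2 le_rfl)
      refine ⟨n2, x, le_rfl, ?_⟩
      intro m hm
      have hvalid : ∀ m ≥ n2, (X m).comp = some x → V y x.2.1 (τ (I + m)) = true := by
        intro m hm hxm
        by_contra hv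
        rw [Bool.not_eq_true] at hv
        exact hex (m + 1) (by omega) (hbadnone m (hn12 m hm) x hxm hv)
      induction m, hm using Nat.le_induction with
      | base => exact ⟨hx, hvalid _ le_rfl hx⟩
      | succ m hm ih =>
        have := hcomp m (hn12 m hm) _ ih.1 ih.2
        exact ⟨this, hvalid _ (by omega) this⟩
  obtain ⟨r, k, f⟩ := x
  -- never killed
  have hnk : ∀ n ≥ n3, (X n).killed = false := by
    intro n hn
    by_contra hk
    rw [Bool.not_eq_false] at hk
    obtain ⟨n', hn', hv⟩ := h6 n r k f hk (hx3 n hn).1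
    rw [hyc n (hn12 n (by omega)), (hx3 n' (by omega)).2] at hv
    simp at hv
  have hbn : ∀ n ≥ n3, bad V (τ (I + n)) (X n) = false := by
    intro n hn
    unfold bad
    rw [(hx3 n hn).1]
    simp only
    rw [hyc n (hn12 n (by omega)), (hx3 n hn).2]
    rfl
  have hsame : ∀ n ≥ n3, X n = X n3 := by
    intro n hn
    induction n, hn using Nat.le_induction with
    | base => rfl
    | succ n hn ih =>
      rw [← ih]
      have h1 := hR n
      have hk' := hnk (n + 1) (by omega)
      generalize hX : X (n + 1) = X' at h1 hk'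
      cases h1 with
      | completion h1 h2 => rw [hbn n hn] at h1; simp at h1
      | reset h1 h2 => rw [hbn n hn] at h1; simp at h1
      | same h1 h2 => rfl
      | find h1 h2 k h3 => rw [(hx3 n hn).1] at h2; simp at h2
      | kill h1 h2 h3 => simp [Frame.killed] at hk'
  refine ⟨n3, X n3, ?_, ?_, hnk n3 le_rfl⟩
  · intro n hn
    have h1 := hsame n hn
    refine ⟨h1, ?_⟩
    rw [← h1]
    exact hbn n hn
  · rw [(hx3 n3 le_rfl).1]
    simp

/-! ### The induction -/

theorem run_cases (i : ℕ) :
    Cases kk κ V i (τ i) (run kk κ V τ i) (run kk κ V τ (i + 1)) :=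
  step_cases i (τ i) _

theorem stable_stack (hk : 0 < kk) (hτ : StrictMono τ)
    (h4 : ∀ y k, ∃ T, ∀ t ≥ T, V y k t = V y k T)
    (h5 : ∀ y, ∃ k T, ∀ t ≥ T, V y k t = true)
    (h6 : ∀ i F r k f, F ∈ (run kk κ V τ i).1 → F.killed = true → F.comp = some (r, k, f) →
      ∃ i' ≥ i, V F.y k (τ i') = false)
    (hW : ∀ i, wt (run kk κ V τ i).2 ≤ 1) (hne : ∀ i, (run kk κ V τ i).1 ≠ []) (q : ℕ)
    (hq : q ≤ kk) :
    ∃ (I : ℕ) (T : List Frame), T.length = q ∧ (∀ F ∈ T, F.comp ≠ none ∧ F.killed = false) ∧
      ∀ i ≥ I, (∃ P, (run kk κ V τ i).1 = P ++ T) ∧ ∀ F ∈ T, bad V (τ i) F = false := by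
  induction q with
  | zero => exact ⟨0, [], rfl, by simp, fun i _ => ⟨⟨_, by simp; rfl⟩, by simp⟩⟩
  | succ q ih =>
    obtain ⟨I, T, hTl, hTk, hI⟩ := ih (by omega)
    -- eventually something lies above `T`
    obtain ⟨I1, hI1, P1, X1, hX1⟩ : ∃ I1 ≥ I, ∃ P X, (run kk κ V τ I1).1 = P ++ X :: T := by
      obtain ⟨⟨P, hP⟩, hb⟩ := hI I le_rfl
      rcases List.eq_nil_or_concat P with rfl | ⟨P', X, rfl⟩
      · rw [List.nil_append] at hP
        have hTne : (run kk κ V τ I).1 ≠ [] := hne I
        obtain ⟨P2, hP2⟩ := (hI (I + 1) (by omega)).1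
        obtain ⟨X', hX'⟩ := push_step (run_cases I) (by rw [hP]; exact hb) (by rw [hP]; exact hTk)
          (by rw [hP]; omega) hTne ⟨P2, by rw [hP2, hP]⟩
        exact ⟨I + 1, by omega, [], X', by rw [hX', hP]; rfl⟩
      · exact ⟨I, le_rfl, P', X, by rw [hP]; simp⟩
    have hstep : ∀ i ≥ I, ∀ P X, (run kk κ V τ i).1 = P ++ X :: T →
        ∃ P' X', (run kk κ V τ (i + 1)).1 = P' ++ X' :: T ∧
          Rel V i (τ i) (run kk κ V τ i).2 X X' := by
      intro i hi P X hPX
      exact rel_step (run_cases i) (inv_run hk i) hPX (fun F hF => (hTk F hF).2) (hI i hi).2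
        (hne (i + 1)) (hI (i + 1) (by omega)).1
    have hall : ∀ n, ∃ P X, (run kk κ V τ (I1 + n)).1 = P ++ X :: T := by
      intro n
      induction n with
      | zero => exact ⟨P1, X1, hX1⟩
      | succ n ihn =>
        obtain ⟨P, X, hPX⟩ := ihn
        obtain ⟨P', X', h1, -⟩ := hstep (I1 + n) (by omega) P X hPX
        exact ⟨P', X', h1⟩
    choose P X hPX using hall
    have hR : ∀ n, Rel V (I1 + n) (τ (I1 + n)) (run kk κ V τ (I1 + n)).2 (X n) (X (n + 1)) := by
      intro n
      obtain ⟨P', X', h1, h2⟩ := hstep (I1 + n) (by omega) (P n) (X n) (hPX n)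
      have h3 := hPX (n + 1)
      rw [show I1 + (n + 1) = I1 + n + 1 from rfl, h1] at h3
      have h4 := (List.append_inj' h3 rfl).2
      simp only [List.cons.injEq, and_true] at h4
      rw [← h4]
      exact h2
    obtain ⟨n0, Y, hY, hYc, hYk⟩ := stabilise hτ h4 h5 I1 X (fun n => (run kk κ V τ (I1 + n)).2) hR
      (fun n => hist_step (run_cases (I1 + n))) (fun n => hW _) (by
        intro n r k f hk hc
        obtain ⟨i', hi', hv⟩ := h6 (I1 + n) (X n) r k f (by rw [hPX n]; simp) hk hc
        refine ⟨i' - I1, by omega, ?_⟩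
        rw [show I1 + (i' - I1) = i' by omega]
        exact hv)
    refine ⟨I1 + n0, Y :: T, by simp [hTl], ?_, ?_⟩
    · intro F hF
      rcases List.mem_cons.1 hF with rfl | hF
      · exact ⟨hYc, hYk⟩
      · exact hTk F hF
    · intro i hi
      obtain ⟨n, rfl⟩ := Nat.exists_eq_add_of_le (show I1 ≤ i by omega)
      have h1 := hY n (by omega)
      refine ⟨⟨P n, by rw [hPX n, h1.1]⟩, ?_⟩
      intro F hF
      rcases List.mem_cons.1 hF with rfl | hF
      · exact h1.2
      · exact (hI (I1 + n) (by omega)).2 F hF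

end Term

open Term in
/-- **Termination.** -/
theorem exists_run_nil {kk κ : ℕ} {V : ℕ → ℕ → ℕ → Bool} {τ : ℕ → ℕ}
    (hk : 0 < kk) (hτ : StrictMono τ)
    (h4 : ∀ y k, ∃ T, ∀ t ≥ T, V y k t = V y k T)
    (h5 : ∀ y, ∃ k T, ∀ t ≥ T, V y k t = true)
    (h6 : ∀ i F r k f, F ∈ (run kk κ V τ i).1 → F.killed = true → F.comp = some (r, k, f) →
      ∃ i' ≥ i, V F.y k (τ i') = false)
    (hW : ∀ i, wt (run kk κ V τ i).2 ≤ 1) : ∃ i, (run kk κ V τ i).1 = [] := by
  by_contra hcon
  push Not at hcon
  obtain ⟨I, T, hTl, hTk, hI⟩ := stable_stack hk hτ h4 h5 h6 hW hcon kk le_rfl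
  have hT : ∀ i ≥ I, (run kk κ V τ i).1 = T := by
    intro i hi
    obtain ⟨P, hP⟩ := (hI i hi).1
    have h1 := (inv_run (κ := κ) (V := V) (τ := τ) hk i).2.2
    rw [hP, List.length_append, hTl] at h1
    have h2 : P.length = 0 := by omega
    rw [List.length_eq_zero_iff] at h2
    rw [hP, h2, List.nil_append]
  obtain ⟨F, L, rfl⟩ : ∃ F L, T = F :: L := by
    cases T with
    | nil => simp at hTl; omega
    | cons F L => exact ⟨F, L, rfl⟩
  obtain ⟨x, hx⟩ := Option.ne_none_iff_exists'.1 (hTk F (by simp)).1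
  have hgrow : ∀ n : ℕ, wt (run kk κ V τ (I + n)).2 =
      wt (run kk κ V τ I).2 + n * (1 / 2 : ℚ) ^ (F.e + x.1 + κ) := by
    intro n
    induction n with
    | zero => simp
    | succ n ih =>
      have h1 := hT (I + n) (by omega)
      have h2 := hT (I + n + 1) (by omega)
      have h3 := place_step (run_cases (kk := kk) (κ := κ) (V := V) (τ := τ) (I + n))
        (by rw [h1]; exact (hI (I + n) (by omega)).2) (by rw [h1]; exact hTk)
        (by rw [h1]; exact hTl) (by rw [h1, h2]) h1 hx
      rw [show I + (n + 1) = I + n + 1 from rfl, h3, wt_append, ih]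
      have : wt [(τ (I + n), F.e + x.1 + κ)] = (1 / 2 : ℚ) ^ (F.e + x.1 + κ) := by simp [wt]
      rw [this]
      push_cast
      ring
  have h1 := hW (I + (2 ^ (F.e + x.1 + κ) + 1))
  rw [hgrow] at h1
  have h2 : ((2 : ℚ) ^ (F.e + x.1 + κ)) * (1 / 2 : ℚ) ^ (F.e + x.1 + κ) = 1 := by
    rw [← mul_pow]; norm_num
  have h3 : (0 : ℚ) < (1 / 2 : ℚ) ^ (F.e + x.1 + κ) := by positivity
  have h4 := wt_nonneg (run kk κ V τ I).2
  push_cast at h1
  nlinarith

end AC
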