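import Pool.Agent.Hhelper54.AC.Mach
import Pool.Agent.Hhelper54.AC.Term
import Pool.Agent.Hhelper54.AC.Kraft

/-!
# Sets which are K-trivial relative to an oracle do not help to diagonalise its jump
-/

namespace AC

open Low4 Encodable Denumerable
open Nat.Partrec (Code)

variable {Z : Set ℕ} {R : List Bool × (ℕ × ℕ) → ℕ → Bool} {RU : List Bool × (ℕ × ℕ) × ℕ → Bool}
  {x : Code × ℕ}

theorem alive_le {n : ℕ} (h : ItP Z R RU x n (Xf Z R RU x n)) {m : ℕ} (hm : m ≤ n) :
    ItP Z R RU x m (Xf Z R RU x m) := by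
  induction n with
  | zero =>
    obtain rfl : m = 0 := by omega
    exact h
  | succ n ih =>
    rcases Nat.lt_or_ge n m with h1 | h1
    · obtain rfl : m = n + 1 := by omega
      exact h
    · exact ih (It_pred h).1 h1

theorem hist_mem {kk κ : ℕ} {V : ℕ → ℕ → ℕ → Bool} {τ : ℕ → ℕ} {n : ℕ} {p : ℕ × ℕ}
    (hp : p ∈ (run kk κ V τ n).2) : ∃ m < n, p.1 = τ m ∧
      (run kk κ V τ (m + 1)).2 = (run kk κ V τ m).2 ++ [(τ m, p.2)] := by
  induction n with
  | zero => simp [run, init] at hp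
  | succ n ih =>
    rcases hist_succ (kk := kk) (κ := κ) (V := V) (τ := τ) n with h | ⟨q, h⟩
    · rw [h] at hp
      obtain ⟨m, h1, h2⟩ := ih hp
      exact ⟨m, by omega, h2⟩
    · rw [h] at hp
      rcases List.mem_append.1 hp with h' | h'
      · obtain ⟨m, h1, h2⟩ := ih h'
        exact ⟨m, by omega, h2⟩
      · simp only [List.mem_singleton] at h'
        subst h'
        exact ⟨n, Nat.lt_succ_self n, rfl, h⟩

/-- a placement gives a description by the machine -/
theorem Gm_of_hist {c : Code} {j n : ℕ} (h : ItP Z R RU (c, j) n (Xf Z R RU (c, j) n))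
    {p : ℕ × ℕ} (hp : p ∈ (stp Z R (c, j) n (Xf Z R RU (c, j) n)).2) :
    ∃ σ, Gm Z R RU c σ p.1 ∧ σ.length = p.2 + 2 + j := by
  have r : ∀ N, (stp Z R (c, j) N (Xf Z R RU (c, j) N)) = (Xf Z R RU (c, j) (N + 1)).2 :=
    fun N => rfl
  rw [r, Xf_two] at hp
  obtain ⟨m, h1, h2, h3⟩ := hist_mem hp
  have h4 := alive_le h (Nat.lt_succ_iff.1 h1)
  refine ⟨(List.replicate j false ++ [true]) ++ Cw.cw (Xf Z R RU (c, j) m).2.2 p.2,
    ⟨((j, m), ((Xf Z R RU (c, j) m).2, p.2)), ?_, ?_, rfl⟩, ?_⟩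
  · rw [h2]; exact h4
  · show (stp Z R (c, j) m (p.1, (Xf Z R RU (c, j) m).2)).2 = (Xf Z R RU (c, j) m).2.2 ++ [(p.1, p.2)]
    rw [h2]
    have : (stp Z R (c, j) m (tf Z R RU (c, j) m, (Xf Z R RU (c, j) m).2)) =
      (Xf Z R RU (c, j) (m + 1)).2 := rfl
    rw [this, Xf_two, Xf_two]
    exact h3
  · rw [List.length_append, List.length_append, List.length_replicate, Cw.cw_length]
    simp only [List.length_cons, List.length_nil]
    omega

/-- description of length at most `m` -/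
def KUp (U : List Bool →. ℕ) (a : ℕ × ℕ) : Prop := ∃ σ, σ.length ≤ a.1 ∧ a.2 ∈ U σ

theorem ce_KUp {U : List Bool →. ℕ} (hU : RecursiveIn {chi Z} U) : CE Z (KUp U) := by
  refine CE.ex (α := ℕ × ℕ) (β := List Bool) (p := fun a σ => σ.length ≤ a.1 ∧ a.2 ∈ U σ) ?_
  refine CE.and ?_ ?_
  · refine (CE.of_sig1 (Sig1.of_computable (f := fun z : (ℕ × ℕ) × List Bool =>
      decide (z.2.length ≤ z.1.1)) ?_)).of_eq fun z => by simp
    exact Primrec.nat_le.decide.to_comp.comp (Computable.list_length.comp Computable.snd)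
      (Computable.fst.comp Computable.fst)
  · exact (ce_graph hU).comp (f := fun z : (ℕ × ℕ) × List Bool => (z.2, z.1.2))
      (Computable.pair Computable.snd (Computable.snd.comp Computable.fst))

theorem pow_kk (j : ℕ) : 4 * (4 ^ (j + 2) + 1) ≤ 2 ^ (2 * j + 8) := by
  have h1 : (2 : ℕ) ^ (2 * j + 8) = 4 * (4 * 4 ^ (j + 2)) := by
    rw [show (4 : ℕ) = 2 ^ 2 from rfl, ← pow_mul, ← pow_add, ← pow_add]
    congr 1
    omega
  rw [h1]
  have h2 : 1 ≤ 4 ^ (j + 2) := Nat.one_le_pow _ _ (by norm_num)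
  omega

theorem thmB (Z : Set ℕ) (U : List Bool →. ℕ) (hU : IsOptimal Z U) (b : ℕ)
    (hb : ∀ n, KC U (encode (restr halting n)) ≤ KC U n + b) (h : ℕ → ℕ)
    (hh : CE (join halting Z) (fun p : ℕ × ℕ => h p.1 = p.2)) :
    ∃ n s, Jt (pre Z s) n = some (h n) := by
  by_contra hcon
  push Not at hcon
  -- normal forms
  obtain ⟨W, hW1, hW2, hW3⟩ := hh
  obtain ⟨R, hR, hRW⟩ := primrec_nf hW1
  obtain ⟨RU, hRU, hRUK⟩ := ce_bounded (ce_KUp (Z := Z) hU.machine.recursive)
  obtain ⟨c, hc⟩ := exists_code Z hR hRU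
  obtain ⟨c1, hc1⟩ := hU.simulates _ (isMachine_Gm hR hRU c)
  have hG1 : ∀ σ t t', Gm Z R RU c σ t → Gm Z R RU c σ t' → t = t' :=
    fun σ t t' h h' => (Gm_prefix h h' List.prefix_rfl).2
  obtain ⟨j, hj⟩ : ∃ j, j = 2 + c1 + b := ⟨_, rfl⟩
  -- every round is alive
  have alive : ∀ n, ItP Z R RU (c, j) n (Xf Z R RU (c, j) n) := by
    intro n
    induction n with
    | zero => exact It.zero
    | succ n ih =>
      refine It_succ ih ?_
      have h1 : ∀ p ∈ (stp Z R (c, j) n (Xf Z R RU (c, j) n)).2,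
          ∃ k T, ∀ u ≥ T, preK u p.1 = pre halting p.1 ∧ k ≤ u ∧
            RU (pre Z k, (p.2 + 2 * j, encode (pre halting p.1)), k) = true := by
        intro p hp
        obtain ⟨σ, h2, h3⟩ := Gm_of_hist ih hp
        obtain ⟨ρ, h4, h5⟩ := hc1 σ p.1 ((mem_partOf hG1).2 h2)
        have h6 := KC_le h4
        have h7 := hb p.1
        obtain ⟨ρ', h8, h9⟩ := exists_KC hU (encode (restr halting p.1))
        have h10 : KUp U (p.2 + 2 * j, encode (restr halting p.1)) :=
          ⟨ρ', by show ρ'.length ≤ p.2 + 2 * j; omega, h8⟩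
        obtain ⟨k, hk⟩ := (hRUK _).1 h10
        obtain ⟨T, hT⟩ := preK_eventually p.1
        refine ⟨k, max k T, fun u hu => ⟨hT u (le_trans (le_max_right _ _) hu),
          le_trans (le_max_left _ _) hu, hk⟩⟩
      choose! k T hkT using h1
      obtain ⟨B, hB⟩ : ∃ B, ∀ p ∈ (stp Z R (c, j) n (Xf Z R RU (c, j) n)).2, T p ≤ B := by
        refine ⟨(((stp Z R (c, j) n (Xf Z R RU (c, j) n)).2).map T).sum, fun p hp => ?_⟩
        exact List.single_le_sum (by simp) _ (List.mem_map_of_mem hp)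
      refine ⟨max B ((Xf Z R RU (c, j) n).1 + 1), lt_of_lt_of_le (Nat.lt_succ_self _)
        (le_max_right _ _), fun p hp => ?_⟩
      obtain ⟨e1, e2, e3⟩ := hkT p hp (max B ((Xf Z R RU (c, j) n).1 + 1))
        (le_trans (hB p hp) (le_max_left _ _))
      refine ⟨k p, e2, ?_⟩
      rw [e1]
      exact e3
  -- notation
  obtain ⟨τ, hτ⟩ : ∃ τ, τ = tf Z R RU (c, j) := ⟨_, rfl⟩
  obtain ⟨V, hV⟩ : ∃ V, V = Vp Z R (c, j) := ⟨_, rfl⟩
  have hX : ∀ n, Xf Z R RU (c, j) n = (τ n, run (kkp (c, j)) (κp (c, j)) V τ n) := by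
    intro n
    refine Prod.ext ?_ ?_
    · rw [hτ]; rfl
    · rw [Xf_two, hV, hτ]
  have hτm : StrictMono τ := by rw [hτ]; exact tf_mono
  have hstable : ∀ k y : ℕ, ∃ T, ∀ t ≥ T, V y k t = R (pre (join halting Z) k.unpair.1,
      (encode (Code.curry c (Nat.pair j y)), k.unpair.2.unpair.1)) k.unpair.2.unpair.2 := by
    intro k y
    obtain ⟨T, hT⟩ := preK_eventually k.unpair.1
    refine ⟨max T k, fun t ht => ?_⟩
    rw [hV]
    unfold Vp
    rw [hT t (le_trans (le_max_left _ _) ht), jn_pre halting Z (by omega) (by omega),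
      decide_eq_true (le_trans (le_max_right _ _) ht), Bool.true_and]
  have hh1 : ∀ k y : ℕ, R (pre (join halting Z) k.unpair.1,
      (encode (Code.curry c (Nat.pair j y)), k.unpair.2.unpair.1)) k.unpair.2.unpair.2 = true →
      h (encode (Code.curry c (Nat.pair j y))) = k.unpair.2.unpair.1 := by
    intro k y hk
    exact (hW3 (encode (Code.curry c (Nat.pair j y)), k.unpair.2.unpair.1)).2
      ⟨_, (hRW _).2 ⟨_, hk⟩⟩
  have h4 : ∀ y k, ∃ T, ∀ t ≥ T, V y k t = V y k T := by
    intro y k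
    obtain ⟨T, hT⟩ := hstable k y
    exact ⟨T, fun t ht => by rw [hT t ht, hT T le_rfl]⟩
  have h5 : ∀ y, ∃ k T, ∀ t ≥ T, V y k t = true := by
    intro y
    obtain ⟨s, hs⟩ := (hW3 (encode (Code.curry c (Nat.pair j y)),
      h (encode (Code.curry c (Nat.pair j y))))).1 rfl
    obtain ⟨w, hw⟩ := (hRW (pre (join halting Z) s, (encode (Code.curry c (Nat.pair j y)),
      h (encode (Code.curry c (Nat.pair j y)))))).1 hs
    obtain ⟨T, hT⟩ := hstable (Nat.pair s (Nat.pair (h (encode (Code.curry c (Nat.pair j y)))) w)) y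
    refine ⟨Nat.pair s (Nat.pair (h (encode (Code.curry c (Nat.pair j y)))) w), T,
      fun t ht => ?_⟩
    rw [hT t ht]
    simp only [Nat.unpair_pair]
    exact hw
  have h6 : ∀ i F r k f, F ∈ (run (kkp (c, j)) (κp (c, j)) V τ i).1 → F.killed = true →
      F.comp = some (r, k, f) → ∃ i' ≥ i, V F.y k (τ i') = false := by
    intro i F r k f hF hk hcomp
    have hF' : F ∈ (Xf Z R RU (c, j) i).2.1 := by rw [hX]; exact hF
    obtain ⟨s, hs⟩ := hc _ _ (Kl_of_killed (alive i) hF' hk hcomp)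
    have hne := hcon (encode (Code.curry c (Nat.pair j F.y))) s
    rw [hs] at hne
    obtain ⟨T, hT⟩ := hstable k F.y
    refine ⟨max i T, le_max_left _ _, ?_⟩
    have hge : τ (max i T) ≥ T := le_trans (le_max_right i T) (hτm.le_apply)
    rw [hT _ hge]
    by_contra hfalse
    rw [Bool.not_eq_false] at hfalse
    exact hne (by rw [hh1 k F.y hfalse])
  have hwt : ∀ i, wt (run (kkp (c, j)) (κp (c, j)) V τ i).2 ≤ 1 :=
    fun i => wt_run_le_one (kkp_pos _) i
  have hex := exists_run_nil (kkp_pos (c, j)) hτm h4 h5 h6 hwt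
  classical
  obtain ⟨i, hi, hmin⟩ : ∃ i, (run (kkp (c, j)) (κp (c, j)) V τ i).1 = [] ∧
      ∀ m < i, ¬ (run (kkp (c, j)) (κp (c, j)) V τ m).1 = [] :=
    ⟨Nat.find hex, Nat.find_spec hex, fun m hm => Nat.find_min hex hm⟩
  cases i with
  | zero => simp [run, init] at hi
  | succ i =>
    have hlow := charge_bound (Ch := fun i p => preK (τ i) p ≠ preK (τ (i + 1)) p)
      (kkp_pos (c, j)) (κ := κp (c, j)) (V := V) (pow_kk j) hτm (by
        intro i y k p hkp hV1 hV2 heq
        have h7 : preK (τ i) k.unpair.1 = preK (τ (i + 1)) k.unpair.1 :=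
          preK_of_le (le_trans (Nat.unpair_left_le k) hkp) heq
        rw [hV] at hV1 hV2
        unfold Vp at hV1 hV2
        rw [Bool.and_eq_true] at hV1
        have h8 : k ≤ τ (i + 1) :=
          le_trans (of_decide_eq_true hV1.1) (hτm.monotone (Nat.le_succ i))
        rw [decide_eq_true h8, Bool.true_and, ← h7, hV1.2] at hV2
        exact Bool.false_ne_true hV2.symm) i (hmin i (Nat.lt_succ_self i)) hi
    have hup := charge_upper (U := U) hU.machine.prefixFree (D := preK)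
      (fun t x => preK_length t x) (τ := τ) (by
        intro i i' x hii hne
        exact preK_ne_mono (hτm.monotone (Nat.le_succ i)) (hτm.monotone hii) hne)
      (h := (run (kkp (c, j)) (κp (c, j)) V τ i).2) (hist_positions hτm i).1 (q := 2 * j) (I := i) (by
        intro p hp i0 hi0 hlt
        -- the placement `p` was made before round `i0`
        obtain ⟨m, hm1, hm2, hm3⟩ := hist_mem hp
        have hmi : m < i0 := by
          rw [hm2] at hlt
          exact hτm.lt_iff_lt.1 hlt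
        have hp0 : p ∈ (run (kkp (c, j)) (κp (c, j)) V τ i0).2 := by
          have q1 := hist_prefix (kk := kkp (c, j)) (κ := κp (c, j)) (V := V) (τ := τ)
            (m + 1) i0 hmi
          rw [hm3] at q1
          refine q1.subset ?_
          rw [← hm2]
          simp
        cases i0 with
        | zero => omega
        | succ i0 =>
          have h8 := (It_pred (alive (i0 + 1))).2
          rw [hX] at h8
          obtain ⟨k, -, hk⟩ := h8 p hp0
          obtain ⟨σ, h9, h10⟩ := (hRUK _).2 ⟨k, hk⟩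
          exact ⟨σ, h9, h10⟩)
    have h11 : ((kkp (c, j) : ℕ) : ℚ) / 4 ≤ 2 ^ (2 * j) := hlow.trans hup
    unfold kkp at h11
    push_cast at h11
    have h12 : (4 : ℚ) ^ (j + 2) = 16 * 2 ^ (2 * j) := by
      rw [pow_add, pow_mul]; norm_num; ring
    have h13 : (0 : ℚ) < 2 ^ (2 * j) := by positivity
    rw [h12] at h11
    linarith

end AC
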