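import Pool.Agent.Hhelper54.AC.ThmA
import Pool.Agent.Hhelper54.AC.ThmB
import Pool.Agent.Hhelper54.AC.Exist

/-!
# The main theorems in terms of the definitions of the statement
-/

namespace AC

open Low4

theorem join_eq (A B : Set ℕ) : join A B = Join A B := by
  ext n
  constructor
  · rintro (⟨h1, h2⟩ | ⟨h1, h2⟩)
    · left
      refine ⟨n.div2, h2, ?_⟩
      have := Nat.bodd_add_div2 n
      rw [h1] at this
      simpa using this.symm
    · right
      refine ⟨n.div2, h2, ?_⟩
      have := Nat.bodd_add_div2 n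
      rw [h1] at this
      simp only [Bool.toNat_true] at this
      omega
  · rintro (⟨k, hk, rfl⟩ | ⟨k, hk, rfl⟩)
    · left
      simp [Nat.div2_val, hk]
    · right
      constructor
      · simp
      · have h1 : (2 * k + 1).div2 = k := by rw [Nat.div2_val]; omega
        rw [h1]
        exact hk

theorem leT_iff {A B : Set ℕ} : LeT A B ↔ Red A B := turing_iff_red

theorem no_PA {Z A : Set ℕ} (hZ : IsRandom Z) (hac : AlmostComplete Z) (hPA : IsPA A)
    (hZA : LeT Z A) (hA : LeT A (Join halting Z)) : LeT halting A := by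
  obtain ⟨U, hU, b, hb⟩ := hac
  rw [leT_iff] at hZA hA ⊢
  rw [← join_eq] at hA
  rcases TA.thmA Z A hZ hZA hPA with h | ⟨h, h1, h2⟩
  · exact h
  · exfalso
    have h3 : CE (join halting Z) (fun p : ℕ × ℕ => h p.1 = p.2) := h1.trans hA
    obtain ⟨n, s, h4⟩ := thmB Z U hU b hb h h3
    exact h2 n s h4

theorem exists_random' : ∃ Z : Set ℕ, IsRandom Z ∧ AlmostComplete Z ∧ LeT Z halting ∧
    ¬ LeT halting Z := by
  simp only [leT_iff]
  exact exists_random

theorem exists_PA' (Z : Set ℕ) (hZ : ¬ LeT halting Z) : ∃ A, LeT Z A ∧ IsPA A ∧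
    AlmostComplete A ∧ ¬ LeT halting A := by
  simp only [leT_iff] at *
  exact exists_PA Z hZ

end AC
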