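import Mathlib
import Pool.Agent.Hhelper54.AC.Proc

/-!
# M1: weights and charges of the nested strategy
-/

namespace AC

variable {kk κ : ℕ} {V : ℕ → ℕ → ℕ → Bool} {τ : ℕ → ℕ} {Ch : ℕ → ℕ → Prop}

/-! ### Weights -/

theorem wt_append (a b : Hist) : wt (a ++ b) = wt a + wt b := by
  simp [wt, List.map_append, List.sum_append]

theorem wt_nil : wt [] = 0 := by simp [wt]

theorem wt_cons (x : ℕ × ℕ) (b : Hist) : wt (x :: b) = (1 / 2 : ℚ) ^ x.2 + wt b := by
  simp [wt]

theorem wt_nonneg (h : Hist) : 0 ≤ wt h := by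
  induction h with
  | nil => simp [wt_nil]
  | cons x b ih =>
    rw [wt_cons]
    positivity

theorem chQ_append (a b : Hist) (I : ℕ) :
    chQ Ch τ (a ++ b) I = chQ Ch τ a I + chQ Ch τ b I := by
  simp [chQ, List.map_append, List.sum_append]

theorem chQ_nil (I : ℕ) : chQ Ch τ [] I = 0 := by simp [chQ]

theorem chQ_cons (x : ℕ × ℕ) (b : Hist) (I : ℕ) :
    chQ Ch τ (x :: b) I = (1 / 2 : ℚ) ^ x.2 * (cnt Ch τ x.1 I : ℚ) + chQ Ch τ b I := by
  simp [chQ]

theorem chQ_nonneg (h : Hist) (I : ℕ) : 0 ≤ chQ Ch τ h I := by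
  induction h with
  | nil => simp [chQ_nil]
  | cons x b ih =>
    rw [chQ_cons]
    positivity

theorem cnt_mono (t : ℕ) {I J : ℕ} (h : I ≤ J) : cnt Ch τ t I ≤ cnt Ch τ t J := by
  classical
  unfold cnt
  apply Finset.card_le_card
  apply Finset.filter_subset_filter
  exact Finset.range_mono h

theorem cnt_succ_of (t j : ℕ) (h1 : t < τ j) (h2 : Ch j t) :
    cnt Ch τ t (j + 1) = cnt Ch τ t j + 1 := by
  classical
  unfold cnt
  rw [Finset.range_add_one, Finset.filter_insert, if_pos ⟨h1, h2⟩, Finset.card_insert_of_notMem]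
  simp

theorem chQ_mono (h : Hist) {I J : ℕ} (hIJ : I ≤ J) : chQ Ch τ h I ≤ chQ Ch τ h J := by
  induction h with
  | nil => simp [chQ_nil]
  | cons x b ih =>
    rw [chQ_cons, chQ_cons]
    have : (cnt Ch τ x.1 I : ℚ) ≤ (cnt Ch τ x.1 J : ℚ) := by
      exact_mod_cast cnt_mono x.1 hIJ
    have h2 : (0 : ℚ) ≤ (1 / 2 : ℚ) ^ x.2 := by positivity
    nlinarith [mul_le_mul_of_nonneg_left this h2]

theorem chQ_succ_of (h : Hist) (j : ℕ) (hh : ∀ p ∈ h, p.1 < τ j ∧ Ch j p.1) :
    chQ Ch τ h (j + 1) = chQ Ch τ h j + wt h := by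
  induction h with
  | nil => simp [chQ_nil, wt_nil]
  | cons x b ih =>
    rw [chQ_cons, chQ_cons, wt_cons, ih (fun p hp => hh p (List.mem_cons_of_mem _ hp))]
    have hx := hh x (List.mem_cons_self)
    rw [cnt_succ_of x.1 j hx.1 hx.2]
    push_cast
    ring

theorem le_esum {h : Hist} {p : ℕ × ℕ} (hp : p ∈ h) : p.2 ≤ esum h := by
  induction h with
  | nil => simp at hp
  | cons x b ih =>
    rcases List.mem_cons.1 hp with rfl | hp
    · simp [esum]
    · have := ih hp
      simp only [esum, List.map_cons, List.sum_cons] at this ⊢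
      omega

theorem wsum_eq (N : ℕ) (h : Hist) (hN : ∀ p ∈ h, p.2 ≤ N) :
    (wsum N h : ℚ) = 2 ^ N * wt h := by
  induction h with
  | nil => simp [wsum, wt_nil]
  | cons x b ih =>
    have h1 := ih (fun p hp => hN p (List.mem_cons_of_mem _ hp))
    have h2 := hN x List.mem_cons_self
    have h3 : wsum N (x :: b) = 2 ^ (N - x.2) + wsum N b := by simp [wsum]
    rw [h3, wt_cons]
    push_cast
    rw [h1, mul_add]
    congr 1
    rw [pow_sub₀ _ (by norm_num) h2, one_div, inv_pow]

theorem reach_iff (h : Hist) (e : ℕ) : reach h e = true ↔ (1 / 2 : ℚ) ^ e ≤ wt h := by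
  have h1 : (wsum (e + esum h) h : ℚ) = 2 ^ (e + esum h) * wt h :=
    wsum_eq _ _ (fun p hp => (le_esum hp).trans (Nat.le_add_left _ _))
  unfold reach
  rw [decide_eq_true_iff]
  have h2 : (2 ^ esum h ≤ wsum (e + esum h) h) ↔
      ((2 : ℚ) ^ esum h ≤ (wsum (e + esum h) h : ℚ)) := by
    constructor
    · intro h; exact_mod_cast h
    · intro h; exact_mod_cast h
  rw [h2, h1, pow_add, one_div, inv_pow]
  have h3 : (0 : ℚ) < 2 ^ e := by positivity
  have h4 : (0 : ℚ) < 2 ^ esum h := by positivity
  rw [inv_le_iff_one_le_mul₀' h3]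
  constructor
  · intro hh
    have : (2 : ℚ) ^ esum h * 1 ≤ 2 ^ esum h * (2 ^ e * wt h) := by
      calc (2 : ℚ) ^ esum h * 1 = 2 ^ esum h := by ring
        _ ≤ 2 ^ e * 2 ^ esum h * wt h := hh
        _ = _ := by ring
    exact le_of_mul_le_mul_left this h4
  · intro hh
    calc (2 : ℚ) ^ esum h = 2 ^ esum h * 1 := by ring
      _ ≤ 2 ^ esum h * (2 ^ e * wt h) := mul_le_mul_of_nonneg_left hh h4.le
      _ = _ := by ring

/-! ### The case analysis of one round -/

theorem trim_some {i t N : ℕ} {st st' : List Frame} (h : trim V i t N st = some st') :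
    ∃ (A : List Frame) (G : Frame) (L : List Frame), st = A ++ G :: L ∧ bad V t G = true ∧ (∀ F ∈ L, bad V t F = false) ∧
      st' = handle i N G L ∧ trim V i t N L = none := by
  induction st generalizing st' with
  | nil => simp [trim] at h
  | cons F L ih =>
    rw [trim] at h
    cases hL : trim V i t N L with
    | some L' =>
      rw [hL] at h
      obtain ⟨A, G, L1, h1, h2, h3, h4, h5⟩ := ih hL
      refine ⟨F :: A, G, L1, by rw [h1]; rfl, h2, h3, ?_, h5⟩
      have : L' = st' := by simpa using h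
      rw [← this, h4]
    | none =>
      rw [hL] at h
      have hno : ∀ F ∈ L, bad V t F = false := by
        clear h ih
        induction L with
        | nil => simp
        | cons G L ih =>
          rw [trim] at hL
          cases hL' : trim V i t N L with
          | some L' => rw [hL'] at hL; simp at hL
          | none =>
            rw [hL'] at hL
            have ih' := ih hL'
            intro F' hF'
            rcases List.mem_cons.1 hF' with rfl | hF'
            · cases hb : bad V t F' with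
              | false => rfl
              | true => rw [hb] at hL; simp at hL
            · exact ih' _ hF'
      cases hb : bad V t F with
      | false => rw [hb] at h; simp at h
      | true =>
        rw [hb] at h
        refine ⟨[], F, L, rfl, hb, hno, ?_, hL⟩
        simpa using h.symm

theorem trim_none {i t N : ℕ} {st : List Frame} (h : trim V i t N st = none) :
    ∀ F ∈ st, bad V t F = false := by
  induction st with
  | nil => simp
  | cons F L ih =>
    rw [trim] at h
    cases hL : trim V i t N L with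
    | some L' => rw [hL] at h; simp at h
    | none =>
      rw [hL] at h
      intro F' hF'
      rcases List.mem_cons.1 hF' with rfl | hF'
      · cases hb : bad V t F' with
        | false => rfl
        | true => rw [hb] at h; simp at h
      · exact ih hL _ hF'

theorem killStack_none {h : Hist} {st : List Frame} (hh : killStack h st = none) :
    ∀ F ∈ st, reach (h.drop F.c) F.e = false := by
  induction st with
  | nil => simp
  | cons F L ih =>
    rw [killStack] at hh
    cases hL : killStack h L with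
    | some L' => rw [hL] at hh; simp at hh
    | none =>
      rw [hL] at hh
      intro F' hF'
      rcases List.mem_cons.1 hF' with rfl | hF'
      · cases hb : reach (h.drop F'.c) F'.e with
        | false => rfl
        | true => rw [hb] at hh; simp at hh
      · exact ih hL _ hF'

theorem killStack_some {h : Hist} {st st' : List Frame} (hh : killStack h st = some st') :
    ∃ (A : List Frame) (G : Frame) (L : List Frame), st = A ++ G :: L ∧ reach (h.drop G.c) G.e = true ∧
      (∀ F ∈ L, reach (h.drop F.c) F.e = false) ∧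
      st' = (G.e, G.c, G.y, G.comp, true) :: L := by
  induction st generalizing st' with
  | nil => simp [killStack] at hh
  | cons F L ih =>
    rw [killStack] at hh
    cases hL : killStack h L with
    | some L' =>
      rw [hL] at hh
      obtain ⟨A, G, L1, h1, h2, h3, h4⟩ := ih hL
      refine ⟨F :: A, G, L1, by rw [h1]; rfl, h2, h3, ?_⟩
      have : L' = st' := by simpa using hh
      rw [← this, h4]
    | none =>
      rw [hL] at hh
      cases hb : reach (h.drop F.c) F.e with
      | false => rw [hb] at hh; simp at hh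
      | true =>
        rw [hb] at hh
        refine ⟨[], F, L, rfl, hb, killStack_none hL, ?_⟩
        simpa using hh.symm

theorem findc_some {y t k : ℕ} (h : findc V y t = some k) : k ≤ t ∧ V y k t = true := by
  unfold findc at h
  have h1 := List.find?_some h
  have h2 := List.mem_of_find?_eq_some h
  rw [List.mem_range] at h2
  exact ⟨by omega, h1⟩

/-- the possible outcomes of a round -/
theorem step_cases (kk κ : ℕ) (V : ℕ → ℕ → ℕ → Bool) (i t : ℕ) (st : List Frame) (h : Hist) :
    (∃ (A : List Frame) (G : Frame) (L : List Frame), st = A ++ G :: L ∧ bad V t G = true ∧ (∀ F ∈ L, bad V t F = false) ∧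
      step kk κ V i t (st, h) = (handle i h.length G L, h)) ∨
    ((∀ F ∈ st, bad V t F = false) ∧
      ((step kk κ V i t (st, h) = (st, h)) ∨
      (∃ (F : Frame) (L : List Frame) (k : ℕ), st = F :: L ∧ F.killed = false ∧ F.comp = none ∧ k ≤ t ∧ V F.y k t = true ∧
        step kk κ V i t (st, h) = ((F.e, F.c, F.y, some (i, k, h.length), false) :: L, h)) ∨
      (∃ (F0 : Frame) (L0 : List Frame) (x : ℕ × ℕ × ℕ), st = F0 :: L0 ∧ F0.killed = false ∧ F0.comp = some x ∧
        ∃ (A : List Frame) (G : Frame) (L : List Frame), st = A ++ G :: L ∧ reach (h.drop G.c) G.e = true ∧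
        (∀ F ∈ L, reach (h.drop F.c) F.e = false) ∧
        step kk κ V i t (st, h) = ((G.e, G.c, G.y, G.comp, true) :: L, h)) ∨
      (∃ (F : Frame) (L : List Frame) (x : ℕ × ℕ × ℕ), st = F :: L ∧ F.killed = false ∧ F.comp = some x ∧
        (∀ F ∈ st, reach (h.drop F.c) F.e = false) ∧
        ((st.length < kk ∧ step kk κ V i t (st, h) =
            (fresh (F.e + x.1 + κ) h.length (i + 1) :: F :: L, h)) ∨
          (¬ st.length < kk ∧ step kk κ V i t (st, h) =
            (F :: L, h ++ [(t, F.e + x.1 + κ)])))))) := by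
  cases htr : trim V i t h.length st with
  | some st' =>
    left
    obtain ⟨A, G, L, h1, h2, h3, h4, -⟩ := trim_some htr
    refine ⟨A, G, L, h1, h2, h3, ?_⟩
    unfold step
    simp only
    rw [htr, h4]
  | none =>
    right
    refine ⟨trim_none htr, ?_⟩
    cases st with
    | nil =>
      left
      unfold step
      simp only
      rw [htr]
    | cons F L =>
      cases hk : F.killed with
      | true =>
        left
        unfold step
        simp only
        rw [htr]
        simp [hk]
      | false =>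
        cases hc : F.comp with
        | none =>
          cases hf : findc V F.y t with
          | none =>
            left
            unfold step
            simp only
            rw [htr]
            simp [hk, hc, hf]
          | some k =>
            right; left
            obtain ⟨h5, h6⟩ := findc_some hf
            refine ⟨F, L, k, rfl, hk, hc, h5, h6, ?_⟩
            unfold step
            simp only
            rw [htr]
            simp [hk, hc, hf]
        | some x =>
          right; right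
          cases hks : killStack h (F :: L) with
          | some st' =>
            left
            obtain ⟨A, G, L1, h1, h2, h3, h4⟩ := killStack_some hks
            refine ⟨F, L, x, rfl, hk, hc, A, G, L1, h1, h2, h3, ?_⟩
            unfold step
            simp only
            rw [htr]
            simp [hk, hc, hks, h4]
          | none =>
            right
            refine ⟨F, L, x, rfl, hk, hc, killStack_none hks, ?_⟩
            by_cases hlen : (F :: L).length < kk
            · left
              refine ⟨hlen, ?_⟩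
              unfold step
              simp only
              rw [htr]
              simp only [hk, hc, hks, hlen, decide_true, cond_false, cond_true]
            · right
              refine ⟨hlen, ?_⟩
              unfold step
              simp only
              rw [htr]
              simp only [hk, hc, hks, hlen, decide_false, cond_false]

/-! ### Structural invariant: weights -/

/-- the link between a frame and its parent -/
def link (κ : ℕ) (F : Frame) : List Frame → Prop
  | [] => F.e = 1 ∧ F.c = 0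
  | G :: _ => ∃ r k f, G.comp = some (r, k, f) ∧ G.killed = false ∧ F.e = G.e + r + κ

/-- structural invariant of the stack -/
def SInv (κ : ℕ) (h : Hist) : List Frame → Prop
  | [] => True
  | F :: L => F.c ≤ h.length ∧ wt (h.drop F.c) ≤ 2 * (1 / 2 : ℚ) ^ F.e ∧
      (F.killed = true → (∃ x, F.comp = some x) ∧ (1 / 2 : ℚ) ^ F.e ≤ wt (h.drop F.c)) ∧
      link κ F L ∧ SInv κ h L

theorem SInv_tail {h : Hist} {A : List Frame} {st : List Frame} (hs : SInv κ h (A ++ st)) :
    SInv κ h st := by
  induction A with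
  | nil => exact hs
  | cons F A ih => exact ih hs.2.2.2.2

theorem SInv_e_le {h : Hist} {F : Frame} {L : List Frame} (hs : SInv κ h (F :: L)) :
    ∀ G ∈ F :: L, G.e ≤ F.e := by
  induction L generalizing F with
  | nil =>
    intro G hG
    rw [List.mem_singleton] at hG
    rw [hG]
  | cons F' L ih =>
    intro G hG
    rcases List.mem_cons.1 hG with rfl | hG
    · exact le_refl _
    · have h1 := ih hs.2.2.2.2 G hG
      obtain ⟨r, k, f, -, -, h2⟩ := hs.2.2.2.1
      omega

theorem SInv_wt {h : Hist} {st : List Frame} (hs : SInv κ h st) (hne : st ≠ []) : wt h ≤ 1 := by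
  induction st with
  | nil => exact absurd rfl hne
  | cons F L ih =>
    cases L with
    | nil =>
      obtain ⟨-, h2, -, ⟨h4, h5⟩, -⟩ := hs
      rw [h5, h4, List.drop_zero] at h2
      norm_num at h2
      exact h2
    | cons F' L => exact ih hs.2.2.2.2 (by simp)

theorem SInv_append {h : Hist} {st : List Frame} {E : ℕ} (x : ℕ × ℕ) (hs : SInv κ h st)
    (hE : ∀ G ∈ st, G.e ≤ E) (hx : E ≤ x.2)
    (hr : ∀ F ∈ st, reach (h.drop F.c) F.e = false) : SInv κ (h ++ [x]) st := by
  induction st with
  | nil => trivial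
  | cons F L ih =>
    obtain ⟨h1, h2, h3, h4, h5⟩ := hs
    have hd : (h ++ [x]).drop F.c = h.drop F.c ++ [x] := List.drop_append_of_le_length h1
    have hw : wt ((h ++ [x]).drop F.c) = wt (h.drop F.c) + (1 / 2 : ℚ) ^ x.2 := by
      rw [hd, wt_append, wt_cons, wt_nil, add_zero]
    have hr1 := hr F List.mem_cons_self
    have hr2 : ¬ ((1 / 2 : ℚ) ^ F.e ≤ wt (h.drop F.c)) := by
      rw [← reach_iff, hr1]; simp
    have hle : (1 / 2 : ℚ) ^ x.2 ≤ (1 / 2 : ℚ) ^ F.e :=
      pow_le_pow_of_le_one (by norm_num) (by norm_num) ((hE F List.mem_cons_self).trans hx)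
    have hpos : (0 : ℚ) < (1 / 2 : ℚ) ^ x.2 := by positivity
    refine ⟨?_, ?_, ?_, h4, ih h5 (fun G hG => hE G (List.mem_cons_of_mem _ hG))
      (fun G hG => hr G (List.mem_cons_of_mem _ hG))⟩
    · rw [List.length_append]; omega
    · rw [hw]
      push Not at hr2
      linarith
    · intro hk
      obtain ⟨h6, h7⟩ := h3 hk
      exact ⟨h6, by rw [hw]; linarith⟩

theorem step_SInv (kk κ : ℕ) (V : ℕ → ℕ → ℕ → Bool) (i t : ℕ) (S : St)
    (hs : SInv κ S.2 S.1) (hw : wt S.2 ≤ 1) (hl : S.1.length ≤ kk) :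
    SInv κ (step kk κ V i t S).2 (step kk κ V i t S).1 ∧ wt (step kk κ V i t S).2 ≤ 1 ∧
      (step kk κ V i t S).1.length ≤ kk := by
  obtain ⟨st, h⟩ := S
  rcases step_cases kk κ V i t st h with ⟨A, G, L, h1, h2, h3, h4⟩ | ⟨hb, h0 | h0 | h0 | h0⟩
  · rw [h4]
    simp only at hs hw hl ⊢
    rw [h1] at hs hl
    have hs' := SInv_tail hs
    rw [List.length_append, List.length_cons] at hl
    unfold handle
    cases hk : G.killed with
    | true =>
      rw [cond_true]
      cases L with
      | nil => exact ⟨trivial, hw, by simp⟩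
      | cons G' L' =>
        refine ⟨⟨?_, ?_, ?_, hs'.2.2.2.1, hs'.2.2.2.2⟩, hw, ?_⟩
        · simp [fresh, Frame.c]
        · simp only [fresh, Frame.c, Frame.e, List.drop_length, wt_nil]
          positivity
        · simp [fresh, Frame.killed]
        · simp only [List.length_cons] at hl ⊢
          omega
    | false =>
      rw [cond_false]
      obtain ⟨h5, h6, h7, h8, h9⟩ := hs'
      refine ⟨⟨h5, h6, ?_, ?_, h9⟩, hw, ?_⟩
      · simp [Frame.killed]
      · cases L with
        | nil => exact h8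
        | cons G' L' => exact h8
      · simp only [List.length_cons] at hl ⊢
        omega
  · rw [h0]
    exact ⟨hs, hw, hl⟩
  · obtain ⟨F, L, k, h1, h2, h3, h4, h5, h6⟩ := h0
    rw [h6]
    simp only at hs hw hl ⊢
    rw [h1] at hs hl
    obtain ⟨h7, h8, h9, h10, h11⟩ := hs
    refine ⟨⟨h7, h8, ?_, ?_, h11⟩, hw, hl⟩
    · simp [Frame.killed]
    · cases L with
      | nil => exact h10
      | cons G' L' => exact h10
  · obtain ⟨F0, L0, x, h1, h2, h3, A, G, L, h4, h5, h6, h7⟩ := h0
    rw [h7]
    simp only at hs hw hl ⊢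
    have hs' : SInv κ h (G :: L) := by
      rw [h4] at hs
      exact SInv_tail hs
    refine ⟨⟨hs'.1, hs'.2.1, ?_, ?_, hs'.2.2.2.2⟩, hw, ?_⟩
    · intro _
      refine ⟨?_, (reach_iff _ _).1 h5⟩
      show ∃ x, G.comp = some x
      cases A with
      | nil =>
        rw [h1] at h4
        simp only [List.nil_append, List.cons.injEq] at h4
        rw [← h4.1]
        exact ⟨x, h3⟩
      | cons C A =>
        rw [h4] at hs
        clear h4 h1 hl
        induction A generalizing C with
        | nil =>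
          obtain ⟨r, k, f, h10, -⟩ := hs.2.2.2.1
          exact ⟨_, h10⟩
        | cons C' A ih => exact ih C' hs.2.2.2.2
    · have := hs'.2.2.2.1
      cases L with
      | nil => exact this
      | cons G' L' => exact this
    · rw [h4, List.length_append, List.length_cons] at hl
      simp only [List.length_cons]
      omega
  · obtain ⟨F, L, x, h1, h2, h3, h4, ⟨h5, h6⟩ | ⟨h5, h6⟩⟩ := h0
    · rw [h6]
      simp only at hs hw hl ⊢
      rw [h1] at hs
      refine ⟨⟨?_, ?_, ?_, ?_, hs⟩, hw, ?_⟩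
      · simp [fresh, Frame.c]
      · simp only [fresh, Frame.c, Frame.e, List.drop_length, wt_nil]
        positivity
      · simp [fresh, Frame.killed]
      · exact ⟨x.1, x.2.1, x.2.2, h3, h2, rfl⟩
      · rw [h1] at h5
        simp only [List.length_cons] at h5 ⊢
        omega
    · rw [h6]
      simp only at hs hw hl ⊢
      rw [h1] at hs hl h4
      have h7 := SInv_append (t, F.e + x.1 + κ) hs (SInv_e_le hs)
        (by show F.e ≤ F.e + x.1 + κ; omega) h4
      exact ⟨h7, SInv_wt h7 (by simp), hl⟩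

theorem run_SInv (hk : 0 < kk) (i : ℕ) :
    SInv κ (run kk κ V τ i).2 (run kk κ V τ i).1 ∧ wt (run kk κ V τ i).2 ≤ 1 ∧
      (run kk κ V τ i).1.length ≤ kk := by
  induction i with
  | zero =>
    refine ⟨⟨?_, ?_, ?_, ?_, trivial⟩, ?_, ?_⟩
    · simp [run, init, fresh, Frame.c]
    · simp only [run, init, fresh, Frame.c, Frame.e, List.drop_zero, wt_nil]
      positivity
    · simp [run, init, fresh, Frame.killed]
    · exact ⟨rfl, rfl⟩
    · simp [run, init, wt_nil]
    · simp only [run, init, List.length_cons, List.length_nil]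
      omega
  | succ i ih =>
    exact step_SInv kk κ V i (τ i) _ ih.1 ih.2.1 ih.2.2

theorem wt_run_le_one (hk : 0 < kk) (i : ℕ) : wt (run kk κ V τ i).2 ≤ 1 :=
  (run_SInv hk i).2.1

/-! ### The charge invariant -/

/-- weight of the first `n` placements -/
def W (h : Hist) (n : ℕ) : ℚ := wt (h.take n)

/-- charge of the first `n` placements -/
noncomputable def Cq (Ch : ℕ → ℕ → Prop) (τ : ℕ → ℕ) (h : Hist) (I n : ℕ) : ℚ :=
  chQ Ch τ (h.take n) I

/-- the waste -/
def slack (κ e r : ℕ) : ℚ := 4 * (1 / 2 : ℚ) ^ e * (1 / 2 : ℚ) ^ κ * (1 - (1 / 2 : ℚ) ^ r)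

theorem take_seg (h : Hist) {a b : ℕ} (hab : a ≤ b) :
    h.take b = h.take a ++ (h.take b).drop a := by
  conv_lhs => rw [← List.take_append_drop a (h.take b)]
  rw [List.take_take, Nat.min_eq_left hab]

theorem W_seg (h : Hist) {a b : ℕ} (hab : a ≤ b) : W h b = W h a + wt ((h.take b).drop a) := by
  unfold W
  conv_lhs => rw [take_seg h hab]
  rw [wt_append]

theorem Cq_seg (h : Hist) (I : ℕ) {a b : ℕ} (hab : a ≤ b) :
    Cq Ch τ h I b = Cq Ch τ h I a + chQ Ch τ ((h.take b).drop a) I := by
  unfold Cq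
  conv_lhs => rw [take_seg h hab]
  rw [chQ_append]

theorem W_mono (h : Hist) {a b : ℕ} (hab : a ≤ b) : W h a ≤ W h b := by
  rw [W_seg h hab]
  linarith [wt_nonneg ((h.take b).drop a)]

theorem Cq_mono (h : Hist) (I : ℕ) {a b : ℕ} (hab : a ≤ b) :
    Cq Ch τ h I a ≤ Cq Ch τ h I b := by
  rw [Cq_seg h I hab]
  linarith [chQ_nonneg (Ch := Ch) (τ := τ) ((h.take b).drop a) I]

theorem Cq_next (h : Hist) {I J : ℕ} (hIJ : I ≤ J) {a b : ℕ} (hab : a ≤ b) :
    Cq Ch τ h I b - Cq Ch τ h I a ≤ Cq Ch τ h J b - Cq Ch τ h J a := by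
  rw [Cq_seg h I hab, Cq_seg h J hab]
  linarith [chQ_mono (Ch := Ch) (τ := τ) ((h.take b).drop a) hIJ]

theorem Cq_succ (h : Hist) (j : ℕ) {a b : ℕ} (hab : a ≤ b)
    (hh : ∀ p ∈ (h.take b).drop a, p.1 < τ j ∧ Ch j p.1) :
    Cq Ch τ h (j + 1) b - Cq Ch τ h (j + 1) a =
      Cq Ch τ h j b - Cq Ch τ h j a + (W h b - W h a) := by
  rw [Cq_seg h j hab, Cq_seg h (j + 1) hab, W_seg h hab, chQ_succ_of _ j hh]
  ring

theorem W_drop (h : Hist) (c : ℕ) : W h h.length - W h c = wt (h.drop c) := by
  have h1 : wt h = wt (h.take c) + wt (h.drop c) := by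
    rw [← wt_append, List.take_append_drop]
  unfold W
  rw [List.take_length, h1]
  ring

theorem slack_nonneg (κ e r : ℕ) : 0 ≤ slack κ e r := by
  unfold slack
  have : (1 / 2 : ℚ) ^ r ≤ 1 := pow_le_one₀ (by norm_num) (by norm_num)
  have h2 : (0 : ℚ) ≤ 1 - (1 / 2 : ℚ) ^ r := by linarith
  positivity

theorem slack_mono (κ e : ℕ) {r s : ℕ} (hrs : r ≤ s) : slack κ e r ≤ slack κ e s := by
  unfold slack
  have : (1 / 2 : ℚ) ^ s ≤ (1 / 2 : ℚ) ^ r :=
    pow_le_pow_of_le_one (by norm_num) (by norm_num) hrs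
  have h2 : (0 : ℚ) ≤ 4 * (1 / 2 : ℚ) ^ e * (1 / 2 : ℚ) ^ κ := by positivity
  nlinarith [mul_le_mul_of_nonneg_left (show (1 : ℚ) - (1 / 2 : ℚ) ^ r ≤ 1 - (1 / 2 : ℚ) ^ s by
    linarith) h2]

theorem slack_succ (κ e r : ℕ) : slack κ e (r + 1) = slack κ e r + 2 * (1 / 2 : ℚ) ^ (e + r + κ) := by
  unfold slack
  rw [pow_succ, pow_add, pow_add]
  ring

theorem slack_le (κ e r : ℕ) : slack κ e r ≤ 4 * (1 / 2 : ℚ) ^ e * (1 / 2 : ℚ) ^ κ := by
  unfold slack
  have : (0 : ℚ) ≤ (1 / 2 : ℚ) ^ r := by positivity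
  have h2 : (0 : ℚ) ≤ 4 * (1 / 2 : ℚ) ^ e * (1 / 2 : ℚ) ^ κ := by positivity
  nlinarith [mul_nonneg h2 this]

/-- invariant of one frame -/
def FI (κ : ℕ) (V : ℕ → ℕ → ℕ → Bool) (τ : ℕ → ℕ) (Ch : ℕ → ℕ → Prop) (i : ℕ) (h : Hist)
    (l : ℚ) (N : ℕ) (F : Frame) : Prop :=
  F.c ≤ N ∧
  (F.comp = none → (l + 1) / 2 * (W h N - W h F.c - slack κ F.e i) ≤
    Cq Ch τ h (i - 1) N - Cq Ch τ h (i - 1) F.c) ∧
  (∀ r k f, F.comp = some (r, k, f) →
    r < i ∧ k ≤ τ r ∧ V F.y k (τ (i - 1)) = true ∧ F.c ≤ f ∧ (∀ p ∈ h.drop f, τ r < p.1) ∧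
    (l + 1) / 2 * (W h f - W h F.c - slack κ F.e r) ≤
      Cq Ch τ h (i - 1) f - Cq Ch τ h (i - 1) F.c ∧
    ∃ N', f ≤ N' ∧ N' ≤ N ∧ (l - 1) / 2 * (W h N' - W h f) ≤
        Cq Ch τ h (i - 1) N' - Cq Ch τ h (i - 1) f ∧
      (N' = N ∨ (F.killed = true ∧ W h N - W h N' ≤ 2 * (1 / 2 : ℚ) ^ (F.e + r + κ))))

/-- invariant of the stack -/
def InvS (kk κ : ℕ) (V : ℕ → ℕ → ℕ → Bool) (τ : ℕ → ℕ) (Ch : ℕ → ℕ → Prop) (i : ℕ) (h : Hist) :
    List Frame → ℕ → Prop
  | [], _ => True
  | F :: L, N => FI κ V τ Ch i h ((kk : ℚ) - L.length) N F ∧ InvS kk κ V τ Ch i h L F.c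

theorem bad_false {t : ℕ} {F : Frame} (hb : bad V t F = false) {r k f : ℕ}
    (hc : F.comp = some (r, k, f)) : V F.y k t = true := by
  unfold bad at hb
  rw [hc] at hb
  simpa using hb

theorem bad_true {t : ℕ} {F : Frame} (hb : bad V t F = true) :
    ∃ r k f, F.comp = some (r, k, f) ∧ V F.y k t = false := by
  unfold bad at hb
  cases hc : F.comp with
  | none => rw [hc] at hb; simp at hb
  | some x =>
    rw [hc] at hb
    exact ⟨x.1, x.2.1, x.2.2, rfl, by simpa using hb⟩

theorem FI_next {i : ℕ} {h : Hist} {l : ℚ} {N : ℕ} {F : Frame} (hl : 0 ≤ l)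
    (hF : FI κ V τ Ch i h l N F) (hb : bad V (τ i) F = false) : FI κ V τ Ch (i + 1) h l N F := by
  obtain ⟨h1, h2, h3⟩ := hF
  refine ⟨h1, ?_, ?_⟩
  · intro hc
    have h4 := h2 hc
    have h5 := Cq_next (Ch := Ch) (τ := τ) h (show i - 1 ≤ i + 1 - 1 by omega) h1
    have h6 := slack_mono κ F.e (show i ≤ i + 1 by omega)
    have h7 : (l + 1) / 2 * (W h N - W h F.c - slack κ F.e (i + 1)) ≤
        (l + 1) / 2 * (W h N - W h F.c - slack κ F.e i) :=
      mul_le_mul_of_nonneg_left (by linarith) (by linarith)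
    linarith
  · intro r k f hc
    obtain ⟨h4, h5, h6, h7, h8, h9, N', h10, h11, h12, h13⟩ := h3 r k f hc
    refine ⟨by omega, h5, bad_false hb hc, h7, h8, ?_, N', h10, h11, ?_, h13⟩
    · have := Cq_next (Ch := Ch) (τ := τ) h (show i - 1 ≤ i + 1 - 1 by omega) h7
      linarith
    · have := Cq_next (Ch := Ch) (τ := τ) h (show i - 1 ≤ i + 1 - 1 by omega) h10
      linarith

theorem InvS_next {i : ℕ} {h : Hist} {L : List Frame} {N : ℕ} (hl : L.length ≤ kk)
    (hI : InvS kk κ V τ Ch i h L N) (hb : ∀ F ∈ L, bad V (τ i) F = false) :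
    InvS kk κ V τ Ch (i + 1) h L N := by
  induction L generalizing N with
  | nil => trivial
  | cons F L ih =>
    rw [List.length_cons] at hl
    have hl' : (0 : ℚ) ≤ (kk : ℚ) - L.length := by
      have : (L.length : ℚ) ≤ kk := by exact_mod_cast (show L.length ≤ kk by omega)
      linarith
    exact ⟨FI_next hl' hI.1 (hb F List.mem_cons_self),
      ih (by omega) hI.2 (fun G hG => hb G (List.mem_cons_of_mem _ hG))⟩

theorem W_append (h : Hist) (x : ℕ × ℕ) {n : ℕ} (hn : n ≤ h.length) : W (h ++ [x]) n = W h n := by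
  unfold W
  rw [List.take_append_of_le_length hn]

theorem Cq_append (h : Hist) (x : ℕ × ℕ) (I : ℕ) {n : ℕ} (hn : n ≤ h.length) :
    Cq Ch τ (h ++ [x]) I n = Cq Ch τ h I n := by
  unfold Cq
  rw [List.take_append_of_le_length hn]

theorem InvS_append {i : ℕ} {h : Hist} {L : List Frame} {N : ℕ} (x : ℕ × ℕ)
    (hI : InvS kk κ V τ Ch i h L N) (hN : N ≤ h.length) (hx : ∀ r < i, τ r < x.1) :
    InvS kk κ V τ Ch i (h ++ [x]) L N := by
  induction L generalizing N with
  | nil => trivial
  | cons F L ih =>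
    obtain ⟨⟨h1, h2, h3⟩, h4⟩ := hI
    refine ⟨⟨h1, ?_, ?_⟩, ih h4 (h1.trans hN)⟩
    · intro hc
      rw [W_append h x hN, W_append h x (h1.trans hN), Cq_append h x _ hN,
        Cq_append h x _ (h1.trans hN)]
      exact h2 hc
    · intro r k f hc
      obtain ⟨h4, h5, h6, h7, h8, h9, N', h10, h11, h12, h13⟩ := h3 r k f hc
      have hf : f ≤ h.length := by omega
      have hN' : N' ≤ h.length := by omega
      refine ⟨h4, h5, h6, h7, ?_, ?_, N', h10, h11, ?_, ?_⟩
      · intro p hp
        rw [List.drop_append_of_le_length hf, List.mem_append] at hp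
        rcases hp with hp | hp
        · exact h8 p hp
        · rw [List.mem_singleton] at hp
          rw [hp]
          exact hx r h4
      · rw [W_append h x hf, W_append h x (h1.trans hN), Cq_append h x _ hf,
          Cq_append h x _ (h1.trans hN)]
        exact h9
      · rw [W_append h x hf, W_append h x hN', Cq_append h x _ hf, Cq_append h x _ hN']
        exact h12
      · rw [W_append h x hN, W_append h x hN']
        exact h13

theorem InvS_c_le {i : ℕ} {h : Hist} {F : Frame} {L : List Frame} {N : ℕ}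
    (hI : InvS kk κ V τ Ch i h (F :: L) N) : ∀ G ∈ F :: L, G.c ≤ F.c := by
  induction L generalizing F N with
  | nil =>
    intro G hG
    rw [List.mem_singleton] at hG
    rw [hG]
  | cons F' L ih =>
    intro G hG
    rcases List.mem_cons.1 hG with rfl | hG
    · exact le_refl _
    · exact (ih hI.2 G hG).trans hI.2.1.1

theorem InvS_split {i : ℕ} {h : Hist} {A : List Frame} {G : Frame} {L : List Frame} {N : ℕ}
    (hI : InvS kk κ V τ Ch i h (A ++ G :: L) N) (hs : SInv κ h (A ++ G :: L)) :
    (A = [] ∧ InvS kk κ V τ Ch i h (G :: L) N) ∨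
      (∃ C ∈ A, link κ C (G :: L) ∧ wt (h.drop C.c) ≤ 2 * (1 / 2 : ℚ) ^ C.e ∧
        InvS kk κ V τ Ch i h (G :: L) C.c) := by
  induction A generalizing N with
  | nil => exact Or.inl ⟨rfl, hI⟩
  | cons C A ih =>
    right
    rcases ih hI.2 hs.2.2.2.2 with ⟨rfl, h1⟩ | ⟨C', h0, h1, h2, h3⟩
    · exact ⟨C, List.mem_cons_self, hs.2.2.2.1, hs.2.1, h1⟩
    · exact ⟨C', List.mem_cons_of_mem _ h0, h1, h2, h3⟩

/-- the main computation -/
theorem trim_calc (h : Hist) (j : ℕ) {c f M e r : ℕ} {l : ℚ} (hl : 1 ≤ l) (hcf : c ≤ f)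
    (hfM : f ≤ M) (hM : M ≤ h.length)
    (h1 : (l + 1) / 2 * (W h f - W h c - slack κ e r) ≤ Cq Ch τ h j f - Cq Ch τ h j c)
    (h2 : (l - 1) / 2 * (W h M - W h f) ≤ Cq Ch τ h j M - Cq Ch τ h j f)
    (h3 : W h h.length - W h M ≤ 2 * (1 / 2 : ℚ) ^ (e + r + κ))
    (h4 : ∀ p ∈ (h.take M).drop f, p.1 < τ j ∧ Ch j p.1) :
    (l + 1) / 2 * (W h h.length - W h c - slack κ e (r + 1)) ≤
      Cq Ch τ h (j + 1) h.length - Cq Ch τ h (j + 1) c := by
  have h5 := Cq_succ (Ch := Ch) (τ := τ) h j hfM h4
  have h6 := Cq_next (Ch := Ch) (τ := τ) h (show j ≤ j + 1 by omega) hcf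
  have h7 := Cq_mono (Ch := Ch) (τ := τ) h (j + 1) hM
  rw [slack_succ]
  have h8 : (l + 1) / 2 * (W h h.length - W h M) ≤
      (l + 1) / 2 * (2 * (1 / 2 : ℚ) ^ (e + r + κ)) :=
    mul_le_mul_of_nonneg_left h3 (by linarith)
  nlinarith

/-- positions -/
def PosInv (kk κ : ℕ) (τ : ℕ → ℕ) (i : ℕ) (S : St) : Prop :=
  (∀ p ∈ S.2, p.1 < τ (i - 1)) ∨
    (1 ≤ i ∧ ∃ (h0 : Hist) (F : Frame) (L : List Frame) (r k f : ℕ), S.1 = F :: L ∧
      S.2 = h0 ++ [(τ (i - 1), F.e + r + κ)] ∧ (∀ p ∈ h0, p.1 < τ (i - 1)) ∧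
      F.killed = false ∧ F.comp = some (r, k, f) ∧ f ≤ h0.length ∧ S.1.length = kk)

theorem PosInv_lt (hτ : StrictMono τ) {i : ℕ} {S : St} (hP : PosInv kk κ τ i S) :
    ∀ p ∈ S.2, p.1 < τ i := by
  intro p hp
  rcases hP with h | ⟨h1, h0, F, L, r, k, f, h2, h3, h4, -⟩
  · exact (h p hp).trans_le (hτ.monotone (by omega))
  · rw [h3, List.mem_append, List.mem_singleton] at hp
    have h5 : τ (i - 1) < τ i := hτ (by omega)
    rcases hp with hp | hp
    · exact (h4 p hp).trans h5
    · rw [hp]
      exact h5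

/-- the key inequality for the outermost bad frame -/
theorem trim_key
    (hV : ∀ i y k p, k ≤ p → V y k (τ i) = true → V y k (τ (i+1)) = false → Ch i p)
    {i : ℕ} {h : Hist} {A : List Frame} {G : Frame} {L : List Frame}
    (hs : SInv κ h (A ++ G :: L)) (hlen : (A ++ G :: L).length ≤ kk)
    (hI : InvS kk κ V τ Ch i h (A ++ G :: L) h.length)
    (hP : PosInv kk κ τ i (A ++ G :: L, h)) (hb : bad V (τ i) G = true) :
    ∃ r, r < i ∧ ((kk : ℚ) - L.length + 1) / 2 *
      (W h h.length - W h G.c - slack κ G.e (r + 1)) ≤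
      Cq Ch τ h i h.length - Cq Ch τ h i G.c := by
  obtain ⟨r, k, f, hc, hbV⟩ := bad_true hb
  rw [List.length_append, List.length_cons] at hlen
  have hl : (1 : ℚ) ≤ (kk : ℚ) - L.length := by
    have : ((L.length + 1 : ℕ) : ℚ) ≤ kk := by exact_mod_cast (show L.length + 1 ≤ kk by omega)
    push_cast at this
    linarith
  -- positions above the threshold
  have hpos : ∀ {N : ℕ}, InvS kk κ V τ Ch i h (G :: L) N → ∀ p ∈ h.drop f, τ r < p.1 := by
    intro N hN
    exact (hN.1.2.2 r k f hc).2.2.2.2.1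
  have hri : ∀ {N : ℕ}, InvS kk κ V τ Ch i h (G :: L) N → r < i ∧ k ≤ τ r ∧
      V G.y k (τ (i - 1)) = true := by
    intro N hN
    obtain ⟨h1, h2, h3, -⟩ := hN.1.2.2 r k f hc
    exact ⟨h1, h2, h3⟩
  -- it suffices to find `M`
  suffices hM : ∃ N M, InvS kk κ V τ Ch i h (G :: L) N ∧ f ≤ M ∧ M ≤ h.length ∧
      ((kk : ℚ) - L.length - 1) / 2 * (W h M - W h f) ≤
        Cq Ch τ h (i - 1) M - Cq Ch τ h (i - 1) f ∧
      W h h.length - W h M ≤ 2 * (1 / 2 : ℚ) ^ (G.e + r + κ) ∧
      (∀ p ∈ (h.take M).drop f, p.1 < τ (i - 1)) by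
    obtain ⟨N, M, h1, h2, h3, h4, h5, h6⟩ := hM
    obtain ⟨h7, h8, h9⟩ := hri h1
    obtain ⟨-, -, -, h10, h11, h12, -⟩ := h1.1.2.2 r k f hc
    refine ⟨r, h7, ?_⟩
    obtain ⟨j, rfl⟩ : ∃ j, i = j + 1 := ⟨i - 1, by omega⟩
    rw [Nat.add_sub_cancel] at h4 h6 h9 h12
    apply trim_calc h j hl h10 h2 h3 h12 h4 h5
    intro p hp
    refine ⟨h6 p hp, hV j G.y k p.1 ?_ h9 hbV⟩
    have h13 : p ∈ h.drop f := by
      rw [List.drop_take] at hp
      exact List.mem_of_mem_take hp
    have := h11 p h13
    omega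
  rcases InvS_split hI hs with ⟨hA, hN⟩ | ⟨C, hCA, hlink, hwC, hN⟩
  · -- `G` is the head of the stack
    subst hA
    obtain ⟨-, -, -, h10, h11, h12, N', h13, h14, h15, h16⟩ := hN.1.2.2 r k f hc
    rcases hP with hP | ⟨hi, h0, F, L', r', k', f', h17, h18, h19, h20, h21, h22, h23⟩
    · refine ⟨_, N', hN, h13, h14, h15, ?_, ?_⟩
      · rcases h16 with h16 | h16
        · rw [h16, sub_self]; positivity
        · exact h16.2
      · intro p hp
        exact hP p (List.mem_of_mem_take (List.mem_of_mem_drop hp))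
    · simp only [List.nil_append, List.cons.injEq] at h17
      obtain ⟨rfl, rfl⟩ := h17
      rw [hc] at h21
      obtain ⟨rfl, rfl, rfl⟩ : r = r' ∧ k = k' ∧ f = f' := by simpa using h21
      simp only at h18
      simp only [List.nil_append, List.length_cons] at h23
      have hl0 : (kk : ℚ) - L.length - 1 = 0 := by
        rw [← h23]; push_cast; ring
      have hlenh : h.length = h0.length + 1 := by rw [h18]; simp
      refine ⟨_, h0.length, hN, h22, by omega, ?_, ?_, ?_⟩
      · rw [hl0, zero_div, zero_mul]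
        linarith [Cq_mono (Ch := Ch) (τ := τ) h (i - 1) h22]
      · rw [W_drop, h18, List.drop_left, wt_cons, wt_nil]
        have : (0 : ℚ) ≤ (1 / 2 : ℚ) ^ (G.e + r + κ) := by positivity
        show (1 / 2 : ℚ) ^ (G.e + r + κ) + 0 ≤ _
        linarith
      · intro p hp
        have : h.take h0.length = h0 := by rw [h18, List.take_left]
        rw [this] at hp
        exact h19 p (List.mem_of_mem_drop hp)
  · -- `G` has a child `C`
    obtain ⟨r1, k1, f1, hc1, hk1, he1⟩ := hlink
    rw [hc] at hc1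
    obtain ⟨rfl, rfl, rfl⟩ : r = r1 ∧ k = k1 ∧ f = f1 := by simpa using hc1
    obtain ⟨-, -, -, h10, h11, h12, N', h13, h14, h15, h16⟩ := hN.1.2.2 r k f hc
    have hNC : N' = C.c := by
      rcases h16 with h16 | h16
      · exact h16
      · rw [hk1] at h16; simp at h16
    subst hNC
    have hCle : C.c ≤ h.length := by
      have hmem : C ∈ A ++ G :: L := List.mem_append_left _ hCA
      cases hA : A ++ G :: L with
      | nil => rw [hA] at hmem; simp at hmem
      | cons F L' =>
        rw [hA] at hI hmem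
        exact (InvS_c_le hI C hmem).trans hI.1.1
    refine ⟨_, C.c, hN, h13, hCle, h15, ?_, ?_⟩
    · rw [W_drop, ← he1]
      exact hwC
    · rcases hP with hP | ⟨hi, h0, F, L', r', k', f', h17, h18, h19, h20, h21, h22, h23⟩
      · intro p hp
        exact hP p (List.mem_of_mem_take (List.mem_of_mem_drop hp))
      · simp only at h17 h18
        have hmem : C ∈ A ++ G :: L := List.mem_append_left _ hCA
        rw [h17] at hI hmem
        have h24 := InvS_c_le hI C hmem
        have h25 := (hI.1.2.2 r' k' f' h21).2.2.2.1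
        have h26 : C.c ≤ h0.length := by omega
        intro p hp
        have h27 : h.take C.c = h0.take C.c := by
          rw [h18, List.take_append_of_le_length h26]
        rw [h27] at hp
        exact h19 p (List.mem_of_mem_take (List.mem_of_mem_drop hp))

/-- the charge of a completed run -/
theorem killed_calc (hκ : 4 * (kk + 1) ≤ 2 ^ κ) {w q l : ℚ} {e r : ℕ} (hl : 1 ≤ l) (hlk : l ≤ kk)
    (hw : (1 / 2 : ℚ) ^ e ≤ w) (hq : (l + 1) / 2 * (w - slack κ e (r + 1)) ≤ q) :
    l / 2 * w ≤ q := by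
  have h1 := slack_le κ e (r + 1)
  have h2 : (1 / 2 : ℚ) ^ κ * (4 * (kk + 1)) ≤ 1 := by
    have h3 : (4 * (kk + 1) : ℚ) ≤ 2 ^ κ := by exact_mod_cast hκ
    calc (1 / 2 : ℚ) ^ κ * (4 * (kk + 1)) ≤ (1 / 2 : ℚ) ^ κ * 2 ^ κ :=
          mul_le_mul_of_nonneg_left h3 (by positivity)
      _ = 1 := by rw [← mul_pow]; norm_num
  have hkk : (0 : ℚ) < (kk : ℚ) + 1 := by positivity
  have hwpos : 0 < w := lt_of_lt_of_le (by positivity) hw
  have h4 : slack κ e (r + 1) * (kk + 1) ≤ w := by
    calc slack κ e (r + 1) * (kk + 1) ≤ (4 * (1 / 2 : ℚ) ^ e * (1 / 2 : ℚ) ^ κ) * (kk + 1) :=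
          mul_le_mul_of_nonneg_right h1 hkk.le
      _ = (1 / 2 : ℚ) ^ e * ((1 / 2 : ℚ) ^ κ * (4 * (kk + 1))) := by ring
      _ ≤ w * 1 := mul_le_mul hw h2 (by positivity) hwpos.le
      _ = w := mul_one w
  have h5 : l * w * (kk + 1) ≤ (l + 1) * (w - slack κ e (r + 1)) * (kk + 1) := by
    have h6 : (l + 1) * (slack κ e (r + 1) * (kk + 1)) ≤ (l + 1) * w :=
      mul_le_mul_of_nonneg_left h4 (by linarith)
    have h7 : l * w ≤ kk * w := mul_le_mul_of_nonneg_right hlk hwpos.le
    nlinarith
  have h8 : l * w ≤ (l + 1) * (w - slack κ e (r + 1)) := le_of_mul_le_mul_right h5 hkk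
  linarith

/-- the full invariant -/
def Inv (kk κ : ℕ) (V : ℕ → ℕ → ℕ → Bool) (τ : ℕ → ℕ) (Ch : ℕ → ℕ → Prop) (i : ℕ) (S : St) :
    Prop :=
  SInv κ S.2 S.1 ∧ S.1.length ≤ kk ∧ InvS kk κ V τ Ch i S.2 S.1 S.2.length ∧
    PosInv kk κ τ i S

theorem PosInv_of_lt {i : ℕ} {st st' : List Frame} {h : Hist} (hτ : StrictMono τ)
    (hP : PosInv kk κ τ i (st, h)) : PosInv kk κ τ (i + 1) (st', h) := by
  left
  intro p hp
  exact PosInv_lt hτ hP p hp

theorem step_inv (hκ : 4 * (kk + 1) ≤ 2 ^ κ) (hτ : StrictMono τ)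
    (hV : ∀ i y k p, k ≤ p → V y k (τ i) = true → V y k (τ (i+1)) = false → Ch i p)
    (i : ℕ) (S : St) (hw : wt S.2 ≤ 1) (hInv : Inv kk κ V τ Ch i S) :
    Inv kk κ V τ Ch (i + 1) (step kk κ V i (τ i) S) := by
  obtain ⟨hs, hlen, hI, hP⟩ := hInv
  have hstep := step_SInv kk κ V i (τ i) S hs hw hlen
  refine ⟨hstep.1, hstep.2.2, ?_⟩
  obtain ⟨st, h⟩ := S
  simp only at hs hlen hI
  rcases step_cases kk κ V i (τ i) st h with ⟨A, G, L, h1, h2, h3, h4⟩ | ⟨hb, h0 | h0 | h0 | h0⟩
  · -- trim
    rw [h4]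
    refine ⟨?_, PosInv_of_lt hτ hP⟩
    simp only
    rw [h1] at hs hlen hI hP
    obtain ⟨r, hr, hkey⟩ := trim_key hV hs hlen hI hP h2
    have hs' := SInv_tail hs
    rw [List.length_append, List.length_cons] at hlen
    obtain ⟨N, hN⟩ : ∃ N, InvS kk κ V τ Ch i h (G :: L) N := by
      rcases InvS_split hI hs with ⟨-, hN⟩ | ⟨C, -, -, -, hN⟩
      · exact ⟨_, hN⟩
      · exact ⟨_, hN⟩
    have hl : (1 : ℚ) ≤ (kk : ℚ) - L.length := by
      have : ((L.length + 1 : ℕ) : ℚ) ≤ kk := by exact_mod_cast (show L.length + 1 ≤ kk by omega)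
      push_cast at this
      linarith
    have hLnext : InvS kk κ V τ Ch (i + 1) h L G.c := InvS_next (by omega) hN.2 h3
    have hGc : G.c ≤ h.length := hs'.1
    unfold handle
    cases hk : G.killed with
    | true =>
      rw [cond_true]
      cases L with
      | nil => trivial
      | cons G' L' =>
        simp only
        refine ⟨⟨?_, ?_, ?_⟩, ?_, ?_⟩
        · simp [fresh, Frame.c]
        · intro _
          have : (fresh G.e h.length (i + 1)).c = h.length := rfl
          rw [this, sub_self, sub_self]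
          have h5 := slack_nonneg κ (fresh G.e h.length (i + 1)).e (i + 1)
          nlinarith
        · intro r' k' f' hc
          simp [fresh, Frame.comp] at hc
        · -- the parent
          show FI κ V τ Ch (i + 1) h ((kk : ℚ) - L'.length) h.length G'
          obtain ⟨r1, k1, f1, hc1, hk1, he1⟩ := hs'.2.2.2.1
          have hkey' : ((kk : ℚ) - (G' :: L').length) / 2 * (W h h.length - W h G.c) ≤
              Cq Ch τ h i h.length - Cq Ch τ h i G.c := by
            apply killed_calc (r := r) hκ hl (by linarith [Nat.cast_nonneg (α := ℚ) (G' :: L').length]) ?_ hkey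
            rw [W_drop]
            exact (hs'.2.2.1 hk).2
          obtain ⟨h6, h7, h8⟩ := hLnext.1
          refine ⟨h6.trans hGc, ?_, ?_⟩
          · intro hcn
            rw [hc1] at hcn
            simp at hcn
          · intro r' k' f' hc
            obtain ⟨h9, h10, h11, h12, h13, h14, N', h15, h16, h17, h18⟩ := h8 r' k' f' hc
            have hNe : N' = G.c := by
              rcases h18 with h18 | h18
              · exact h18
              · rw [hk1] at h18; simp at h18
            subst hNe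
            refine ⟨h9, h10, h11, h12, h13, h14, h.length, h15.trans hGc, le_refl _, ?_,
              Or.inl rfl⟩
            rw [List.length_cons] at hkey'
            push_cast at hkey'
            rw [Nat.add_sub_cancel] at h17 ⊢
            have h19 : ((kk : ℚ) - L'.length - 1) / 2 * (W h h.length - W h G.c) ≤
                Cq Ch τ h i h.length - Cq Ch τ h i G.c := by
              have : ((kk : ℚ) - L'.length - 1) = ((kk : ℚ) - (L'.length + 1)) := by ring
              rw [this]
              exact hkey'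
            linarith
        · exact hLnext.2
    | false =>
      rw [cond_false]
      refine ⟨⟨?_, ?_, ?_⟩, ?_⟩
      · exact hGc
      · intro _
        show ((kk : ℚ) - L.length + 1) / 2 * (W h h.length - W h G.c - slack κ G.e (i + 1)) ≤
          Cq Ch τ h (i + 1 - 1) h.length - Cq Ch τ h (i + 1 - 1) G.c
        rw [Nat.add_sub_cancel]
        have h5 := slack_mono κ G.e (show r + 1 ≤ i + 1 by omega)
        have h6 : ((kk : ℚ) - L.length + 1) / 2 *
            (W h h.length - W h G.c - slack κ G.e (i + 1)) ≤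
            ((kk : ℚ) - L.length + 1) / 2 * (W h h.length - W h G.c - slack κ G.e (r + 1)) :=
          mul_le_mul_of_nonneg_left (by linarith) (by linarith)
        linarith
      · intro r' k' f' hc
        simp [Frame.comp] at hc
      · exact hLnext
  · -- idle
    rw [h0]
    exact ⟨InvS_next hlen hI hb, PosInv_of_lt hτ hP⟩
  · -- a computation is found
    obtain ⟨F, L, k, h1, h2, h3, h4, h5, h6⟩ := h0
    rw [h6]
    refine ⟨?_, PosInv_of_lt hτ hP⟩
    simp only
    rw [h1] at hI hlen hb
    have hI' := InvS_next hlen hI hb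
    refine ⟨⟨hI'.1.1, ?_, ?_⟩, hI'.2⟩
    · intro hc
      simp [Frame.comp] at hc
    · intro r' k' f' hc
      have hc' : i = r' ∧ k = k' ∧ h.length = f' := by
        simpa [Frame.comp] using hc
      obtain ⟨rfl, rfl, rfl⟩ := hc'
      have hcle : F.c ≤ h.length := hI.1.1
      refine ⟨by omega, h4, ?_, hcle, ?_, ?_, h.length, le_refl _, le_refl _, ?_, Or.inl rfl⟩
      · rw [Nat.add_sub_cancel]
        exact h5
      · intro p hp
        simp at hp
      · show ((kk : ℚ) - L.length + 1) / 2 * (W h h.length - W h F.c - slack κ F.e i) ≤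
          Cq Ch τ h (i + 1 - 1) h.length - Cq Ch τ h (i + 1 - 1) F.c
        have h7 := hI.1.2.1 h3
        have h8 := Cq_next (Ch := Ch) (τ := τ) h (show i - 1 ≤ i + 1 - 1 by omega) hcle
        linarith
      · simp
  · -- kill
    obtain ⟨F0, L0, x, h1, h2, h3, A, G, L, h4, h5, h6, h7⟩ := h0
    rw [h7]
    refine ⟨?_, PosInv_of_lt hτ hP⟩
    simp only
    have hI' := InvS_next hlen hI hb
    rw [h4] at hI' hs
    rcases InvS_split hI' hs with ⟨hA, hN⟩ | ⟨C, hCA, hlink, hwC, hN⟩
    · obtain ⟨⟨h8, h9, h10⟩, h11⟩ := hN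
      refine ⟨⟨h8, h9, ?_⟩, h11⟩
      intro r k f hc
      obtain ⟨h12, h13, h14, h15, h16, h17, N', h18, h19, h20, h21⟩ := h10 r k f hc
      refine ⟨h12, h13, h14, h15, h16, h17, N', h18, h19, h20, ?_⟩
      rcases h21 with h21 | h21
      · exact Or.inl h21
      · exact Or.inr ⟨rfl, h21.2⟩
    · obtain ⟨r1, k1, f1, hc1, hk1, he1⟩ := hlink
      obtain ⟨⟨h8, h9, h10⟩, h11⟩ := hN
      have hs' := SInv_tail hs
      have hGc : G.c ≤ h.length := hs'.1
      have hCle : C.c ≤ h.length := by
        have hmem : C ∈ A ++ G :: L := List.mem_append_left _ hCA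
        cases hA : A ++ G :: L with
        | nil => rw [hA] at hmem; simp at hmem
        | cons F L' =>
          rw [hA] at hI' hmem
          exact (InvS_c_le hI' C hmem).trans hI'.1.1
      refine ⟨⟨hGc, ?_, ?_⟩, h11⟩
      · intro hc
        have hc' : G.comp = none := hc
        rw [hc1] at hc'
        simp at hc'
      · intro r k f hc
        obtain ⟨h12, h13, h14, h15, h16, h17, N', h18, h19, h20, h21⟩ := h10 r k f hc
        have hNe : N' = C.c := by
          rcases h21 with h21 | h21
          · exact h21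
          · rw [hk1] at h21; simp at h21
        subst hNe
        have hc' : G.comp = some (r, k, f) := hc
        rw [hc1] at hc'
        have hr1 : r1 = r := by
          have : r1 = r ∧ k1 = k ∧ f1 = f := by simpa using hc'
          exact this.1
        refine ⟨h12, h13, h14, h15, h16, h17, C.c, h18, hCle, h20, Or.inr ⟨rfl, ?_⟩⟩
        rw [W_drop]
        show wt (h.drop C.c) ≤ 2 * (1 / 2 : ℚ) ^ (G.e + r + κ)
        rw [← hr1, ← he1]
        exact hwC
  · obtain ⟨F, L, x, h1, h2, h3, h4, ⟨h5, h6⟩ | ⟨h5, h6⟩⟩ := h0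
    · -- push
      rw [h6]
      refine ⟨?_, PosInv_of_lt hτ hP⟩
      simp only
      have hI' := InvS_next hlen hI hb
      rw [h1] at hI'
      refine ⟨⟨?_, ?_, ?_⟩, hI'⟩
      · simp [fresh, Frame.c]
      · intro _
        have h8 : (fresh (F.e + x.1 + κ) h.length (i + 1)).c = h.length := rfl
        rw [h8, sub_self, sub_self]
        have h9 := slack_nonneg κ (fresh (F.e + x.1 + κ) h.length (i + 1)).e (i + 1)
        have h10 : (0 : ℚ) ≤ (kk : ℚ) - (F :: L).length := by
          have : (((F :: L).length : ℕ) : ℚ) ≤ kk := by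
            rw [h1] at hlen
            exact_mod_cast hlen
          linarith
        nlinarith
      · intro r' k' f' hc
        simp [fresh, Frame.comp] at hc
    · -- placement
      rw [h6]
      have hI' := InvS_next hlen hI hb
      rw [h1] at hI' hlen h5
      have hlenkk : (F :: L).length = kk := by omega
      obtain ⟨⟨h8, h9, h10⟩, h11⟩ := hI'
      obtain ⟨r, k, f⟩ := x
      obtain ⟨h12, h13, h14, h15, h16, h17, N', h18, h19, h20, h21⟩ := h10 r k f h3
      have hf : f ≤ h.length := h18.trans h19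
      constructor
      · simp only
        refine ⟨⟨?_, ?_, ?_⟩, ?_⟩
        · rw [List.length_append]; omega
        · intro hc
          rw [h3] at hc
          simp at hc
        · intro r' k' f' hc
          have hc' : r = r' ∧ k = k' ∧ f = f' := by
            rw [h3] at hc
            simpa using hc
          obtain ⟨rfl, rfl, rfl⟩ := hc'
          refine ⟨h12, h13, h14, h15, ?_, ?_, (h ++ [(τ i, F.e + r + κ)]).length, ?_, le_refl _, ?_,
            Or.inl rfl⟩
          · intro p hp
            rw [List.drop_append_of_le_length hf, List.mem_append] at hp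
            rcases hp with hp | hp
            · exact h16 p hp
            · rw [List.mem_singleton] at hp
              rw [hp]
              apply hτ
              obtain ⟨h22, -⟩ := (by
                rw [h1] at hI
                exact hI.1.2.2 r k f h3 : r < i ∧ _)
              exact h22
          · rw [W_append h _ hf, W_append h _ h8, Cq_append h _ _ hf, Cq_append h _ _ h8]
            exact h17
          · rw [List.length_append]; omega
          · have hl0 : (kk : ℚ) - L.length - 1 = 0 := by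
              rw [← hlenkk, List.length_cons]
              push_cast
              ring
            rw [hl0, zero_div, zero_mul]
            have := Cq_mono (Ch := Ch) (τ := τ) (h ++ [(τ i, F.e + r + κ)]) (i + 1 - 1)
              (show f ≤ (h ++ [(τ i, F.e + r + κ)]).length by rw [List.length_append]; omega)
            linarith
        · -- outer frames: first append at time `i`, then advance
          have hLi : InvS kk κ V τ Ch i (h ++ [(τ i, F.e + r + κ)]) L F.c := by
            rw [h1] at hI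
            exact InvS_append _ hI.2 hI.1.1 (fun r' hr' => hτ hr')
          apply InvS_next ?_ hLi
          · intro G hG
            exact hb G (by rw [h1]; exact List.mem_cons_of_mem _ hG)
          · rw [List.length_cons] at hlen
            omega
      · right
        refine ⟨by omega, h, F, L, r, k, f, rfl, ?_, ?_, h2, h3, hf, hlenkk⟩
        · rw [Nat.add_sub_cancel]
        · intro p hp
          exact PosInv_lt hτ hP p hp

theorem run_inv (hk : 0 < kk) (hκ : 4 * (kk + 1) ≤ 2 ^ κ) (hτ : StrictMono τ)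
    (hV : ∀ i y k p, k ≤ p → V y k (τ i) = true → V y k (τ (i+1)) = false → Ch i p)
    (i : ℕ) : Inv kk κ V τ Ch i (run kk κ V τ i) := by
  induction i with
  | zero =>
    refine ⟨(run_SInv hk 0).1, (run_SInv hk 0).2.2, ⟨⟨?_, ?_, ?_⟩, trivial⟩, ?_⟩
    · simp [run, init, fresh, Frame.c]
    · intro _
      have h1 : (fresh 1 0 0).c = 0 := rfl
      have h2 : (run kk κ V τ 0).2 = [] := rfl
      have h3 : ∀ n, W [] n = 0 := fun n => by simp [W, wt_nil]
      have h4 : ∀ n, Cq Ch τ [] (0 - 1) n = 0 := fun n => by simp [Cq, chQ_nil]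
      rw [h1, h2, h3, h3, h4, h4]
      have h9 := slack_nonneg κ (fresh 1 0 0).e 0
      have h10 : (0 : ℚ) ≤ (kk : ℚ) - ([] : List Frame).length := by simp
      nlinarith
    · intro r k f hc
      simp [fresh, Frame.comp] at hc
    · left
      intro p hp
      have h2 : (run kk κ V τ 0).2 = [] := rfl
      rw [h2] at hp
      simp at hp
  | succ i ih => exact step_inv hκ hτ hV i _ (wt_run_le_one hk i) ih

theorem charge_bound (hk : 0 < kk) (hκ : 4 * (kk + 1) ≤ 2 ^ κ) (hτ : StrictMono τ)
    (hV : ∀ i y k p, k ≤ p → V y k (τ i) = true → V y k (τ (i+1)) = false → Ch i p)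
    (i : ℕ) (h1 : (run kk κ V τ i).1 ≠ []) (h2 : (run kk κ V τ (i+1)).1 = []) :
    (kk : ℚ) / 4 ≤ chQ Ch τ (run kk κ V τ i).2 i := by
  have hInv := run_inv hk hκ hτ hV i
  have hrun : run kk κ V τ (i + 1) = step kk κ V i (τ i) (run kk κ V τ i) := rfl
  rw [hrun] at h2
  generalize run kk κ V τ i = S at *
  obtain ⟨st, h⟩ := S
  obtain ⟨hs, hlen, hI, hP⟩ := hInv
  simp only at hs hlen hI h1 ⊢
  rcases step_cases kk κ V i (τ i) st h with ⟨A, G, L, h3, h4, h5, h6⟩ | ⟨hb, h0 | h0 | h0 | h0⟩
  · rw [h6] at h2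
    simp only at h2
    unfold handle at h2
    rw [h3] at hs hlen hI hP
    obtain ⟨r, hr, hkey⟩ := trim_key hV hs hlen hI hP h4
    have hs' := SInv_tail hs
    cases hkl : G.killed with
    | false => rw [hkl] at h2; simp at h2
    | true =>
      rw [hkl, cond_true] at h2
      cases L with
      | cons G' L' => simp at h2
      | nil =>
        obtain ⟨he, hc⟩ := hs'.2.2.2.1
        have hw := (hs'.2.2.1 hkl).2
        rw [he, hc, List.drop_zero, pow_one] at hw
        rw [he, hc] at hkey
        have hW0 : W h 0 = 0 := by simp [W, wt_nil]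
        have hC0 : Cq Ch τ h i 0 = 0 := by simp [Cq, chQ_nil]
        have hWH : W h h.length = wt h := by simp [W]
        have hCH : Cq Ch τ h i h.length = chQ Ch τ h i := by simp [Cq]
        rw [hW0, hC0, hWH, hCH, List.length_nil] at hkey
        have h7 := slack_le κ 1 (r + 1)
        have h8 : (1 / 2 : ℚ) ^ κ * (4 * (kk + 1)) ≤ 1 := by
          have h3 : (4 * (kk + 1) : ℚ) ≤ 2 ^ κ := by exact_mod_cast hκ
          calc (1 / 2 : ℚ) ^ κ * (4 * (kk + 1)) ≤ (1 / 2 : ℚ) ^ κ * 2 ^ κ :=
                mul_le_mul_of_nonneg_left h3 (by positivity)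
            _ = 1 := by rw [← mul_pow]; norm_num
        have h9 : ((kk : ℚ) + 1) * slack κ 1 (r + 1) ≤ 1 / 2 := by
          calc ((kk : ℚ) + 1) * slack κ 1 (r + 1)
              ≤ ((kk : ℚ) + 1) * (4 * (1 / 2 : ℚ) ^ 1 * (1 / 2 : ℚ) ^ κ) :=
                mul_le_mul_of_nonneg_left h7 (by positivity)
            _ = ((1 / 2 : ℚ) ^ κ * (4 * (kk + 1))) * (1 / 2) := by ring
            _ ≤ 1 * (1 / 2) := mul_le_mul_of_nonneg_right h8 (by norm_num)
            _ = 1 / 2 := one_mul _
        have h10 : ((kk : ℚ) + 1) * (1 / 2) ≤ ((kk : ℚ) + 1) * wt h :=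
          mul_le_mul_of_nonneg_left hw (by positivity)
        push_cast at hkey
        nlinarith
  · rw [h0] at h2
    exact absurd h2 h1
  · obtain ⟨F, L, k, h3, h4, h5, h6, h7, h8⟩ := h0
    rw [h8] at h2
    simp at h2
  · obtain ⟨F0, L0, x, h3, h4, h5, A, G, L, h6, h7, h8, h9⟩ := h0
    rw [h9] at h2
    simp at h2
  · obtain ⟨F, L, x, h3, h4, h5, h6, ⟨h7, h8⟩ | ⟨h7, h8⟩⟩ := h0
    · rw [h8] at h2
      simp at h2
    · rw [h8] at h2
      simp at h2

end AC
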