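import Pool.Agent.Hhelper54.AC.ProcC
import Pool.Agent.Hhelper54.AC.CodeW
import Pool.Agent.Hhelper54.AC.Inv
import Pool.Agent.Hhelper54.AC.Jt

/-!
# The killed computations and the machine of the strategy
-/

namespace AC

open Low4 Encodable Denumerable
open Nat.Partrec (Code)

variable {Z : Set ℕ} {R : List Bool × (ℕ × ℕ) → ℕ → Bool} {RU : List Bool × (ℕ × ℕ) × ℕ → Bool}
  {x : Code × ℕ}

/-- the condition on a killed frame -/
def KlB (y v : ℕ) (F : Frame) (z : ℕ × ℕ × ℕ) : Prop :=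
  F.killed = true ∧ F.comp = some z ∧ F.y = y.unpair.2 ∧ v = z.2.1.unpair.2.unpair.1

/-- `v` is the value of the computation of a killed frame with the marker `y.unpair.2` in the
process `(c, y.unpair.1)` -/
def Kl (Z : Set ℕ) (R : List Bool × (ℕ × ℕ) → ℕ → Bool) (RU : List Bool × (ℕ × ℕ) × ℕ → Bool)
    (c : Code) (y v : ℕ) : Prop :=
  ∃ w : (ℕ × (ℕ × St)) × (ℕ × (Frame × (ℕ × ℕ × ℕ))),
    ItP Z R RU (c, y.unpair.1) w.1.1 w.1.2 ∧ w.1.2.2.1[w.2.1]? = some w.2.2.1 ∧
      KlB y v w.2.2.1 w.2.2.2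

theorem ce_eq {α β : Type} [Primcodable α] [Primcodable β] {A : Set ℕ} {f g : α → β}
    (hf : Computable f) (hg : Computable g) : CE A fun a => f a = g a := by
  refine (CE.of_sig1 (Sig1.of_computable (f := fun a => decide (encode (f a) = encode (g a)))
    ?_)).of_eq ?_
  · exact (Primrec.eq (α := ℕ)).decide.to_comp.comp (Computable.encode.comp hf)
      (Computable.encode.comp hg)
  · intro a; simp

theorem ce_KlB {A : Set ℕ} : CE A fun z : (ℕ × ℕ) × (Frame × (ℕ × ℕ × ℕ)) =>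
    KlB z.1.1 z.1.2 z.2.1 z.2.2 := by
  have hF : Computable fun z : (ℕ × ℕ) × (Frame × (ℕ × ℕ × ℕ)) => z.2.1 :=
    Computable.fst.comp Computable.snd
  refine CE.and ?_ (CE.and ?_ (CE.and ?_ ?_))
  · exact ce_eq (f := fun z : (ℕ × ℕ) × (Frame × (ℕ × ℕ × ℕ)) => z.2.1.killed)
      (g := fun _ => true) (primrec_killed.to_comp.comp hF) (Computable.const _)
  · exact ce_eq (f := fun z : (ℕ × ℕ) × (Frame × (ℕ × ℕ × ℕ)) => z.2.1.comp)
      (g := fun z => some z.2.2) (primrec_comp.to_comp.comp hF)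
      (Computable.option_some.comp (Computable.snd.comp Computable.snd))
  · exact ce_eq (f := fun z : (ℕ × ℕ) × (Frame × (ℕ × ℕ × ℕ)) => z.2.1.y)
      (g := fun z => z.1.1.unpair.2) (primrec_y.to_comp.comp hF)
      (Computable.snd.comp (Computable.unpair.comp (Computable.fst.comp Computable.fst)))
  · exact ce_eq (f := fun z : (ℕ × ℕ) × (Frame × (ℕ × ℕ × ℕ)) => z.1.2)
      (g := fun z => z.2.2.2.1.unpair.2.unpair.1) (Computable.snd.comp Computable.fst)
      (Computable.fst.comp (Computable.unpair.comp (Computable.snd.comp (Computable.unpair.comp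
        (Computable.fst.comp (Computable.snd.comp (Computable.snd.comp Computable.snd)))))))

theorem ce_Kl (hR : Primrec₂ R) (hRU : Computable RU) :
    CE Z fun z : Code × (ℕ × ℕ) => Kl Z R RU z.1 z.2.1 z.2.2 := by
  have hz : Computable fun z : (Code × (ℕ × ℕ)) × ((ℕ × (ℕ × St)) × (ℕ × (Frame ×
      (ℕ × ℕ × ℕ)))) => z.1 := Computable.fst
  have hw : Computable fun z : (Code × (ℕ × ℕ)) × ((ℕ × (ℕ × St)) × (ℕ × (Frame ×
      (ℕ × ℕ × ℕ)))) => z.2 := Computable.snd
  refine CE.ex (α := Code × (ℕ × ℕ)) (β := (ℕ × (ℕ × St)) × (ℕ × (Frame × (ℕ × ℕ × ℕ))))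
    (p := fun z w => ItP Z R RU (z.1, z.2.1.unpair.1) w.1.1 w.1.2 ∧
      w.1.2.2.1[w.2.1]? = some w.2.2.1 ∧ KlB z.2.1 z.2.2 w.2.2.1 w.2.2.2) ?_
  have f1 : Computable fun z : (Code × (ℕ × ℕ)) × ((ℕ × (ℕ × St)) × (ℕ × (Frame ×
      (ℕ × ℕ × ℕ)))) => ((z.1.1, z.1.2.1.unpair.1), z.2.1) :=
    Computable.pair (Computable.pair (Computable.fst.comp hz) (Computable.fst.comp
      (Computable.unpair.comp (Computable.fst.comp (Computable.snd.comp hz)))))
      (Computable.fst.comp hw)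
  have e1 := (ce_ItP (Z := Z) hR hRU).comp f1
  have f2 : Computable fun z : (Code × (ℕ × ℕ)) × ((ℕ × (ℕ × St)) × (ℕ × (Frame ×
      (ℕ × ℕ × ℕ)))) => z.2.1.2.2.1[z.2.2.1]? :=
    Computable.list_getElem?.comp (Computable.fst.comp (Computable.snd.comp (Computable.snd.comp
      (Computable.fst.comp hw)))) (Computable.fst.comp (Computable.snd.comp hw))
  have f3 : Computable fun z : (Code × (ℕ × ℕ)) × ((ℕ × (ℕ × St)) × (ℕ × (Frame ×
      (ℕ × ℕ × ℕ)))) => some z.2.2.2.1 :=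
    Computable.option_some.comp (Computable.fst.comp (Computable.snd.comp
      (Computable.snd.comp hw)))
  have e2 := ce_eq (A := Z) f2 f3
  have f4 : Computable fun z : (Code × (ℕ × ℕ)) × ((ℕ × (ℕ × St)) × (ℕ × (Frame ×
      (ℕ × ℕ × ℕ)))) => (z.1.2, z.2.2.2) :=
    Computable.pair (Computable.snd.comp hz) (Computable.snd.comp (Computable.snd.comp hw))
  have e3 := (ce_KlB (A := Z)).comp f4
  exact CE.and e1 (CE.and e2 e3)

theorem Kl_unique {c : Code} {y v v' : ℕ} (h : Kl Z R RU c y v) (h' : Kl Z R RU c y v') :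
    v' = v := by
  obtain ⟨⟨⟨n, a⟩, m, F, z⟩, h1, h2, h3, h4, h5, h6⟩ := h
  obtain ⟨⟨⟨n', a'⟩, m', F', z'⟩, h1', h2', h3', h4', h5', h6'⟩ := h'
  simp only at h1 h2 h3 h4 h5 h6 h1' h2' h3' h4' h5' h6'
  have e := It_eq h1
  have e' := It_eq h1'
  subst e
  subst e'
  rw [Xf_two] at h2 h2'
  have k1 := List.mem_of_getElem? h2
  have k2 := List.mem_of_getElem? h2'
  have := killed_unique n n' F F' k1 k2 h3 h3' (h5.trans h5'.symm)
  rw [h4, h4', Option.some.injEq] at this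
  rw [h6, h6', this]

theorem exists_code (Z : Set ℕ) (hR : Primrec₂ R) (hRU : Computable RU) :
    ∃ c : Code, ∀ y v, Kl Z R RU c y v → ∃ s, Jt (pre Z s) (encode (Code.curry c y)) = some v := by
  obtain ⟨W, hW1, -, hW3⟩ := ce_Kl (Z := Z) hR hRU
  obtain ⟨c, hc⟩ := recursion (fun c σ y v => W σ (c, (y, v))) (by
    refine hW1.comp (f := fun z : (Code × List Bool) × (ℕ × ℕ) => (z.1.2, (z.1.1, z.2))) ?_
    exact Computable.pair (Computable.snd.comp Computable.fst) (Computable.pair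
      (Computable.fst.comp Computable.fst) Computable.snd))
  refine ⟨c, fun y v h => ?_⟩
  refine hc Z y v (fun s v' hs => ?_) ?_
  · have h' : Kl Z R RU c y v' := (hW3 (c, (y, v'))).2 ⟨s, hs⟩
    exact Kl_unique h h'
  · exact (hW3 (c, (y, v))).1 h

/-- a killed frame of the process -/
theorem Kl_of_killed {c : Code} {j n : ℕ} (h : ItP Z R RU (c, j) n (Xf Z R RU (c, j) n))
    {F : Frame} (hF : F ∈ (Xf Z R RU (c, j) n).2.1) (hk : F.killed = true) {z : ℕ × ℕ × ℕ}
    (hc : F.comp = some z) : Kl Z R RU c (Nat.pair j F.y) z.2.1.unpair.2.unpair.1 := by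
  obtain ⟨m, hm⟩ := List.mem_iff_getElem?.1 hF
  refine ⟨((n, Xf Z R RU (c, j) n), (m, (F, z))), ?_, hm, hk, hc, ?_, rfl⟩
  · rw [Nat.unpair_pair]; exact h
  · rw [Nat.unpair_pair]

/-! ### the machine -/

/-- the graph of the machine -/
def Gm (Z : Set ℕ) (R : List Bool × (ℕ × ℕ) → ℕ → Bool) (RU : List Bool × (ℕ × ℕ) × ℕ → Bool)
    (c : Code) (σ : List Bool) (t : ℕ) : Prop :=
  ∃ w : (ℕ × ℕ) × (St × ℕ),
    ItP Z R RU (c, w.1.1) w.1.2 (t, w.2.1) ∧
    (stp Z R (c, w.1.1) w.1.2 (t, w.2.1)).2 = w.2.1.2 ++ [(t, w.2.2)] ∧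
    σ = (List.replicate w.1.1 false ++ [true]) ++ Cw.cw w.2.1.2 w.2.2

theorem ce_Gm (hR : Primrec₂ R) (hRU : Computable RU) (c : Code) :
    CE Z fun z : List Bool × ℕ => Gm Z R RU c z.1 z.2 := by
  have hz1 : Computable fun z : (List Bool × ℕ) × ((ℕ × ℕ) × (St × ℕ)) => z.1.1 :=
    Computable.fst.comp Computable.fst
  have ht : Computable fun z : (List Bool × ℕ) × ((ℕ × ℕ) × (St × ℕ)) => z.1.2 :=
    Computable.snd.comp Computable.fst
  have hj : Computable fun z : (List Bool × ℕ) × ((ℕ × ℕ) × (St × ℕ)) => z.2.1.1 :=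
    Computable.fst.comp (Computable.fst.comp Computable.snd)
  have hn : Computable fun z : (List Bool × ℕ) × ((ℕ × ℕ) × (St × ℕ)) => z.2.1.2 :=
    Computable.snd.comp (Computable.fst.comp Computable.snd)
  have hS : Computable fun z : (List Bool × ℕ) × ((ℕ × ℕ) × (St × ℕ)) => z.2.2.1 :=
    Computable.fst.comp (Computable.snd.comp Computable.snd)
  have hm : Computable fun z : (List Bool × ℕ) × ((ℕ × ℕ) × (St × ℕ)) => z.2.2.2 :=
    Computable.snd.comp (Computable.snd.comp Computable.snd)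
  refine CE.ex (α := List Bool × ℕ) (β := (ℕ × ℕ) × (St × ℕ))
    (p := fun z w => ItP Z R RU (c, w.1.1) w.1.2 (z.2, w.2.1) ∧
      (stp Z R (c, w.1.1) w.1.2 (z.2, w.2.1)).2 = w.2.1.2 ++ [(z.2, w.2.2)] ∧
      z.1 = (List.replicate w.1.1 false ++ [true]) ++ Cw.cw w.2.1.2 w.2.2) ?_
  have hx : Computable fun z : (List Bool × ℕ) × ((ℕ × ℕ) × (St × ℕ)) => (c, z.2.1.1) :=
    Computable.pair (Computable.const c) hj
  have ha : Computable fun z : (List Bool × ℕ) × ((ℕ × ℕ) × (St × ℕ)) => (z.1.2, z.2.2.1) :=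
    Computable.pair ht hS
  have f1 : Computable fun z : (List Bool × ℕ) × ((ℕ × ℕ) × (St × ℕ)) =>
      ((c, z.2.1.1), (z.2.1.2, (z.1.2, z.2.2.1))) :=
    Computable.pair hx (Computable.pair hn ha)
  have e1 := (ce_ItP (Z := Z) hR hRU).comp f1
  have f3 : Computable fun z : (List Bool × ℕ) × ((ℕ × ℕ) × (St × ℕ)) =>
      z.2.2.1.2 ++ [(z.1.2, z.2.2.2)] :=
    Computable.list_append.comp (Computable.snd.comp hS)
      (Computable.list_cons.comp (Computable.pair ht hm) (Computable.const []))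
  have e2 := (ce_stp (Z := Z) hR f1 (F := fun S : St => S.2) Computable.snd f3).of_eq
    (fun z => eq_comm)
  have f4 := Cw.primrec_cw.to_comp.comp (Computable.pair (Computable.snd.comp hS) hm)
  have f5 := Computable.list_append.comp (Itr.computable_unary.comp hj) f4
  have e3 := ce_eq (A := Z) hz1 f5
  exact CE.and e1 (CE.and e2 e3)

theorem unary_prefix {j j' : ℕ} {a b : List Bool}
    (h : (List.replicate j false ++ [true]) ++ a <+: (List.replicate j' false ++ [true]) ++ b) :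
    j = j' ∧ a <+: b := by
  induction j generalizing j' with
  | zero =>
    cases j' with
    | zero =>
      refine ⟨rfl, ?_⟩
      simpa using h
    | succ j' =>
      exfalso
      simp [List.replicate_succ] at h
  | succ j ih =>
    cases j' with
    | zero =>
      exfalso
      simp [List.replicate_succ] at h
    | succ j' =>
      have h1 : (List.replicate j false ++ [true]) ++ a <+:
          (List.replicate j' false ++ [true]) ++ b := by
        simpa [List.replicate_succ] using h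
      obtain ⟨h2, h3⟩ := ih h1
      exact ⟨by rw [h2], h3⟩

theorem kkp_pos (x : Code × ℕ) : 0 < kkp x := by unfold kkp; positivity

theorem Gm_prefix {c : Code} {σ σ' : List Bool} {t t' : ℕ} (h : Gm Z R RU c σ t)
    (h' : Gm Z R RU c σ' t') (hp : σ <+: σ') : σ = σ' ∧ t = t' := by
  obtain ⟨⟨⟨j, n⟩, S, m⟩, h1, h2, h3⟩ := h
  obtain ⟨⟨⟨j', n'⟩, S', m'⟩, h1', h2', h3'⟩ := h'
  simp only at h1 h2 h3 h1' h2' h3'
  rw [h3, h3'] at hp
  obtain ⟨hj, hp2⟩ := unary_prefix hp
  subst hj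
  have e := It_eq h1
  have e' := It_eq h1'
  rw [e] at h2
  rw [e'] at h2'
  have r : ∀ N, (stp Z R (c, j) N (Xf Z R RU (c, j) N)) = (Xf Z R RU (c, j) (N + 1)).2 :=
    fun N => rfl
  rw [r, Xf_two] at h2 h2'
  have eS : S = run (kkp (c, j)) (κp (c, j)) (Vp Z R (c, j)) (tf Z R RU (c, j)) n := by
    rw [← Xf_two, ← e]
  have eS' : S' = run (kkp (c, j)) (κp (c, j)) (Vp Z R (c, j)) (tf Z R RU (c, j)) n' := by
    rw [← Xf_two, ← e']
  have w : ∀ N, wt (run (kkp (c, j)) (κp (c, j)) (Vp Z R (c, j)) (tf Z R RU (c, j)) N).2 ≤ 1 :=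
    fun N => wt_run_le_one (kkp_pos _) N
  rcases lt_trichotomy n n' with hn | hn | hn
  · exfalso
    have q := hist_prefix (kk := kkp (c, j)) (κ := κp (c, j)) (V := Vp Z R (c, j))
      (τ := tf Z R RU (c, j)) (n + 1) n' hn
    rw [h2, ← eS'] at q
    have q2 := w (n' + 1)
    rw [h2'] at q2
    exact (Cw.cw_prefix_free S.2 t m S'.2 t' m' q q2).1 hp2
  · subst hn
    have e3 : S = S' := by rw [eS, eS']
    subst e3
    have e4 : t = t' := by
      have : ((t, S) : ℕ × St) = (t', S) := by rw [e, e']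
      exact (Prod.ext_iff.1 this).1
    subst e4
    rw [h2] at h2'
    have e5 := List.append_cancel_left h2'
    simp only [List.cons.injEq, Prod.mk.injEq, true_and, and_true] at e5
    subst e5
    exact ⟨by rw [h3, h3'], rfl⟩
  · exfalso
    have q := hist_prefix (kk := kkp (c, j)) (κ := κp (c, j)) (V := Vp Z R (c, j))
      (τ := tf Z R RU (c, j)) (n' + 1) n hn
    rw [h2', ← eS] at q
    have q2 := w (n + 1)
    rw [h2] at q2
    exact (Cw.cw_prefix_free S'.2 t' m' S.2 t m q q2).2 hp2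

theorem isMachine_Gm (hR : Primrec₂ R) (hRU : Computable RU) (c : Code) :
    IsMachine Z (partOf (Gm Z R RU c)) := by
  have h1 : ∀ σ t t', Gm Z R RU c σ t → Gm Z R RU c σ t' → t = t' :=
    fun σ t t' h h' => (Gm_prefix h h' List.prefix_rfl).2
  refine ⟨recursiveIn_of_ce (ce_Gm hR hRU c) h1, ?_⟩
  rintro σ σ' ⟨t, h⟩ ⟨t', h'⟩ hp
  exact (Gm_prefix h h' hp).1

end AC
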