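import Pool.Agent.Hhelper54.AC.Proc

/-!
# Bookkeeping lemmas on the stack machine

Structure of the stack (markers strictly decreasing outwards, only the head may be killed or without
computation), uniqueness of killed markers, bounds for computations, monotonicity of the history.
-/

set_option autoImplicit false

namespace AC

variable {kk κ : ℕ} {V : ℕ → ℕ → ℕ → Bool} {τ : ℕ → ℕ}

/-! ### the operations on the stack -/

theorem trim_ne_none {i t N : ℕ} (G : Frame) (hb : bad V t G = true) (st : List Frame) :
    G ∈ st → trim V i t N st ≠ none := by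
  induction st with
  | nil => intro h; simp at h
  | cons F L ih =>
    intro hG
    rw [trim]
    cases hL : trim V i t N L with
    | some L' => simp
    | none =>
      simp only
      rcases List.mem_cons.1 hG with rfl | h
      · rw [hb]; simp
      · exact absurd hL (ih h)

theorem trim_eq_none {i t N : ℕ} {st : List Frame} (h : trim V i t N st = none) :
    ∀ G ∈ st, bad V t G = false := by
  intro G hG
  by_contra hG'
  rw [Bool.not_eq_false] at hG'
  exact trim_ne_none G hG' st hG h

theorem trim_eq_some {i t N : ℕ} (st : List Frame) : ∀ st' : List Frame,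
    trim V i t N st = some st' →
    ∃ (P : List Frame) (F : Frame) (L : List Frame), st = P ++ F :: L ∧ bad V t F = true ∧
      (∀ G ∈ L, bad V t G = false) ∧ st' = handle i N F L := by
  induction st with
  | nil => intro st' h; simp [trim] at h
  | cons F L ih =>
    intro st' h
    rw [trim] at h
    cases hL : trim V i t N L with
    | some L' =>
      rw [hL] at h
      simp only [Option.some.injEq] at h
      obtain ⟨P, G, L1, h1, h2, h3, h4⟩ := ih L' hL
      exact ⟨F :: P, G, L1, by rw [h1]; rfl, h2, h3, by rw [← h]; exact h4⟩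
    | none =>
      rw [hL] at h
      simp only at h
      cases hb : bad V t F with
      | false => rw [hb] at h; simp at h
      | true =>
        rw [hb] at h
        simp only [cond_true, Option.some.injEq] at h
        exact ⟨[], F, L, rfl, hb, trim_eq_none hL, h.symm⟩

theorem killStack_ne_none {h : Hist} (G : Frame) (hb : reach (h.drop G.c) G.e = true)
    (st : List Frame) : G ∈ st → killStack h st ≠ none := by
  induction st with
  | nil => intro h; simp at h
  | cons F L ih =>
    intro hG
    rw [killStack]
    cases hL : killStack h L with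
    | some L' => simp
    | none =>
      simp only
      rcases List.mem_cons.1 hG with rfl | h
      · rw [hb]; simp
      · exact absurd hL (ih h)

theorem killStack_eq_none {h : Hist} {st : List Frame} (hh : killStack h st = none) :
    ∀ G ∈ st, reach (h.drop G.c) G.e = false := by
  intro G hG
  by_contra hG'
  rw [Bool.not_eq_false] at hG'
  exact killStack_ne_none G hG' st hG hh

theorem killStack_eq_some {h : Hist} (st : List Frame) : ∀ st' : List Frame,
    killStack h st = some st' →
    ∃ (P : List Frame) (F : Frame) (L : List Frame), st = P ++ F :: L ∧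
      reach (h.drop F.c) F.e = true ∧
      (∀ G ∈ L, reach (h.drop G.c) G.e = false) ∧
      st' = (F.e, F.c, F.y, F.comp, true) :: L := by
  induction st with
  | nil => intro st' h; simp [killStack] at h
  | cons F L ih =>
    intro st' hh
    rw [killStack] at hh
    cases hL : killStack h L with
    | some L' =>
      rw [hL] at hh
      simp only [Option.some.injEq] at hh
      obtain ⟨P, G, L1, h1, h2, h3, h4⟩ := ih L' hL
      exact ⟨F :: P, G, L1, by rw [h1]; rfl, h2, h3, by rw [← hh]; exact h4⟩
    | none =>
      rw [hL] at hh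
      simp only at hh
      cases hb : reach (h.drop F.c) F.e with
      | false => rw [hb] at hh; simp at hh
      | true =>
        rw [hb] at hh
        simp only [cond_true, Option.some.injEq] at hh
        exact ⟨[], F, L, rfl, hb, killStack_eq_none hL, hh.symm⟩

theorem findc_eq_some {y t k : ℕ} (h : findc V y t = some k) : k ≤ t ∧ V y k t = true := by
  rw [findc] at h
  have h1 := List.mem_of_find?_eq_some h
  have h2 := List.find?_some h
  exact ⟨by have := List.mem_range.1 h1; omega, h2⟩

/-- The possible actions of one round. -/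
inductive Act (kk κ : ℕ) (V : ℕ → ℕ → ℕ → Bool) (i t : ℕ) (S S' : St) : Prop
  | trimKill (P L : List Frame) (F G : Frame) (h1 : S.1 = P ++ F :: G :: L)
      (hb : bad V t F = true) (hL : ∀ G' ∈ G :: L, bad V t G' = false) (hk : F.killed = true)
      (h2 : S' = (fresh F.e S.2.length (i + 1) :: G :: L, S.2))
  | trimEnd (P : List Frame) (F : Frame) (h1 : S.1 = P ++ [F]) (hb : bad V t F = true)
      (hk : F.killed = true) (h2 : S' = ([], S.2))
  | trimWait (P L : List Frame) (F : Frame) (h1 : S.1 = P ++ F :: L) (hb : bad V t F = true)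
      (hL : ∀ G' ∈ L, bad V t G' = false) (hk : F.killed = false)
      (h2 : S' = ((F.e, F.c, F.y, none, false) :: L, S.2))
  | empty (h1 : S.1 = []) (h2 : S' = S)
  | stay (F : Frame) (L : List Frame) (h1 : S.1 = F :: L) (hg : ∀ G' ∈ F :: L, bad V t G' = false)
      (hk : F.killed = true) (h2 : S' = S)
  | wait (F : Frame) (L : List Frame) (h1 : S.1 = F :: L) (hg : ∀ G' ∈ F :: L, bad V t G' = false)
      (hk : F.killed = false) (hc : F.comp = none) (hf : findc V F.y t = none) (h2 : S' = S)
  | start (F : Frame) (L : List Frame) (k : ℕ) (h1 : S.1 = F :: L)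
      (hg : ∀ G' ∈ F :: L, bad V t G' = false)
      (hk : F.killed = false) (hc : F.comp = none) (hf : findc V F.y t = some k)
      (h2 : S' = ((F.e, F.c, F.y, some (i, k, S.2.length), false) :: L, S.2))
  | kill (F : Frame) (L : List Frame) (x : ℕ × ℕ × ℕ) (P' L' : List Frame) (F' : Frame)
      (h1 : S.1 = F :: L) (hg : ∀ G' ∈ F :: L, bad V t G' = false)
      (hk : F.killed = false) (hc : F.comp = some x) (h1' : S.1 = P' ++ F' :: L')
      (hr : reach (S.2.drop F'.c) F'.e = true) (hr' : ∀ G ∈ L', reach (S.2.drop G.c) G.e = false)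
      (h2 : S' = ((F'.e, F'.c, F'.y, F'.comp, true) :: L', S.2))
  | push (F : Frame) (L : List Frame) (x : ℕ × ℕ × ℕ)
      (h1 : S.1 = F :: L) (hg : ∀ G' ∈ F :: L, bad V t G' = false)
      (hk : F.killed = false) (hc : F.comp = some x)
      (hr : ∀ G ∈ F :: L, reach (S.2.drop G.c) G.e = false) (hl : S.1.length < kk)
      (h2 : S' = (fresh (F.e + x.1 + κ) S.2.length (i + 1) :: F :: L, S.2))
  | place (F : Frame) (L : List Frame) (x : ℕ × ℕ × ℕ)
      (h1 : S.1 = F :: L) (hg : ∀ G' ∈ F :: L, bad V t G' = false)
      (hk : F.killed = false) (hc : F.comp = some x)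
      (hr : ∀ G ∈ F :: L, reach (S.2.drop G.c) G.e = false) (hl : ¬ S.1.length < kk)
      (h2 : S' = (F :: L, S.2 ++ [(t, F.e + x.1 + κ)]))

theorem act_step (i t : ℕ) (S : St) : Act kk κ V i t S (step kk κ V i t S) := by
  obtain ⟨st, h⟩ := S
  rw [step]
  simp only
  cases hT : trim V i t h.length st with
  | some st' =>
    simp only
    obtain ⟨P, F, L, h1, h2, h3, h4⟩ := trim_eq_some _ _ hT
    cases hk : F.killed with
    | true =>
      cases L with
      | nil =>
        refine Act.trimEnd P F h1 h2 hk ?_
        rw [h4]
        simp [handle, hk]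
      | cons G L =>
        refine Act.trimKill P L F G h1 h2 h3 hk ?_
        rw [h4]
        simp [handle, hk]
    | false =>
      refine Act.trimWait P L F h1 h2 h3 hk ?_
      rw [h4]
      simp [handle, hk]
  | none =>
    have hg := trim_eq_none hT
    simp only
    cases st with
    | nil => exact Act.empty rfl rfl
    | cons F L =>
      simp only
      cases hk : F.killed with
      | true => exact Act.stay F L rfl hg hk rfl
      | false =>
        simp only [cond_false]
        cases hc : F.comp with
        | none =>
          simp only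
          cases hf : findc V F.y t with
          | none => exact Act.wait F L rfl hg hk hc hf rfl
          | some k => exact Act.start F L k rfl hg hk hc hf rfl
        | some x =>
          simp only
          cases hK : killStack h (F :: L) with
          | some st' =>
            obtain ⟨P', F', L', g1, g2, g3, g4⟩ := killStack_eq_some _ _ hK
            exact Act.kill F L x P' L' F' rfl hg hk hc g1 g2 g3 (by rw [g4])
          | none =>
            have hr := killStack_eq_none hK
            simp only
            cases hl : decide ((F :: L).length < kk) with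
            | true => exact Act.push F L x rfl hg hk hc hr (by simpa using hl) rfl
            | false => exact Act.place F L x rfl hg hk hc hr (by simpa using hl) rfl

theorem act_run (i : ℕ) :
    Act kk κ V i (τ i) (run kk κ V τ i) (run kk κ V τ (i + 1)) := act_step _ _ _

/-! ### the structure of the stack -/

/-- The outer frames are not killed and have a computation; a killed head has a computation. -/
def Good : List Frame → Prop
  | [] => True
  | F :: L => (F.killed = true → ∃ x, F.comp = some x) ∧
      ∀ G ∈ L, G.killed = false ∧ ∃ x, G.comp = some x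

theorem Good.suffix {P : List Frame} {F : Frame} {L : List Frame} (h : Good (P ++ F :: L)) :
    Good (F :: L) := by
  cases P with
  | nil => exact h
  | cons G P =>
    obtain ⟨h1, h2⟩ := h
    have hF := h2 F (by simp)
    refine ⟨fun _ => hF.2, fun G' hG' => h2 G' (by simp [hG'])⟩

theorem good_run (i : ℕ) : Good (run kk κ V τ i).1 := by
  induction i with
  | zero =>
    refine ⟨fun h => ?_, fun G hG => by simp at hG⟩
    simp [fresh, Frame.killed] at h
  | succ i ih =>
    cases act_run (kk := kk) (κ := κ) (V := V) (τ := τ) i with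
    | trimKill P L F G h1 hb hL hk h2 =>
      rw [h1] at ih
      rw [h2]
      exact ⟨fun h => by simp [fresh, Frame.killed] at h, fun G' hG' => ih.suffix.2 G' hG'⟩
    | trimEnd P F h1 hb hk h2 => rw [h2]; trivial
    | trimWait P L F h1 hb hL hk h2 =>
      rw [h1] at ih
      rw [h2]
      exact ⟨fun h => by simp [Frame.killed] at h, fun G' hG' => ih.suffix.2 G' hG'⟩
    | empty h1 h2 => rw [h2]; exact ih
    | stay F L h1 hg hk h2 => rw [h2]; exact ih
    | wait F L h1 hg hk hc hf h2 => rw [h2]; exact ih
    | start F L k h1 hg hk hc hf h2 =>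
      rw [h1] at ih
      rw [h2]
      exact ⟨fun _ => ⟨_, rfl⟩, ih.2⟩
    | kill F L x P' L' F' h1 hg hk hc h1' hr hr' h2 =>
      rw [h2]
      refine ⟨fun _ => ?_, ?_⟩
      · change ∃ x, F'.comp = some x
        cases P' with
        | nil =>
          rw [h1] at h1'
          simp only [List.nil_append, List.cons.injEq] at h1'
          exact ⟨x, by rw [← h1'.1]; exact hc⟩
        | cons G P' =>
          rw [h1'] at ih
          exact (ih.2 F' (by simp)).2
      · rw [h1'] at ih
        exact ih.suffix.2
    | push F L x h1 hg hk hc hr hl h2 =>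
      rw [h1] at ih
      rw [h2]
      refine ⟨fun h => by simp [fresh, Frame.killed] at h, fun G' hG' => ?_⟩
      rcases List.mem_cons.1 hG' with rfl | h
      · exact ⟨hk, x, hc⟩
      · exact ih.2 G' h
    | place F L x h1 hg hk hc hr hl h2 =>
      rw [h1] at ih
      rw [h2]
      exact ih

theorem killed_comp (i : ℕ) (F : Frame) (hF : F ∈ (run kk κ V τ i).1) (hk : F.killed = true) :
    ∃ x, F.comp = some x := by
  have h := good_run (kk := kk) (κ := κ) (V := V) (τ := τ) i
  cases hs : (run kk κ V τ i).1 with
  | nil => rw [hs] at hF; simp at hF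
  | cons G L =>
    rw [hs] at hF h
    rcases List.mem_cons.1 hF with rfl | h'
    · exact h.1 hk
    · exact (h.2 F h').2

/-- only the head of the stack can be killed -/
theorem killed_head (i : ℕ) (F : Frame) (hF : F ∈ (run kk κ V τ i).1) (hk : F.killed = true) :
    ∃ L, (run kk κ V τ i).1 = F :: L := by
  have h := good_run (kk := kk) (κ := κ) (V := V) (τ := τ) i
  cases hs : (run kk κ V τ i).1 with
  | nil => rw [hs] at hF; simp at hF
  | cons G L =>
    rw [hs] at hF h
    rcases List.mem_cons.1 hF with rfl | h'
    · exact ⟨L, rfl⟩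
    · rw [(h.2 F h').1] at hk
      exact absurd hk (by simp)

/-- The markers are strictly decreasing from head to tail and at most `i`. -/
theorem markers (i : ℕ) : ((run kk κ V τ i).1.map Frame.y).Pairwise (· > ·) ∧
    ∀ F ∈ (run kk κ V τ i).1, F.y ≤ i := by
  induction i with
  | zero => exact ⟨by simp [run, init], fun F hF => by
      simp only [run, init, List.mem_singleton] at hF
      rw [hF]
      exact le_rfl⟩
  | succ i ih =>
    obtain ⟨ih1, ih2⟩ := ih
    -- suffix
    have suf : ∀ P L, (run kk κ V τ i).1 = P ++ L →
        (L.map Frame.y).Pairwise (· > ·) ∧ ∀ F ∈ L, F.y ≤ i := by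
      intro P L h
      rw [h] at ih1 ih2
      rw [List.map_append, List.pairwise_append] at ih1
      exact ⟨ih1.2.1, fun F hF => ih2 F (by simp [hF])⟩
    cases act_run (kk := kk) (κ := κ) (V := V) (τ := τ) i with
    | trimKill P L F G h1 hb hL hk h2 =>
      obtain ⟨g1, g2⟩ := suf (P ++ [F]) (G :: L) (by rw [h1]; simp)
      rw [h2]
      refine ⟨?_, ?_⟩
      · rw [List.map_cons, List.pairwise_cons]
        refine ⟨fun a ha => ?_, g1⟩
        obtain ⟨X, hX, rfl⟩ := List.mem_map.1 ha
        have := g2 X hX
        change i + 1 > X.y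
        omega
      · intro X hX
        rcases List.mem_cons.1 hX with rfl | h
        · exact le_rfl
        · have := g2 X h
          omega
    | trimEnd P F h1 hb hk h2 => rw [h2]; exact ⟨by simp, fun F hF => by simp at hF⟩
    | trimWait P L F h1 hb hL hk h2 =>
      obtain ⟨g1, g2⟩ := suf P (F :: L) h1
      rw [h2]
      refine ⟨g1, fun X hX => ?_⟩
      rcases List.mem_cons.1 hX with rfl | h
      · have := g2 F (by simp)
        change F.y ≤ i + 1
        omega
      · have := g2 X (by simp [h])
        omega
    | empty h1 h2 => rw [h2]; exact ⟨ih1, fun F hF => (ih2 F hF).trans (by omega)⟩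
    | stay F L h1 hg hk h2 => rw [h2]; exact ⟨ih1, fun F hF => (ih2 F hF).trans (by omega)⟩
    | wait F L h1 hg hk hc hf h2 =>
      rw [h2]; exact ⟨ih1, fun F hF => (ih2 F hF).trans (by omega)⟩
    | start F L k h1 hg hk hc hf h2 =>
      obtain ⟨g1, g2⟩ := suf [] (F :: L) (by rw [h1]; rfl)
      rw [h2]
      refine ⟨g1, fun X hX => ?_⟩
      rcases List.mem_cons.1 hX with rfl | h
      · have := g2 F (by simp)
        change F.y ≤ i + 1
        omega
      · have := g2 X (by simp [h])
        omega
    | kill F L x P' L' F' h1 hg hk hc h1' hr hr' h2 =>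
      obtain ⟨g1, g2⟩ := suf P' (F' :: L') h1'
      rw [h2]
      refine ⟨g1, fun X hX => ?_⟩
      rcases List.mem_cons.1 hX with rfl | h
      · have := g2 F' (by simp)
        change F'.y ≤ i + 1
        omega
      · have := g2 X (by simp [h])
        omega
    | push F L x h1 hg hk hc hr hl h2 =>
      obtain ⟨g1, g2⟩ := suf [] (F :: L) (by rw [h1]; rfl)
      rw [h2]
      refine ⟨?_, ?_⟩
      · rw [List.map_cons, List.pairwise_cons]
        refine ⟨fun a ha => ?_, g1⟩
        obtain ⟨X, hX, rfl⟩ := List.mem_map.1 ha
        have := g2 X hX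
        change i + 1 > X.y
        omega
      · intro X hX
        rcases List.mem_cons.1 hX with rfl | h
        · exact le_rfl
        · have := g2 X h
          omega
    | place F L x h1 hg hk hc hr hl h2 =>
      obtain ⟨g1, g2⟩ := suf [] (F :: L) (by rw [h1]; rfl)
      rw [h2]
      exact ⟨g1, fun X hX => (g2 X hX).trans (by omega)⟩

/-- two frames of one stack with the same marker are equal -/
theorem marker_inj (i : ℕ) (F F' : Frame) (hF : F ∈ (run kk κ V τ i).1)
    (hF' : F' ∈ (run kk κ V τ i).1) (hy : F.y = F'.y) : F = F' := by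
  have h := (markers (kk := kk) (κ := κ) (V := V) (τ := τ) i).1
  have hnd : ((run kk κ V τ i).1.map Frame.y).Nodup := h.imp (fun h => Nat.ne_of_gt h)
  exact List.inj_on_of_nodup_map hnd hF hF' hy

/-- new frames have the marker `i + 1`; a killed frame only ever disappears -/
theorem killed_persist (i : ℕ) (F : Frame) (hF : F ∈ (run kk κ V τ i).1) (hk : F.killed = true)
    (j : ℕ) : ∀ F' ∈ (run kk κ V τ (i + j)).1, F'.y = F.y → F' = F := by
  induction j with
  | zero => intro F' hF' hy; exact marker_inj i F' F hF' hF hy
  | succ j ih =>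
    have hyi : F.y ≤ i := (markers (kk := kk) (κ := κ) (V := V) (τ := τ) i).2 F hF
    have hgood := good_run (kk := kk) (κ := κ) (V := V) (τ := τ) (i + j)
    have hact := act_run (kk := kk) (κ := κ) (V := V) (τ := τ) (i + j)
    rw [← Nat.add_assoc]
    -- a not killed frame of the old stack has another marker
    have nk : ∀ X ∈ (run kk κ V τ (i + j)).1, X.killed = false → X.y ≠ F.y := by
      intro X hX hXk hXy
      have := ih X hX hXy
      rw [this, hk] at hXk
      exact absurd hXk (by simp)
    intro F' hF' hy
    cases hact with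
    | trimKill P L F₁ G h1 hb hL hk₁ h2 =>
      rw [h2] at hF'
      rcases List.mem_cons.1 hF' with rfl | h
      · change i + j + 1 = F.y at hy
        omega
      · exact ih F' (by rw [h1]; simp [List.mem_cons.1 h]) hy
    | trimEnd P F₁ h1 hb hk₁ h2 => rw [h2] at hF'; simp at hF'
    | trimWait P L F₁ h1 hb hL hk₁ h2 =>
      rw [h2] at hF'
      rcases List.mem_cons.1 hF' with rfl | h
      · exact absurd hy (nk F₁ (by rw [h1]; simp) hk₁)
      · exact ih F' (by rw [h1]; simp [h]) hy
    | empty h1 h2 => rw [h2] at hF'; exact ih F' hF' hy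
    | stay F₁ L h1 hg hk₁ h2 => rw [h2] at hF'; exact ih F' hF' hy
    | wait F₁ L h1 hg hk₁ hc hf h2 => rw [h2] at hF'; exact ih F' hF' hy
    | start F₁ L k h1 hg hk₁ hc hf h2 =>
      rw [h2] at hF'
      rcases List.mem_cons.1 hF' with rfl | h
      · exact absurd hy (nk F₁ (by rw [h1]; simp) hk₁)
      · exact ih F' (by rw [h1]; simp [h]) hy
    | kill F₁ L x P' L' F₂ h1 hg hk₁ hc h1' hr hr' h2 =>
      have hk₂ : F₂.killed = false := by
        cases P' with
        | nil =>
          rw [h1] at h1'
          simp only [List.nil_append, List.cons.injEq] at h1'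
          rw [← h1'.1]
          exact hk₁
        | cons G P' =>
          rw [h1'] at hgood
          exact (hgood.2 F₂ (by simp)).1
      rw [h2] at hF'
      rcases List.mem_cons.1 hF' with rfl | h
      · exact absurd hy (nk F₂ (by rw [h1']; simp) hk₂)
      · exact ih F' (by rw [h1']; simp [h]) hy
    | push F₁ L x h1 hg hk₁ hc hr hl h2 =>
      rw [h2] at hF'
      rcases List.mem_cons.1 hF' with rfl | h
      · change i + j + 1 = F.y at hy
        omega
      · exact ih F' (by rw [h1]; exact h) hy
    | place F₁ L x h1 hg hk₁ hc hr hl h2 =>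
      rw [h2] at hF'
      exact ih F' (by rw [h1]; exact hF') hy

theorem killed_unique (i i' : ℕ) (F F' : Frame) (hF : F ∈ (run kk κ V τ i).1)
    (hF' : F' ∈ (run kk κ V τ i').1) (hk : F.killed = true) (hk' : F'.killed = true)
    (hy : F.y = F'.y) : F.comp = F'.comp := by
  rcases le_total i i' with h | h
  · obtain ⟨j, rfl⟩ := Nat.exists_eq_add_of_le h
    rw [killed_persist i F hF hk j F' hF' hy.symm]
  · obtain ⟨j, rfl⟩ := Nat.exists_eq_add_of_le h
    rw [killed_persist i' F' hF' hk' j F hF hy]

/-- A computation present in state `i` was started in a round `r < i` with a candidate `k ≤ τ r`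
which was valid, and the history had length `f` before round `r`. -/
theorem comp_facts (i : ℕ) : ∀ F ∈ (run kk κ V τ i).1, ∀ r k f, F.comp = some (r, k, f) →
    r < i ∧ k ≤ τ r ∧ V F.y k (τ r) = true ∧ f = (run kk κ V τ r).2.length := by
  induction i with
  | zero =>
    intro F hF r k f hc
    simp only [run, init, List.mem_singleton] at hF
    rw [hF] at hc
    simp [fresh, Frame.comp] at hc
  | succ i ih =>
    have ih' : ∀ F ∈ (run kk κ V τ i).1, ∀ r k f, F.comp = some (r, k, f) →
        r < i + 1 ∧ k ≤ τ r ∧ V F.y k (τ r) = true ∧ f = (run kk κ V τ r).2.length := by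
      intro F hF r k f hc
      obtain ⟨a1, a2⟩ := ih F hF r k f hc
      exact ⟨by omega, a2⟩
    intro X hX r k f hXc
    cases act_run (kk := kk) (κ := κ) (V := V) (τ := τ) i with
    | trimKill P L F G h1 hb hL hk h2 =>
      rw [h2] at hX
      rcases List.mem_cons.1 hX with rfl | h
      · simp [fresh, Frame.comp] at hXc
      · exact ih' X (by rw [h1]; simp [List.mem_cons.1 h]) r k f hXc
    | trimEnd P F h1 hb hk h2 => rw [h2] at hX; simp at hX
    | trimWait P L F h1 hb hL hk h2 =>
      rw [h2] at hX
      rcases List.mem_cons.1 hX with rfl | h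
      · simp [Frame.comp] at hXc
      · exact ih' X (by rw [h1]; simp [h]) r k f hXc
    | empty h1 h2 => rw [h2] at hX; exact ih' X hX r k f hXc
    | stay F L h1 hg hk h2 => rw [h2] at hX; exact ih' X hX r k f hXc
    | wait F L h1 hg hk hc hf h2 => rw [h2] at hX; exact ih' X hX r k f hXc
    | start F L k' h1 hg hk hc hf h2 =>
      rw [h2] at hX
      rcases List.mem_cons.1 hX with rfl | h
      · simp only [Frame.comp, Option.some.injEq, Prod.mk.injEq] at hXc
        obtain ⟨rfl, rfl, rfl⟩ := hXc
        obtain ⟨g1, g2⟩ := findc_eq_some hf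
        exact ⟨by omega, g1, g2, rfl⟩
      · exact ih' X (by rw [h1]; simp [h]) r k f hXc
    | kill F L x P' L' F' h1 hg hk hc h1' hr hr' h2 =>
      rw [h2] at hX
      rcases List.mem_cons.1 hX with rfl | h
      · exact ih' F' (by rw [h1']; simp) r k f hXc
      · exact ih' X (by rw [h1']; simp [h]) r k f hXc
    | push F L x h1 hg hk hc hr hl h2 =>
      rw [h2] at hX
      rcases List.mem_cons.1 hX with rfl | h
      · simp [fresh, Frame.comp] at hXc
      · exact ih' X (by rw [h1]; exact h) r k f hXc
    | place F L x h1 hg hk hc hr hl h2 =>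
      rw [h2] at hX
      exact ih' X (by rw [h1]; exact hX) r k f hXc

theorem comp_bound (_hτ : StrictMono τ) (i : ℕ) (F : Frame) (r k f : ℕ)
    (hF : F ∈ (run kk κ V τ i).1) (hc : F.comp = some (r, k, f)) : r < i ∧ k ≤ τ r := by
  obtain ⟨h1, h2, -⟩ := comp_facts i F hF r k f hc
  exact ⟨h1, h2⟩

/-! ### the history -/

theorem hist_succ (i : ℕ) : (run kk κ V τ (i + 1)).2 = (run kk κ V τ i).2 ∨
    ∃ m, (run kk κ V τ (i + 1)).2 = (run kk κ V τ i).2 ++ [(τ i, m)] := by
  cases act_run (kk := kk) (κ := κ) (V := V) (τ := τ) i with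
  | trimKill P L F G h1 hb hL hk h2 => left; rw [h2]
  | trimEnd P F h1 hb hk h2 => left; rw [h2]
  | trimWait P L F h1 hb hL hk h2 => left; rw [h2]
  | empty h1 h2 => left; rw [h2]
  | stay F L h1 hg hk h2 => left; rw [h2]
  | wait F L h1 hg hk hc hf h2 => left; rw [h2]
  | start F L k h1 hg hk hc hf h2 => left; rw [h2]
  | kill F L x P' L' F' h1 hg hk hc h1' hr hr' h2 => left; rw [h2]
  | push F L x h1 hg hk hc hr hl h2 => left; rw [h2]
  | place F L x h1 hg hk hc hr hl h2 => right; exact ⟨_, by rw [h2]⟩

theorem hist_prefix (i i' : ℕ) (h : i ≤ i') : (run kk κ V τ i).2 <+: (run kk κ V τ i').2 := by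
  obtain ⟨j, rfl⟩ := Nat.exists_eq_add_of_le h
  clear h
  induction j with
  | zero => exact List.prefix_rfl
  | succ j ih =>
    refine ih.trans ?_
    rw [← Nat.add_assoc]
    rcases hist_succ (kk := kk) (κ := κ) (V := V) (τ := τ) (i + j) with h | ⟨m, h⟩
    · rw [h]
    · rw [h]; exact List.prefix_append _ _

theorem hist_positions (hτ : StrictMono τ) (i : ℕ) :
    ((run kk κ V τ i).2.map Prod.fst).Pairwise (· < ·) ∧
      ∀ p ∈ (run kk κ V τ i).2, ∃ i' < i, p.1 = τ i' := by
  induction i with
  | zero => exact ⟨by simp [run, init], fun p hp => by simp [run, init] at hp⟩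
  | succ i ih =>
    obtain ⟨ih1, ih2⟩ := ih
    rcases hist_succ (kk := kk) (κ := κ) (V := V) (τ := τ) i with h | ⟨m, h⟩
    · rw [h]
      refine ⟨ih1, fun p hp => ?_⟩
      obtain ⟨i', h1, h2⟩ := ih2 p hp
      exact ⟨i', by omega, h2⟩
    · rw [h]
      refine ⟨?_, fun p hp => ?_⟩
      · rw [List.map_append, List.pairwise_append]
        refine ⟨ih1, by simp, fun a ha b hb => ?_⟩
        obtain ⟨p, hp, rfl⟩ := List.mem_map.1 ha
        obtain ⟨i', h1, h2⟩ := ih2 p hp
        simp only [List.map_cons, List.map_nil, List.mem_singleton] at hb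
        rw [hb, h2]
        exact hτ h1
      · rcases List.mem_append.1 hp with h' | h'
        · obtain ⟨i', h1, h2⟩ := ih2 p h'
          exact ⟨i', by omega, h2⟩
        · simp only [List.mem_singleton] at h'
          exact ⟨i, by omega, by rw [h']⟩

end AC
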