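import Pool.Agent.Hhelper54.AC.StepPrim
import Pool.Agent.Hhelper54.AC.Iter
import Pool.Agent.Hhelper54.AC.PreK
import Pool.Agent.Hhelper54.AC.Marks

/-!
# The strategy relative to an oracle
-/

namespace AC

open Low4 Encodable Denumerable
open Nat.Partrec (Code)

/-- validity of the candidate `k` for the marker `y` at stage `t`, in the process with code `x.1.1`
and level `x.1.2`, with oracle string `x.2` -/
def VpS (R : List Bool × (ℕ × ℕ) → ℕ → Bool) (x : (Code × ℕ) × List Bool) (y k t : ℕ) : Bool :=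
  decide (k ≤ t) && R (jn (preK t k.unpair.1) (x.2.take k.unpair.1) k.unpair.1,
    (encode (Code.curry x.1.1 (Nat.pair x.1.2 y)), k.unpair.2.unpair.1)) k.unpair.2.unpair.2

/-- validity of the candidate `k` for the marker `y` at stage `t`, in the process with code `x.1`
and level `x.2`, with oracle `Z` -/
noncomputable def Vp (Z : Set ℕ) (R : List Bool × (ℕ × ℕ) → ℕ → Bool) (x : Code × ℕ)
    (y k t : ℕ) : Bool :=
  decide (k ≤ t) && R (jn (preK t k.unpair.1) (pre Z k.unpair.1) k.unpair.1,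
    (encode (Code.curry x.1 (Nat.pair x.2 y)), k.unpair.2.unpair.1)) k.unpair.2.unpair.2

theorem VpS_eq (Z : Set ℕ) (R : List Bool × (ℕ × ℕ) → ℕ → Bool) (x : Code × ℕ) (y k t : ℕ) :
    VpS R (x, pre Z t) y k t = Vp Z R x y k t := by
  unfold VpS Vp
  by_cases h : k ≤ t
  · rw [pre_take Z _ _ (le_trans (Nat.unpair_left_le k) h)]
  · simp [h]

theorem pv_VpS {R : List Bool × (ℕ × ℕ) → ℕ → Bool} (hR : Primrec₂ R) : PV (VpS R) := by
  constructor
  have hk : Primrec fun x : ((Code × ℕ) × List Bool) × ℕ × ℕ × ℕ => x.2.2.1 :=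
    Primrec.fst.comp (Primrec.snd.comp Primrec.snd)
  have ht : Primrec fun x : ((Code × ℕ) × List Bool) × ℕ × ℕ × ℕ => x.2.2.2 :=
    Primrec.snd.comp (Primrec.snd.comp Primrec.snd)
  have h1 : Primrec fun x : ((Code × ℕ) × List Bool) × ℕ × ℕ × ℕ => x.2.2.1.unpair.1 :=
    Primrec.fst.comp (Primrec.unpair.comp hk)
  have h2 : Primrec fun x : ((Code × ℕ) × List Bool) × ℕ × ℕ × ℕ =>
      x.2.2.1.unpair.2.unpair.1 :=
    Primrec.fst.comp (Primrec.unpair.comp (Primrec.snd.comp (Primrec.unpair.comp hk)))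
  have h3 : Primrec fun x : ((Code × ℕ) × List Bool) × ℕ × ℕ × ℕ =>
      x.2.2.1.unpair.2.unpair.2 :=
    Primrec.snd.comp (Primrec.unpair.comp (Primrec.snd.comp (Primrec.unpair.comp hk)))
  have h4 : Primrec fun x : ((Code × ℕ) × List Bool) × ℕ × ℕ × ℕ => Nat.pair x.1.1.2 x.2.1 :=
    Primrec₂.natPair.comp (Primrec.snd.comp (Primrec.fst.comp Primrec.fst))
      (Primrec.fst.comp Primrec.snd)
  have h5 : Primrec fun x : ((Code × ℕ) × List Bool) × ℕ × ℕ × ℕ =>
      encode (Code.curry x.1.1.1 (Nat.pair x.1.1.2 x.2.1)) :=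
    Primrec.encode.comp (Code.primrec₂_curry.comp (Primrec.fst.comp (Primrec.fst.comp
      Primrec.fst)) h4)
  have h6 := primrec_preK.comp (Primrec.pair ht h1)
  have h7 : Primrec fun x : ((Code × ℕ) × List Bool) × ℕ × ℕ × ℕ =>
      x.1.2.take x.2.2.1.unpair.1 :=
    Primrec.list_take.comp h1 (Primrec.snd.comp Primrec.fst)
  have h8 := primrec_jn.comp (Primrec.pair (Primrec.pair h6 h7) h1)
  have h9 := hR.comp (Primrec.pair h8 (Primrec.pair h5 h2)) h3
  have h10 : Primrec fun x : ((Code × ℕ) × List Bool) × ℕ × ℕ × ℕ =>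
      decide (x.2.2.1 ≤ x.2.2.2) := Primrec.nat_le.decide.comp hk ht
  exact Primrec.and.comp h10 h9

/-- number of levels of the process `j` -/
def kkp (x : Code × ℕ) : ℕ := 4 ^ (x.2 + 2)

/-- slack exponent of the process `j` -/
def κp (x : Code × ℕ) : ℕ := 2 * x.2 + 8

theorem primrec_kkp : Primrec kkp := by
  unfold kkp
  exact (Primrec₂.unpaired'.1 Nat.Primrec.pow : Primrec₂ fun a b : ℕ => a ^ b).comp
    (Primrec.const 4) (Primrec.nat_add.comp Primrec.snd (Primrec.const 2))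

theorem primrec_κp : Primrec κp := by
  unfold κp
  exact Primrec.nat_add.comp (Primrec.nat_double.comp Primrec.snd) (Primrec.const 8)

/-- one round of the process `x.1`, with oracle string `x.2` -/
def stpS (R : List Bool × (ℕ × ℕ) → ℕ → Bool) (x : (Code × ℕ) × List Bool) (n : ℕ)
    (a : ℕ × St) : St :=
  step (kkp x.1) (κp x.1) (VpS R x) n a.1 a.2

theorem primrec_stpS {R : List Bool × (ℕ × ℕ) → ℕ → Bool} (hR : Primrec₂ R) :
    Primrec fun z : ((Code × ℕ) × List Bool) × ℕ × (ℕ × St) => stpS R z.1 z.2.1 z.2.2 := by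
  unfold stpS
  exact (primrec_step (pv_VpS hR) (primrec_kkp.comp Primrec.fst)
    (primrec_κp.comp Primrec.fst)).comp (Primrec.pair Primrec.fst
    (Primrec.pair (Primrec.fst.comp Primrec.snd) (Primrec.pair
      (Primrec.fst.comp (Primrec.snd.comp Primrec.snd))
      (Primrec.snd.comp (Primrec.snd.comp Primrec.snd)))))

/-- one round of the process `x`, with oracle `Z` -/
noncomputable def stp (Z : Set ℕ) (R : List Bool × (ℕ × ℕ) → ℕ → Bool) (x : Code × ℕ) (n : ℕ)
    (a : ℕ × St) : St :=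
  step (kkp x) (κp x) (Vp Z R x) n a.1 a.2

theorem trim_congr {V V' : ℕ → ℕ → ℕ → Bool} {t : ℕ} (h : ∀ y k, V y k t = V' y k t) (i N : ℕ)
    (L : List Frame) : trim V i t N L = trim V' i t N L := by
  induction L with
  | nil => rfl
  | cons F L ih =>
    have hb : bad V t F = bad V' t F := by
      unfold bad
      cases F.comp with
      | none => rfl
      | some x => simp only [h]
    simp only [trim, ih, hb]

theorem step_congr {V V' : ℕ → ℕ → ℕ → Bool} {t : ℕ} (h : ∀ y k, V y k t = V' y k t)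
    (kk κ i : ℕ) (S : St) : step kk κ V i t S = step kk κ V' i t S := by
  have hf : ∀ y, findc V y t = findc V' y t := by
    intro y
    unfold findc
    simp only [h]
  unfold step
  rw [trim_congr h]
  simp only [hf]

theorem stpS_eq (Z : Set ℕ) (R : List Bool × (ℕ × ℕ) → ℕ → Bool) (x : Code × ℕ) (n : ℕ)
    (a : ℕ × St) : stpS R (x, pre Z a.1) n a = stp Z R x n a :=
  step_congr (fun y k => VpS_eq Z R x y k a.1) _ _ _ _

theorem ce_stp {Z : Set ℕ} {R : List Bool × (ℕ × ℕ) → ℕ → Bool} (hR : Primrec₂ R)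
    {γ δ : Type} [Primcodable γ] [Primcodable δ] {f : γ → (Code × ℕ) × ℕ × (ℕ × St)}
    (hf : Computable f) {F : St → δ} (hF : Computable F) {g : γ → δ} (hg : Computable g) :
    CE Z fun c => g c = F (stp Z R (f c).1 (f c).2.1 (f c).2.2) := by
  have e0 : Computable fun z : List Bool × γ => (((f z.2).1, z.1), (f z.2).2) :=
    Computable.pair (Computable.pair (Computable.fst.comp (hf.comp Computable.snd))
      Computable.fst) (Computable.snd.comp (hf.comp Computable.snd))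
  have e1 := (primrec_stpS hR).to_comp.comp e0
  have e2 := Computable.encode.comp (hF.comp e1)
  have e3 : Computable fun z : List Bool × γ => encode (g z.2) :=
    Computable.encode.comp (hg.comp Computable.snd)
  have e4 := (Primrec.eq (α := ℕ)).decide.to_comp.comp e3 e2
  have e5 : Computable fun c => (f c).2.2.1 :=
    Computable.fst.comp (Computable.snd.comp (Computable.snd.comp hf))
  refine (dec_of_pre' (A := Z) e4 e5).1.of_eq fun c => ?_
  simp only [decide_eq_true_eq, Encodable.encode_inj]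
  rw [stpS_eq]

/-- one answer test -/
def respT (RU : List Bool × (ℕ × ℕ) × ℕ → Bool) (σ : List Bool) (j u : ℕ) (p : ℕ × ℕ) (k : ℕ) :
    Bool := RU (σ.take k, (p.2 + 2 * j, encode (preK u p.1)), k)

theorem computable_respT {RU : List Bool × (ℕ × ℕ) × ℕ → Bool} (hRU : Computable RU) :
    Computable fun z : (List Bool × ℕ × ℕ) × (ℕ × ℕ) × ℕ =>
      respT RU z.1.1 z.1.2.1 z.1.2.2 z.2.1 z.2.2 := by
  unfold respT
  have h1 : Computable fun z : (List Bool × ℕ × ℕ) × (ℕ × ℕ) × ℕ => z.1.1.take z.2.2 :=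
    computable_take.comp (Computable.fst.comp Computable.fst)
      (Computable.snd.comp Computable.snd)
  have h2 : Primrec fun z : (List Bool × ℕ × ℕ) × (ℕ × ℕ) × ℕ => z.2.1.2 + 2 * z.1.2.1 :=
    Primrec.nat_add.comp (Primrec.snd.comp (Primrec.fst.comp Primrec.snd))
      (Primrec.nat_double.comp (Primrec.fst.comp (Primrec.snd.comp Primrec.fst)))
  have h3 : Primrec fun z : (List Bool × ℕ × ℕ) × (ℕ × ℕ) × ℕ =>
      encode (preK z.1.2.2 z.2.1.1) :=
    Primrec.encode.comp (primrec_preK.comp (Primrec.pair (Primrec.snd.comp (Primrec.snd.comp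
      Primrec.fst)) (Primrec.fst.comp (Primrec.fst.comp Primrec.snd))))
  have h4 : Computable fun z : (List Bool × ℕ × ℕ) × (ℕ × ℕ) × ℕ =>
      (z.1.1.take z.2.2, (z.2.1.2 + 2 * z.1.2.1, encode (preK z.1.2.2 z.2.1.1)), z.2.2) :=
    Computable.pair h1 (Computable.pair (Computable.pair h2.to_comp h3.to_comp)
      (Computable.snd.comp Computable.snd))
  exact hRU.comp h4

/-- all placements of the history `h` are answered at stage `u`, with oracle string `σ` -/
def respB (RU : List Bool × (ℕ × ℕ) × ℕ → Bool) (x : List Bool × (ℕ × Hist × ℕ)) : Bool :=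
  bAll (fun n => (x.2.2.1[n]?).casesOn true (fun p => bEx (respT RU x.1 x.2.1 x.2.2.2 p)
    (x.2.2.2 + 1))) x.2.2.1.length

theorem computable_respB1 {RU : List Bool × (ℕ × ℕ) × ℕ → Bool} (hRU : Computable RU) :
   Computable fun z : (((List Bool × (ℕ × Hist × ℕ)) × ℕ) × (ℕ × ℕ)) × ℕ =>
      respT RU z.1.1.1.1 z.1.1.1.2.1 z.1.1.1.2.2.2 z.1.2 z.2 := by
    have hx : Computable fun z : (((List Bool × (ℕ × Hist × ℕ)) × ℕ) × (ℕ × ℕ)) × ℕ => z.1.1.1 :=
      Computable.fst.comp (Computable.fst.comp Computable.fst)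
    have hp : Computable fun z : (((List Bool × (ℕ × Hist × ℕ)) × ℕ) × (ℕ × ℕ)) × ℕ => z.1.2 :=
      Computable.snd.comp Computable.fst
    have h : Computable fun z : (((List Bool × (ℕ × Hist × ℕ)) × ℕ) × (ℕ × ℕ)) × ℕ =>
        ((z.1.1.1.1, z.1.1.1.2.1, z.1.1.1.2.2.2), z.1.2, z.2) :=
      Computable.pair (Computable.pair (Computable.fst.comp hx) (Computable.pair
        (Computable.fst.comp (Computable.snd.comp hx))
        (Computable.snd.comp (Computable.snd.comp (Computable.snd.comp hx)))))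
        (Computable.pair hp Computable.snd)
    have h5 := (computable_respT hRU).comp h
    exact h5

theorem computable_respB2 {RU : List Bool × (ℕ × ℕ) × ℕ → Bool} (hRU : Computable RU) :
   Computable fun z : ((List Bool × (ℕ × Hist × ℕ)) × ℕ) × (ℕ × ℕ) =>
      bEx (respT RU z.1.1.1 z.1.1.2.1 z.1.1.2.2.2 z.2) (z.1.1.2.2.2 + 1) := by
    have h1 := (computable_respB1 hRU).to₂
    have h2 : Computable fun z : ((List Bool × (ℕ × Hist × ℕ)) × ℕ) × (ℕ × ℕ) => 
      (z.1.1.2.2.2 + 1) := Computable.succ.comp (Computable.snd.comp (Computable.snd.comp (Computable.snd.comp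
      (Computable.fst.comp Computable.fst))))
    exact computable_bEx (α := ((List Bool × (ℕ × Hist × ℕ)) × ℕ) × (ℕ × ℕ))
      (R := fun z k => respT RU z.1.1.1 z.1.1.2.1 z.1.1.2.2.2 z.2 k)
      (f := fun z => z.1.1.2.2.2 + 1) h1 h2

theorem computable_respB3 {RU : List Bool × (ℕ × ℕ) × ℕ → Bool} (hRU : Computable RU) :
   Computable fun z : (List Bool × (ℕ × Hist × ℕ)) × ℕ =>
      (Option.casesOn (z.1.2.2.1[z.2]?) true (fun p => bEx (respT RU z.1.1 z.1.2.1 z.1.2.2.2 p)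
        (z.1.2.2.2 + 1)) : Bool) := by
  have h3 : Computable fun z : (List Bool × (ℕ × Hist × ℕ)) × ℕ => z.1.2.2.1[z.2]? :=
    Computable.list_getElem?.comp (Computable.fst.comp (Computable.snd.comp (Computable.snd.comp
      Computable.fst))) Computable.snd
  have h2 := (computable_respB2 hRU).to₂
  exact Computable.option_casesOn (o := fun z : (List Bool × (ℕ × Hist × ℕ)) × ℕ => z.1.2.2.1[z.2]?)
      (f := fun _ => true) (g := fun z p => bEx (respT RU z.1.1 z.1.2.1 z.1.2.2.2 p)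
        (z.1.2.2.2 + 1)) h3 (Computable.const true) h2

theorem computable_respB {RU : List Bool × (ℕ × ℕ) × ℕ → Bool} (hRU : Computable RU) :
    Computable (respB RU) := by
  have h4 := (computable_respB3 hRU).to₂
  have h6 : Computable fun x : List Bool × (ℕ × Hist × ℕ) => x.2.2.1.length :=
    (Computable.list_length.comp (Computable.fst.comp (Computable.snd.comp Computable.snd)))
  have h5 := computable_bAll h4 h6
  exact h5
theorem respB_iff {RU : List Bool × (ℕ × ℕ) × ℕ → Bool} {σ : List Bool} {j : ℕ} {h : Hist}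
    {u : ℕ} : respB RU (σ, (j, h, u)) = true ↔ ∀ p ∈ h, ∃ k ≤ u,
      RU (σ.take k, (p.2 + 2 * j, encode (preK u p.1)), k) = true := by
  unfold respB
  rw [bAll_iff]
  constructor
  · intro H p hp
    obtain ⟨n, hn⟩ := List.mem_iff_getElem?.1 hp
    have hlt : n < h.length := by
      by_contra hc
      rw [List.getElem?_eq_none (not_lt.1 hc)] at hn
      simp at hn
    have := H n hlt
    simp only [hn, bEx_iff, respT] at this
    obtain ⟨k, hk, h1⟩ := this
    exact ⟨k, Nat.lt_succ_iff.1 hk, h1⟩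
  · intro H n hn
    have hn' : h[n]? = some h[n] := List.getElem?_eq_getElem hn
    obtain ⟨k, hk, h1⟩ := H h[n] (List.getElem_mem hn)
    simp only [hn', bEx_iff, respT]
    exact ⟨k, Nat.lt_succ_of_le hk, h1⟩

/-- the history `h` is answered at stage `u` -/
def Resp (Z : Set ℕ) (RU : List Bool × (ℕ × ℕ) × ℕ → Bool) (j : ℕ) (h : Hist) (u : ℕ) : Prop :=
  ∀ p ∈ h, ∃ k ≤ u, RU (pre Z k, (p.2 + 2 * j, encode (preK u p.1)), k) = true

theorem resp_iff {Z : Set ℕ} {RU : List Bool × (ℕ × ℕ) × ℕ → Bool} {j : ℕ} {h : Hist} {u : ℕ} :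
    Resp Z RU j h u ↔ respB RU (pre Z u, (j, h, u)) = true := by
  rw [respB_iff]
  unfold Resp
  refine forall_congr' fun p => forall_congr' fun _ => ?_
  constructor
  · rintro ⟨k, hk, h1⟩
    exact ⟨k, hk, by rw [pre_take Z _ _ hk]; exact h1⟩
  · rintro ⟨k, hk, h1⟩
    exact ⟨k, hk, by rw [pre_take Z _ _ hk] at h1; exact h1⟩

theorem dec_Resp {Z : Set ℕ} {RU : List Bool × (ℕ × ℕ) × ℕ → Bool} (hRU : Computable RU) :
    Dec Z fun z : ℕ × Hist × ℕ => Resp Z RU z.1 z.2.1 z.2.2 := by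
  refine (dec_of_pre' (A := Z) (computable_respB hRU) (f := fun z : ℕ × Hist × ℕ => z.2.2)
    (Computable.snd.comp Computable.snd)).of_eq ?_
  rintro ⟨j, h, u⟩
  exact resp_iff.symm

/-- transition of the process `x` after round `n` -/
def Nx (Z : Set ℕ) (R : List Bool × (ℕ × ℕ) → ℕ → Bool) (RU : List Bool × (ℕ × ℕ) × ℕ → Bool)
    (x : Code × ℕ) (n : ℕ) (a b : ℕ × St) : Prop :=
  b.2 = stp Z R x n a ∧ (a.1 < b.1 ∧ Resp Z RU x.2 b.2.2 b.1) ∧
    ∀ u < b.1, ¬ (a.1 < u ∧ Resp Z RU x.2 b.2.2 u)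

theorem ce_Nx {Z : Set ℕ} {R : List Bool × (ℕ × ℕ) → ℕ → Bool} (hR : Primrec₂ R)
    {RU : List Bool × (ℕ × ℕ) × ℕ → Bool} (hRU : Computable RU) :
    CE Z fun z : ((Code × ℕ) × ℕ) × ((ℕ × St) × (ℕ × St)) =>
      Nx Z R RU z.1.1 z.1.2 z.2.1 z.2.2 := by
  have hx : Computable fun z : ((Code × ℕ) × ℕ) × ((ℕ × St) × (ℕ × St)) => z.1.1 :=
    Computable.fst.comp Computable.fst
  have hn : Computable fun z : ((Code × ℕ) × ℕ) × ((ℕ × St) × (ℕ × St)) => z.1.2 :=
    Computable.snd.comp Computable.fst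
  have ha : Computable fun z : ((Code × ℕ) × ℕ) × ((ℕ × St) × (ℕ × St)) => z.2.1 :=
    Computable.fst.comp Computable.snd
  have hb : Computable fun z : ((Code × ℕ) × ℕ) × ((ℕ × St) × (ℕ × St)) => z.2.2 :=
    Computable.snd.comp Computable.snd
  have hj : Computable fun z : ((Code × ℕ) × ℕ) × ((ℕ × St) × (ℕ × St)) => z.1.1.2 :=
    Computable.snd.comp hx
  have hbh : Computable fun z : ((Code × ℕ) × ℕ) × ((ℕ × St) × (ℕ × St)) => z.2.2.2.2 :=
    Computable.snd.comp (Computable.snd.comp hb)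
  have hlt : Dec Z fun z : ℕ × ℕ => z.1 < z.2 := by
    refine (Dec.of_computable (A := Z) (f := fun z : ℕ × ℕ => decide (z.1 < z.2))
      (Primrec.nat_lt.decide.to_comp)).of_eq fun z => ?_
    simp
  refine CE.and ?_ (CE.and (CE.and ?_ ?_) ?_)
  · exact ce_stp hR (f := fun z : ((Code × ℕ) × ℕ) × ((ℕ × St) × (ℕ × St)) =>
      (z.1.1, (z.1.2, z.2.1))) (Computable.pair hx (Computable.pair hn ha))
      (F := fun S => S) Computable.id (g := fun z => z.2.2.2) (Computable.snd.comp hb)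
  · exact (hlt.comp (f := fun z : ((Code × ℕ) × ℕ) × ((ℕ × St) × (ℕ × St)) =>
      (z.2.1.1, z.2.2.1)) (Computable.pair (Computable.fst.comp ha) (Computable.fst.comp hb))).1
  · exact ((dec_Resp hRU).comp (f := fun z : ((Code × ℕ) × ℕ) × ((ℕ × St) × (ℕ × St)) =>
      (z.1.1.2, z.2.2.2.2, z.2.2.1)) (Computable.pair hj (Computable.pair hbh
        (Computable.fst.comp hb)))).1
  · refine CE.ball (p := fun (z : ((Code × ℕ) × ℕ) × ((ℕ × St) × (ℕ × St))) u =>
      ¬ (z.2.1.1 < u ∧ Resp Z RU z.1.1.2 z.2.2.2.2 u)) (f := fun z => z.2.2.1) ?_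
      (Computable.fst.comp hb)
    have h1 := hlt.comp (f := fun z : (((Code × ℕ) × ℕ) × ((ℕ × St) × (ℕ × St))) × ℕ =>
      (z.1.2.1.1, z.2)) (Computable.pair ((Computable.fst.comp ha).comp Computable.fst)
        Computable.snd)
    have h2 := (dec_Resp (Z := Z) hRU).comp (f := fun z : (((Code × ℕ) × ℕ) × ((ℕ × St) ×
      (ℕ × St))) × ℕ => (z.1.1.1.2, z.1.2.2.2.2, z.2)) (Computable.pair (hj.comp Computable.fst)
        (Computable.pair (hbh.comp Computable.fst) Computable.snd))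
    exact (h1.and h2).2

/-- the initial value -/
def x0 (_ : Code × ℕ) : ℕ × St := (0, init)

/-- the sequence of the process, as long as it is alive -/
def ItP (Z : Set ℕ) (R : List Bool × (ℕ × ℕ) → ℕ → Bool) (RU : List Bool × (ℕ × ℕ) × ℕ → Bool)
    (x : Code × ℕ) (n : ℕ) (a : ℕ × St) : Prop := It x0 (Nx Z R RU) x n a

theorem ce_ItP {Z : Set ℕ} {R : List Bool × (ℕ × ℕ) → ℕ → Bool} (hR : Primrec₂ R)
    {RU : List Bool × (ℕ × ℕ) × ℕ → Bool} (hRU : Computable RU) :
    CE Z fun z : (Code × ℕ) × (ℕ × (ℕ × St)) => ItP Z R RU z.1 z.2.1 z.2.2 :=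
  ce_It (Computable.const _) (ce_Nx hR hRU)

open Classical in
/-- the total sequence -/
noncomputable def Xf (Z : Set ℕ) (R : List Bool × (ℕ × ℕ) → ℕ → Bool)
    (RU : List Bool × (ℕ × ℕ) × ℕ → Bool) (x : Code × ℕ) : ℕ → ℕ × St
  | 0 => (0, init)
  | n + 1 =>
    (if h : ∃ u, (Xf Z R RU x n).1 < u ∧ Resp Z RU x.2 (stp Z R x n (Xf Z R RU x n)).2 u
      then Nat.find h else (Xf Z R RU x n).1 + 1, stp Z R x n (Xf Z R RU x n))

variable {Z : Set ℕ} {R : List Bool × (ℕ × ℕ) → ℕ → Bool} {RU : List Bool × (ℕ × ℕ) × ℕ → Bool}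
  {x : Code × ℕ}

/-- the stages -/
noncomputable def tf (Z : Set ℕ) (R : List Bool × (ℕ × ℕ) → ℕ → Bool)
    (RU : List Bool × (ℕ × ℕ) × ℕ → Bool) (x : Code × ℕ) (n : ℕ) : ℕ := (Xf Z R RU x n).1

theorem Xf_two (n : ℕ) : (Xf Z R RU x n).2 = run (kkp x) (κp x) (Vp Z R x) (tf Z R RU x) n := by
  induction n with
  | zero => rfl
  | succ n ih =>
    show step (kkp x) (κp x) (Vp Z R x) n (Xf Z R RU x n).1 (Xf Z R RU x n).2 = _
    rw [ih]
    rfl

open Classical in
theorem tf_mono : StrictMono (tf Z R RU x) := by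
  refine strictMono_nat_of_lt_succ fun n => ?_
  unfold tf
  rw [Xf]
  split_ifs with h
  · exact (Nat.find_spec h).1
  · exact Nat.lt_succ_self _

open Classical in
theorem It_eq {n : ℕ} {a : ℕ × St} (h : ItP Z R RU x n a) : a = Xf Z R RU x n := by
  unfold ItP at h
  induction h with
  | zero => rfl
  | @succ n a b _ hN ih =>
    subst ih
    obtain ⟨h1, h2, h3⟩ := hN
    rw [h1] at h2 h3
    have hex : ∃ u, (Xf Z R RU x n).1 < u ∧ Resp Z RU x.2 (stp Z R x n (Xf Z R RU x n)).2 u :=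
      ⟨b.1, h2⟩
    rw [Xf, dif_pos hex]
    refine Prod.ext ?_ h1
    exact ((Nat.find_eq_iff hex).2 ⟨h2, h3⟩).symm

theorem It_pred {n : ℕ} {a : ℕ × St} (h : ItP Z R RU x (n + 1) a) :
    ItP Z R RU x n (Xf Z R RU x n) ∧ Resp Z RU x.2 a.2.2 a.1 := by
  unfold ItP at h
  cases h with
  | succ h1 h2 =>
    have := It_eq (Z := Z) (R := R) (RU := RU) h1
    subst this
    exact ⟨h1, h2.2.1.2⟩

open Classical in
theorem It_succ {n : ℕ} (h : ItP Z R RU x n (Xf Z R RU x n))
    (hex : ∃ u, (Xf Z R RU x n).1 < u ∧ Resp Z RU x.2 (stp Z R x n (Xf Z R RU x n)).2 u) :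
    ItP Z R RU x (n + 1) (Xf Z R RU x (n + 1)) := by
  refine It.succ h ?_
  have h1 : Xf Z R RU x (n + 1) = (Nat.find hex, stp Z R x n (Xf Z R RU x n)) := by
    rw [Xf, dif_pos hex]
  rw [h1]
  exact ⟨rfl, Nat.find_spec hex, fun u hu => Nat.find_min hex hu⟩

end AC
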