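import Pool.Agent.Hhelper54.AC.Proc

/-!
# The step function of the strategy is primitive recursive
-/

namespace AC

open Primrec

variable {P : Type} [Primcodable P]

theorem primrec_pow2 : Primrec fun n : ℕ => 2 ^ n := by
  refine (Primrec.nat_rec₁ (f := fun _ r => 2 * r) 1
    ((Primrec.nat_double.comp Primrec.snd).to₂)).of_eq fun n => ?_
  induction n with
  | zero => rfl
  | succ n ih =>
    show 2 * (Nat.rec 1 (fun _ r => 2 * r) n : ℕ) = _
    rw [ih, pow_succ, mul_comm]

theorem primrec_sum : Primrec fun l : List ℕ => l.sum := by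
  refine (Primrec.list_foldr (f := fun l : List ℕ => l) (g := fun _ => 0)
    (h := fun _ (p : ℕ × ℕ) => p.1 + p.2) Primrec.id (Primrec.const 0)
    ((Primrec.nat_add.comp (Primrec.fst.comp Primrec.snd)
      (Primrec.snd.comp Primrec.snd)).to₂)).of_eq fun l => ?_
  induction l with
  | nil => rfl
  | cons a l ih => simp only [List.foldr_cons, ih, List.sum_cons]

theorem primrec_esum : Primrec esum := by
  unfold esum
  exact primrec_sum.comp (Primrec.list_map Primrec.id (Primrec.snd.comp Primrec.snd).to₂)

theorem primrec_wsum : Primrec fun x : ℕ × Hist => wsum x.1 x.2 := by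
  unfold wsum
  refine primrec_sum.comp (Primrec.list_map (g := fun (x : ℕ × Hist) (p : ℕ × ℕ) =>
    2 ^ (x.1 - p.2)) Primrec.snd ?_)
  exact (primrec_pow2.comp (Primrec.nat_sub.comp (Primrec.fst.comp Primrec.fst)
    (Primrec.snd.comp Primrec.snd))).to₂

theorem primrec_reach {A : Type} [Primcodable A] {h : A → Hist} {e : A → ℕ}
    (hh : Primrec h) (he : Primrec e) : Primrec fun a => reach (h a) (e a) := by
  unfold reach
  refine Primrec.nat_le.decide.comp (primrec_pow2.comp (primrec_esum.comp hh)) ?_
  exact primrec_wsum.comp (Primrec.pair (Primrec.nat_add.comp he (primrec_esum.comp hh)) hh)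

theorem primrec_e : Primrec Frame.e := Primrec.fst
theorem primrec_c : Primrec Frame.c := Primrec.fst.comp Primrec.snd
theorem primrec_y : Primrec Frame.y := Primrec.fst.comp (Primrec.snd.comp Primrec.snd)
theorem primrec_comp : Primrec Frame.comp :=
  Primrec.fst.comp (Primrec.snd.comp (Primrec.snd.comp Primrec.snd))
theorem primrec_killed : Primrec Frame.killed :=
  Primrec.snd.comp (Primrec.snd.comp (Primrec.snd.comp Primrec.snd))

/-- building a frame -/
def mkF (e c y : ℕ) (o : Option (ℕ × ℕ × ℕ)) (k : Bool) : Frame := (e, c, y, o, k)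

theorem primrec_mkF {A : Type} [Primcodable A] {e c y : A → ℕ} {o : A → Option (ℕ × ℕ × ℕ)}
    {k : A → Bool} (he : Primrec e) (hc : Primrec c) (hy : Primrec y) (ho : Primrec o)
    (hk : Primrec k) : Primrec fun a => mkF (e a) (c a) (y a) (o a) (k a) := by
  unfold mkF
  exact Primrec.pair he (Primrec.pair hc (Primrec.pair hy (Primrec.pair ho hk)))

theorem primrec_fresh {A : Type} [Primcodable A] {e c y : A → ℕ}
    (he : Primrec e) (hc : Primrec c) (hy : Primrec y) :
    Primrec fun a => fresh (e a) (c a) (y a) :=
  primrec_mkF he hc hy (Primrec.const none) (Primrec.const false)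

/-- data for the Primrec proofs -/
structure PV (V : P → ℕ → ℕ → ℕ → Bool) : Prop where
  prim : Primrec fun x : P × ℕ × ℕ × ℕ => V x.1 x.2.1 x.2.2.1 x.2.2.2

theorem PV.comp {V : P → ℕ → ℕ → ℕ → Bool} (hV : PV V) {A : Type} [Primcodable A]
    {p : A → P} {y k t : A → ℕ} (hp : Primrec p) (hy : Primrec y) (hk : Primrec k)
    (ht : Primrec t) : Primrec fun a => V (p a) (y a) (k a) (t a) :=
  hV.prim.comp (Primrec.pair hp (Primrec.pair hy (Primrec.pair hk ht)))

theorem primrec_bad {V : P → ℕ → ℕ → ℕ → Bool} (hV : PV V) {A : Type} [Primcodable A]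
    {p : A → P} {t : A → ℕ} {F : A → Frame} (hp : Primrec p) (ht : Primrec t)
    (hF : Primrec F) : Primrec fun a => bad (V (p a)) (t a) (F a) := by
  have h1 : Primrec fun z : A × (ℕ × ℕ × ℕ) =>
      !(V (p z.1) (F z.1).y z.2.2.1 (t z.1)) :=
    Primrec.not.comp (hV.comp (hp.comp Primrec.fst)
      (primrec_y.comp (hF.comp Primrec.fst))
      (Primrec.fst.comp (Primrec.snd.comp Primrec.snd))
      (ht.comp Primrec.fst))
  refine (Primrec.option_casesOn (primrec_comp.comp hF) (Primrec.const false) h1.to₂).of_eq ?_
  intro a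
  unfold bad
  rcases h : (F a).comp with _ | x <;> simp


theorem handle_eq (i N : ℕ) (F : Frame) (L : List Frame) :
    handle i N F L = bif F.killed then
      (bif decide (L.length = 0) then [] else fresh F.e N (i + 1) :: L)
    else mkF F.e F.c F.y none false :: L := by
  unfold handle mkF
  cases F.killed <;> cases L <;> rfl

theorem primrec_handle {A : Type} [Primcodable A] {i N : A → ℕ} {F : A → Frame}
    {L : A → List Frame} (hi : Primrec i) (hN : Primrec N) (hF : Primrec F) (hL : Primrec L) :
    Primrec fun a => handle (i a) (N a) (F a) (L a) := by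
  have he : Primrec fun a => (F a).e := primrec_e.comp hF
  have hfr : Primrec fun a => fresh (F a).e (N a) (i a + 1) :: L a :=
    Primrec.list_cons.comp (primrec_fresh he hN (Primrec.succ.comp hi)) hL
  have hd : Primrec fun a => decide ((L a).length = 0) :=
    Primrec.eq.decide.comp (Primrec.list_length.comp hL) (Primrec.const 0)
  have h1 : Primrec fun a => bif decide ((L a).length = 0) then [] else
      fresh (F a).e (N a) (i a + 1) :: L a := Primrec.cond hd (Primrec.const []) hfr
  have h2 : Primrec fun a => mkF (F a).e (F a).c (F a).y none false :: L a :=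
    Primrec.list_cons.comp (primrec_mkF he (primrec_c.comp hF) (primrec_y.comp hF)
      (Primrec.const none) (Primrec.const false)) hL
  refine (Primrec.cond (primrec_killed.comp hF) h1 h2).of_eq ?_
  intro x
  exact (handle_eq _ _ _ _).symm

/-- state of the fold computing a recursion with the last successful position over a stack -/
abbrev Acc : Type := List Frame × Option (List Frame)

theorem trim_eq (V : ℕ → ℕ → ℕ → Bool) (i t N : ℕ) (L : List Frame) :
    L.foldr (fun F (s : Acc) => ((F :: s.1, (s.2 <|> bif bad V t F then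
      some (handle i N F s.1) else none)) : Acc)) ([], none) = (L, trim V i t N L) := by
  induction L with
  | nil => rfl
  | cons F L ih =>
    rw [List.foldr_cons, ih]
    have : trim V i t N (F :: L) = (trim V i t N L <|>
        bif bad V t F then some (handle i N F L) else none) := by
      show (match trim V i t N L with
        | some L' => some L'
        | none => bif bad V t F then some (handle i N F L) else none) = _
      cases trim V i t N L <;> rfl
    rw [this]

theorem primrec_trim {V : P → ℕ → ℕ → ℕ → Bool} (hV : PV V) {A : Type} [Primcodable A]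
    {p : A → P} {i t N : A → ℕ} {L : A → List Frame} (hp : Primrec p) (hi : Primrec i)
    (ht : Primrec t) (hN : Primrec N) (hL : Primrec L) :
    Primrec fun a => trim (V (p a)) (i a) (t a) (N a) (L a) := by
  have hF : Primrec fun z : A × (Frame × Acc) => z.2.1 := Primrec.fst.comp Primrec.snd
  have hs : Primrec fun z : A × (Frame × Acc) => z.2.2 := Primrec.snd.comp Primrec.snd
  have hs1 : Primrec fun z : A × (Frame × Acc) => z.2.2.1 := Primrec.fst.comp hs
  have hs2 : Primrec fun z : A × (Frame × Acc) => z.2.2.2 := Primrec.snd.comp hs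
  have hb : Primrec fun z : A × (Frame × Acc) => bad (V (p z.1)) (t z.1) z.2.1 :=
    primrec_bad hV (hp.comp Primrec.fst) (ht.comp Primrec.fst) hF
  have hh : Primrec fun z : A × (Frame × Acc) => handle (i z.1) (N z.1) z.2.1 z.2.2.1 :=
    primrec_handle (hi.comp Primrec.fst) (hN.comp Primrec.fst) hF hs1
  have ho : Primrec fun z : A × (Frame × Acc) => some (handle (i z.1) (N z.1) z.2.1 z.2.2.1) :=
    Primrec.option_some.comp hh
  have hn : Primrec fun _ : A × (Frame × Acc) => (none : Option (List Frame)) := Primrec.const none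
  have hc : Primrec fun z : A × (Frame × Acc) => bif bad (V (p z.1)) (t z.1) z.2.1 then
      some (handle (i z.1) (N z.1) z.2.1 z.2.2.1) else none := Primrec.cond hb ho hn
  have hor : Primrec fun z : A × (Frame × Acc) => (z.2.2.2 <|> bif bad (V (p z.1)) (t z.1) z.2.1 then
      some (handle (i z.1) (N z.1) z.2.1 z.2.2.1) else none) := Primrec.option_orElse.comp hs2 hc
  have hcons : Primrec fun z : A × (Frame × Acc) => z.2.1 :: z.2.2.1 :=
    Primrec.list_cons.comp hF hs1
  have hstep : Primrec₂ fun (a : A) (z : Frame × Acc) =>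
      ((z.1 :: z.2.1, (z.2.2 <|> bif bad (V (p a)) (t a) z.1 then
      some (handle (i a) (N a) z.1 z.2.1) else none)) : Acc) := (Primrec.pair hcons hor).to₂
  have hfold := Primrec.list_foldr hL (Primrec.const (([], none) : Acc)) hstep
  refine (Primrec.snd.comp hfold).of_eq ?_
  intro a
  simp only [trim_eq]

theorem killStack_eq (h : Hist) (L : List Frame) :
    L.foldr (fun F (s : Acc) => ((F :: s.1, (s.2 <|> bif reach (h.drop F.c) F.e then
      some (mkF F.e F.c F.y F.comp true :: s.1) else none)) : Acc)) ([], none) =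
      (L, killStack h L) := by
  induction L with
  | nil => rfl
  | cons F L ih =>
    rw [List.foldr_cons, ih]
    have : killStack h (F :: L) = (killStack h L <|>
        bif reach (h.drop F.c) F.e then some (mkF F.e F.c F.y F.comp true :: L) else none) := by
      show (match killStack h L with
        | some L' => some L'
        | none => bif reach (h.drop F.c) F.e then some ((F.e, F.c, F.y, F.comp, true) :: L)
          else none) = _
      cases killStack h L <;> rfl
    rw [this]

theorem primrec_killStack {A : Type} [Primcodable A]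
    {h : A → Hist} {L : A → List Frame} (hh : Primrec h) (hL : Primrec L) :
    Primrec fun a => killStack (h a) (L a) := by
  have hF : Primrec fun z : A × (Frame × Acc) => z.2.1 := Primrec.fst.comp Primrec.snd
  have hs : Primrec fun z : A × (Frame × Acc) => z.2.2 := Primrec.snd.comp Primrec.snd
  have hs1 : Primrec fun z : A × (Frame × Acc) => z.2.2.1 := Primrec.fst.comp hs
  have hs2 : Primrec fun z : A × (Frame × Acc) => z.2.2.2 := Primrec.snd.comp hs
  have hdr : Primrec fun z : A × (Frame × Acc) => (h z.1).drop z.2.1.c :=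
    Primrec.list_drop.comp (primrec_c.comp hF) (hh.comp Primrec.fst)
  have hb : Primrec fun z : A × (Frame × Acc) => reach ((h z.1).drop z.2.1.c) z.2.1.e :=
    primrec_reach hdr (primrec_e.comp hF)
  have hm : Primrec fun z : A × (Frame × Acc) =>
      mkF z.2.1.e z.2.1.c z.2.1.y z.2.1.comp true :=
    primrec_mkF (primrec_e.comp hF) (primrec_c.comp hF) (primrec_y.comp hF)
      (primrec_comp.comp hF) (Primrec.const true)
  have ho : Primrec fun z : A × (Frame × Acc) =>
      some (mkF z.2.1.e z.2.1.c z.2.1.y z.2.1.comp true :: z.2.2.1) :=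
    Primrec.option_some.comp (Primrec.list_cons.comp hm hs1)
  have hn : Primrec fun _ : A × (Frame × Acc) => (none : Option (List Frame)) := Primrec.const none
  have hc : Primrec fun z : A × (Frame × Acc) => bif reach ((h z.1).drop z.2.1.c) z.2.1.e then
      some (mkF z.2.1.e z.2.1.c z.2.1.y z.2.1.comp true :: z.2.2.1) else none :=
    Primrec.cond hb ho hn
  have hor : Primrec fun z : A × (Frame × Acc) =>
      (z.2.2.2 <|> bif reach ((h z.1).drop z.2.1.c) z.2.1.e then
      some (mkF z.2.1.e z.2.1.c z.2.1.y z.2.1.comp true :: z.2.2.1) else none) :=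
    Primrec.option_orElse.comp hs2 hc
  have hcons : Primrec fun z : A × (Frame × Acc) => z.2.1 :: z.2.2.1 :=
    Primrec.list_cons.comp hF hs1
  have hstep : Primrec₂ fun (a : A) (z : Frame × Acc) =>
      ((z.1 :: z.2.1, (z.2.2 <|> bif reach ((h a).drop z.1.c) z.1.e then
      some (mkF z.1.e z.1.c z.1.y z.1.comp true :: z.2.1) else none)) : Acc) :=
    (Primrec.pair hcons hor).to₂
  have hfold := Primrec.list_foldr hL (Primrec.const (([], none) : Acc)) hstep
  refine (Primrec.snd.comp hfold).of_eq ?_
  intro a
  simp only [killStack_eq]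

theorem findc_eq (V : ℕ → ℕ → ℕ → Bool) (y t : ℕ) :
    findc V y t = ((List.range (t + 1)).filterMap fun k =>
      bif V y k t then some k else none).head? := by
  unfold findc
  generalize List.range (t + 1) = l
  induction l with
  | nil => rfl
  | cons a l ih =>
    by_cases h : V y a t = true
    · simp [h]
    · simp only [Bool.not_eq_true] at h
      simp [h, ih]

theorem primrec_findc {V : P → ℕ → ℕ → ℕ → Bool} (hV : PV V) {A : Type} [Primcodable A]
    {p : A → P} {y t : A → ℕ} (hp : Primrec p) (hy : Primrec y) (ht : Primrec t) :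
    Primrec fun a => findc (V (p a)) (y a) (t a) := by
  have hr : Primrec fun a => List.range (t a + 1) :=
    Primrec.list_range.comp (Primrec.succ.comp ht)
  have hv : Primrec fun z : A × ℕ => V (p z.1) (y z.1) z.2 (t z.1) :=
    hV.comp (hp.comp Primrec.fst) (hy.comp Primrec.fst) Primrec.snd (ht.comp Primrec.fst)
  have hg : Primrec₂ fun (a : A) (k : ℕ) => bif V (p a) (y a) k (t a) then some k else none :=
    (Primrec.cond hv (Primrec.option_some.comp Primrec.snd) (Primrec.const none)).to₂
  refine (Primrec.list_head?.comp (Primrec.listFilterMap hr hg)).of_eq ?_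
  intro a
  exact (findc_eq _ _ _).symm

theorem primrec_elim {A B C : Type} [Primcodable A] [Primcodable B] [Primcodable C]
    {o : A → Option B} {f : A → C} {g : A → B → C} (ho : Primrec o) (hf : Primrec f)
    (hg : Primrec₂ g) : Primrec fun a => (o a).elim (f a) (g a) :=
  (Primrec.option_casesOn ho hf hg).of_eq fun a => by cases o a <;> rfl

/-- opening a child frame or placing -/
def actNew (kk κ i t : ℕ) (S : St) (F : Frame) (r : ℕ) : St :=
  bif decide (S.1.length < kk) then
    (fresh (F.e + r + κ) S.2.length (i + 1) :: S.1, S.2)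
  else (S.1, S.2 ++ [(t, F.e + r + κ)])

theorem primrec_actNew {A : Type} [Primcodable A] {kk κ i t : A → ℕ} {S : A → St}
    {F : A → Frame} {r : A → ℕ} (hk : Primrec kk) (hκ : Primrec κ) (hi : Primrec i)
    (ht : Primrec t) (hS : Primrec S) (hF : Primrec F) (hr : Primrec r) :
    Primrec fun a => actNew (kk a) (κ a) (i a) (t a) (S a) (F a) (r a) := by
  unfold actNew
  have hS1 : Primrec fun a => (S a).1 := Primrec.fst.comp hS
  have hS2 : Primrec fun a => (S a).2 := Primrec.snd.comp hS
  have hlen : Primrec fun a => (S a).2.length := Primrec.list_length.comp hS2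
  have hsum : Primrec fun a => (F a).e + r a + κ a :=
    Primrec.nat_add.comp (Primrec.nat_add.comp (primrec_e.comp hF) hr) hκ
  have hd : Primrec fun a => decide ((S a).1.length < kk a) :=
    Primrec.nat_lt.decide.comp (Primrec.list_length.comp hS1) hk
  have h1 : Primrec fun a => (fresh ((F a).e + r a + κ a) (S a).2.length (i a + 1) :: (S a).1) :=
    Primrec.list_cons.comp (primrec_fresh hsum hlen (Primrec.succ.comp hi)) hS1
  have h2 : Primrec fun a => (((fresh ((F a).e + r a + κ a) (S a).2.length (i a + 1) :: (S a).1),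
      (S a).2) : St) := Primrec.pair h1 hS2
  have h3 : Primrec fun a => (S a).2 ++ [(t a, (F a).e + r a + κ a)] :=
    Primrec.list_concat.comp hS2 (Primrec.pair ht hsum)
  have h4 : Primrec fun a => (((S a).1, (S a).2 ++ [(t a, (F a).e + r a + κ a)]) : St) :=
    Primrec.pair hS1 h3
  exact Primrec.cond hd h2 h4

/-- the frame `F` at the head waits for a computation -/
def actFind (V : ℕ → ℕ → ℕ → Bool) (i t : ℕ) (S : St) (F : Frame) : St :=
  (findc V F.y t).elim S fun k =>
    (mkF F.e F.c F.y (some (i, k, S.2.length)) false :: S.1.tail, S.2)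

theorem primrec_actFind {V : P → ℕ → ℕ → ℕ → Bool} (hV : PV V) {A : Type} [Primcodable A]
    {p : A → P} {i t : A → ℕ} {S : A → St} {F : A → Frame} (hp : Primrec p) (hi : Primrec i)
    (ht : Primrec t) (hS : Primrec S) (hF : Primrec F) :
    Primrec fun a => actFind (V (p a)) (i a) (t a) (S a) (F a) := by
  unfold actFind
  have hS1 : Primrec fun a => (S a).1 := Primrec.fst.comp hS
  have hS2 : Primrec fun a => (S a).2 := Primrec.snd.comp hS
  have hlen : Primrec fun a => (S a).2.length := Primrec.list_length.comp hS2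
  have hF' : Primrec fun z : A × ℕ => F z.1 := hF.comp Primrec.fst
  have hso : Primrec fun z : A × ℕ => some (i z.1, z.2, (S z.1).2.length) :=
    Primrec.option_some.comp (Primrec.pair (hi.comp Primrec.fst)
      (Primrec.pair Primrec.snd (hlen.comp Primrec.fst)))
  have hm : Primrec fun z : A × ℕ =>
      mkF (F z.1).e (F z.1).c (F z.1).y (some (i z.1, z.2, (S z.1).2.length)) false :=
    primrec_mkF (primrec_e.comp hF') (primrec_c.comp hF') (primrec_y.comp hF') hso
      (Primrec.const false)
  have hg1 : Primrec fun z : A × ℕ =>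
      mkF (F z.1).e (F z.1).c (F z.1).y (some (i z.1, z.2, (S z.1).2.length)) false ::
        (S z.1).1.tail :=
    Primrec.list_cons.comp hm (Primrec.list_tail.comp (hS1.comp Primrec.fst))
  have hg : Primrec₂ fun (a : A) (k : ℕ) =>
      ((mkF (F a).e (F a).c (F a).y (some (i a, k, (S a).2.length)) false :: (S a).1.tail,
        (S a).2) : St) := (Primrec.pair hg1 (hS2.comp Primrec.fst)).to₂
  exact primrec_elim (primrec_findc hV hp (primrec_y.comp hF) ht) hS hg

/-- the frame `F` at the head has a computation, found in round `r` -/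
def actRun (kk κ i t : ℕ) (S : St) (F : Frame) (r : ℕ) : St :=
  (killStack S.2 S.1).elim (actNew kk κ i t S F r) fun st => (st, S.2)

theorem primrec_actRun {A : Type} [Primcodable A] {kk κ i t : A → ℕ} {S : A → St}
    {F : A → Frame} {r : A → ℕ} (hk : Primrec kk) (hκ : Primrec κ) (hi : Primrec i)
    (ht : Primrec t) (hS : Primrec S) (hF : Primrec F) (hr : Primrec r) :
    Primrec fun a => actRun (kk a) (κ a) (i a) (t a) (S a) (F a) (r a) := by
  unfold actRun
  have hg : Primrec₂ fun (a : A) (st : List Frame) => ((st, (S a).2) : St) :=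
    (Primrec.pair Primrec.snd ((Primrec.snd.comp hS).comp Primrec.fst)).to₂
  exact primrec_elim (primrec_killStack (Primrec.snd.comp hS) (Primrec.fst.comp hS))
    (primrec_actNew hk hκ hi ht hS hF hr) hg

/-- the action of a round without bad frames, for a stack with head `F` -/
def act (kk κ : ℕ) (V : ℕ → ℕ → ℕ → Bool) (i t : ℕ) (S : St) (F : Frame) : St :=
  bif F.killed then S else
    F.comp.elim (actFind V i t S F) fun x => actRun kk κ i t S F x.1

theorem primrec_act {V : P → ℕ → ℕ → ℕ → Bool} (hV : PV V) {A : Type} [Primcodable A]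
    {p : A → P} {kk κ i t : A → ℕ} {S : A → St} {F : A → Frame} (hp : Primrec p)
    (hk : Primrec kk) (hκ : Primrec κ) (hi : Primrec i) (ht : Primrec t) (hS : Primrec S)
    (hF : Primrec F) : Primrec fun a => act (kk a) (κ a) (V (p a)) (i a) (t a) (S a) (F a) := by
  unfold act
  have hg : Primrec₂ fun (a : A) (x : ℕ × ℕ × ℕ) =>
      actRun (kk a) (κ a) (i a) (t a) (S a) (F a) x.1 :=
    (primrec_actRun (hk.comp Primrec.fst) (hκ.comp Primrec.fst) (hi.comp Primrec.fst)
      (ht.comp Primrec.fst) (hS.comp Primrec.fst) (hF.comp Primrec.fst)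
      (Primrec.fst.comp Primrec.snd)).to₂
  exact Primrec.cond (primrec_killed.comp hF) hS
    (primrec_elim (primrec_comp.comp hF) (primrec_actFind hV hp hi ht hS hF) hg)

theorem step_eq (kk κ : ℕ) (V : ℕ → ℕ → ℕ → Bool) (i t : ℕ) (S : St) :
    step kk κ V i t S = (trim V i t S.2.length S.1).elim
      (S.1.head?.elim S fun F => act kk κ V i t S F) fun st => (st, S.2) := by
  obtain ⟨S1, S2⟩ := S
  unfold step
  cases trim V i t S2.length S1 with
  | some st => rfl
  | none =>
    rcases S1 with _ | ⟨F, L⟩
    · rfl
    · show (bif F.killed then _ else _) = (bif F.killed then _ else _)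
      cases F.killed
      · simp only [cond_false]
        unfold actFind actRun actNew mkF
        cases F.comp with
        | none => cases findc V F.y t <;> simp
        | some x => cases killStack S2 (F :: L) <;> simp
      · rfl

theorem primrec_step {V : P → ℕ → ℕ → ℕ → Bool} (hV : PV V) {kk κ : P → ℕ} (hk : Primrec kk)
    (hκ : Primrec κ) : Primrec fun x : P × ℕ × ℕ × St =>
      step (kk x.1) (κ x.1) (V x.1) x.2.1 x.2.2.1 x.2.2.2 := by
  have hp : Primrec fun x : P × ℕ × ℕ × St => x.1 := Primrec.fst
  have hi : Primrec fun x : P × ℕ × ℕ × St => x.2.1 := Primrec.fst.comp Primrec.snd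
  have ht : Primrec fun x : P × ℕ × ℕ × St => x.2.2.1 :=
    Primrec.fst.comp (Primrec.snd.comp Primrec.snd)
  have hS : Primrec fun x : P × ℕ × ℕ × St => x.2.2.2 :=
    Primrec.snd.comp (Primrec.snd.comp Primrec.snd)
  have hS1 : Primrec fun x : P × ℕ × ℕ × St => x.2.2.2.1 := Primrec.fst.comp hS
  have hS2 : Primrec fun x : P × ℕ × ℕ × St => x.2.2.2.2 := Primrec.snd.comp hS
  have h1 : Primrec fun x : P × ℕ × ℕ × St => trim (V x.1) x.2.1 x.2.2.1 x.2.2.2.2.length
      x.2.2.2.1 := primrec_trim hV hp hi ht (Primrec.list_length.comp hS2) hS1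
  have hact : Primrec₂ fun (x : P × ℕ × ℕ × St) (F : Frame) =>
      act (kk x.1) (κ x.1) (V x.1) x.2.1 x.2.2.1 x.2.2.2 F :=
    (primrec_act hV (hp.comp Primrec.fst) ((hk.comp hp).comp Primrec.fst)
      ((hκ.comp hp).comp Primrec.fst) (hi.comp Primrec.fst) (ht.comp Primrec.fst)
      (hS.comp Primrec.fst) Primrec.snd).to₂
  have h2 : Primrec fun x : P × ℕ × ℕ × St => x.2.2.2.1.head?.elim x.2.2.2 fun F =>
      act (kk x.1) (κ x.1) (V x.1) x.2.1 x.2.2.1 x.2.2.2 F :=
    primrec_elim (Primrec.list_head?.comp hS1) hS hact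
  have h3 : Primrec₂ fun (x : P × ℕ × ℕ × St) (st : List Frame) => ((st, x.2.2.2.2) : St) :=
    (Primrec.pair Primrec.snd (hS2.comp Primrec.fst)).to₂
  refine (primrec_elim h1 h2 h3).of_eq ?_
  intro x
  exact (step_eq _ _ _ _ _ _).symm

end AC
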