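import Pool.Agent.Hhelper54.AC.Br

/-!
# A universal oracle prefix-free machine, given by a computable monotone list of programs
-/

namespace AC

open Low4 Encodable Denumerable
open Nat.Partrec (Code)

namespace Uom

/-- the unary tag of the machine `e` put in front of the program `p` -/
def tag (e : ℕ) (p : List Bool) : List Bool := Nat.rec (true :: p) (fun _ l => false :: l) e

theorem tag_zero (p : List Bool) : tag 0 p = true :: p := rfl

theorem tag_succ (e : ℕ) (p : List Bool) : tag (e + 1) p = false :: tag e p := rfl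

theorem tag_length (e : ℕ) (p : List Bool) : (tag e p).length = p.length + (e + 1) := by
  induction e with
  | zero => simp [tag_zero]
  | succ e ih => rw [tag_succ, List.length_cons, ih]; omega

theorem tag_prefix {e e' : ℕ} {p p' : List Bool} (h : tag e p <+: tag e' p') : e = e' ∧ p <+: p' := by
  induction e generalizing e' with
  | zero =>
    cases e' with
    | zero => rw [tag_zero, tag_zero, List.cons_prefix_cons] at h; exact ⟨rfl, h.2⟩
    | succ e' => rw [tag_zero, tag_succ, List.cons_prefix_cons] at h; exact absurd h.1 (by simp)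
  | succ e ih =>
    cases e' with
    | zero => rw [tag_zero, tag_succ, List.cons_prefix_cons] at h; exact absurd h.1 (by simp)
    | succ e' =>
      rw [tag_succ, tag_succ, List.cons_prefix_cons] at h
      obtain ⟨h1, h2⟩ := ih h.2
      exact ⟨by rw [h1], h2⟩

theorem primrec_tag : Primrec₂ tag := by
  unfold tag
  refine Primrec.nat_rec' (f := fun x : ℕ × List Bool => x.1) (g := fun x => true :: x.2)
    (h := fun (_ : ℕ × List Bool) (q : ℕ × List Bool) => false :: q.2) Primrec.fst ?_ ?_
  · exact Primrec.list_cons.comp (Primrec.const true) Primrec.snd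
  · exact (Primrec.list_cons.comp (Primrec.const false) (Primrec.snd.comp Primrec.snd)).to₂

/-- is the request `a` confirmed by the code `e` with witness `w`? -/
def conf (σ : List Bool) (e w : ℕ) (a : List Bool × ℕ) : Bool :=
  decide (Code.evaln w.unpair.1 (ofNat Code e) (encode (σ.take w.unpair.2, a, w.unpair.2)) = some 1)

theorem primrec_conf : Primrec fun x : List Bool × (ℕ × ℕ) × (List Bool × ℕ) =>
    conf x.1 x.2.1.1 x.2.1.2 x.2.2 := by
  unfold conf
  have hw : Primrec fun x : List Bool × (ℕ × ℕ) × (List Bool × ℕ) => x.2.1.2.unpair :=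
    Primrec.unpair.comp (Primrec.snd.comp (Primrec.fst.comp Primrec.snd))
  have he : Primrec fun x : List Bool × (ℕ × ℕ) × (List Bool × ℕ) => ofNat Code x.2.1.1 :=
    (Primrec.ofNat Code).comp (Primrec.fst.comp (Primrec.fst.comp Primrec.snd))
  have ha : Primrec fun x : List Bool × (ℕ × ℕ) × (List Bool × ℕ) =>
      encode (x.1.take x.2.1.2.unpair.2, x.2.2, x.2.1.2.unpair.2) := by
    refine Primrec.encode.comp (Primrec.pair ?_ (Primrec.pair (Primrec.snd.comp Primrec.snd)
      (Primrec.snd.comp hw)))
    exact Primrec.list_take.comp (Primrec.snd.comp hw) Primrec.fst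
  exact (Primrec.eq (α := Option ℕ)).decide.comp (Code.primrec_evaln.comp
    (Primrec.pair (Primrec.pair (Primrec.fst.comp hw) he) ha)) (Primrec.const _)

section

attribute [local irreducible] conf tag

/-- the candidate of stage `s` -/
def cnd (σ : List Bool) (s : ℕ) : Option (List Bool × ℕ) :=
  (decode (α := List Bool × ℕ) s.unpair.2.unpair.1).bind fun a =>
    cond (conf σ s.unpair.1 s.unpair.2.unpair.2 a) (some (tag s.unpair.1 a.1, a.2)) none

theorem primrec_cnd : Primrec₂ cnd := by
  unfold cnd
  refine Primrec.option_bind (f := fun x : List Bool × ℕ =>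
      decode (α := List Bool × ℕ) x.2.unpair.2.unpair.1)
    (g := fun (x : List Bool × ℕ) (a : List Bool × ℕ) =>
      cond (conf x.1 x.2.unpair.1 x.2.unpair.2.unpair.2 a) (some (tag x.2.unpair.1 a.1, a.2)) none)
    ?_ ?_
  · exact Primrec.decode.comp (Primrec.fst.comp (Primrec.unpair.comp (Primrec.snd.comp
      (Primrec.unpair.comp Primrec.snd))))
  · have h1 : Primrec fun y : (List Bool × ℕ) × (List Bool × ℕ) => y.1.2.unpair :=
      Primrec.unpair.comp (Primrec.snd.comp Primrec.fst)
    have h2 : Primrec fun y : (List Bool × ℕ) × (List Bool × ℕ) => y.1.2.unpair.2.unpair.2 :=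
      Primrec.snd.comp (Primrec.unpair.comp (Primrec.snd.comp h1))
    have h3 : Primrec fun y : (List Bool × ℕ) × (List Bool × ℕ) =>
        conf y.1.1 y.1.2.unpair.1 y.1.2.unpair.2.unpair.2 y.2 :=
      primrec_conf.comp (Primrec.pair (Primrec.fst.comp Primrec.fst)
        (Primrec.pair (Primrec.pair (Primrec.fst.comp h1) h2) Primrec.snd))
    have h4 : Primrec fun y : (List Bool × ℕ) × (List Bool × ℕ) =>
        (some (tag y.1.2.unpair.1 y.2.1, y.2.2) : Option (List Bool × ℕ)) :=
      Primrec.option_some.comp (Primrec.pair (primrec_tag.comp (Primrec.fst.comp h1)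
        (Primrec.fst.comp Primrec.snd)) (Primrec.snd.comp Primrec.snd))
    exact (Primrec.cond h3 h4 (Primrec.const none)).to₂

end

/-- compatibility of strings -/
def cmp (ρ ρ' : List Bool) : Bool := decide (ρ.take ρ'.length = ρ'.take ρ.length)

theorem cmp_iff {ρ ρ' : List Bool} : cmp ρ ρ' = true ↔ ρ <+: ρ' ∨ ρ' <+: ρ := by
  unfold cmp
  rw [decide_eq_true_iff]
  constructor
  · intro h
    rcases le_total ρ.length ρ'.length with h1 | h1
    · left
      rw [List.take_of_length_le h1] at h
      rw [h]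
      exact List.take_prefix _ _
    · right
      rw [List.take_of_length_le h1] at h
      rw [← h]
      exact List.take_prefix _ _
  · rintro (⟨t, rfl⟩ | ⟨t, rfl⟩)
    · rw [List.take_of_length_le (by simp)]
      simp
    · rw [List.take_of_length_le (l := ρ') (by simp)]
      simp

theorem primrec_cmp : Primrec₂ cmp := by
  unfold cmp
  exact (Primrec.eq (α := List Bool)).decide.comp
    (Primrec.list_take.comp (Primrec.list_length.comp Primrec.snd) Primrec.fst)
    (Primrec.list_take.comp (Primrec.list_length.comp Primrec.fst) Primrec.snd)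

/-- is `ρ` compatible with a program of the list? -/
def clash (L : List (List Bool × ℕ)) (ρ : List Bool) : Bool :=
  decide (0 < (L.filterMap fun a => cond (cmp a.1 ρ) (some a) none).length)

theorem clash_iff {L : List (List Bool × ℕ)} {ρ : List Bool} :
    clash L ρ = true ↔ ∃ a ∈ L, cmp a.1 ρ = true := by
  unfold clash
  rw [decide_eq_true_iff, List.length_pos_iff_exists_mem]
  constructor
  · rintro ⟨b, hb⟩
    obtain ⟨a, ha, h⟩ := List.mem_filterMap.1 hb
    refine ⟨a, ha, ?_⟩
    cases h1 : cmp a.1 ρ with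
    | true => rfl
    | false => rw [h1] at h; simp at h
  · rintro ⟨a, ha, h⟩
    exact ⟨a, List.mem_filterMap.2 ⟨a, ha, by rw [h]; rfl⟩⟩

theorem primrec_clash : Primrec₂ clash := by
  unfold clash
  refine Primrec.nat_lt.decide.comp (Primrec.const 0) (Primrec.list_length.comp ?_)
  refine Primrec.listFilterMap (f := fun x : List (List Bool × ℕ) × List Bool => x.1)
    (g := fun x a => cond (cmp a.1 x.2) (some a) none) Primrec.fst ?_
  exact (Primrec.cond (primrec_cmp.comp (Primrec.fst.comp Primrec.snd)
    (Primrec.snd.comp Primrec.fst)) (Primrec.option_some.comp Primrec.snd) (Primrec.const none)).to₂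

section

attribute [local irreducible] cnd clash

/-- one stage -/
def step (σ : List Bool) (s : ℕ) (L : List (List Bool × ℕ)) : List (List Bool × ℕ) :=
  ((cnd σ s).map fun a => cond (clash L a.1) L (L ++ [a])).getD L

/-- the list after `n` stages -/
def run (σ : List Bool) (n : ℕ) : List (List Bool × ℕ) := Nat.rec [] (fun s L => step σ s L) n

theorem run_succ (σ : List Bool) (n : ℕ) : run σ (n + 1) = step σ n (run σ n) := rfl

theorem primrec_run : Primrec₂ run := by
  unfold run step
  refine Primrec.nat_rec' (f := fun x : List Bool × ℕ => x.2) (g := fun _ => [])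
    (h := fun (x : List Bool × ℕ) (q : ℕ × List (List Bool × ℕ)) =>
      ((cnd x.1 q.1).map fun a => cond (clash q.2 a.1) q.2 (q.2 ++ [a])).getD q.2)
    Primrec.snd (Primrec.const _) ?_
  refine Primrec.option_getD.comp (Primrec.option_map (f := fun y : (List Bool × ℕ) ×
      (ℕ × List (List Bool × ℕ)) => cnd y.1.1 y.2.1)
    (g := fun y a => cond (clash y.2.2 a.1) y.2.2 (y.2.2 ++ [a])) ?_ ?_) (Primrec.snd.comp Primrec.snd)
  · exact primrec_cnd.comp (Primrec.fst.comp Primrec.fst) (Primrec.fst.comp Primrec.snd)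
  · have hL : Primrec fun z : ((List Bool × ℕ) × (ℕ × List (List Bool × ℕ))) × (List Bool × ℕ) =>
        z.1.2.2 := Primrec.snd.comp (Primrec.snd.comp Primrec.fst)
    have h3 : Primrec fun z : ((List Bool × ℕ) × (ℕ × List (List Bool × ℕ))) × (List Bool × ℕ) =>
        z.1.2.2 ++ [z.2] :=
      Primrec.list_append.comp hL (Primrec.list_cons.comp Primrec.snd (Primrec.const []))
    exact (Primrec.cond (primrec_clash.comp hL (Primrec.fst.comp Primrec.snd)) hL h3).to₂

end

theorem step_cases (σ : List Bool) (s : ℕ) (L : List (List Bool × ℕ)) :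
    step σ s L = L ∨ ∃ a, cnd σ s = some a ∧ clash L a.1 = false ∧ step σ s L = L ++ [a] := by
  unfold step
  rcases h : cnd σ s with _ | a
  · left; rfl
  · cases h1 : clash L a.1 with
    | true => left; simp [h1]
    | false => right; exact ⟨a, rfl, h1, by simp [h1]⟩

theorem mem_run {σ : List Bool} {n : ℕ} {a : List Bool × ℕ} (h : a ∈ run σ n) :
    ∃ s < n, cnd σ s = some a := by
  induction n with
  | zero => simp [run] at h
  | succ n ih =>
    rw [run_succ] at h
    rcases step_cases σ n (run σ n) with h1 | ⟨b, h1, -, h2⟩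
    · rw [h1] at h
      obtain ⟨s, hs, h3⟩ := ih h
      exact ⟨s, Nat.lt_succ_of_lt hs, h3⟩
    · rw [h2, List.mem_append, List.mem_singleton] at h
      rcases h with h | rfl
      · obtain ⟨s, hs, h3⟩ := ih h
        exact ⟨s, Nat.lt_succ_of_lt hs, h3⟩
      · exact ⟨n, Nat.lt_succ_self n, h1⟩

theorem run_le (σ : List Bool) {n m : ℕ} (h : n ≤ m) : run σ n <+: run σ m := by
  induction m, h using Nat.le_induction with
  | base => exact List.prefix_rfl
  | succ m _ ih =>
    refine ih.trans ?_
    rw [run_succ]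
    rcases step_cases σ m (run σ m) with h1 | ⟨b, -, -, h2⟩
    · rw [h1]
    · rw [h2]; exact List.prefix_append _ _

theorem unp_le (s : ℕ) : s.unpair.2.unpair.2.unpair.2 ≤ s :=
  (Nat.unpair_right_le _).trans ((Nat.unpair_right_le _).trans (Nat.unpair_right_le _))

theorem cnd_ext {σ τ : List Bool} (h : σ <+: τ) {s : ℕ} (hs : s ≤ σ.length) : cnd τ s = cnd σ s := by
  obtain ⟨ρ, rfl⟩ := h
  unfold cnd conf
  rw [List.take_append_of_le_length ((unp_le s).trans hs)]

theorem run_ext {σ τ : List Bool} (h : σ <+: τ) {n : ℕ} (hn : n ≤ σ.length) : run τ n = run σ n := by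
  induction n with
  | zero => rfl
  | succ n ih =>
    rw [run_succ, run_succ, ih (by omega)]
    unfold step
    rw [cnd_ext h (by omega)]

/-- incompatible programs -/
def Inc (a b : List Bool × ℕ) : Prop := ¬ a.1 <+: b.1 ∧ ¬ b.1 <+: a.1

theorem run_free (σ : List Bool) (n : ℕ) : (run σ n).Pairwise Inc := by
  induction n with
  | zero => exact List.Pairwise.nil
  | succ n ih =>
    rw [run_succ]
    rcases step_cases σ n (run σ n) with h1 | ⟨b, -, h1, h2⟩
    · rw [h1]; exact ih
    · rw [h2, List.pairwise_append]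
      refine ⟨ih, List.pairwise_singleton _ _, ?_⟩
      intro a ha c hc
      rw [List.mem_singleton] at hc
      subst hc
      have h3 : ¬ cmp a.1 c.1 = true := fun h => by
        rw [clash_iff.2 ⟨a, ha, h⟩] at h1
        exact absurd h1 (by simp)
      rw [cmp_iff, not_or] at h3
      exact h3

end Uom

open Uom in
/-- the list of pairs (program, output) of the universal machine with oracle string `σ` -/
def UL (σ : List Bool) : List (List Bool × ℕ) := run σ σ.length

open Uom in
theorem computable_UL : Computable UL :=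
  (primrec_run.comp Primrec.id Primrec.list_length).to_comp

open Uom in
theorem UL_mono {σ τ : List Bool} (h : σ <+: τ) : UL σ <+: UL τ := by
  unfold UL
  rw [← run_ext h le_rfl]
  exact run_le τ h.length_le

open Uom in
theorem UL_free (σ : List Bool) :
    (UL σ).Pairwise fun a b => ¬ a.1 <+: b.1 ∧ ¬ b.1 <+: a.1 := run_free σ _

/-- the universal machine -/
noncomputable def Uo (B : Set ℕ) : List Bool →. ℕ := partOf fun ρ x => ∃ s, (ρ, x) ∈ UL (pre B s)

namespace Uom

theorem UL_inc {σ : List Bool} {a b : List Bool × ℕ} (ha : a ∈ UL σ) (hb : b ∈ UL σ)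
    (hab : a.1 <+: b.1) : a = b := by
  by_contra hne
  have hsymm : Std.Symm Inc := ⟨fun x y h => ⟨h.2, h.1⟩⟩
  exact ((run_free σ _).forall ha hb hne).1 hab

theorem mem_UL_le {B : Set ℕ} {s t : ℕ} (h : s ≤ t) {a : List Bool × ℕ} (ha : a ∈ UL (pre B s)) :
    a ∈ UL (pre B t) := (UL_mono (pre_le B h)).subset ha

theorem UoG_unique {B : Set ℕ} (ρ : List Bool) (x y : ℕ) (hx : ∃ s, (ρ, x) ∈ UL (pre B s))
    (hy : ∃ s, (ρ, y) ∈ UL (pre B s)) : x = y := by
  obtain ⟨s, hs⟩ := hx
  obtain ⟨t, ht⟩ := hy
  exact congrArg Prod.snd (UL_inc (mem_UL_le (le_max_left s t) hs)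
    (mem_UL_le (le_max_right s t) ht) List.prefix_rfl)

end Uom

open Uom in
theorem mem_Uo {B : Set ℕ} {ρ : List Bool} {x : ℕ} :
    x ∈ Uo B ρ ↔ ∃ s, (ρ, x) ∈ UL (pre B s) := mem_partOf UoG_unique

namespace Uom

section

attribute [local irreducible] UL

theorem ce_UoG (B : Set ℕ) : CE B fun p : List Bool × ℕ => ∃ s, (p.1, p.2) ∈ UL (pre B s) := by
  refine CE.mk' (W := fun σ p => p ∈ UL σ) ?_ fun p => Iff.rfl
  have h1 : Computable fun y : (List Bool × (List Bool × ℕ)) × ℕ =>
      decide ((UL y.1.1)[y.2]? = some y.1.2) := by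
    have heq : Computable fun q : Option (List Bool × ℕ) × Option (List Bool × ℕ) =>
        decide (q.1 = q.2) := (Primrec.eq (α := Option (List Bool × ℕ))).decide.to_comp
    exact heq.comp (Computable.pair (Computable.list_getElem?.comp
      (computable_UL.comp (Computable.fst.comp Computable.fst)) Computable.snd)
      (Computable.option_some.comp (Computable.snd.comp Computable.fst)))
  refine (Sig1.ex_nat (p := fun (x : List Bool × (List Bool × ℕ)) (i : ℕ) =>
    decide ((UL x.1)[i]? = some x.2) = true) (Sig1.of_computable h1)).of_eq fun x => ?_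
  rw [List.mem_iff_getElem?]
  simp

end

theorem isMachine_Uo (B : Set ℕ) : IsMachine B (Uo B) := by
  refine ⟨recursiveIn_of_ce (ce_UoG B) UoG_unique, ?_⟩
  intro σ τ hσ hτ hpre
  obtain ⟨x, hx⟩ := Part.dom_iff_mem.1 hσ
  obtain ⟨y, hy⟩ := Part.dom_iff_mem.1 hτ
  obtain ⟨s, hs⟩ := mem_Uo.1 hx
  obtain ⟨t, ht⟩ := mem_Uo.1 hy
  exact congrArg Prod.fst (UL_inc (mem_UL_le (le_max_left s t) hs)
    (mem_UL_le (le_max_right s t) ht) hpre)

/-- a code for a computable predicate -/
theorem exists_code_of {α : Type} [Primcodable α] {R : α → Bool} (hR : Computable R) :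
    ∃ c : Code, ∀ a, 1 ∈ Code.eval c (encode a) ↔ R a = true := by
  obtain ⟨c, hc⟩ := Code.exists_code.1 hR
  refine ⟨c, fun a => ?_⟩
  rw [hc]
  simp only [Encodable.encodek, Part.coe_some, Part.bind_some]
  cases h : R a <;> simp [PFun.coe_val, h]

theorem simulates_Uo (B : Set ℕ) (M : List Bool →. ℕ) (hM : IsMachine B M) :
    ∃ c : ℕ, ∀ σ x, x ∈ M σ → ∃ τ, x ∈ Uo B τ ∧ τ.length ≤ σ.length + c := by
  obtain ⟨R, hR, hR2⟩ := ce_bounded (ce_graph (α := List Bool) (β := ℕ) hM.recursive)
  obtain ⟨c, hc⟩ := exists_code_of hR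
  -- a confirmed request is in the graph of `M`
  have hconf : ∀ n w a, w.unpair.2 ≤ n → conf (pre B n) (encode c) w a = true → a.2 ∈ M a.1 := by
    intro n w a hw h
    unfold conf at h
    rw [decide_eq_true_iff, pre_take B _ _ hw, ofNat_encode] at h
    exact (hR2 a).2 ⟨_, (hc _).1 (Code.evaln_sound h)⟩
  refine ⟨encode c + 1, fun σ x hx => ⟨tag (encode c) σ, ?_, (tag_length _ _).le⟩⟩
  obtain ⟨k, hk⟩ := (hR2 (σ, x)).1 hx
  obtain ⟨t, ht⟩ := Code.evaln_complete.1 ((hc _).2 hk)
  set w := Nat.pair t k with hw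
  set s := Nat.pair (encode c) (Nat.pair (encode (σ, x)) w) with hs
  have hws : w.unpair.2 ≤ s + 1 := by
    have h1 := unp_le s
    have h2 : s.unpair.2.unpair.2 = w := by rw [hs, Nat.unpair_pair, Nat.unpair_pair]
    rw [h2] at h1
    omega
  have hcnd : cnd (pre B (s + 1)) s = some (tag (encode c) σ, x) := by
    unfold cnd
    have h1 : s.unpair.1 = encode c := by rw [hs, Nat.unpair_pair]
    have h2 : s.unpair.2.unpair.2 = w := by rw [hs, Nat.unpair_pair, Nat.unpair_pair]
    have h3 : s.unpair.2.unpair.1 = encode (σ, x) := by rw [hs, Nat.unpair_pair, Nat.unpair_pair]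
    rw [h1, h2, h3, encodek, Option.bind_some]
    have h4 : conf (pre B (s + 1)) (encode c) w (σ, x) = true := by
      unfold conf
      rw [decide_eq_true_iff, pre_take B _ _ hws, ofNat_encode, hw, Nat.unpair_pair]
      exact ht
    rw [h4]
    rfl
  rw [mem_Uo]
  refine ⟨s + 1, ?_⟩
  unfold UL
  rw [pre_length, run_succ]
  unfold step
  rw [hcnd, Option.map_some, Option.getD_some]
  cases h1 : clash (run (pre B (s + 1)) s) (tag (encode c) σ) with
  | false => simp
  | true =>
    rw [cond_true]
    obtain ⟨a, ha, h2⟩ := clash_iff.1 h1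
    obtain ⟨s', hs', h3⟩ := mem_run ha
    unfold cnd at h3
    rw [Option.bind_eq_some_iff] at h3
    obtain ⟨b, -, h4⟩ := h3
    cases h5 : conf (pre B (s + 1)) s'.unpair.1 s'.unpair.2.unpair.2 b with
    | false => rw [h5] at h4; simp at h4
    | true =>
      rw [h5, cond_true, Option.some.injEq] at h4
      have h6 : s'.unpair.1 = encode c ∧ (b.1 <+: σ ∨ σ <+: b.1) := by
        rw [← h4] at h2
        rcases cmp_iff.1 h2 with h | h
        · exact ⟨(tag_prefix h).1, Or.inl (tag_prefix h).2⟩
        · exact ⟨(tag_prefix h).1.symm, Or.inr (tag_prefix h).2⟩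
      have h7 : b.2 ∈ M b.1 := by
        refine hconf (s + 1) _ b ?_ (by rw [← h6.1]; exact h5)
        have := unp_le s'
        omega
      have h8 : b.1 = σ := by
        rcases h6.2 with h | h
        · exact hM.prefixFree _ _ (Part.dom_iff_mem.2 ⟨_, h7⟩) (Part.dom_iff_mem.2 ⟨_, hx⟩) h
        · exact (hM.prefixFree _ _ (Part.dom_iff_mem.2 ⟨_, hx⟩) (Part.dom_iff_mem.2 ⟨_, h7⟩) h).symm
      have h9 : b.2 = x := by
        rw [h8] at h7
        exact Part.mem_unique h7 hx
      rw [h6.1, h8, h9] at h4
      rw [h4]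
      exact ha

end Uom

open Uom in
theorem isOptimal_Uo (B : Set ℕ) : IsOptimal B (Uo B) := ⟨isMachine_Uo B, simulates_Uo B⟩

end AC
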